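import Pool.Agent.Run7.h960.AlgoB

set_option autoImplicit false

/-!
# The length of the pad is primitive recursive
-/

namespace Run7.h960

section

variable {α : Type} [Primcodable α] {f g : α → ℕ}

theorem pr_add (hf : Primrec f) (hg : Primrec g) : Primrec fun a => f a + g a :=
  Primrec.nat_add.comp hf hg

theorem pr_mul (hf : Primrec f) (hg : Primrec g) : Primrec fun a => f a * g a :=
  Primrec.nat_mul.comp hf hg

theorem pr_pow (hf : Primrec f) (hg : Primrec g) : Primrec fun a => f a ^ g a := by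
  have hpow : Primrec₂ (fun a b : ℕ => a ^ b) := Primrec₂.unpaired'.1 Nat.Primrec.pow
  exact hpow.comp hf hg

theorem pr_cM (hf : Primrec f) : Primrec fun a => cM (f a) :=
  pr_pow (Primrec.const 2) (pr_pow (pr_add hf (Primrec.const 4)) (Primrec.const 3))

theorem pr_cL (hf : Primrec f) : Primrec fun a => cL (f a) :=
  pr_pow (Primrec.const 2) (pr_pow (pr_add hf (Primrec.const 7)) (Primrec.const 5))

theorem pr_cS (hf : Primrec f) : Primrec fun a => cS (f a) :=
  pr_pow (pr_add hf (Primrec.const 4)) (Primrec.const 5)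

theorem pr_cw (hf : Primrec f) : Primrec fun a => cw (f a) :=
  pr_mul (Primrec.const 2) (pr_pow (pr_cM hf) (Primrec.const 2))

theorem pr_cW (hf : Primrec f) : Primrec fun a => cW (f a) :=
  pr_add (pr_mul (Primrec.const 2) (pr_cw (pr_add hf (Primrec.const 1)))) (Primrec.const 1)

theorem pr_cSing (hf : Primrec f) (hg : Primrec g) : Primrec fun a => cSing (f a) (g a) :=
  pr_mul (pr_pow (Primrec.const 2) hf) (pr_mul (pr_add (pr_mul (Primrec.const 2) hf)
    (Primrec.const 4)) (pr_add (pr_mul hg (pr_cM hg)) (Primrec.const 1)))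

theorem pr_hNext (hf : Primrec f) (hg : Primrec g) : Primrec fun a => hNext (f a) (g a) :=
  pr_add (pr_add (pr_mul (pr_cS (pr_add hf (Primrec.const 1))) (pr_add hg (Primrec.const 2))) hg)
    (Primrec.const 4)

theorem pr_dSeq : Primrec₂ dSeq := by
  have h := Primrec.nat_rec (f := fun d : ℕ => d + 1)
    (g := fun (d : ℕ) (p : ℕ × ℕ) => p.2 * (cW d + 1 + cSing d p.2)) Primrec.succ
    (by
      have h1 : Primrec fun q : ℕ × (ℕ × ℕ) => q.1 := Primrec.fst
      have h2 : Primrec fun q : ℕ × (ℕ × ℕ) => q.2.2 := Primrec.snd.comp Primrec.snd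
      exact pr_mul h2 (pr_add (pr_add (pr_cW h1) (Primrec.const 1)) (pr_cSing h1 h2)))
  refine h.of_eq fun d k => ?_
  induction k with
  | zero => rfl
  | succ k ih => rw [dSeq, ← ih]

theorem pr_hSeq : Primrec₂ hSeq := by
  have h := Primrec.nat_rec (f := fun _ : ℕ => 3)
    (g := fun (d : ℕ) (p : ℕ × ℕ) => hNext d p.2) (Primrec.const 3)
    (by
      have h1 : Primrec fun q : ℕ × (ℕ × ℕ) => q.1 := Primrec.fst
      have h2 : Primrec fun q : ℕ × (ℕ × ℕ) => q.2.2 := Primrec.snd.comp Primrec.snd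
      exact pr_hNext h1 h2)
  refine h.of_eq fun d k => ?_
  induction k with
  | zero => rfl
  | succ k ih => rw [hSeq, ← ih]

theorem pr_lSeq : Primrec₂ lSeq := by
  have h := Primrec.nat_rec (f := fun _ : ℕ => 1)
    (g := fun (d : ℕ) (p : ℕ × ℕ) => p.2 * cL (dSeq d p.1)) (Primrec.const 1)
    (by
      have h1 : Primrec fun q : ℕ × (ℕ × ℕ) => q.1 := Primrec.fst
      have h3 : Primrec fun q : ℕ × (ℕ × ℕ) => q.2.1 := Primrec.fst.comp Primrec.snd
      have h2 : Primrec fun q : ℕ × (ℕ × ℕ) => q.2.2 := Primrec.snd.comp Primrec.snd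
      exact pr_mul h2 (pr_cL (pr_dSeq.comp h1 h3)))
  refine h.of_eq fun d k => ?_
  induction k with
  | zero => rfl
  | succ k ih => rw [lSeq, ← ih]

theorem pr_padF : Primrec padF := by
  have hd : Primrec fun d : ℕ => d := Primrec.id
  have h1 : Primrec fun d : ℕ => d + 1 := Primrec.succ
  have hr : Primrec rnds := pr_add (pr_pow (pr_cW hd) hd) (Primrec.const 1)
  have hD : Primrec fun d => dSeq d (rnds d) := pr_dSeq.comp hd hr
  have hH : Primrec fun d => hSeq d (rnds d) := pr_hSeq.comp hd hr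
  have hL : Primrec fun d => lSeq d (rnds d) := pr_lSeq.comp hd hr
  have c := fun n : ℕ => (Primrec.const n : Primrec fun _ : ℕ => n)
  exact pr_add (pr_add (pr_add (pr_add (pr_add (pr_add (pr_add (pr_add (pr_add (pr_add (pr_add
    (pr_cL h1) (pr_cL hD)) (pr_cw h1)) (pr_cw hD)) (pr_cSing hd hD)) hD) hL)
    (pr_mul (pr_cS h1) (pr_add hH (c 2)))) (pr_mul (c 4) hH)) (pr_mul (c 4) hd)) (c 100)) hr

end

end Run7.h960
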