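import Pool.Agent.Run7.h960.AlgoC
import Pool.Agent.Run7.h960.AlgoP

set_option autoImplicit false

/-!
# Correctness of the algorithm
-/

namespace Run7.h960

open Pool.Agent.NPC
open Pool.Agent.H687R2.LLL (dot nrm lllStep cnt fsts gsr nrm_lt nrm_cons nrm_nil)

variable {I : Inst}

/-- the invariant of the main loop -/
structure MInv (I : Inst) (k : ℕ) (st : Bool × List Node) : Prop where
  sound : st.1 = true → Decomposable I
  compl : Decomposable I → st.1 = true ∨ ∃ N ∈ st.2, NodeSol I.2.length (allRows I) I.2 N
  good : ∀ N ∈ st.2, Good I.2.length k (sz I) N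
  len : st.2.length ≤ lSeq I.2.length k

theorem sz_a_le (I : Inst) : sz I.2 + 2 ≤ sz I := by
  obtain ⟨r, a⟩ := I
  rw [sz_pair]
  have := sz_pos r
  simp only
  omega

theorem initial (h0 : ∀ x ∈ I.2, 0 ≤ x) :
    MInv I 0 (false, [([stdBox (I.2.map Int.toNat)], [])]) := by
  refine ⟨by simp, fun h => Or.inr ⟨([T0 I], []), by simp [T0], nodeSol_of_decomposable h⟩, ?_,
    by simp [lSeq]⟩
  intro N hN
  simp only [List.mem_singleton] at hN
  subst hN
  have hbns : bns (T0 I) = I.2.map Int.toNat := bns_stdBox _
  refine ⟨?_, ?_, ?_⟩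
  · intro t ht
    simp only [nbs, List.append_nil, List.mem_singleton] at ht
    subst ht
    refine ⟨T0_wf, le_of_eq T0_len, ?_⟩
    rw [ext_stdBox]
    have key : ∀ l : List ℤ, ((l.map Int.toNat).map fun m => 2 * (m + 1)).sum ≤
        2 * nrm l + 2 * l.length := by
      intro l
      induction l with
      | nil => simp
      | cons x l ih =>
        simp only [List.map_cons, List.sum_cons, nrm_cons, List.length_cons] at ih ⊢
        have : x.toNat ≤ x.natAbs := by omega
        omega
    refine (key I.2).trans ?_
    have h1 := nrm_lt I.2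
    have h2 := length_lt_sz I.2
    have h3 : sz I.2 < 2 ^ sz I.2 := Nat.lt_two_pow_self
    have h4 : 2 ^ (sz I.2 + 2) = 4 * 2 ^ sz I.2 := by rw [pow_add]; ring
    have h5 : 2 ^ (sz I.2 + 2) ≤ 2 ^ (hSeq I.2.length 0 * sz I) :=
      Nat.pow_le_pow_right (by norm_num) (by rw [hSeq]; have := sz_a_le I; omega)
    omega
  · rw [ndim_eq]
    simp only [wdim, List.map_cons, List.map_nil, List.sum_cons, List.sum_nil, dSeq]
    have : (stdBox (I.2.map Int.toNat)).2.length = I.2.length := T0_len
    omega
  · simp only [meas, List.map_cons, List.map_nil, List.sum_cons, List.sum_nil]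
    have : (stdBox (I.2.map Int.toNat)).2.length = I.2.length := T0_len
    split_ifs
    · omega
    · rw [this]; omega

theorem sz_state_le {P d k : ℕ} {st : Bool × List Node} (hp : PadOK P d k) (hL : 1 ≤ sz I)
    (hgood : ∀ N ∈ st.2, Good d k (sz I) N) (hlen : st.2.length ≤ lSeq d k) :
    sz st ≤ (P * sz I) ^ 8 := by
  have hP100 : 100 ≤ P := by have := hp.p10; omega
  refine le_trans ?_ (big_bound hP100 hL)
  rw [show sz st = sz st.1 + sz st.2 + 1 from sz_pair _ _]
  have h1 := sz_bool_le st.1
  have h2 := sz_le_length_mul st.2 (4 * (P ^ 4 * sz I)) fun N hN => (hgood N hN).sz_le hp hL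
  have h3 : st.2.length ≤ P := hlen.trans hp.p7
  have e1 : st.2.length * (4 * (P ^ 4 * sz I) + 1) ≤ P * (5 * (P ^ 4 * sz I)) := by
    refine Nat.mul_le_mul h3 ?_
    have : 1 ≤ P ^ 4 * sz I := Nat.mul_pos (by positivity) hL
    omega
  have e2 : P * (5 * (P ^ 4 * sz I)) = 5 * (P ^ 5 * sz I) := by ring
  have e3 : 100 * (P ^ 5 * sz I) ≤ P ^ 6 * sz I := by
    calc 100 * (P ^ 5 * sz I) ≤ P * (P ^ 5 * sz I) := Nat.mul_le_mul_right _ hP100
      _ = P ^ 6 * sz I := by ring
  have e4 : 1 ≤ P ^ 5 * sz I := Nat.mul_pos (by positivity) hL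
  omega

theorem flatMap_len_le {α β : Type*} (f : α → List β) (hf : ∀ o, (f o).length ≤ 1) (l : List α) :
    (l.flatMap f).length ≤ l.length := by
  induction l with
  | nil => simp
  | cons o l ih =>
    have := hf o
    rw [List.flatMap_cons, List.length_append, List.length_cons]
    omega

theorem step {P k : ℕ} (hP : padF I.2.length ≤ P) {st : Bool × List Node}
    (h : MInv I k st) : MInv I (k + 1) (round P I.2.length ((P * sz I) ^ 8) (allRows I) I.2
      (2 ^ (P ^ 2 * sz I)) (2 ^ (P * sz I)) st) ∧
    sz (round P I.2.length ((P * sz I) ^ 8) (allRows I) I.2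
      (2 ^ (P ^ 2 * sz I)) (2 ^ (P * sz I)) st) ≤ (P * sz I) ^ 8 := by
  have hL : 1 ≤ sz I := sz_pos I
  set B := (P * sz I) ^ 8 with hB
  set R1 := 2 ^ (P ^ 2 * sz I) with hR1
  set R := 2 ^ (P * sz I) with hR
  obtain ⟨flag, nodes⟩ := st
  have hround : round P I.2.length B (allRows I) I.2 R1 R (flag, nodes) =
      (flag || (nodes.flatMap (expand P I.2.length B (allRows I) I.2 R1 R)).any (fun o => o.isNone),
        (nodes.flatMap (expand P I.2.length B (allRows I) I.2 R1 R)).flatMap fun o => match o with
          | none => []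
          | some N => [N]) := rfl
  rcases Nat.lt_or_ge (cW I.2.length ^ I.2.length) k with hk | hk
  · -- no nodes are left
    have hnil : nodes = [] := by
      cases nodes with
      | nil => rfl
      | cons N l =>
        have := (h.good N (by simp)).ms
        omega
    subst hnil
    rw [hround]
    simp only [List.flatMap_nil, List.any_nil, Bool.or_false]
    have hp0 : PadOK P I.2.length 0 := padOK hP (Nat.zero_le _)
    refine ⟨⟨h.sound, ?_, by simp, by simp⟩, ?_⟩
    · intro hdec
      rcases h.compl hdec with h1 | ⟨N, hN, _⟩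
      · exact Or.inl h1
      · simp at hN
    · exact sz_state_le (st := (flag, [])) hp0 hL (by simp) (by simp)
  · have hp : PadOK P I.2.length k := padOK hP (by unfold rnds; omega)
    have hp' : PadOK P I.2.length (k + 1) := padOK hP (by unfold rnds; omega)
    have hP100 : 100 ≤ P := by have := hp.p10; omega
    have hNR : nrm I.2 < 2 ^ sz I :=
      lt_of_lt_of_le (nrm_lt I.2) (Nat.pow_le_pow_right (by norm_num) (by have := sz_a_le I; omega))
    have hcG : cG (I.2.length + 1) * ((I.2.length + 1) * (hSeq I.2.length k * sz I + 2)) ≤ B := by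
      refine le_trans ?_ (big_bound hP100 hL)
      have e1 : (I.2.length + 1) ≤ P := by have := hp.p10; omega
      have e2 : hSeq I.2.length k * sz I + 2 ≤ P * sz I := by have := hp.p9; nlinarith
      calc cG (I.2.length + 1) * ((I.2.length + 1) * (hSeq I.2.length k * sz I + 2)) ≤ P * (P * (P * sz I)) :=
            Nat.mul_le_mul ((cG_le_cL _).trans hp.p1) (Nat.mul_le_mul e1 e2)
        _ = P ^ 3 * sz I := by ring
        _ ≤ P ^ 6 * sz I := Nat.mul_le_mul_right _ (Nat.pow_le_pow_right (by omega) (by norm_num))
    -- facts on children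
    have hmemout : ∀ o ∈ nodes.flatMap (expand P I.2.length B (allRows I) I.2 R1 R),
        ∃ N ∈ nodes, ∃ F ∈ flv P I.2.length B (allRows I) I.2 R1 R N,
          o = child P I.2.length B (allRows I) R1 N F := by
      intro o ho
      rw [List.mem_flatMap] at ho
      obtain ⟨N, hN, ho⟩ := ho
      unfold expand at ho
      rw [List.mem_map] at ho
      obtain ⟨F, hF, rfl⟩ := ho
      exact ⟨N, hN, F, hF, rfl⟩
    have hgood' : ∀ N' ∈ ((nodes.flatMap (expand P I.2.length B (allRows I) I.2 R1 R)).flatMap
        fun o => match o with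
          | none => []
          | some N => [N]), Good I.2.length (k + 1) (sz I) N' := by
      intro N' hN'
      rw [List.mem_flatMap] at hN'
      obtain ⟨o, ho, hN'⟩ := hN'
      obtain ⟨N, hN, F, hF, rfl⟩ := hmemout o ho
      cases hc : child P I.2.length B (allRows I) R1 N F with
      | none => rw [hc] at hN'; simp at hN'
      | some N'' =>
        rw [hc] at hN'
        simp only [List.mem_singleton] at hN'
        subst hN'
        have hg := h.good N hN
        obtain ⟨c1, c2, c3⟩ := child_good (rows := allRows I) (F := F) (H := hSeq I.2.length k * sz I)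
          hg.ty (fun t ht => hg.tyOK hp hL t (mem_nbs_left ht)) hp.p3 hcG hc
        refine ⟨fun t ht => ?_, ?_, ?_⟩
        · obtain ⟨g1, g2, g3⟩ := c1 t ht
          exact ⟨g1, g2, g3.trans (Nat.pow_le_pow_right (by norm_num) (hNext_mul hL))⟩
        · refine c2.trans ?_
          rw [dSeq]
          exact Nat.mul_le_mul hg.dim (Nat.add_le_add_left (cSing_mono hg.dim) _)
        · have := hg.ms
          omega
    have hlen' : ((nodes.flatMap (expand P I.2.length B (allRows I) I.2 R1 R)).flatMap
        fun o => match o with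
          | none => []
          | some N => [N]).length ≤ lSeq I.2.length (k + 1) := by
      refine (flatMap_len_le _ (fun o => by cases o <;> simp) _).trans ?_
      have e2 : ∀ l : List Node, (∀ N ∈ l, Good I.2.length k (sz I) N) →
          (l.flatMap (expand P I.2.length B (allRows I) I.2 R1 R)).length ≤ l.length * cL (dSeq I.2.length k) := by
        intro l
        induction l with
        | nil => intro _; simp
        | cons N l ih =>
          intro hl
          have e3 := ih fun N' hN' => hl N' (by simp [hN'])
          have hg := hl N (by simp)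
          have e4 : (flv P I.2.length B (allRows I) I.2 R1 R N).length ≤ cL (ndim N) :=
            (flv_spec (rows := allRows I) (hg.nodeOK hp hL) rfl).1
          have e5 := cL_mono hg.dim
          rw [List.flatMap_cons, List.length_append, List.length_cons, expand, List.length_map]
          rw [Nat.succ_mul]
          omega
      refine (e2 nodes h.good).trans ?_
      rw [lSeq]
      exact Nat.mul_le_mul_right _ h.len
    rw [hround]
    refine ⟨⟨?_, ?_, hgood', hlen'⟩, sz_state_le hp' hL hgood' hlen'⟩
    · intro hf
      simp only [Bool.or_eq_true] at hf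
      rcases hf with hf | hf
      · exact h.sound hf
      · rw [List.any_eq_true] at hf
        obtain ⟨o, ho, hn⟩ := hf
        obtain ⟨N, hN, F, hF, rfl⟩ := hmemout o ho
        have hg := h.good N hN
        have hc : child P I.2.length B (allRows I) R1 N F = none := by simpa using hn
        have hTF := (flv_spec (rows := allRows I) (hg.nodeOK hp hL) rfl).2.1 F hF
        have hs := node_sound (rows := allRows I) (hg.nodeOK hp hL) rfl (hg.hR1 hp hL) hTF hc
        exact decomposable_of_nodeSol (fun t ht => (hg.ty t ht).1) hs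
    · intro hdec
      rcases h.compl hdec with h1 | ⟨N, hN, hsol⟩
      · left
        simp only at h1
        simp [h1]
      · have hg := h.good N hN
        obtain ⟨F, hF, hcase⟩ := node_complete (rows := allRows I) (hg.nodeOK hp hL) rfl
          (posRows I) (hg.hR hp hL hNR) ((cSing_mono hg.dim).trans hp.p5) hsol
        have hmem : child P I.2.length B (allRows I) R1 N F ∈
            nodes.flatMap (expand P I.2.length B (allRows I) I.2 R1 R) := by
          rw [List.mem_flatMap]
          exact ⟨N, hN, List.mem_map.2 ⟨F, hF, rfl⟩⟩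
        rcases hcase with hc | ⟨N', hc, hsol'⟩
        · left
          simp only [Bool.or_eq_true, List.any_eq_true]
          right
          exact ⟨_, hmem, by rw [hc]; rfl⟩
        · right
          refine ⟨N', List.mem_flatMap.2 ⟨_, hmem, ?_⟩, hsol'⟩
          rw [hc]
          exact List.mem_singleton.2 rfl

theorem decomposable_nonneg (h : Decomposable I) : ∀ x ∈ I.2, 0 ≤ x := by
  have h1 : toFn I.2.length I.2 ∈ AddSubmonoid.closure (SI I) := h
  have h2 : ∀ u ∈ AddSubmonoid.closure (SI I), ∀ i, 0 ≤ u i := by
    intro u hu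
    induction hu using AddSubmonoid.closure_induction with
    | mem x hx => exact hx.1
    | zero => intro i; simp
    | add x y _ _ hx hy => intro i; exact add_nonneg (hx i) (hy i)
  intro x hx
  obtain ⟨i, hi, rfl⟩ := List.getElem_of_mem hx
  have := h2 _ h1 ⟨i, hi⟩
  change 0 ≤ I.2.getD i 0 at this
  rwa [List.getD_eq_getElem _ _ hi] at this

theorem algo_eq {P : ℕ} (hP : padF I.2.length ≤ P) :
    algo P (sz I) I = true ↔ Decomposable I := by
  unfold algo
  cases hall : I.2.all (fun x => decide (0 ≤ x)) with
  | false =>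
    rw [Bool.false_and]
    refine ⟨fun h => by simp at h, fun h => ?_⟩
    have h1 := decomposable_nonneg h
    rw [List.all_eq_false] at hall
    obtain ⟨x, hx, hx2⟩ := hall
    exact absurd (h1 x hx) (by simpa using hx2)
  | true =>
    rw [Bool.true_and]
    have h0 : ∀ x ∈ I.2, 0 ≤ x := by
      intro x hx
      rw [List.all_eq_true] at hall
      simpa using hall x hx
    have hinv := iterCap_inv (B := (P * sz I) ^ 8) (F := round P I.2.length ((P * sz I) ^ 8)
      (allRows I) I.2 (2 ^ (P ^ 2 * sz I)) (2 ^ (P * sz I))) (d := (false, []))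
      (s := (false, [([stdBox (I.2.map Int.toNat)], [])])) (n := P) (MInv I) (initial h0)
      (fun k _ x hx => step hP hx)
    set st := iterCap ((P * sz I) ^ 8) (round P I.2.length ((P * sz I) ^ 8)
      (allRows I) I.2 (2 ^ (P ^ 2 * sz I)) (2 ^ (P * sz I))) (false, []) P
      (false, [([stdBox (I.2.map Int.toNat)], [])])
    refine ⟨hinv.sound, fun hdec => ?_⟩
    rcases hinv.compl hdec with h1 | ⟨N, hN, _⟩
    · exact h1
    · exfalso
      have h1 := (hinv.good N hN).ms
      have h2 : rnds I.2.length ≤ P := by unfold padF at hP; omega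
      unfold rnds at h2
      omega

/-- The algorithm is correct if the pad is long enough in terms of the dimension. -/
theorem algo_correct : ∃ F : ℕ → ℕ, Primrec F ∧ ∀ (I : Inst) (P : ℕ), F I.2.length ≤ P →
    (algo P (sz I) I = true ↔ Decomposable I) :=
  ⟨padF, pr_padF, fun _ _ hP => algo_eq hP⟩

end Run7.h960
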