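import Pool.Agent.Run7.h960.Basic

set_option autoImplicit false

/-!
# Norms of combinations
-/

namespace Run7.h960

open Pool.Agent.NPC
open Pool.Agent.H687R2.LLL (dot nrm lllStep cnt fsts gsr nrm_nil nrm_cons)

theorem nrm_eq_sum {v : Vec} {n : ℕ} (h : v.length ≤ n) :
    nrm v = ∑ i ∈ Finset.range n, (v.getD i 0).natAbs := by
  induction n generalizing v with
  | zero =>
    have : v = [] := List.length_eq_zero_iff.1 (Nat.le_zero.1 h)
    subst this; simp
  | succ n ih =>
    rw [Finset.sum_range_succ']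
    cases v with
    | nil => simp
    | cons x v =>
      rw [nrm_cons, ih (by simpa using h)]
      simp [add_comm]

theorem natAbs_getD_le_nrm (v : Vec) (i : ℕ) : (v.getD i 0).natAbs ≤ nrm v := by
  rcases Nat.lt_or_ge i v.length with h | h
  · rw [nrm_eq_sum (n := v.length) le_rfl]
    exact Finset.single_le_sum (f := fun i => (v.getD i 0).natAbs) (fun _ _ => Nat.zero_le _)
      (Finset.mem_range.2 h)
  · rw [List.getD_eq_default _ _ h]; simp

@[simp] theorem nrm_zv (n : ℕ) : nrm (zv n) = 0 := by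
  rw [nrm_eq_sum (n := n) (by simp)]
  exact Finset.sum_eq_zero fun i _ => by simp only [getD_zv]; rfl

/-- The norm of a combination. -/
theorem nrm_lin_le (x0 : Vec) (vs : List Vec) (y : Vec) :
    nrm (lin x0 vs y) ≤ nrm x0 +
      ∑ k ∈ Finset.range vs.length, (y.getD k 0).natAbs * nrm (vs.getD k []) := by
  rw [nrm_eq_sum (v := lin x0 vs y) (n := x0.length) (by simp), nrm_eq_sum (v := x0) le_rfl]
  have h1 : ∀ i ∈ Finset.range x0.length, ((lin x0 vs y).getD i 0).natAbs ≤
      (x0.getD i 0).natAbs + ∑ k ∈ Finset.range vs.length,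
        (y.getD k 0).natAbs * ((vs.getD k []).getD i 0).natAbs := by
    intro i hi
    rw [getD_lin_sum (Finset.mem_range.1 hi)]
    refine (Int.natAbs_add_le _ _).trans (Nat.add_le_add_left ?_ _)
    refine (Int.natAbs_sum_le _ _).trans (Finset.sum_le_sum fun k _ => ?_)
    rw [Int.natAbs_mul]
  refine (Finset.sum_le_sum h1).trans ?_
  rw [Finset.sum_add_distrib, Finset.sum_comm]
  refine Nat.add_le_add_left (Finset.sum_le_sum fun k _ => ?_) _
  rw [← Finset.mul_sum]
  refine Nat.mul_le_mul_left _ ?_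
  have h2 : (vs.getD k []).length ≤ max x0.length (vs.getD k []).length := le_max_right _ _
  rw [nrm_eq_sum h2]
  exact Finset.sum_le_sum_of_subset (Finset.range_subset_range.2 (le_max_left _ _))

theorem sum_map_range {M : Type*} [AddCommMonoid M] (f : ℕ → M) (n : ℕ) :
    ((List.range n).map f).sum = ∑ i ∈ Finset.range n, f i := by
  induction n with
  | zero => simp
  | succ n ih => rw [List.range_succ, List.map_append, List.sum_append, ih,
      Finset.sum_range_succ]; simp

/-- The sum defining `ext`, as a sum over a range. -/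
theorem ext_eq (s : Box) : ext s = nrm s.1 + ∑ k ∈ Finset.range s.2.length,
    ((bns s).getD k 0 + 1) * (nrm ((bvs s).getD k []) + 1) := by
  unfold ext
  congr 1
  have : s.2.map (fun p => (p.2 + 1) * (nrm p.1 + 1)) = (List.range s.2.length).map
      (fun k => ((bns s).getD k 0 + 1) * (nrm ((bvs s).getD k []) + 1)) := by
    apply List.ext_getElem
    · simp
    · intro i h1 h2
      have h3 : i < s.2.length := by simpa using h1
      simp only [List.getElem_map, List.getElem_range]
      rw [getD_bns, getD_bvs, List.getD_eq_getElem _ _ h3]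
  rw [this, sum_map_range]

theorem nrm_le_ext (s : Box) : nrm s.1 ≤ ext s := Nat.le_add_right _ _

theorem bns_lt_ext {s : Box} {p : Vec × ℕ} (hp : p ∈ s.2) : p.2 + 1 ≤ ext s := by
  unfold ext
  have h1 : (p.2 + 1) * (nrm p.1 + 1) ≤ (s.2.map fun p => (p.2 + 1) * (nrm p.1 + 1)).sum :=
    List.single_le_sum (by simp) _ (List.mem_map_of_mem hp)
  have h2 : (p.2 + 1) * 1 ≤ (p.2 + 1) * (nrm p.1 + 1) := Nat.mul_le_mul_left _ (by omega)
  omega

theorem bvs_lt_ext {s : Box} {p : Vec × ℕ} (hp : p ∈ s.2) : nrm p.1 + 1 ≤ ext s := by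
  unfold ext
  have h1 : (p.2 + 1) * (nrm p.1 + 1) ≤ (s.2.map fun p => (p.2 + 1) * (nrm p.1 + 1)).sum :=
    List.single_le_sum (by simp) _ (List.mem_map_of_mem hp)
  have h2 : 1 * (nrm p.1 + 1) ≤ (p.2 + 1) * (nrm p.1 + 1) := Nat.mul_le_mul_right _ (by omega)
  omega

end Run7.h960
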