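import Pool.Agent.Run7.h960.NodeF
import Pool.Agent.Run7.h960.Norms

set_option autoImplicit false

/-!
# Children of a node: dimensions, sizes, measure
-/

namespace Run7.h960

open Pool.Agent.NPC
open Pool.Agent.H687R2.LLL (dot nrm lllStep cnt fsts gsr)

/-- the number of coordinates of a list of types -/
def wdim (bs : List Box) : ℕ := (bs.map fun t => t.2.length + 1).sum

/-- the termination measure -/
def meas (W : ℕ) (bs : List Box) : ℕ :=
  (bs.map fun t => if t.2 = [] then 0 else W ^ t.2.length).sum

theorem wdim_nil : wdim [] = 0 := rfl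
theorem wdim_cons (t : Box) (bs : List Box) : wdim (t :: bs) = t.2.length + 1 + wdim bs := by
  simp [wdim]
theorem wdim_append (bs cs : List Box) : wdim (bs ++ cs) = wdim bs + wdim cs := by
  simp [wdim]
theorem meas_nil (W : ℕ) : meas W [] = 0 := rfl
theorem meas_cons (W : ℕ) (t : Box) (bs : List Box) :
    meas W (t :: bs) = (if t.2 = [] then 0 else W ^ t.2.length) + meas W bs := by
  simp [meas]
theorem meas_append (W : ℕ) (bs cs : List Box) :
    meas W (bs ++ cs) = meas W bs + meas W cs := by
  simp [meas]

theorem off_length (bs : List Box) : off bs bs.length = wdim bs := by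
  unfold off wdim
  congr 1
  apply List.ext_getElem
  · simp
  · intro i h1 h2
    have h3 : i < bs.length := by simpa using h1
    simp only [List.getElem_map, List.getElem_range]
    rw [List.getD_eq_getElem _ _ h3]

theorem ndim_eq (N : Node) : ndim N = wdim N.1 + wdim N.2 := by
  rw [ndim, nbs, off_length, wdim_append]

theorem length_le_wdim (bs : List Box) : bs.length ≤ wdim bs := by
  induction bs with
  | nil => simp [wdim]
  | cons t bs ih => rw [wdim_cons, List.length_cons]; omega

theorem mem_nbs_left {N : Node} {t : Box} (h : t ∈ N.1) : t ∈ nbs N := List.mem_append_left _ h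
theorem mem_nbs_right {N : Node} {t : Box} (h : t ∈ N.2) : t ∈ nbs N := List.mem_append_right _ h

/-- The size of a composed box. -/
theorem ext_compo {n m : ℕ} {t s : Box} (ht : WF n t) (hs : WF m s) :
    ext (compo t s) ≤ 2 * (ext t + 1) * (1 + ext s) := by
  have key : ∀ (y : Vec), ∑ k ∈ Finset.range (bvs t).length,
      (y.getD k 0).natAbs * nrm ((bvs t).getD k []) ≤ nrm y * ext t := by
    intro y
    have h1 : ∀ k ∈ Finset.range (bvs t).length, (y.getD k 0).natAbs * nrm ((bvs t).getD k []) ≤
        (y.getD k 0).natAbs * ext t := by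
      intro k hk
      refine Nat.mul_le_mul_left _ ?_
      have hk' : k < t.2.length := by simpa using hk
      rw [getD_bvs, List.getD_eq_getElem _ _ hk']
      have := bvs_lt_ext (List.getElem_mem hk')
      omega
    refine (Finset.sum_le_sum h1).trans ?_
    rw [← Finset.sum_mul]
    refine Nat.mul_le_mul_right _ ?_
    rw [nrm_eq_sum (n := max y.length (bvs t).length) (le_max_left _ _)]
    exact Finset.sum_le_sum_of_subset (Finset.range_subset_range.2 (le_max_right _ _))
  have h1 : nrm (compo t s).1 ≤ ext t + nrm s.1 * ext t := by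
    refine (nrm_lin_le _ _ _).trans (Nat.add_le_add (nrm_le_ext t) (key s.1))
  have h2 : ∀ (l : List (Vec × ℕ)), ((l.map fun p =>
      ((lin (zv t.1.length) (bvs t) p.1, p.2) : Vec × ℕ)).map
        fun p => (p.2 + 1) * (nrm p.1 + 1)).sum ≤
      (ext t + 1) * (l.map fun p => (p.2 + 1) * (nrm p.1 + 1)).sum := by
    intro l
    induction l with
    | nil => simp
    | cons p l ih =>
      rw [List.map_cons, List.map_cons, List.sum_cons, List.map_cons, List.sum_cons,
        Nat.mul_add (ext t + 1)]
      refine Nat.add_le_add ?_ ih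
      have h3 : nrm (lin (zv t.1.length) (bvs t) p.1) ≤ nrm p.1 * ext t := by
        refine (nrm_lin_le _ _ _).trans ?_
        rw [nrm_zv, zero_add]
        exact key p.1
      have h4 : nrm (lin (zv t.1.length) (bvs t) p.1) + 1 ≤ (ext t + 1) * (nrm p.1 + 1) := by
        nlinarith
      calc (p.2 + 1) * (nrm (lin (zv t.1.length) (bvs t) p.1) + 1)
          ≤ (p.2 + 1) * ((ext t + 1) * (nrm p.1 + 1)) := Nat.mul_le_mul_left _ h4
        _ = _ := by ring
  have h3 := h2 s.2
  have h4 : ext (compo t s) ≤ ext t + nrm s.1 * ext t +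
      (ext t + 1) * (s.2.map fun p => (p.2 + 1) * (nrm p.1 + 1)).sum := Nat.add_le_add h1 h3
  have h5 : ext s = nrm s.1 + (s.2.map fun p => (p.2 + 1) * (nrm p.1 + 1)).sum := rfl
  set A := nrm s.1
  set C := (s.2.map fun p => (p.2 + 1) * (nrm p.1 + 1)).sum
  set E := ext t
  rw [h5]
  nlinarith [Nat.zero_le (A * E), Nat.zero_le (C * E)]

/-- the width bound for the measure -/
def cW (d : ℕ) : ℕ := 2 * cw (d + 1) + 1

/-- the bound for the child -/
def hNext (d H : ℕ) : ℕ := cS (d + 1) * (H + 2) + H + 4

variable {P d B R R1 H : ℕ} {rows : Rows} {a F : Vec} {N N' : Node}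

theorem cG_le_cL (D : ℕ) : cG D ≤ cL D := by
  unfold cG cL
  refine Nat.pow_le_pow_right (by norm_num) ?_
  calc (D + 6) ^ 4 ≤ (D + 7) ^ 4 := Nat.pow_le_pow_left (by omega) 4
    _ ≤ (D + 7) ^ 5 := Nat.pow_le_pow_right (by omega) (by omega)

theorem cM_le_cw (D : ℕ) : cM D ≤ cw D := by
  unfold cw
  have h1 : 1 ≤ cM D := Nat.one_le_two_pow
  nlinarith

/-- What replaces a free type in the child. -/
def repl (P d : ℕ) (o : Box × (ℕ × Box)) : List Box :=
  bif decide (o.2.1 = 1) then [o.1] else
    bif decide (o.2.1 = 0) then (slices P (d + 1) o.2.2).map (compo o.1) else []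

/-- The single types added for a free type. -/
def sing (P d D : ℕ) (o : Box × (ℕ × Box)) : List Box :=
  bif decide (o.2.1 = 1) then [] else List.replicate (min P (cSing d D)) o.1

/-- the list of types with outcomes -/
def outs (P d B : ℕ) (rows : Rows) (R1 : ℕ) (N : Node) (F : Vec) : List (Box × (ℕ × Box)) :=
  (List.range N.1.length).map fun i => (N.1.getD i ([], []), outc P d B rows R1 N F i)

theorem child_eq (P d B : ℕ) (rows : Rows) (R1 : ℕ) (N : Node) (F : Vec) :
    child P d B rows R1 N F =
      bif (outs P d B rows R1 N F).all (fun o => decide (o.2.1 = 1)) then none else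
        some ((outs P d B rows R1 N F).flatMap (repl P d),
          N.2 ++ (outs P d B rows R1 N F).flatMap (sing P d (ndim N))) := rfl

theorem outs_fst (P d B : ℕ) (rows : Rows) (R1 : ℕ) (N : Node) (F : Vec) :
    (outs P d B rows R1 N F).map (fun o => o.1) = N.1 := by
  apply List.ext_getElem
  · simp [outs]
  · intro i h1 h2
    simp only [outs, List.map_map, List.getElem_map, List.getElem_range, Function.comp]
    exact List.getD_eq_getElem _ _ h2

/-- Facts about one outcome. -/
theorem repl_good {t : Box} {r : ℕ × Box} (hwf : WF d t) (hext : ext t ≤ 2 ^ H)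
    (hP : cw (d + 1) ≤ P)
    (hr : r.1 = 0 → t.2 ≠ [] ∧ WF t.2.length r.2 ∧ r.2.2.length = t.2.length ∧
      (∃ p ∈ r.2.2, p.2 < cw (d + 1)) ∧ ext r.2 ≤ 2 ^ (cS (d + 1) * (H + 2)))
    (h1 : r.1 ≠ 1 → t.2 ≠ []) :
    (∀ s ∈ repl P d (t, r), WF d s ∧ s.2.length ≤ t.2.length ∧ ext s ≤ 2 ^ hNext d H) ∧
    wdim (repl P d (t, r)) ≤ (t.2.length + 1) * cW d ∧
    meas (cW d) (repl P d (t, r)) + (if r.1 = 1 then 0 else 1) ≤ meas (cW d) [t] := by
  unfold repl
  by_cases ht1 : r.1 = 1
  · simp only [ht1, decide_true, cond_true, if_true, add_zero, le_refl, and_true]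
    constructor
    · intro s hs
      simp only [List.mem_singleton] at hs
      subst hs
      exact ⟨hwf, le_rfl, hext.trans (Nat.pow_le_pow_right (by norm_num) (by unfold hNext; omega))⟩
    · rw [wdim_cons, wdim_nil, add_zero]
      exact Nat.le_mul_of_pos_right _ (by unfold cW; omega)
  · have hW : 1 ≤ cW d := by unfold cW; omega
    have hmt : 1 ≤ meas (cW d) [t] := by
      rw [meas_cons, if_neg (h1 ht1)]
      have : 1 ≤ cW d ^ t.2.length := Nat.one_le_pow _ _ hW
      omega
    by_cases ht0 : r.1 = 0
    · obtain ⟨g1, g2, g3, g4, g5⟩ := hr ht0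
      obtain ⟨s1, s2, s3⟩ := slices_spec (P := P) (D := d + 1) g2 hP g4
      have hne : ¬ (0 = 1) := by omega
      simp only [ht0, decide_true, cond_true, hne, decide_false, cond_false, if_false]
      have hlen : ∀ s ∈ slices P (d + 1) r.2, (compo t s).2.length + 1 = t.2.length := by
        intro s hs
        rw [compo_len, (s2 s hs).2.1, g3]
      refine ⟨?_, ?_, ?_⟩
      · intro s' hs'
        rw [List.mem_map] at hs'
        obtain ⟨s, hs, rfl⟩ := hs'
        obtain ⟨w1, w2, w3⟩ := s2 s hs
        refine ⟨compo_wf hwf w1, by have := hlen s hs; omega, ?_⟩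
        refine (ext_compo hwf w1).trans ?_
        have e1 : 1 + ext s ≤ 2 ^ (cS (d + 1) * (H + 2) + 1) := by
          have : 1 ≤ 2 ^ (cS (d + 1) * (H + 2)) := Nat.one_le_two_pow
          rw [pow_succ]; omega
        have e2 : ext t + 1 ≤ 2 ^ (H + 1) := by
          have : 1 ≤ 2 ^ H := Nat.one_le_two_pow
          rw [pow_succ]; omega
        calc 2 * (ext t + 1) * (1 + ext s)
            ≤ 2 * 2 ^ (H + 1) * 2 ^ (cS (d + 1) * (H + 2) + 1) :=
              Nat.mul_le_mul (Nat.mul_le_mul_left _ e2) e1
          _ = 2 ^ (H + 2 + (cS (d + 1) * (H + 2) + 1)) := by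
              rw [pow_add _ (H + 2)]; congr 1; rw [pow_succ _ (H + 1)]; ring
          _ ≤ 2 ^ hNext d H := Nat.pow_le_pow_right (by norm_num) (by unfold hNext; omega)
      · have : ∀ l : List Box, (∀ s ∈ l, (compo t s).2.length + 1 = t.2.length) →
            wdim (l.map (compo t)) ≤ l.length * (t.2.length + 1) := by
          intro l
          induction l with
          | nil => intro _; simp [wdim]
          | cons s l ih =>
            intro hl
            rw [List.map_cons, wdim_cons, List.length_cons]
            have e1 := hl s (by simp)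
            have e2 := ih fun s' hs' => hl s' (by simp [hs'])
            nlinarith
        refine (this _ hlen).trans ?_
        rw [mul_comm]
        exact Nat.mul_le_mul_left _ (s1.trans (by unfold cW; omega))
      · have : ∀ l : List Box, (∀ s ∈ l, (compo t s).2.length + 1 = t.2.length) →
            meas (cW d) (l.map (compo t)) ≤ l.length * cW d ^ (t.2.length - 1) := by
          intro l
          induction l with
          | nil => intro _; simp [meas]
          | cons s l ih =>
            intro hl
            rw [List.map_cons, meas_cons, List.length_cons]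
            have e1 := hl s (by simp)
            have e2 := ih fun s' hs' => hl s' (by simp [hs'])
            have e3 : (if (compo t s).2 = [] then 0 else cW d ^ (compo t s).2.length) ≤
                cW d ^ (t.2.length - 1) := by
              split_ifs
              · exact Nat.zero_le _
              · rw [show (compo t s).2.length = t.2.length - 1 by omega]
            rw [Nat.succ_mul]
            omega
        have e1 := this _ hlen
        rw [meas_cons, if_neg g1, meas_nil, add_zero]
        have hlt : 0 < t.2.length := List.length_pos_iff.2 g1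
        have e2 : cW d ^ t.2.length = cW d ^ (t.2.length - 1) * cW d := by
          rw [← pow_succ]; congr 1; omega
        have e3 : 1 ≤ cW d ^ (t.2.length - 1) := Nat.one_le_pow _ _ hW
        have e4 : (slices P (d + 1) r.2).length * cW d ^ (t.2.length - 1) ≤
            (2 * cw (d + 1)) * cW d ^ (t.2.length - 1) := Nat.mul_le_mul_right _ s1
        have e5 : cW d = 2 * cw (d + 1) + 1 := rfl
        have e6 : cW d ^ (t.2.length - 1) * cW d =
            (2 * cw (d + 1)) * cW d ^ (t.2.length - 1) + cW d ^ (t.2.length - 1) := by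
          conv_lhs => rw [mul_comm, e5, add_mul, one_mul]
          rw [← e5]
        rw [e2, e6]
        exact Nat.add_le_add (e1.trans e4) e3
    · simp only [ht1, ht0, decide_false, cond_false, if_false]
      refine ⟨by simp, by rw [wdim_nil]; exact Nat.zero_le _, by rw [meas_nil]; omega⟩

theorem ext_stdBox_le {t : Box} (h : ext t ≤ 2 ^ H) : ext (stdBox (bns t)) ≤ 2 ^ (H + 1) := by
  rw [ext_stdBox]
  have key : ∀ l : List (Vec × ℕ), ((l.map fun p => p.2).map fun m => 2 * (m + 1)).sum ≤
      2 * (l.map fun p => (p.2 + 1) * (nrm p.1 + 1)).sum := by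
    intro l
    induction l with
    | nil => simp
    | cons p l ih =>
      simp only [List.map_cons, List.sum_cons] at ih ⊢
      have : (p.2 + 1) * 1 ≤ (p.2 + 1) * (nrm p.1 + 1) := Nat.mul_le_mul_left _ (by omega)
      omega
  have h2 : (t.2.map fun p => (p.2 + 1) * (nrm p.1 + 1)).sum ≤ ext t := Nat.le_add_left _ _
  rw [pow_succ, mul_comm (2 ^ H)]
  exact (key t.2).trans (Nat.mul_le_mul_left _ (h2.trans h))

theorem outs_spec (hgood : ∀ t ∈ N.1, ext t ≤ 2 ^ H)
    (hdim : ∀ t ∈ N.1, t.2.length ≤ d)
    (hty : ∀ t ∈ N.1, TyOK P (d + 1) B R1 t)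
    (hB : cG (d + 1) * ((d + 1) * (H + 2)) ≤ B) :
    ∀ o ∈ outs P d B rows R1 N F, o.1 ∈ N.1 ∧
      (o.2.1 = 0 → o.1.2 ≠ [] ∧ WF o.1.2.length o.2.2 ∧ o.2.2.2.length = o.1.2.length ∧
      (∃ p ∈ o.2.2.2, p.2 < cw (d + 1)) ∧ ext o.2.2 ≤ 2 ^ (cS (d + 1) * (H + 2))) ∧
      (o.2.1 ≠ 1 → o.1.2 ≠ []) := by
  intro o ho
  unfold outs at ho
  rw [List.mem_map] at ho
  obtain ⟨i, hi, rfl⟩ := ho
  rw [List.mem_range] at hi
  have hmem : N.1.getD i ([], []) ∈ N.1 := by
    rw [List.getD_eq_getElem _ _ hi]; exact List.getElem_mem hi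
  refine ⟨hmem, ?_⟩
  simp only
  set t := N.1.getD i ([], []) with ht
  by_cases h0 : t.2 = []
  · have : outc P d B rows R1 N F i = (1, ([], [])) := by
      unfold outc
      rw [← ht]
      simp [h0]
    rw [this]
    exact ⟨fun h => absurd h (by norm_num), fun h => absurd rfl h⟩
  · have he : t.2.isEmpty = false := by
      cases hh : t.2.isEmpty
      · rfl
      · exact absurd (List.isEmpty_iff.1 hh) h0
    have hout : outc P d B rows R1 N F i = sand P (d + 1) B (zorc P (d + 1) B rows t R1 (2 * d + 4)
      (blk F (off (N.1 ++ N.2) i) (t.2.length + 1))) (stdBox (bns t)) := by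
      unfold outc
      rw [← ht]
      simp only [he, cond_false]
    rw [hout]
    have hT := hty t hmem
    have hv := zorc_valid (rows := rows) (C1 := 2 * d + 4) hT
      (F := blk F (off (N.1 ++ N.2) i) (t.2.length + 1)) (by simp [blk]) (by omega)
    have hw : WF t.2.length (stdBox (bns t)) := by
      have := stdBox_wf (bns t)
      rwa [length_bns] at this
    have hd := hdim t hmem
    have hs := sand_spec (P := P) (D := d + 1) (B := B) (H := H + 1) hv hw
      (by intro h; apply h0; have := length_stdBox (bns t); rw [h] at this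
          simp only [List.length_nil, length_bns] at this
          exact List.length_eq_zero_iff.1 this.symm)
      (by rw [length_stdBox, length_bns]; omega) ((cM_le_cw _).trans hT.pad)
      (ext_stdBox_le (hgood t hmem)) (le_trans (Nat.mul_le_mul_left _ (Nat.mul_le_mul (by omega)
        (by omega))) hB)
    refine ⟨fun hr => ?_, fun _ => h0⟩
    obtain ⟨a1, a2, _, a4, a5⟩ := hs.2.1 hr
    refine ⟨h0, a1, ?_, a4, a5⟩
    rw [a2, length_stdBox, length_bns]

/-- The facts about a child. -/
theorem child_good (hgood : ∀ t ∈ nbs N, WF d t ∧ t.2.length ≤ d ∧ ext t ≤ 2 ^ H)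
    (hty : ∀ t ∈ N.1, TyOK P (d + 1) B R1 t) (hP : cw (d + 1) ≤ P)
    (hB : cG (d + 1) * ((d + 1) * (H + 2)) ≤ B)
    (hc : child P d B rows R1 N F = some N') :
    (∀ t ∈ nbs N', WF d t ∧ t.2.length ≤ d ∧ ext t ≤ 2 ^ hNext d H) ∧
    ndim N' ≤ ndim N * (cW d + 1 + cSing d (ndim N)) ∧
    meas (cW d) N'.1 + 1 ≤ meas (cW d) N.1 := by
  have hH : 2 ^ H ≤ 2 ^ hNext d H := Nat.pow_le_pow_right (by norm_num) (by unfold hNext; omega)
  have hspec := outs_spec (rows := rows) (F := F) (fun t ht => (hgood t (mem_nbs_left ht)).2.2)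
    (fun t ht => (hgood t (mem_nbs_left ht)).2.1) hty hB
  have hfst := outs_fst P d B rows R1 N F
  rw [child_eq] at hc
  set os := outs P d B rows R1 N F with hos
  cases hall : os.all (fun o => decide (o.2.1 = 1)) with
  | true => rw [hall] at hc; simp at hc
  | false =>
    rw [hall, cond_false, Option.some.injEq] at hc
    subst hc
    have hex : ∃ o ∈ os, o.2.1 ≠ 1 := by
      rw [List.all_eq_false] at hall
      obtain ⟨o, ho, h⟩ := hall
      exact ⟨o, ho, by simpa using h⟩
    have hone : ∀ o ∈ os, (∀ s ∈ repl P d o, WF d s ∧ s.2.length ≤ o.1.2.length ∧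
        ext s ≤ 2 ^ hNext d H) ∧
        wdim (repl P d o) ≤ (o.1.2.length + 1) * cW d ∧
        meas (cW d) (repl P d o) + (if o.2.1 = 1 then 0 else 1) ≤ meas (cW d) [o.1] := by
      intro o ho
      obtain ⟨h1, h2, h3⟩ := hspec o ho
      have hg := hgood o.1 (mem_nbs_left h1)
      exact repl_good (t := o.1) (r := o.2) hg.1 hg.2.2 hP h2 h3
    refine ⟨?_, ?_, ?_⟩
    · intro s hs
      simp only [nbs, List.mem_append, List.mem_flatMap] at hs
      rcases hs with ⟨o, ho, hs⟩ | hs | ⟨o, ho, hs⟩
      · obtain ⟨h1, h2, h3⟩ := (hone o ho).1 s hs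
        exact ⟨h1, h2.trans (hgood o.1 (mem_nbs_left (hspec o ho).1)).2.1, h3⟩
      · obtain ⟨h1, h2, h3⟩ := hgood s (mem_nbs_right hs)
        exact ⟨h1, h2, h3.trans hH⟩
      · unfold sing at hs
        cases h : decide (o.2.1 = 1)
        · rw [h, cond_false] at hs
          rw [List.eq_of_mem_replicate hs]
          obtain ⟨h1, h2, h3⟩ := hgood o.1 (mem_nbs_left (hspec o ho).1)
          exact ⟨h1, h2, h3.trans hH⟩
        · rw [h, cond_true] at hs
          simp at hs
    · rw [ndim_eq]
      simp only
      rw [wdim_append]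
      have h1 : ∀ l : List (Box × (ℕ × Box)), (∀ o ∈ l, o ∈ os) →
          wdim (l.flatMap (repl P d)) + wdim (l.flatMap (sing P d (ndim N))) ≤
            wdim (l.map fun o => o.1) * (cW d + cSing d (ndim N)) := by
        intro l
        induction l with
        | nil => intro _; simp [wdim]
        | cons o l ih =>
          intro hl
          have e1 := ih fun o' ho' => hl o' (by simp [ho'])
          have e2 := (hone o (hl o (by simp))).2.1
          have e3 : wdim (sing P d (ndim N) o) ≤ (o.1.2.length + 1) * cSing d (ndim N) := by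
            unfold sing
            cases h : decide (o.2.1 = 1)
            · rw [cond_false, wdim, List.map_replicate, List.sum_replicate, smul_eq_mul, mul_comm]
              exact Nat.mul_le_mul_left _ (min_le_right _ _)
            · rw [cond_true, wdim_nil]; exact Nat.zero_le _
          rw [List.flatMap_cons, List.flatMap_cons, List.map_cons, wdim_append, wdim_append,
            wdim_cons, Nat.add_mul (o.1.2.length + 1), Nat.mul_add (o.1.2.length + 1)]
          omega
      have h2 := h1 os fun _ h => h
      rw [hfst] at h2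
      have h3 : wdim N.1 + wdim N.2 = ndim N := (ndim_eq N).symm
      have h4 : ndim N * (cW d + 1 + cSing d (ndim N)) =
          ndim N + ndim N * (cW d + cSing d (ndim N)) := by ring
      have h5 : wdim N.1 * (cW d + cSing d (ndim N)) ≤ ndim N * (cW d + cSing d (ndim N)) :=
        Nat.mul_le_mul_right _ (by omega)
      rw [h4]
      omega
    · simp only
      have h1 : ∀ l : List (Box × (ℕ × Box)), (∀ o ∈ l, o ∈ os) →
          meas (cW d) (l.flatMap (repl P d)) + (l.filter fun o => decide (o.2.1 ≠ 1)).length ≤
            meas (cW d) (l.map fun o => o.1) := by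
        intro l
        induction l with
        | nil => intro _; simp [meas]
        | cons o l ih =>
          intro hl
          have e1 := ih fun o' ho' => hl o' (by simp [ho'])
          have e2 := (hone o (hl o (by simp))).2.2
          rw [List.flatMap_cons, List.map_cons, meas_append, meas_cons, List.filter_cons]
          rw [meas_cons, meas_nil, add_zero] at e2
          generalize (if o.1.2 = [] then 0 else cW d ^ o.1.2.length) = z at e2 ⊢
          by_cases h1 : o.2.1 = 1
          · rw [if_pos h1] at e2
            rw [if_neg (by simpa using h1)]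
            omega
          · rw [if_neg h1] at e2
            rw [if_pos (by simpa using h1), List.length_cons]
            omega
      have h2 := h1 os fun _ h => h
      rw [hfst] at h2
      have h3 : 1 ≤ (os.filter fun o => decide (o.2.1 ≠ 1)).length := by
        obtain ⟨o, ho, hne⟩ := hex
        have : o ∈ os.filter fun o => decide (o.2.1 ≠ 1) := List.mem_filter.2 ⟨ho, by simpa using hne⟩
        exact List.length_pos_of_mem this
      omega

end Run7.h960
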