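import Pool.Agent.Run7.h960.NodeCA

set_option autoImplicit false

/-!
# Completeness: a solution of a node gives an answer or a solution of a child
-/

namespace Run7.h960

open Pool.Agent.NPC
open Pool.Agent.H687R2.LLL (dot nrm lllStep cnt fsts gsr nrm_nil nrm_cons)

variable {P d B R R1 H : ℕ} {rows : Rows} {a F : Vec} {N : Node}

/-! ### distributing elements -/

theorem forall₂_add {α M : Type*} [AddCommMonoid M] (p : α → AddSubmonoid M) {bs : List α}
    {us : List M} (h : List.Forall₂ (fun b u => u ∈ p b) bs us) {b : α} (hb : b ∈ bs) {x : M}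
    (hx : x ∈ p b) : ∃ us', List.Forall₂ (fun b u => u ∈ p b) bs us' ∧ us'.sum = x + us.sum := by
  induction h with
  | nil => simp at hb
  | @cons b' u bs us h1 h2 ih =>
    rcases List.mem_cons.1 hb with rfl | hb'
    · refine ⟨(x + u) :: us, List.Forall₂.cons ((p b).add_mem hx h1) h2, ?_⟩
      rw [List.sum_cons, List.sum_cons, add_assoc]
    · obtain ⟨us', h3, h4⟩ := ih hb'
      refine ⟨u :: us', List.Forall₂.cons h1 h3, ?_⟩
      rw [List.sum_cons, List.sum_cons, h4, ← add_assoc, ← add_assoc, add_comm u x]

theorem assign {α M : Type*} [AddCommMonoid M] (p : α → AddSubmonoid M) (bs : List α) :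
    ∀ l : List M, (∀ x ∈ l, ∃ b ∈ bs, x ∈ p b) →
      ∃ us, List.Forall₂ (fun b u => u ∈ p b) bs us ∧ us.sum = l.sum := by
  intro l
  induction l with
  | nil =>
    intro _
    refine ⟨bs.map fun _ => 0, ?_, ?_⟩
    · rw [List.forall₂_map_right_iff, List.forall₂_same]
      exact fun b _ => (p b).zero_mem
    · induction bs with
      | nil => rfl
      | cons b bs ih => simpa using ih
  | cons x l ih =>
    intro h
    obtain ⟨us, h1, h2⟩ := ih fun y hy => h y (by simp [hy])
    obtain ⟨b, hb, hx⟩ := h x (by simp)
    obtain ⟨us', h3, h4⟩ := forall₂_add p h1 hb hx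
    exact ⟨us', h3, by rw [h4, h2, List.sum_cons]⟩

theorem forall₂_replicate {α β : Type*} (p : α → β → Prop) (b : α) :
    ∀ (m : ℕ) (us : List β), us.length = m → (∀ u ∈ us, p b u) →
      List.Forall₂ p (List.replicate m b) us := by
  intro m
  induction m with
  | zero =>
    intro us h _
    rw [List.length_eq_zero_iff.1 h]
    exact List.Forall₂.nil
  | succ m ih =>
    intro us h hp
    cases us with
    | nil => simp at h
    | cons u us =>
      rw [List.replicate_succ]
      exact List.Forall₂.cons (hp u (by simp)) (ih us (by simpa using h) fun u' hu' =>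
        hp u' (by simp [hu']))

/-- A list of few elements fits into single types. -/
theorem singles {M : Type*} [AddCommMonoid M] {α : Type*} (q : α → Set M) (b : α) (m : ℕ)
    (l : List M) (hl : l.length ≤ m) (h : ∀ x ∈ l, x ∈ q b) :
    ∃ ts, List.Forall₂ (fun b u => u = 0 ∨ u ∈ q b) (List.replicate m b) ts ∧
      ts.sum = l.sum := by
  refine ⟨l ++ List.replicate (m - l.length) 0, forall₂_replicate _ _ _ _ (by simp; omega) ?_,
    by simp⟩
  intro u hu
  rw [List.mem_append] at hu
  rcases hu with hu | hu
  · exact Or.inr (h u hu)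
  · exact Or.inl (List.eq_of_mem_replicate hu)

theorem forall₂_flatMap {α β : Type*} (p : α → β → Prop) (n : ℕ) (f : ℕ → List α)
    (g : ℕ → List β) (h : ∀ i < n, List.Forall₂ p (f i) (g i)) :
    List.Forall₂ p ((List.range n).flatMap f) ((List.range n).flatMap g) := by
  induction n with
  | zero => exact List.Forall₂.nil
  | succ n ih =>
    rw [List.range_succ, List.flatMap_append, List.flatMap_append]
    refine List.rel_append (ih fun i hi => h i (by omega)) ?_
    simpa using h n (by omega)

theorem sum_flatMap_range {M : Type*} [AddCommMonoid M] (n : ℕ) (g : ℕ → List M) :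
    ((List.range n).flatMap g).sum = ∑ i ∈ Finset.range n, (g i).sum := by
  induction n with
  | zero => simp
  | succ n ih =>
    rw [List.range_succ, List.flatMap_append, List.sum_append, ih, Finset.sum_range_succ]
    simp

/-! ### slices -/

/-- Points of a slice are points of the composed type. -/
theorem zfn_compo {t s : Box} {y : Vec} (hwf : WF d t) (hs : WF t.2.length s)
    (hy : y ∈ Sh rows t) (hin : InBox s y) : zfn d t y ∈ toFn d '' Zt rows (compo t s) := by
  obtain ⟨w, hw1, hw2, hw3⟩ := hin
  have hlin : lin (compo t s).1 (bvs (compo t s)) w = lin t.1 (bvs t) y := by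
    rw [lin_compo hs le_rfl, ← hw3]
  have hcwf : WF d (compo t s) := compo_wf hwf hs
  refine ⟨_, ⟨w, ⟨by rw [compo_len, hw1], ?_⟩, rfl⟩, by rw [hlin]; rfl⟩
  intro r hr
  unfold yrows at hr
  rw [List.mem_append, List.mem_map] at hr
  rcases hr with ⟨r', hr', rfl⟩ | hr
  · have h1 := hy.2 ((bvs t).map fun b => dot r'.1 b, r'.2 - dot r'.1 t.1) (by
      unfold yrows
      exact List.mem_append_left _ (List.mem_map.2 ⟨r', hr', rfl⟩))
    -- both are the value of `r'` at the same point
    have key : ∀ (u : Box) (v : Vec), WF d u →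
        dot ((bvs u).map fun b => dot r'.1 b) v + dot r'.1 u.1 =
          dot (r'.1 ++ zv d) (lin u.1 (bvs u) v) := by
      intro u v hu
      have e1 : ∀ b : Vec, b.length = d → dot (r'.1 ++ zv d) b = dot r'.1 b := by
        intro b hb
        rw [dot_eq_sum (N := d) (Or.inr hb.le), dot_eq_sum (N := d) (Or.inr hb.le)]
        refine Finset.sum_congr rfl fun i _ => ?_
        congr 1
        rcases Nat.lt_or_ge i r'.1.length with hi | hi
        · rw [List.getD_append _ _ _ _ hi]
        · rw [List.getD_append_right _ _ _ _ hi, getD_zv, List.getD_eq_default _ _ hi]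
      have e2 : ∀ g : Vec, d ≤ g.length → dot g (lin u.1 (bvs u) v) = dot g u.1 +
          dot v ((bvs u).map fun b => dot g b) := by
        intro g hg
        have e3 : ∀ b : Vec, b.length = d → dot (g.take d) b = dot g b := by
          intro b hb
          rw [dot_eq_sum (N := d) (Or.inr hb.le), dot_eq_sum (N := d) (Or.inr hb.le)]
          refine Finset.sum_congr rfl fun i hi => ?_
          congr 1
          have hi' := Finset.mem_range.1 hi
          rw [List.getD_eq_getElem _ _ (by simp; omega), List.getD_eq_getElem _ _ (by omega),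
            List.getElem_take]
        have e4 := dot_lin (g := g.take d) (x0 := u.1) (vs := bvs u) (y := v)
          (by rw [List.length_take, hu.1]; omega)
          (by intro b hb; rw [hu.bvs_len b hb, hu.1])
        rw [e3 _ (by rw [length_lin, hu.1]), e3 _ hu.1] at e4
        rw [e4]
        congr 2
        exact List.map_congr_left fun b hb => e3 b (hu.bvs_len b hb)
      rw [e2 _ (by simp), e1 _ hu.1, dot_comm _ v, add_comm]
      congr 2
      exact List.map_congr_left fun b hb => (e1 b (hu.bvs_len b hb)).symm
    have h2 := key t y hwf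
    have h3 := key (compo t s) w hcwf
    rw [hlin] at h3
    simp only at h1 ⊢
    linarith
  · refine boxRows_of (fun k hk => ?_) r hr
    rw [bns_compo] at hk ⊢
    exact hw2 k (by simpa using hk)

/-! ### heavy points -/

theorem sum_ge_count {L : List Vec} {y : Vec} (f : Vec → ℤ) (hf : ∀ x ∈ L, 0 ≤ f x) :
    (L.count y : ℤ) * f y ≤ (L.map f).sum := by
  induction L with
  | nil => simp
  | cons x L ih =>
    have h1 := ih fun z hz => hf z (by simp [hz])
    have h2 := hf x (by simp)
    rw [List.map_cons, List.sum_cons, List.count_cons]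
    by_cases hxy : x = y
    · subst hxy
      simp only [beq_self_eq_true, if_true]
      push_cast
      linarith
    · have : (x == y) = false := by simpa using hxy
      rw [this]
      simp only [Bool.false_eq_true, if_false, add_zero]
      linarith

/-- Heavy points are in `Tp`. -/
theorem heavy {F0 : Vec} {i κ C1 : ℕ} (hi : i < N.1.length)
    (hc : Central (ndim N) κ (TF rows a R1 R N) F0 F) (hF0 : F0.length = ndim N)
    (hF : F.length = ndim N) {L : List Vec}
    (hL : ∀ y ∈ L, y ∈ Sh rows (N.1.getD i ([], [])))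
    (hblk : nblk N F i = mkBlk (N.1.getD i ([], [])).2.length L) {y : Vec}
    (hy : y ∈ L) (hcount : C1 * (κ + 1) ≤ L.count y) :
    y ∈ Tp rows (N.1.getD i ([], [])) R1 C1 (nblk N F0 i) := by
  refine ⟨hL y hy, fun g hg => ?_⟩
  have hil : i < (nbs N).length := by rw [length_nbs]; omega
  have hgl : g.length = ((nbs N).getD i ([], [])).2.length + 1 := by
    rw [getD_nbs_left hi, hg.1]
  have hdp : ∀ F' : Vec, dot (place (ndim N) (off (nbs N) i) g) F' = dot g (nblk N F' i) := by
    intro F'
    rw [dot_place (off_add_le N hil hgl.le), hgl]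
    rfl
  have h1 := hc (place (ndim N) (off (nbs N) i) g) 0 (by simp) (by
    intro F' hF'
    rw [hdp]
    exact hF'.2.2 i hi g hg)
  rw [hdp, hdp, hblk, sub_zero, sub_zero, mkBlk_dot hg.1] at h1
  have h2 := sum_ge_count (L := L) (y := y) (fun y => dot g (1 :: y))
    (fun x hx => hg.2.2 x (hL x hx))
  have h3 := hg.2.2 y (hL y hy)
  have hl : (nblk N F0 i).length = ((1 :: y).map fun x => (C1 : ℤ) * x).length := by
    rw [length_nblk, getD_nbs_left hi, List.length_map, List.length_cons, (hL y hy).1]
  rw [dot_vsub hl, dot_smul]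
  have h4 : ((C1 * (κ + 1) : ℕ) : ℤ) * dot g (1 :: y) ≤ (L.count y : ℤ) * dot g (1 :: y) :=
    mul_le_mul_of_nonneg_right (by exact_mod_cast hcount) h3
  have h5 : ((κ : ℤ) + 1) * ((C1 : ℤ) * dot g (1 :: y)) ≤ ((κ : ℤ) + 1) * dot g (nblk N F0 i) := by
    push_cast at h4
    nlinarith
  have h6 : (0 : ℤ) < (κ : ℤ) + 1 := by positivity
  have h7 := le_of_mul_le_mul_left h5 h6
  linarith

/-- The replacement of one type. -/
theorem replace_one {t : Box} {r : ℕ × Box} {L : List Vec} (hwf : WF d t) (hd : t.2.length ≤ d)
    (hL : ∀ y ∈ L, y ∈ Sh rows t) (hsmall : L.toFinset.card ≤ 2 ^ t.2.length) {T : Set Vec} {C m : ℕ}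
    (hheavy : ∀ y ∈ L, C ≤ L.count y → y ∈ T) (hm : 2 ^ d * C ≤ m) (hP : cw (d + 1) ≤ P)
    (hsub : ∀ y ∈ L, InBox (stdBox (bns t)) y)
    (hr0 : r.1 = 0 → WF t.2.length r.2 ∧ (∃ p ∈ r.2.2, p.2 < cw (d + 1)) ∧
      ∀ x ∈ T, InBox (stdBox (bns t)) x → InBox r.2 x)
    (hr2 : r.1 ≠ 0 → r.1 ≠ 1 → ∀ x ∈ T, ¬ InBox (stdBox (bns t)) x) :
    ∃ us ts : List (Fin d → ℤ),
      List.Forall₂ (fun t u => u ∈ AddSubmonoid.closure (toFn d '' Zt rows t))
        (bif decide (r.1 = 1) then [t] else
          bif decide (r.1 = 0) then (slices P (d + 1) r.2).map (compo t) else []) us ∧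
      List.Forall₂ (fun t u => u = 0 ∨ u ∈ toFn d '' Zt rows t)
        (bif decide (r.1 = 1) then [] else List.replicate m t) ts ∧
      us.sum + ts.sum = (L.map (zfn d t)).sum := by
  by_cases h1 : r.1 = 1
  · simp only [h1, decide_true, cond_true]
    refine ⟨[(L.map (zfn d t)).sum], [], List.Forall₂.cons ?_ List.Forall₂.nil,
      List.Forall₂.nil, by simp⟩
    refine AddSubmonoid.list_sum_mem _ fun x hx => ?_
    rw [List.mem_map] at hx
    obtain ⟨y, hy, rfl⟩ := hx
    exact AddSubmonoid.subset_closure (zfn_mem (hL y hy))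
  · -- the light points
    have hlight : (L.filter fun y => !decide (C ≤ L.count y)).length ≤ m := by
      have h2 := light_card (L : Multiset Vec) C (2 ^ t.2.length) (by
        rw [List.toFinset_coe]; exact hsmall)
      have h3 : ((L : Multiset Vec).filter fun y => (L : Multiset Vec).count y < C).card =
          (L.filter fun y => !decide (C ≤ L.count y)).length := by
        rw [Multiset.filter_coe, Multiset.coe_card]
        congr 1
        refine List.filter_congr fun y _ => ?_
        have e : @List.count Vec instBEqOfDecidableEq y L = L.count y := by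
          have : (instBEqOfDecidableEq : BEq Vec) = List.instBEq := lawful_beq_subsingleton _ _
          rw [this]
        rw [Multiset.coe_count, e]
        by_cases hc : C ≤ L.count y
        · have hc' : ¬ L.count y < C := by omega
          simp only [hc, hc', decide_true, decide_false, Bool.not_true]
        · have hc' : L.count y < C := by omega
          simp only [hc, hc', decide_true, decide_false, Bool.not_false]
      rw [← h3]
      refine h2.trans (le_trans (Nat.mul_le_mul_right _ ?_) hm)
      exact Nat.pow_le_pow_right (by norm_num) hd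
    obtain ⟨ts, ht1, ht2⟩ := singles (fun t => toFn d '' Zt rows t) t m
      ((L.filter fun y => !decide (C ≤ L.count y)).map (zfn d t)) (by simpa using hlight) (by
        intro x hx
        rw [List.mem_map] at hx
        obtain ⟨y, hy, rfl⟩ := hx
        exact zfn_mem (hL y (List.mem_of_mem_filter hy)))
    have hsplit : ((L.filter fun y => decide (C ≤ L.count y)).map (zfn d t)).sum +
        ((L.filter fun y => !decide (C ≤ L.count y)).map (zfn d t)).sum =
          (L.map (zfn d t)).sum := by
      rw [← List.sum_append, ← List.map_append]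
      exact ((List.filter_append_perm (fun y => decide (C ≤ L.count y)) L).map _).sum_eq
    have hheavy' : ∀ y ∈ L.filter fun y => decide (C ≤ L.count y), y ∈ L ∧ y ∈ T := by
      intro y hy
      rw [List.mem_filter] at hy
      exact ⟨hy.1, hheavy y hy.1 (by simpa using hy.2)⟩
    simp only [h1, decide_false, cond_false]
    by_cases h0 : r.1 = 0
    · simp only [h0, decide_true, cond_true]
      obtain ⟨g1, g2, g3⟩ := hr0 h0
      obtain ⟨_, s2, s3⟩ := slices_spec (P := P) (D := d + 1) g1 hP g2
      obtain ⟨us, hu1, hu2⟩ := assign (fun b => AddSubmonoid.closure (toFn d '' Zt rows b))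
        ((slices P (d + 1) r.2).map (compo t))
        ((L.filter fun y => decide (C ≤ L.count y)).map (zfn d t)) (by
          intro x hx
          rw [List.mem_map] at hx
          obtain ⟨y, hy, rfl⟩ := hx
          obtain ⟨hy1, hy2⟩ := hheavy' y hy
          obtain ⟨s, hs, hin⟩ := s3 y (g3 y hy2 (hsub y hy1))
          exact ⟨compo t s, List.mem_map_of_mem hs,
            AddSubmonoid.subset_closure (zfn_compo hwf (s2 s hs).1 (hL y hy1) hin)⟩)
      exact ⟨us, ts, hu1, ht1, by rw [hu2, ht2, hsplit]⟩
    · simp only [h0, decide_false, cond_false]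
      refine ⟨[], ts, List.Forall₂.nil, ht1, ?_⟩
      have hnil : (L.filter fun y => decide (C ≤ L.count y)) = [] := by
        rw [List.eq_nil_iff_forall_not_mem]
        intro y hy
        obtain ⟨hy1, hy2⟩ := hheavy' y hy
        exact hr2 h0 h1 y hy2 (hsub y hy1)
      rw [hnil] at hsplit
      rw [ht2, ← hsplit]
      simp

theorem cG_le_cL' (D : ℕ) : cG D ≤ cL D := by
  unfold cG cL
  refine Nat.pow_le_pow_right (by norm_num) ?_
  calc (D + 6) ^ 4 ≤ (D + 7) ^ 4 := Nat.pow_le_pow_left (by omega) 4
    _ ≤ (D + 7) ^ 5 := Nat.pow_le_pow_right (by omega) (by omega)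

theorem forall₂_getD {β : Type*} {bs : List Box} {us : List β} {p : Box → β → Prop} (u0 : β)
    (h : List.Forall₂ p bs us) : us.length = bs.length ∧
      ∀ i < bs.length, p (bs.getD i ([], [])) (us.getD i u0) := by
  induction h with
  | nil => exact ⟨rfl, fun i hi => absurd hi (by simp)⟩
  | cons h1 _ ih =>
    refine ⟨by simp [ih.1], ?_⟩
    intro i hi
    cases i with
    | zero => simpa using h1
    | succ i =>
      rw [List.getD_cons_succ, List.getD_cons_succ]
      exact ih.2 i (by simpa using hi)

theorem sum_getD {M : Type*} [AddCommMonoid M] (us : List M) :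
    us.sum = ∑ i ∈ Finset.range us.length, us.getD i 0 := by
  rw [← sum_map_range]
  congr 1
  apply List.ext_getElem
  · simp
  · intro i h1 h2
    simp only [List.getElem_map, List.getElem_range]
    rw [List.getD_eq_getElem _ _ h1]

theorem sum_le_nrm (a : Vec) (d : ℕ) : ∑ k : Fin d, toFn d a k ≤ (nrm a : ℤ) := by
  have h1 : ∑ k : Fin d, toFn d a k ≤ ∑ k : Fin d, ((a.getD k 0).natAbs : ℤ) :=
    Finset.sum_le_sum fun k _ => by simp only [toFn]; omega
  refine h1.trans ?_
  rw [← Nat.cast_sum, ← Finset.sum_range (fun k => (a.getD k 0).natAbs)]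
  rw [nrm_eq_sum (n := max d a.length) (le_max_right _ _)]
  exact_mod_cast Finset.sum_le_sum_of_subset (Finset.range_subset_range.2 (le_max_left _ _))

/-- A solution of a node gives a feasible point with the corresponding blocks. -/
theorem exists_point (h : NodeOK P d B R1 R N) (ha : a.length = d) (hrows : PosRows d rows)
    (hR : ∀ t ∈ nbs N, (nrm a + 1) * (1 + (bns t).sum) ≤ R)
    (hN : NodeSol d rows a N) :
    ∃ (F : Vec) (L : ℕ → List Vec) (ts : List (Fin d → ℤ)), F ∈ TF rows a R1 R N ∧
      (∀ i < N.1.length, (∀ y ∈ L i, y ∈ Sh rows (N.1.getD i ([], []))) ∧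
        (L i).toFinset.card ≤ 2 ^ (N.1.getD i ([], [])).2.length ∧
        nblk N F i = mkBlk (N.1.getD i ([], [])).2.length (L i)) ∧
      List.Forall₂ (fun t u => u = 0 ∨ u ∈ toFn d '' Zt rows t) N.2 ts ∧
      ∑ i ∈ Finset.range N.1.length, ((L i).map (zfn d (N.1.getD i ([], [])))).sum + ts.sum =
        toFn d a := by
  obtain ⟨us, ts, hu, ht, hsum⟩ := hN
  obtain ⟨hul, hu'⟩ := forall₂_getD (0 : Fin d → ℤ) hu
  obtain ⟨htl, ht'⟩ := forall₂_getD (0 : Fin d → ℤ) ht
  have hmem1 : ∀ i < N.1.length, N.1.getD i ([], []) ∈ N.1 := by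
    intro i hi
    rw [List.getD_eq_getElem _ _ hi]; exact List.getElem_mem hi
  have hmem2 : ∀ i < N.2.length, N.2.getD i ([], []) ∈ N.2 := by
    intro i hi
    rw [List.getD_eq_getElem _ _ hi]; exact List.getElem_mem hi
  have hwf1 : ∀ i < N.1.length, WF d (N.1.getD i ([], [])) := fun i hi =>
    h.wf _ (List.mem_append_left _ (hmem1 i hi))
  have hwf2 : ∀ i < N.2.length, WF d (N.2.getD i ([], [])) := fun i hi =>
    h.wf _ (List.mem_append_right _ (hmem2 i hi))
  have hfree : ∀ i, ∃ L : List Vec, i < N.1.length →
      (∀ y ∈ L, y ∈ Sh rows (N.1.getD i ([], []))) ∧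
      (L.map (zfn d (N.1.getD i ([], [])))).sum = us.getD i 0 ∧
      L.toFinset.card ≤ 2 ^ (N.1.getD i ([], [])).2.length := by
    intro i
    by_cases hi : i < N.1.length
    · obtain ⟨L, hL⟩ := exists_small (hwf1 i hi) (hu' i hi)
      exact ⟨L, fun _ => hL⟩
    · exact ⟨[], fun h => absurd h hi⟩
  choose L hL using hfree
  have hsing : ∀ j, ∃ M : List Vec, j < N.2.length → M.length ≤ 1 ∧
      (∀ y ∈ M, y ∈ Sh rows (N.2.getD j ([], []))) ∧
      (M.map (zfn d (N.2.getD j ([], [])))).sum = ts.getD j 0 := by
    intro j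
    by_cases hj : j < N.2.length
    · rcases ht' j hj with h0 | ⟨_, ⟨y, hy, rfl⟩, hyz⟩
      · exact ⟨[], fun _ => ⟨by simp, by simp, by rw [h0]; rfl⟩⟩
      · refine ⟨[y], fun _ => ⟨by simp, ?_, ?_⟩⟩
        · intro y' hy'
          rw [List.mem_singleton] at hy'
          rwa [hy']
        · rw [← hyz]
          simp [zfn]
    · exact ⟨[], fun h => absurd h hj⟩
  choose M hM using hsing
  set X : ℕ → Vec := fun i => if i < N.1.length then
    mkBlk (N.1.getD i ([], [])).2.length (L i) else
    mkBlk (N.2.getD (i - N.1.length) ([], [])).2.length (M (i - N.1.length)) with hX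
  have hX1 : ∀ i < N.1.length, X i = mkBlk (N.1.getD i ([], [])).2.length (L i) := fun i hi => by
    simp only [hX, if_pos hi]
  have hX2 : ∀ j < N.2.length, X (N.1.length + j) =
      mkBlk (N.2.getD j ([], [])).2.length (M j) := fun j _ => by
    have e : ¬ (N.1.length + j < N.1.length) := by omega
    simp only [hX, if_neg e, Nat.add_sub_cancel_left]
  have hmk : ∀ n l, (mkBlk n l).length = n + 1 := fun n l => by simp [mkBlk]
  obtain ⟨F, hF1, hF2, hF3⟩ := exists_blocks N X (by
    intro i hi
    rw [length_nbs] at hi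
    rcases Nat.lt_or_ge i N.1.length with h1 | h1
    · rw [hX1 i h1, hmk, getD_nbs_left h1]
    · obtain ⟨j, rfl⟩ := Nat.exists_eq_add_of_le h1
      rw [hX2 j (by omega), hmk, getD_nbs_right (by omega)])
  have hB1 : ∀ i < N.1.length, nblk N F i = mkBlk (N.1.getD i ([], [])).2.length (L i) :=
    fun i hi => by rw [hF2 i (by rw [length_nbs]; omega), hX1 i hi]
  have hB2 : ∀ j < N.2.length, nblk N F (N.1.length + j) =
      mkBlk (N.2.getD j ([], [])).2.length (M j) :=
    fun j hj => by rw [hF2 _ (by rw [length_nbs]; omega), hX2 j hj]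
  have husum : us.sum = ∑ i ∈ Finset.range N.1.length,
      ((L i).map (zfn d (N.1.getD i ([], [])))).sum := by
    rw [sum_getD, hul]
    exact Finset.sum_congr rfl fun i hi => (hL i (Finset.mem_range.1 hi)).2.1.symm
  have htsum : ts.sum = ∑ j ∈ Finset.range N.2.length,
      ((M j).map (zfn d (N.2.getD j ([], [])))).sum := by
    rw [sum_getD, htl]
    exact Finset.sum_congr rfl fun j hj => (hM j (Finset.mem_range.1 hj)).2.2.symm
  -- the lengths of the lists
  have hnn1 : ∀ i ∈ Finset.range N.1.length,
      0 ≤ ∑ k, ((L i).map (zfn d (N.1.getD i ([], [])))).sum k := fun i hi =>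
    Finset.sum_nonneg fun k _ => (list_zfn_nonneg hrows (hwf1 i (Finset.mem_range.1 hi)) _
      (hL i (Finset.mem_range.1 hi)).1).1 k
  have hnn2 : ∀ j ∈ Finset.range N.2.length,
      0 ≤ ∑ k, ((M j).map (zfn d (N.2.getD j ([], [])))).sum k := fun j hj =>
    Finset.sum_nonneg fun k _ => (list_zfn_nonneg hrows (hwf2 j (Finset.mem_range.1 hj)) _
      (hM j (Finset.mem_range.1 hj)).2.1).1 k
  have htot : ∑ i ∈ Finset.range N.1.length,
      ∑ k, ((L i).map (zfn d (N.1.getD i ([], [])))).sum k +
      ∑ j ∈ Finset.range N.2.length, ∑ k, ((M j).map (zfn d (N.2.getD j ([], [])))).sum k ≤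
      (nrm a : ℤ) := by
    have e1 : ∑ k : Fin d, (us.sum + ts.sum) k = ∑ k : Fin d, toFn d a k := by rw [hsum]
    rw [husum, htsum] at e1
    simp only [Pi.add_apply, Finset.sum_apply, Finset.sum_add_distrib] at e1
    rw [Finset.sum_comm, Finset.sum_comm (s := Finset.univ)] at e1
    rw [e1]
    exact sum_le_nrm a d
  have hlen1 : ∀ i < N.1.length, (L i).length ≤ nrm a := by
    intro i hi
    have e1 := (list_zfn_nonneg hrows (hwf1 i hi) _ (hL i hi).1).2
    have e2 := Finset.single_le_sum hnn1 (Finset.mem_range.2 hi)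
    have e3 := Finset.sum_nonneg hnn2
    have e4 : ((L i).length : ℤ) ≤ nrm a := by linarith
    exact_mod_cast e4
  have hlen2 : ∀ j < N.2.length, (M j).length ≤ nrm a := by
    intro j hj
    have e1 := (list_zfn_nonneg hrows (hwf2 j hj) _ (hM j hj).2.1).2
    have e2 := Finset.single_le_sum hnn2 (Finset.mem_range.2 hj)
    have e3 := Finset.sum_nonneg hnn1
    have e4 : ((M j).length : ℤ) ≤ nrm a := by linarith
    exact_mod_cast e4
  refine ⟨F, L, ts, ⟨hF1, ?_, ?_⟩, fun i hi => ⟨(hL i hi).1, (hL i hi).2.2, hB1 i hi⟩, ht, by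
    rw [← husum]; exact hsum⟩
  · have hwf : ∀ t ∈ nbs N, WF a.length t := by rw [ha]; exact h.wf
    refine (fRows_iff hwf hF1).2 ⟨?_, ?_, ?_⟩
    · intro x hx
      obtain ⟨i, hi, hxi⟩ := hF3 x hx
      rw [length_nbs] at hi
      rcases Nat.lt_or_ge i N.1.length with h1 | h1
      · rw [hX1 i h1] at hxi
        exact mkBlk_bound (hL i h1).1 (hlen1 i h1)
          (hR _ (List.mem_append_left _ (hmem1 i h1))) x hxi
      · obtain ⟨j, rfl⟩ := Nat.exists_eq_add_of_le h1
        have hj : j < N.2.length := by omega
        rw [hX2 j hj] at hxi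
        exact mkBlk_bound (hM j hj).2.1 (hlen2 j hj)
          (hR _ (List.mem_append_right _ (hmem2 j hj))) x hxi
    · intro k hk
      have hk' : k < d := by rw [← ha]; exact hk
      rw [length_nbs, Finset.sum_range_add]
      have e1 : ∀ i ∈ Finset.range N.1.length,
          dot (nblk N F i) (((nbs N).getD i ([], [])).1.getD k 0 ::
            (bvs ((nbs N).getD i ([], []))).map fun v => v.getD k 0) =
          ((L i).map (zfn d (N.1.getD i ([], [])))).sum ⟨k, hk'⟩ := by
        intro i hi
        have hi' := Finset.mem_range.1 hi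
        rw [getD_nbs_left hi', hB1 i hi']
        exact isBlk_val (hwf1 i hi') (mkBlk_isBlk _ _) ⟨k, hk'⟩
      have e2 : ∀ j ∈ Finset.range N.2.length,
          dot (nblk N F (N.1.length + j)) (((nbs N).getD (N.1.length + j) ([], [])).1.getD k 0 ::
            (bvs ((nbs N).getD (N.1.length + j) ([], []))).map fun v => v.getD k 0) =
          ((M j).map (zfn d (N.2.getD j ([], [])))).sum ⟨k, hk'⟩ := by
        intro j hj
        have hj' := Finset.mem_range.1 hj
        rw [getD_nbs_right hj', hB2 j hj']
        exact isBlk_val (hwf2 j hj') (mkBlk_isBlk _ _) ⟨k, hk'⟩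
      rw [Finset.sum_congr rfl e1, Finset.sum_congr rfl e2]
      have e3 := congrFun hsum ⟨k, hk'⟩
      rw [husum, htsum] at e3
      simp only [Pi.add_apply, Finset.sum_apply, toFn] at e3
      exact e3
    · intro j hj
      rw [hB2 j hj]
      obtain ⟨m1, m2, _⟩ := hM j hj
      have hhd : (mkBlk (N.2.getD j ([], [])).2.length (M j)).headD 0 = ((M j).length : ℤ) := rfl
      rw [hhd]
      refine ⟨by positivity, by exact_mod_cast m1, fun r hr => ?_⟩
      have htl' : (mkBlk (N.2.getD j ([], [])).2.length (M j)).tail =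
          (List.range (N.2.getD j ([], [])).2.length).map fun k =>
            ((M j).map fun y => y.getD k 0).sum := rfl
      rw [htl']
      cases hMj : M j with
      | nil =>
        have : (List.range (N.2.getD j ([], [])).2.length).map
            (fun k => (([] : List Vec).map fun y : Vec => y.getD k 0).sum) =
            zv (N.2.getD j ([], [])).2.length := by
          unfold zv
          rw [List.eq_replicate_iff]
          refine ⟨by simp, fun x hx => ?_⟩
          rw [List.mem_map] at hx
          obtain ⟨_, _, rfl⟩ := hx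
          rfl
        rw [this, dot_zv_right]
        simp
      | cons y l =>
        rw [hMj] at m1 m2
        have hlnil : l = [] := List.length_eq_zero_iff.1 (by simpa using m1)
        subst hlnil
        have hy := m2 y (by simp)
        have : (List.range (N.2.getD j ([], [])).2.length).map
            (fun k => ([y].map fun y : Vec => y.getD k 0).sum) = y := by
          refine vec_ext (by simp [hy.1]) fun k hk => ?_
          rw [getD_map_range, if_pos (by simpa using hk)]
          simp
        rw [this]
        simpa using hy.2 r hr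
  · intro i hi g hg
    rw [hB1 i hi, mkBlk_dot hg.1]
    refine List.sum_nonneg fun x hx => ?_
    rw [List.mem_map] at hx
    obtain ⟨y, hy, rfl⟩ := hx
    exact hg.2.2 y ((hL i hi).1 y hy)

/-- Completeness. -/
theorem node_complete (h : NodeOK P d B R1 R N) (ha : a.length = d) (hrows : PosRows d rows)
    (hR : ∀ t ∈ nbs N, (nrm a + 1) * (1 + (bns t).sum) ≤ R)
    (hP : cSing d (ndim N) ≤ P)
    (hN : NodeSol d rows a N) :
    ∃ F ∈ flv P d B rows a R1 R N, child P d B rows R1 N F = none ∨
      ∃ N', child P d B rows R1 N F = some N' ∧ NodeSol d rows a N' := by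
  obtain ⟨F, L, ts, hF, hL, ht, hsum⟩ := exists_point h ha hrows hR hN
  obtain ⟨_, hmemTF, hcen⟩ := flv_spec (rows := rows) h ha
  obtain ⟨F0, hF0, hc⟩ := hcen F hF
  refine ⟨F0, hF0, ?_⟩
  have hF0' := hmemTF F0 hF0
  set os : List (Box × (ℕ × Box)) := (List.range N.1.length).map fun i =>
    (N.1.getD i ([], []), outc P d B rows R1 N F0 i) with hos
  have hchild : child P d B rows R1 N F0 =
      bif os.all (fun o => decide (o.2.1 = 1)) then none else
      some (os.flatMap (fun o => bif decide (o.2.1 = 1) then [o.1] else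
        bif decide (o.2.1 = 0) then (slices P (d + 1) o.2.2).map (compo o.1) else []),
      N.2 ++ os.flatMap fun o => bif decide (o.2.1 = 1) then [] else
        List.replicate (min P (cSing d (ndim N))) o.1) := rfl
  cases hall : os.all (fun o => decide (o.2.1 = 1)) with
  | true => left; rw [hchild, hall]; rfl
  | false =>
    right
    refine ⟨_, by rw [hchild, hall]; rfl, ?_⟩
    have hmem1 : ∀ i < N.1.length, N.1.getD i ([], []) ∈ N.1 := by
      intro i hi
      rw [List.getD_eq_getElem _ _ hi]; exact List.getElem_mem hi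
    have hone : ∀ i, ∃ ul tl : List (Fin d → ℤ), i < N.1.length →
        List.Forall₂ (fun t u => u ∈ AddSubmonoid.closure (toFn d '' Zt rows t))
          (bif decide ((outc P d B rows R1 N F0 i).1 = 1) then [N.1.getD i ([], [])] else
            bif decide ((outc P d B rows R1 N F0 i).1 = 0) then
              (slices P (d + 1) (outc P d B rows R1 N F0 i).2).map (compo (N.1.getD i ([], [])))
            else []) ul ∧
        List.Forall₂ (fun t u => u = 0 ∨ u ∈ toFn d '' Zt rows t)
          (bif decide ((outc P d B rows R1 N F0 i).1 = 1) then [] else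
            List.replicate (min P (cSing d (ndim N))) (N.1.getD i ([], []))) tl ∧
        ul.sum + tl.sum = ((L i).map (zfn d (N.1.getD i ([], [])))).sum := by
      intro i
      by_cases hi : i < N.1.length
      · obtain ⟨l1, l2, l3⟩ := hL i hi
        have hmem := List.mem_append_left N.2 (hmem1 i hi)
        have hty := h.ty _ hmem
        have hdim : (N.1.getD i ([], [])).2.length ≤ d := by have := hty.dim; omega
        by_cases h0 : (N.1.getD i ([], [])).2 = []
        · have e := outc_nil (P := P) (d := d) (B := B) (rows := rows) (R1 := R1) (F := F0) h0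
          obtain ⟨ul, tl, q1, q2, q3⟩ := replace_one (t := N.1.getD i ([], []))
            (r := outc P d B rows R1 N F0 i) (L := L i) (T := Set.univ)
            (C := 0) (m := min P (cSing d (ndim N))) (h.wf _ hmem) hdim l1 l2
            (fun _ _ _ => Set.mem_univ _) (by simp) hty.pad (fun y hy => sh_inBox (l1 y hy))
            (fun hr => by rw [e] at hr; simp at hr)
            (fun _ hr => by rw [e] at hr; simp at hr)
          exact ⟨ul, tl, fun _ => ⟨q1, q2, q3⟩⟩
        · have e := outc_eq (P := P) (d := d) (B := B) (rows := rows) (R1 := R1) (F := F0) hi h0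
          obtain ⟨H, hH, hBH⟩ := hty.bd
          have hlb : (nblk N F0 i).length = (N.1.getD i ([], [])).2.length + 1 := by
            rw [length_nblk, getD_nbs_left hi]
          have hv := zorc_valid (rows := rows) (C1 := 2 * d + 4) hty hlb (by omega)
          have hw : WF (N.1.getD i ([], [])).2.length (stdBox (bns (N.1.getD i ([], [])))) := by
            have := stdBox_wf (bns (N.1.getD i ([], [])))
            rwa [length_bns] at this
          have hs := sand_spec (P := P) (D := d + 1) (B := B) (H := H) hv hw
            (by intro hh; apply h0; have := length_stdBox (bns (N.1.getD i ([], [])))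
                rw [hh] at this
                simp only [List.length_nil, length_bns] at this
                exact List.length_eq_zero_iff.1 this.symm)
            (by rw [length_stdBox, length_bns]; omega) ((cM_le_cw' _).trans hty.pad)
            (by rw [ext_stdBox]; exact hH)
            (le_trans (Nat.mul_le_mul (cG_le_cL' _) (Nat.mul_le_mul_right _ (by omega))) hBH)
          rw [← e] at hs
          obtain ⟨g0, g1, _, g3⟩ := hs
          obtain ⟨ul, tl, q1, q2, q3⟩ := replace_one (t := N.1.getD i ([], []))
            (r := outc P d B rows R1 N F0 i) (L := L i)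
            (T := Tp rows (N.1.getD i ([], [])) R1 (2 * d + 4) (nblk N F0 i))
            (C := (2 * d + 4) * (ndim N * cM (ndim N) + 1)) (m := min P (cSing d (ndim N)))
            (h.wf _ hmem) hdim l1 l2
            (fun y hy hcount => heavy hi hc hF0'.1 hF.1 l1 l3 hy hcount)
            (by rw [min_eq_right hP]; exact le_rfl) hty.pad (fun y hy => sh_inBox (l1 y hy))
            (fun hr => by
              obtain ⟨a1, a2, a3, a4, _⟩ := g1 hr
              exact ⟨a1, a4, a3⟩)
            (fun hr0 hr1 => g3 (by omega))
          exact ⟨ul, tl, fun _ => ⟨q1, q2, q3⟩⟩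
      · exact ⟨[], [], fun h => absurd h hi⟩
    choose ul tl hut using hone
    refine ⟨(List.range N.1.length).flatMap ul, ts ++ (List.range N.1.length).flatMap tl, ?_, ?_, ?_⟩
    · rw [hos, List.flatMap_map]
      exact forall₂_flatMap _ _ _ _ fun i hi => (hut i hi).1
    · refine List.rel_append ht ?_
      rw [hos, List.flatMap_map]
      exact forall₂_flatMap _ _ _ _ fun i hi => (hut i hi).2.1
    · rw [List.sum_append, sum_flatMap_range, sum_flatMap_range, ← hsum]
      have e1 : ∑ i ∈ Finset.range N.1.length, ((L i).map (zfn d (N.1.getD i ([], [])))).sum =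
          ∑ i ∈ Finset.range N.1.length, (ul i).sum + ∑ i ∈ Finset.range N.1.length, (tl i).sum := by
        rw [← Finset.sum_add_distrib]
        exact Finset.sum_congr rfl fun i hi => (hut i (Finset.mem_range.1 hi)).2.2.symm
      rw [e1]
      abel

end Run7.h960
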