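import Pool.Agent.Run7.h960.LemAp

set_option autoImplicit false

/-!
# Fat types decompose (see the imported files)
-/
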