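import Pool.Agent.Run7.h960.NodeB
import Pool.Agent.Run7.h960.LemA

set_option autoImplicit false

/-!
# Soundness of the answer
-/

namespace Run7.h960

open Pool.Agent.NPC
open Pool.Agent.H687R2.LLL (dot nrm lllStep cnt fsts gsr)

variable {P d B R R1 H : ℕ} {rows : Rows} {a F : Vec} {N : Node}

/-- Integral points of the convex hull of a type belong to the type. -/
theorem sh_conv {t : Box} (x : Fin t.2.length → ℤ)
    (hx : (fun i => (x i : ℝ)) ∈ convexHull ℝ
      ((fun (x : Fin t.2.length → ℤ) (i : Fin t.2.length) => (x i : ℝ)) ''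
        (toFn t.2.length '' Sh rows t))) : x ∈ toFn t.2.length '' Sh rows t := by
  refine ⟨List.ofFn x, ⟨by simp, fun r hr => ?_⟩, toFn_ofFn x⟩
  have hsum : ∀ y : Vec, dot r.1 y = ∑ i : Fin t.2.length, r.1.getD i 0 * y.getD i 0 := by
    intro y
    rw [dot_eq_sum (N := t.2.length) (Or.inl (yrows_len r hr).le), Finset.sum_range]
  have hconv : Convex ℝ {w : Fin t.2.length → ℝ |
      ∑ i : Fin t.2.length, ((r.1.getD i 0 : ℤ) : ℝ) * w i ≤ (r.2 : ℝ)} := by
    intro u hu v hv α β hα hβ hαβ
    simp only [Set.mem_setOf_eq, Pi.add_apply, Pi.smul_apply, smul_eq_mul] at hu hv ⊢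
    have e : ∑ i : Fin t.2.length, ((r.1.getD i 0 : ℤ) : ℝ) * (α * u i + β * v i) =
        α * ∑ i : Fin t.2.length, ((r.1.getD i 0 : ℤ) : ℝ) * u i +
        β * ∑ i : Fin t.2.length, ((r.1.getD i 0 : ℤ) : ℝ) * v i := by
      rw [Finset.mul_sum, Finset.mul_sum, ← Finset.sum_add_distrib]
      exact Finset.sum_congr rfl fun i _ => by ring
    rw [e]
    have e2 : (r.2 : ℝ) = α * r.2 + β * r.2 := by rw [← add_mul, hαβ, one_mul]
    rw [e2]
    exact add_le_add (mul_le_mul_of_nonneg_left hu hα) (mul_le_mul_of_nonneg_left hv hβ)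
  have hsub : (fun (x : Fin t.2.length → ℤ) (i : Fin t.2.length) => (x i : ℝ)) ''
      (toFn t.2.length '' Sh rows t) ⊆ {w : Fin t.2.length → ℝ |
      ∑ i : Fin t.2.length, ((r.1.getD i 0 : ℤ) : ℝ) * w i ≤ (r.2 : ℝ)} := by
    rintro _ ⟨_, ⟨y, hy, rfl⟩, rfl⟩
    simp only [Set.mem_setOf_eq, toFn]
    have := hy.2 r hr
    rw [hsum] at this
    exact_mod_cast this
  have h1 := convexHull_min hsub hconv hx
  simp only [Set.mem_setOf_eq] at h1
  rw [hsum]
  have h2 : ∀ i : Fin t.2.length, (List.ofFn x).getD i 0 = x i := fun i => by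
    have := congrFun (toFn_ofFn x) i
    exact this
  rw [Finset.sum_congr rfl fun i _ => by rw [h2 i]]
  exact_mod_cast h1

theorem sq_le_cM (d n : ℕ) (h : n ≤ d) : n * (n + 1) ≤ 8 * cM (d + 1) := by
  have h1 : d + 1 ≤ 2 ^ (d + 1) := Nat.lt_two_pow_self.le
  have h2 : n * (n + 1) ≤ 2 ^ (d + 1) * 2 ^ (d + 1) := Nat.mul_le_mul (by omega) (by omega)
  rw [← pow_add] at h2
  have h3 : 2 ^ (d + 1 + (d + 1)) ≤ cM (d + 1) := by
    unfold cM
    refine Nat.pow_le_pow_right (by norm_num) ?_
    nlinarith [Nat.zero_le d, sq_nonneg d]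
  omega

/-- A fat type decomposes. -/
theorem fat_type {t : Box} (h : TyOK P (d + 1) B R1 t) (h1 : t.2 ≠ [])
    (hF : F.length = t.2.length + 1) (hFR : ∀ x ∈ F, x.natAbs ≤ R)
    (hH : ((bns t).map fun m => 2 * (m + 1)).sum ≤ 2 ^ H)
    (hB : cG (d + 1) * ((d + 1) * (H + 1)) ≤ B)
    (hR : (8 * (d + 1) * (2 ^ (cS (d + 1) * (H + 1)) + 1) * (R + 1) * (2 * d + 5)) ^ (2 * d + 6) ≤
      R1)
    (hs : (sand P (d + 1) B (zorc P (d + 1) B rows t R1 (2 * d + 4) F) (stdBox (bns t))).1 = 1) :
    ∃ L : List Vec, (∀ y ∈ L, y ∈ Sh rows t) ∧ IsBlk t F L := by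
  set n := t.2.length with hn
  have hnd : n ≤ d := by have := h.dim; omega
  have hv := zorc_valid (rows := rows) (C1 := 2 * d + 4) h hF (by omega)
  have hw : WF n (stdBox (bns t)) := by
    have := stdBox_wf (bns t)
    rwa [length_bns] at this
  have hsand := sand_spec (P := P) (D := d + 1) (B := B) (H := H) hv hw
    (by intro h0; apply h1; have := length_stdBox (bns t); rw [h0] at this
        simp only [List.length_nil, length_bns] at this
        exact List.length_eq_zero_iff.1 this.symm)
    (by rw [length_stdBox, length_bns]; omega) ((cM_le_cw' _).trans h.pad)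
    (by rw [ext_stdBox]; exact hH) (le_trans (Nat.mul_le_mul_left _ (Nat.mul_le_mul (by omega)
      (by omega))) hB)
  obtain ⟨s1, s2, s3, s4, s5, _⟩ := hsand.2.2.1 hs
  set r := (sand P (d + 1) B (zorc P (d + 1) B rows t R1 (2 * d + 4) F) (stdBox (bns t))).2
  rw [length_stdBox, length_bns] at s2
  set X := 2 ^ (cS (d + 1) * (H + 1)) with hX
  have hHX : 2 ^ H ≤ X := Nat.pow_le_pow_right (by norm_num) (by
    have : 1 ≤ cS (d + 1) := Nat.one_le_pow _ _ (by omega)
    nlinarith)
  -- the basis
  set b : Fin n → Fin n → ℤ := fun i => toFn n ((bvs r).getD i []) with hb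
  have hbmem : ∀ i : Fin n, (bvs r).getD i [] ∈ bvs r := fun i => by
    rw [List.getD_eq_getElem _ _ (by rw [length_bvs, s2]; exact i.2)]
    exact List.getElem_mem _
  have hblen : ∀ i : Fin n, ((bvs r).getD i []).length = n := fun i => s1.bvs_len _ (hbmem i)
  choose m hm1 hm2 hm3 using fun i : Fin n => s5.2 _ (hbmem i)
  have hz0 : r.1 ∈ Sh rows t := s5.1.1
  have hr1 : r.1.length = n := s1.1
  have hstep : ∀ (i : Fin n) (c : ℤ), toFn n (lin r.1 [(bvs r).getD i []] [c]) =
      toFn n r.1 + c • b i := by
    intro i c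
    funext k
    simp only [toFn, Pi.add_apply, Pi.smul_apply, smul_eq_mul, hb]
    rw [getD_lin (by rw [hr1]; exact k.2)]
    simp only [List.map_cons, List.map_nil, dot_cons, dot_nil_left, add_zero]
  obtain ⟨L, hL1, hL2, hL3⟩ := lemmaA' (n := n) (toFn n '' Sh rows t) X
    (by
      rintro _ ⟨y, hy, rfl⟩ i
      have h2 : (y.getD i 0).natAbs ≤ (bns t).getD i 0 :=
        mem_boxRows (fun r' hr' => hy.2 r' (List.mem_append_right _ hr')) i
          (by rw [length_bns]; exact i.2)
      have h3 : (bns t).getD i 0 ≤ 2 ^ H := by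
        refine le_trans ?_ hH
        rw [List.getD_eq_getElem _ _ (by rw [length_bns]; exact i.2)]
        have h4 := List.single_le_sum (l := (bns t).map fun m => 2 * (m + 1)) (by simp)
          _ (List.mem_map_of_mem (List.getElem_mem (by rw [length_bns]; exact i.2 :
            (i : ℕ) < (bns t).length)))
        omega
      change |y.getD i 0| ≤ (X : ℤ)
      rw [Int.abs_eq_natAbs]
      exact_mod_cast h2.trans (h3.trans hHX))
    (fun x hx => sh_conv x hx) b
    (by
      intro v
      have hlat : Lat (stdBox (bns t)) (List.ofFn v) := by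
        refine ⟨List.ofFn v, by rw [length_stdBox, length_bns, List.length_ofFn], ?_⟩
        have h2 : (stdBox (bns t)).1 = zv (stdBox (bns t)).1.length := by simp [stdBox]
        rw [← h2, lin_stdBox (by rw [length_bns, List.length_ofFn])]
      obtain ⟨y, hy1, hy2⟩ := s3 _ hlat
      rw [s2] at hy1
      refine ⟨fun i => y.getD i 0, ?_⟩
      rw [← toFn_ofFn v, hy2]
      funext k
      rw [Finset.sum_apply]
      simp only [toFn, Pi.smul_apply, smul_eq_mul, hb]
      rw [getD_lin_sum (by rw [length_zv, hr1]; exact k.2), getD_zv, zero_add, length_bvs, s2,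
        Finset.sum_range])
    (by
      intro i k
      change |((bvs r).getD i []).getD k 0| ≤ (X : ℤ)
      rw [Int.abs_eq_natAbs]
      have h2 := natAbs_getD_le_nrm ((bvs r).getD i []) k
      have h3 : nrm ((bvs r).getD i []) + 1 ≤ ext r := by
        have h4 := hbmem i
        unfold bvs at h4
        rw [List.mem_map] at h4
        obtain ⟨p, hp, hp2⟩ := h4
        unfold bvs
        rw [← hp2]
        exact bvs_lt_ext hp
      exact_mod_cast h2.trans ((Nat.le_succ _).trans (h3.trans s4)))
    (fun i => (m i : ℤ))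
    (by
      intro i
      have h2 := sq_le_cM d n hnd
      have h3 := hm1 i
      exact_mod_cast h2.trans h3)
    (toFn n r.1) ⟨r.1, hz0, rfl⟩
    (by
      intro i
      refine ⟨⟨_, (hm2 i).1, hstep i _⟩, ⟨_, (hm3 i).1, ?_⟩⟩
      refine (hstep i _).trans ?_
      rw [neg_smul, sub_eq_add_neg])
    (2 * d + 4) R R1 (by omega) (F.headD 0) (fun i => F.getD (i + 1) 0)
    (by
      rw [Int.abs_eq_natAbs]
      have hne : F ≠ [] := by rintro rfl; simp at hF
      have : F.headD 0 ∈ F := by
        cases F with
        | nil => exact absurd rfl hne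
        | cons x F => simp
      exact_mod_cast hFR _ this)
    (by
      intro i
      rw [Int.abs_eq_natAbs, List.getD_eq_getElem _ _ (by rw [hF]; omega)]
      exact_mod_cast hFR _ (List.getElem_mem _))
    (by
      refine le_trans ?_ hR
      calc (8 * (n + 1) * (X + 1) * (R + 1) * (2 * d + 4 + 1)) ^ (2 * n + 6)
          ≤ (8 * (d + 1) * (X + 1) * (R + 1) * (2 * d + 5)) ^ (2 * n + 6) := by
            refine Nat.pow_le_pow_left ?_ _
            gcongr
        _ ≤ _ := Nat.pow_le_pow_right (by positivity) (by omega))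
    (by
      intro g0 g hg0 hg hgS
      set gl : Vec := g0 :: List.ofFn g with hgl
      have hdot : ∀ (c : ℤ) (y : Vec), y.length = n → dot gl (c :: y) =
          g0 * c + ∑ i : Fin n, g i * y.getD i 0 := by
        intro c y hy
        rw [hgl, dot_cons, dot_eq_sum (N := n) (Or.inl (by simp)), Finset.sum_range]
        congr 1
        refine Finset.sum_congr rfl fun i _ => ?_
        have : (List.ofFn g).getD i 0 = g i := congrFun (toFn_ofFn g) i
        rw [this]
      have htest : gl ∈ Test rows t R1 := by
        refine ⟨by simp [hgl, hn], ?_, ?_⟩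
        · intro x hx
          rw [hgl, List.mem_cons, List.mem_ofFn] at hx
          rcases hx with rfl | ⟨i, rfl⟩
          · rw [Int.abs_eq_natAbs] at hg0; exact_mod_cast hg0
          · have := hg i
            rw [Int.abs_eq_natAbs] at this; exact_mod_cast this
        · intro y hy
          rw [hdot 1 y hy.1, mul_one]
          exact hgS _ ⟨y, hy, rfl⟩
      have h2 := s5.1.2 gl htest
      have hl : F.length = ((1 :: r.1).map fun x => ((2 * d + 4 : ℕ) : ℤ) * x).length := by
        rw [hF, List.length_map, List.length_cons, hr1]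
      rw [dot_vsub hl, dot_smul, hdot 1 r.1 hr1] at h2
      have hFc : F = F.headD 0 :: F.tail := by
        cases F with
        | nil => simp at hF
        | cons x F => rfl
      have hFt : F.tail.length = n := by rw [List.length_tail, hF]; rfl
      rw [hFc, hdot _ _ hFt] at h2
      have h3 : ∑ i : Fin n, g i * (F.getD (i + 1) 0 - ((2 * d + 4 : ℕ) : ℤ) * toFn n r.1 i) =
          ∑ i : Fin n, g i * F.tail.getD i 0 -
            ((2 * d + 4 : ℕ) : ℤ) * ∑ i : Fin n, g i * r.1.getD i 0 := by
        rw [Finset.mul_sum, ← Finset.sum_sub_distrib]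
        refine Finset.sum_congr rfl fun i _ => ?_
        rw [getD_tail]
        simp only [toFn]
        ring
      rw [h3]
      linarith)
  refine ⟨L.map fun y => List.ofFn y, ?_, hF, ?_, ?_⟩
  · intro y hy
    rw [List.mem_map] at hy
    obtain ⟨x, hx, rfl⟩ := hy
    obtain ⟨v, hv1, hv2⟩ := hL1 x hx
    rw [← hv2, ofFn_toFn hv1.1]
    exact hv1
  · rw [List.length_map]; exact hL2
  · intro k hk
    have h2 := congrFun hL3 ⟨k, hk⟩
    rw [List.map_map]
    have h3 : ∀ l : List (Fin n → ℤ), l.sum ⟨k, hk⟩ =
        (l.map ((fun y : Vec => y.getD k 0) ∘ fun y => List.ofFn y)).sum := by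
      intro l
      induction l with
      | nil => simp
      | cons x l ih =>
        rw [List.sum_cons, Pi.add_apply, ih, List.map_cons, List.sum_cons]
        congr 1
        exact (congrFun (toFn_ofFn x) ⟨k, hk⟩).symm
    rw [← h3, h2]

/-- A type without vectors decomposes. -/
theorem zero_type {t : Box} (h1 : t.2 = []) (hF : F.length = t.2.length + 1) (hR1 : 1 ≤ R1)
    (hK : Kt rows t R1 F) : ∃ L : List Vec, (∀ y ∈ L, y ∈ Sh rows t) ∧ IsBlk t F L := by
  have hl : t.2.length = 0 := by rw [h1]; rfl
  rw [hl] at hF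
  obtain ⟨x, rfl⟩ := List.length_eq_one_iff.1 hF
  have hnat : ∀ c : ℤ, c.natAbs ≤ 1 → ∀ y ∈ ([c] : Vec), y.natAbs ≤ R1 := by
    intro c hc y hy
    rw [List.mem_singleton] at hy
    subst hy
    omega
  by_cases hne : ([] : Vec) ∈ Sh rows t
  · have h2 := hK [1] ⟨by simp [hl], hnat 1 (by norm_num), fun y _ => by simp⟩
    simp only [dot_cons, dot_nil_left, one_mul, add_zero] at h2
    refine ⟨List.replicate x.toNat [], ?_, by simp [hl], ?_, ?_⟩
    · intro y hy
      rw [List.eq_of_mem_replicate hy]
      exact hne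
    · simp [h2]
    · intro k hk
      omega
  · have hemp : ∀ y, y ∉ Sh rows t := by
      intro y hy
      apply hne
      have : y = [] := List.length_eq_zero_iff.1 (by rw [hy.1, hl])
      rwa [this] at hy
    have h2 := hK [1] ⟨by simp [hl], hnat 1 (by norm_num), fun y hy => absurd hy (hemp y)⟩
    have h3 := hK [-1] ⟨by simp [hl], hnat (-1) (by norm_num), fun y hy => absurd hy (hemp y)⟩
    simp only [dot_cons, dot_nil_left, one_mul, add_zero, neg_mul] at h2 h3
    refine ⟨[], by simp, by simp [hl], ?_, ?_⟩
    · simp only [List.length_nil, List.headD_cons]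
      push_cast
      omega
    · intro k hk
      omega

/-- Soundness. -/
theorem node_sound (h : NodeOK P d B R1 R N) (ha : a.length = d)
    (hR1 : ∀ t ∈ N.1, ∃ H, ((bns t).map fun m => 2 * (m + 1)).sum ≤ 2 ^ H ∧
      cG (d + 1) * ((d + 1) * (H + 1)) ≤ B ∧
      (8 * (d + 1) * (2 ^ (cS (d + 1) * (H + 1)) + 1) * (R + 1) * (2 * d + 5)) ^ (2 * d + 6) ≤ R1)
    (hF : F ∈ TF rows a R1 R N) (hc : child P d B rows R1 N F = none) :
    NodeSol d rows a N := by
  have hwf : ∀ t ∈ nbs N, WF a.length t := by rw [ha]; exact h.wf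
  obtain ⟨f1, f2, f3⟩ := (fRows_iff hwf hF.1).1 hF.2.1
  have hmem : ∀ i < N.1.length, N.1.getD i ([], []) ∈ N.1 := by
    intro i hi
    rw [List.getD_eq_getElem _ _ hi]; exact List.getElem_mem hi
  have hmem2 : ∀ i < N.2.length, N.2.getD i ([], []) ∈ N.2 := by
    intro i hi
    rw [List.getD_eq_getElem _ _ hi]; exact List.getElem_mem hi
  have hblkR : ∀ i, ∀ x ∈ nblk N F i, x.natAbs ≤ R := by
    intro i x hx
    rw [nblk, blk, List.mem_map] at hx
    obtain ⟨j, _, rfl⟩ := hx
    rcases Nat.lt_or_ge (off (nbs N) i + j) F.length with hj | hj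
    · rw [List.getD_eq_getElem _ _ hj]; exact f1 _ (List.getElem_mem hj)
    · rw [List.getD_eq_default _ _ hj]; simp
  -- the outcomes
  have hout : ∀ i < N.1.length, (outc P d B rows R1 N F i).1 = 1 := by
    intro i hi
    have hc' : (bif ((List.range N.1.length).map fun i =>
        (N.1.getD i ([], []), outc P d B rows R1 N F i)).all (fun o => decide (o.2.1 = 1)) then
        (none : Option Node) else some (((List.range N.1.length).map fun i =>
        (N.1.getD i ([], []), outc P d B rows R1 N F i)).flatMap (fun o =>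
          bif decide (o.2.1 = 1) then [o.1] else
          bif decide (o.2.1 = 0) then (slices P (d + 1) o.2.2).map (compo o.1) else []),
      N.2 ++ ((List.range N.1.length).map fun i =>
        (N.1.getD i ([], []), outc P d B rows R1 N F i)).flatMap fun o =>
          bif decide (o.2.1 = 1) then [] else
        List.replicate (min P (cSing d (ndim N))) o.1)) = none := hc
    cases hall : ((List.range N.1.length).map fun i =>
        (N.1.getD i ([], []), outc P d B rows R1 N F i)).all (fun o => decide (o.2.1 = 1)) with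
    | false => rw [hall] at hc'; simp at hc'
    | true =>
      rw [List.all_eq_true] at hall
      have := hall _ (List.mem_map.2 ⟨i, List.mem_range.2 hi, rfl⟩)
      simpa using this
  -- decompositions of the free types
  have hfree : ∀ i, ∃ L : List Vec, i < N.1.length → (∀ y ∈ L, y ∈ Sh rows (N.1.getD i ([], []))) ∧
      IsBlk (N.1.getD i ([], [])) (nblk N F i) L := by
    intro i
    by_cases hi : i < N.1.length
    · have hK := hF.2.2 i hi
      have hl : (nblk N F i).length = (N.1.getD i ([], [])).2.length + 1 := by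
        rw [length_nblk, getD_nbs_left hi]
      have hty := h.ty _ (List.mem_append_left _ (hmem i hi))
      obtain ⟨H, hH, hB, hRH⟩ := hR1 _ (hmem i hi)
      by_cases h0 : (N.1.getD i ([], [])).2 = []
      · obtain ⟨L, hL⟩ := zero_type h0 hl (le_trans (Nat.one_le_pow _ _ (by positivity)) hRH) hK
        exact ⟨L, fun _ => hL⟩
      · have hs := hout i hi
        have hs' : (sand P (d + 1) B (zorc P (d + 1) B rows (N.1.getD i ([], [])) R1 (2 * d + 4)
            (nblk N F i)) (stdBox (bns (N.1.getD i ([], []))))).1 = 1 := by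
          have e := outc_eq (P := P) (d := d) (B := B) (rows := rows) (R1 := R1) (F := F) hi h0
          rw [e] at hs
          exact hs
        obtain ⟨L, hL⟩ := fat_type hty h0 hl (hblkR i) hH hB hRH hs'
        exact ⟨L, fun _ => hL⟩
    · exact ⟨[], fun h => absurd h hi⟩
  choose L hL using hfree
  -- the single types
  have hsing : ∀ i, ∃ L : List Vec, i < N.2.length → L.length ≤ 1 ∧
      (∀ y ∈ L, y ∈ Sh rows (N.2.getD i ([], []))) ∧
      IsBlk (N.2.getD i ([], [])) (nblk N F (N.1.length + i)) L := by
    intro i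
    by_cases hi : i < N.2.length
    · obtain ⟨g1, g2, g3⟩ := f3 i hi
      have hl : (nblk N F (N.1.length + i)).length = (N.2.getD i ([], [])).2.length + 1 := by
        rw [length_nblk, getD_nbs_right hi]
      set X := nblk N F (N.1.length + i) with hX
      have hcase : X.headD 0 = 0 ∨ X.headD 0 = 1 := by omega
      rcases hcase with h0 | h0
      · refine ⟨[], fun _ => ⟨by simp, by simp, hl, by rw [h0]; rfl, ?_⟩⟩
        intro k hk
        have h1 : ∀ r ∈ boxRows (List.replicate (N.2.getD i ([], [])).2.length 0),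
            dot r.1 X.tail ≤ r.2 := by
          refine boxRows_of fun k hk => ?_
          have hk' : k < (N.2.getD i ([], [])).2.length := by simpa using hk
          rw [List.getD_eq_getElem _ _ hk, List.getElem_replicate]
          have hr1 := g3 (unitV (bns (N.2.getD i ([], []))).length k,
            ((bns (N.2.getD i ([], []))).getD k 0 : ℤ)) (by
              unfold yrows boxRows
              exact List.mem_append_right _ (List.mem_flatMap.2 ⟨k, List.mem_range.2
                (by rw [length_bns]; exact hk'), by simp⟩))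
          have hr2 := g3 (nneg (unitV (bns (N.2.getD i ([], []))).length k),
            ((bns (N.2.getD i ([], []))).getD k 0 : ℤ)) (by
              unfold yrows boxRows
              exact List.mem_append_right _ (List.mem_flatMap.2 ⟨k, List.mem_range.2
                (by rw [length_bns]; exact hk'), by simp⟩))
          simp only [dot_nneg, dot_unitV X.tail
            (show k < (bns (N.2.getD i ([], []))).length by rw [length_bns]; exact hk'),
            h0, mul_zero] at hr1 hr2
          omega
        have h2 := mem_boxRows h1 k (by simpa using hk)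
        rw [List.getD_eq_getElem (List.replicate _ 0) _ (by simpa using hk),
          List.getElem_replicate] at h2
        rw [← getD_tail]
        simp only [List.map_nil, List.sum_nil]
        omega
      · refine ⟨[X.tail], fun _ => ⟨by simp, ?_, hl, by rw [h0]; rfl, ?_⟩⟩
        · intro y hy
          rw [List.mem_singleton] at hy
          subst hy
          refine ⟨by rw [List.length_tail, hl]; rfl, fun r hr => ?_⟩
          have := g3 r hr
          rwa [h0, mul_one] at this
        · intro k hk
          rw [← getD_tail]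
          simp
    · exact ⟨[], fun h => absurd h hi⟩
  choose M hM using hsing
  refine ⟨(List.range N.1.length).map fun i => ((L i).map (zfn d (N.1.getD i ([], [])))).sum,
    (List.range N.2.length).map fun i => ((M i).map (zfn d (N.2.getD i ([], [])))).sum,
    forall₂_range _ _ _ ?_, forall₂_range _ _ _ ?_, ?_⟩
  · intro i hi
    refine AddSubmonoid.list_sum_mem _ fun x hx => ?_
    rw [List.mem_map] at hx
    obtain ⟨y, hy, rfl⟩ := hx
    exact AddSubmonoid.subset_closure (zfn_mem ((hL i hi).1 y hy))
  · intro i hi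
    obtain ⟨m1, m2, _⟩ := hM i hi
    cases hMi : M i with
    | nil => left; simp
    | cons y l =>
      right
      rw [hMi] at m1 m2
      have hlnil : l = [] := List.length_eq_zero_iff.1 (by simpa using m1)
      subst hlnil
      simp only [List.map_cons, List.map_nil, List.sum_cons, List.sum_nil, add_zero]
      exact zfn_mem (m2 y (by simp))
  · funext k
    have hk : (k : ℕ) < a.length := by rw [ha]; exact k.2
    have h2 := f2 k hk
    change _ = a.getD k 0
    rw [← h2, length_nbs, Finset.sum_range_add, Pi.add_apply]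
    have hs : ∀ (n : ℕ) (f : ℕ → Fin d → ℤ), ((List.range n).map f).sum k =
        ∑ i ∈ Finset.range n, f i k := by
      intro n f
      rw [sum_map_range, Finset.sum_apply]
    rw [hs, hs]
    congr 1
    · refine Finset.sum_congr rfl fun i hi => ?_
      have hi' := Finset.mem_range.1 hi
      rw [getD_nbs_left hi']
      exact (isBlk_val (h.wf _ (List.mem_append_left _ (hmem i hi'))) (hL i hi').2 k).symm
    · refine Finset.sum_congr rfl fun i hi => ?_
      have hi' := Finset.mem_range.1 hi
      rw [getD_nbs_right hi']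
      exact (isBlk_val (h.wf _ (List.mem_append_right _ (hmem2 i hi'))) (hM i hi').2.2 k).symm

end Run7.h960
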