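import Pool.Agent.Run7.h960.AlgoA
import Pool.Agent.Run7.h960.NodeS
import Pool.Agent.Run7.h960.NodeC

set_option autoImplicit false

/-!
# The bounds
-/

namespace Run7.h960

open Pool.Agent.NPC
open Pool.Agent.H687R2.LLL (dot nrm lllStep cnt fsts gsr)

/-- bound for the number of coordinates after `k` rounds -/
def dSeq (d : ℕ) : ℕ → ℕ
  | 0 => d + 1
  | k + 1 => dSeq d k * (cW d + 1 + cSing d (dSeq d k))

/-- bound for the bit lengths after `k` rounds -/
def hSeq (d : ℕ) : ℕ → ℕ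
  | 0 => 3
  | k + 1 => hNext d (hSeq d k)

/-- bound for the number of nodes after `k` rounds -/
def lSeq (d : ℕ) : ℕ → ℕ
  | 0 => 1
  | k + 1 => lSeq d k * cL (dSeq d k)

theorem cL_mono {D E : ℕ} (h : D ≤ E) : cL D ≤ cL E :=
  Nat.pow_le_pow_right (by norm_num) (Nat.pow_le_pow_left (by omega) 5)

theorem cM_mono {D E : ℕ} (h : D ≤ E) : cM D ≤ cM E :=
  Nat.pow_le_pow_right (by norm_num) (Nat.pow_le_pow_left (by omega) 3)

theorem cw_mono {D E : ℕ} (h : D ≤ E) : cw D ≤ cw E :=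
  Nat.mul_le_mul_left _ (Nat.pow_le_pow_left (cM_mono h) 2)

theorem cSing_mono {d D E : ℕ} (h : D ≤ E) : cSing d D ≤ cSing d E :=
  Nat.mul_le_mul_left _ (Nat.mul_le_mul_left _ (Nat.succ_le_succ
    (Nat.mul_le_mul h (cM_mono h))))

theorem one_le_cL (D : ℕ) : 1 ≤ cL D := Nat.one_le_two_pow

theorem dSeq_mono (d : ℕ) : Monotone (dSeq d) :=
  monotone_nat_of_le_succ fun k => Nat.le_mul_of_pos_right _ (by unfold cW; omega)

theorem hSeq_mono (d : ℕ) : Monotone (hSeq d) :=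
  monotone_nat_of_le_succ fun k => by rw [hSeq]; unfold hNext; omega

theorem lSeq_mono (d : ℕ) : Monotone (lSeq d) :=
  monotone_nat_of_le_succ fun k => Nat.le_mul_of_pos_right _ (one_le_cL _)

/-- the number of rounds -/
def rnds (d : ℕ) : ℕ := cW d ^ d + 1

/-- the length of the pad -/
def padF (d : ℕ) : ℕ :=
  cL (d + 1) + cL (dSeq d (rnds d)) + cw (d + 1) + cw (dSeq d (rnds d)) +
    cSing d (dSeq d (rnds d)) + dSeq d (rnds d) + lSeq d (rnds d) + cS (d + 1) * (hSeq d (rnds d) + 2)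
    + 4 * hSeq d (rnds d) + 4 * d + 100 + rnds d

theorem hNext_mul {d h L : ℕ} (hL : 1 ≤ L) : hNext d (h * L) ≤ hNext d h * L := by
  unfold hNext
  have h1 : cS (d + 1) * (h * L + 2) ≤ cS (d + 1) * ((h + 2) * L) :=
    Nat.mul_le_mul_left _ (by nlinarith)
  nlinarith

section Main

variable {P d k L : ℕ}

/-- all inequalities for the pad at round `k` -/
structure PadOK (P d k : ℕ) : Prop where
  p1 : cL (d + 1) ≤ P
  p2 : cL (dSeq d k) ≤ P
  p3 : cw (d + 1) ≤ P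
  p4 : cw (dSeq d k) ≤ P
  p5 : cSing d (dSeq d k) ≤ P
  p6 : dSeq d k + 4 ≤ P
  p7 : lSeq d k ≤ P
  p8 : cS (d + 1) * (hSeq d k + 2) + 3 * d + 11 ≤ P
  p9 : 4 * (hSeq d k + 5) ≤ P
  p10 : 4 * d + 100 ≤ P

theorem padOK (hP : padF d ≤ P) (hk : k ≤ rnds d) : PadOK P d k := by
  have h1 := dSeq_mono d hk
  have h2 := hSeq_mono d hk
  have h3 := lSeq_mono d hk
  have h4 := cL_mono h1
  have h5 := cw_mono h1
  have h6 := cSing_mono (d := d) h1
  have h7 : cS (d + 1) * (hSeq d k + 2) ≤ cS (d + 1) * (hSeq d (rnds d) + 2) :=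
    Nat.mul_le_mul_left _ (by omega)
  unfold padF at hP
  constructor <;> omega

/-- the invariant on nodes -/
structure Good (d k L : ℕ) (N : Node) : Prop where
  ty : ∀ t ∈ nbs N, WF d t ∧ t.2.length ≤ d ∧ ext t ≤ 2 ^ (hSeq d k * L)
  dim : ndim N ≤ dSeq d k
  ms : meas (cW d) N.1 + k ≤ cW d ^ d

theorem big_bound {P L : ℕ} (hP : 100 ≤ P) (hL : 1 ≤ L) : P ^ 6 * L ≤ (P * L) ^ 8 := by
  rw [mul_pow]
  exact Nat.mul_le_mul (Nat.pow_le_pow_right (by omega) (by norm_num))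
    (Nat.le_self_pow (by norm_num) L)

theorem sum_bns_le (t : Box) : ((bns t).map fun m => 2 * (m + 1)).sum ≤ 2 * ext t := by
  have key : ∀ l : List (Vec × ℕ), ((l.map fun p => p.2).map fun m => 2 * (m + 1)).sum ≤
      2 * (l.map fun p => (p.2 + 1) * (nrm p.1 + 1)).sum := by
    intro l
    induction l with
    | nil => simp
    | cons p l ih =>
      simp only [List.map_cons, List.sum_cons] at ih ⊢
      have : (p.2 + 1) * 1 ≤ (p.2 + 1) * (nrm p.1 + 1) := Nat.mul_le_mul_left _ (by omega)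
      omega
  have h2 : (t.2.map fun p => (p.2 + 1) * (nrm p.1 + 1)).sum ≤ ext t := Nat.le_add_left _ _
  exact (key t.2).trans (Nat.mul_le_mul_left _ h2)

theorem Good.tyOK {N : Node} (h : Good d k L N) (hp : PadOK P d k) (hL : 1 ≤ L) :
    ∀ t ∈ nbs N, TyOK P (d + 1) ((P * L) ^ 8) (2 ^ (P ^ 2 * L)) t := by
  intro t ht
  obtain ⟨h1, h2, h3⟩ := h.ty t ht
  have hbb := big_bound (P := P) (L := L) (by have := hp.p10; omega) hL
  have hP100 : 100 ≤ P := by have := hp.p10; omega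
  refine ⟨by omega, hp.p3, ⟨hSeq d k * L + 1, ?_, ?_⟩, ⟨P ^ 2 * L + d + 3, ?_, ?_⟩⟩
  · rw [pow_succ, mul_comm]
    exact (sum_bns_le t).trans (Nat.mul_le_mul_left _ h3)
  · refine le_trans ?_ hbb
    have e1 : (d + 1 + 1) ≤ P := by have := hp.p10; omega
    have e2 : hSeq d k * L + 1 + 1 ≤ P * L := by have := hp.p9; nlinarith
    calc cL (d + 1) * ((d + 1 + 1) * (hSeq d k * L + 1 + 1)) ≤ P * (P * (P * L)) :=
          Nat.mul_le_mul hp.p1 (Nat.mul_le_mul e1 e2)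
      _ = P ^ 3 * L := by ring
      _ ≤ P ^ 6 * L := Nat.mul_le_mul_right _ (Nat.pow_le_pow_right (by omega) (by norm_num))
  · have e1 : t.2.length + 1 ≤ 2 ^ (d + 1) := by
      have := Nat.lt_two_pow_self (n := d + 1)
      omega
    have e2 : 2 * (2 ^ (P ^ 2 * L) + 1) ≤ 2 ^ (P ^ 2 * L + 2) := by
      have : 1 ≤ 2 ^ (P ^ 2 * L) := Nat.one_le_two_pow
      rw [pow_add]; omega
    calc (t.2.length + 1) * (2 * (2 ^ (P ^ 2 * L) + 1)) ≤ 2 ^ (d + 1) * 2 ^ (P ^ 2 * L + 2) :=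
          Nat.mul_le_mul e1 e2
      _ = 2 ^ (P ^ 2 * L + d + 3) := by rw [← pow_add]; congr 1; ring
  · refine le_trans ?_ hbb
    have e1 : (d + 1 + 1) ≤ P := by have := hp.p10; omega
    have e2 : P ^ 2 * L + d + 3 + 1 ≤ P * (P ^ 2 * L) := by
      have := hp.p10
      have e3 : d + 4 ≤ P ^ 2 * L := by nlinarith
      nlinarith
    calc cL (d + 1) * ((d + 1 + 1) * (P ^ 2 * L + d + 3 + 1)) ≤ P * (P * (P * (P ^ 2 * L))) :=
          Nat.mul_le_mul hp.p1 (Nat.mul_le_mul e1 e2)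
      _ = P ^ 5 * L := by ring
      _ ≤ P ^ 6 * L := Nat.mul_le_mul_right _ (Nat.pow_le_pow_right (by omega) (by norm_num))

theorem Good.nodeOK {N : Node} (h : Good d k L N) (hp : PadOK P d k) (hL : 1 ≤ L) :
    NodeOK P d ((P * L) ^ 8) (2 ^ (P ^ 2 * L)) (2 ^ (P * L)) N := by
  have hbb := big_bound (P := P) (L := L) (by have := hp.p10; omega) hL
  have hP100 : 100 ≤ P := by have := hp.p10; omega
  refine ⟨h.tyOK hp hL, fun t ht => (h.ty t ht).1, (cw_mono h.dim).trans hp.p4,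
    ⟨P * L + ndim N + 2, ?_, ?_⟩⟩
  · have e1 : ndim N ≤ 2 ^ ndim N := Nat.lt_two_pow_self.le
    have e2 : 2 * (2 ^ (P * L) + 1) ≤ 2 ^ (P * L + 2) := by
      have : 1 ≤ 2 ^ (P * L) := Nat.one_le_two_pow
      rw [pow_add]; omega
    calc ndim N * (2 * (2 ^ (P * L) + 1)) ≤ 2 ^ ndim N * 2 ^ (P * L + 2) := Nat.mul_le_mul e1 e2
      _ = 2 ^ (P * L + ndim N + 2) := by rw [← pow_add]; congr 1; ring
  · refine le_trans ?_ hbb
    have e0 := h.dim
    have e1 : ndim N + 1 ≤ P := by have := hp.p6; omega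
    have e2 : P * L + ndim N + 2 + 1 ≤ P * (P * L) := by
      have := hp.p6
      have e3 : ndim N + 3 ≤ P * L := by nlinarith
      nlinarith
    calc cL (ndim N) * ((ndim N + 1) * (P * L + ndim N + 2 + 1)) ≤ P * (P * (P * (P * L))) :=
          Nat.mul_le_mul ((cL_mono e0).trans hp.p2) (Nat.mul_le_mul e1 e2)
      _ = P ^ 4 * L := by ring
      _ ≤ P ^ 6 * L := Nat.mul_le_mul_right _ (Nat.pow_le_pow_right (by omega) (by norm_num))

theorem Good.hR1 {N : Node} (h : Good d k L N) (hp : PadOK P d k) (hL : 1 ≤ L) :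
    ∀ t ∈ N.1, ∃ H, ((bns t).map fun m => 2 * (m + 1)).sum ≤ 2 ^ H ∧
      cG (d + 1) * ((d + 1) * (H + 1)) ≤ (P * L) ^ 8 ∧
      (8 * (d + 1) * (2 ^ (cS (d + 1) * (H + 1)) + 1) * (2 ^ (P * L) + 1) * (2 * d + 5)) ^
        (2 * d + 6) ≤ 2 ^ (P ^ 2 * L) := by
  intro t ht
  obtain ⟨h1, h2, h3⟩ := h.ty t (mem_nbs_left ht)
  refine ⟨hSeq d k * L + 1, ?_, ?_, ?_⟩
  · rw [pow_succ, mul_comm]
    exact (sum_bns_le t).trans (Nat.mul_le_mul_left _ h3)
  · refine le_trans ?_ (big_bound (by have := hp.p10; omega) hL)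
    have e1 : (d + 1) ≤ P := by have := hp.p10; omega
    have e2 : hSeq d k * L + 1 + 1 ≤ P * L := by have := hp.p9; nlinarith
    calc cG (d + 1) * ((d + 1) * (hSeq d k * L + 1 + 1)) ≤ P * (P * (P * L)) :=
          Nat.mul_le_mul ((cG_le_cL _).trans hp.p1) (Nat.mul_le_mul e1 e2)
      _ = P ^ 3 * L := by ring
      _ ≤ P ^ 6 * L := Nat.mul_le_mul_right _ (Nat.pow_le_pow_right (by have := hp.p10; omega)
          (by norm_num))
  · set x := cS (d + 1) * (hSeq d k * L + 1 + 1) with hx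
    have e1 : d + 1 ≤ 2 ^ (d + 1) := Nat.lt_two_pow_self.le
    have e2 : 2 ^ x + 1 ≤ 2 ^ (x + 1) := by
      have : 1 ≤ 2 ^ x := Nat.one_le_two_pow
      rw [pow_succ]; omega
    have e3 : 2 ^ (P * L) + 1 ≤ 2 ^ (P * L + 1) := by
      have : 1 ≤ 2 ^ (P * L) := Nat.one_le_two_pow
      rw [pow_succ]; omega
    have e4 : 2 * d + 5 ≤ 2 ^ (2 * d + 5) := Nat.lt_two_pow_self.le
    have e5 : 8 * (d + 1) * (2 ^ x + 1) * (2 ^ (P * L) + 1) * (2 * d + 5) ≤
        2 ^ (x + P * L + 3 * d + 11) := by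
      calc 8 * (d + 1) * (2 ^ x + 1) * (2 ^ (P * L) + 1) * (2 * d + 5)
          ≤ 8 * 2 ^ (d + 1) * 2 ^ (x + 1) * 2 ^ (P * L + 1) * 2 ^ (2 * d + 5) := by gcongr
        _ = 2 ^ (x + P * L + 3 * d + 11) := by
          rw [show (8 : ℕ) = 2 ^ 3 by norm_num, ← pow_add, ← pow_add, ← pow_add, ← pow_add]
          congr 1; ring
    have e6 : x + 3 * d + 11 ≤ P * L := by
      have e7 := hp.p8
      have e8 : x ≤ cS (d + 1) * (hSeq d k + 2) * L := by
        rw [hx, mul_assoc]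
        exact Nat.mul_le_mul_left _ (by nlinarith)
      nlinarith
    calc (8 * (d + 1) * (2 ^ x + 1) * (2 ^ (P * L) + 1) * (2 * d + 5)) ^ (2 * d + 6)
        ≤ (2 ^ (x + P * L + 3 * d + 11)) ^ (2 * d + 6) := Nat.pow_le_pow_left e5 _
      _ = 2 ^ ((x + P * L + 3 * d + 11) * (2 * d + 6)) := by rw [← pow_mul]
      _ ≤ 2 ^ (P ^ 2 * L) := by
        refine Nat.pow_le_pow_right (by norm_num) ?_
        have e9 : x + P * L + 3 * d + 11 ≤ 2 * (P * L) := by omega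
        have e10 : 2 * (2 * d + 6) ≤ P := by have := hp.p10; omega
        calc (x + P * L + 3 * d + 11) * (2 * d + 6) ≤ (2 * (P * L)) * (2 * d + 6) :=
              Nat.mul_le_mul_right _ e9
          _ = (2 * (2 * d + 6)) * (P * L) := by ring
          _ ≤ P * (P * L) := Nat.mul_le_mul_right _ e10
          _ = P ^ 2 * L := by ring

theorem Good.hR {N : Node} {a : Vec} (h : Good d k L N) (hp : PadOK P d k) (hL : 1 ≤ L)
    (ha : nrm a < 2 ^ L) : ∀ t ∈ nbs N, (nrm a + 1) * (1 + (bns t).sum) ≤ 2 ^ (P * L) := by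
  intro t ht
  obtain ⟨h1, h2, h3⟩ := h.ty t ht
  have e1 : (bns t).sum ≤ ext t := by
    have := sum_bns_le t
    have key : ∀ l : List ℕ, 2 * l.sum ≤ (l.map fun m => 2 * (m + 1)).sum := by
      intro l
      induction l with
      | nil => simp
      | cons m l ih => simp only [List.map_cons, List.sum_cons]; omega
    have := key (bns t)
    omega
  have e2 : 1 + (bns t).sum ≤ 2 ^ (hSeq d k * L + 1) := by
    have : 1 ≤ 2 ^ (hSeq d k * L) := Nat.one_le_two_pow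
    rw [pow_succ]; omega
  calc (nrm a + 1) * (1 + (bns t).sum) ≤ 2 ^ L * 2 ^ (hSeq d k * L + 1) :=
        Nat.mul_le_mul (by omega) e2
    _ = 2 ^ (L + (hSeq d k * L + 1)) := by rw [← pow_add]
    _ ≤ 2 ^ (P * L) := by
      refine Nat.pow_le_pow_right (by norm_num) ?_
      have := hp.p9
      nlinarith

theorem sz_list_boxes {bs : List Box} {H : ℕ} (h : ∀ t ∈ bs, WF d t ∧ t.2.length ≤ d ∧
    ext t ≤ 2 ^ H) : sz bs ≤ bs.length * ((d + 1) * (d + 1) * (4 * H + 20) + 2) + 1 := by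
  refine sz_le_length_mul bs _ fun t ht => ?_
  obtain ⟨h1, h2, h3⟩ := h t ht
  exact sz_box_le h1 h2 h3

theorem Good.sz_le {N : Node} (h : Good d k L N) (hp : PadOK P d k) (hL : 1 ≤ L) :
    sz N ≤ 4 * (P ^ 4 * L) := by
  obtain ⟨N1, N2⟩ := N
  rw [sz_pair]
  have h1 := sz_list_boxes (bs := N1) (H := hSeq d k * L) fun t ht => h.ty t (mem_nbs_left ht)
  have h2 := sz_list_boxes (bs := N2) (H := hSeq d k * L) fun t ht => h.ty t (mem_nbs_right ht)
  have h3 := length_le_wdim N1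
  have h4 := length_le_wdim N2
  have h5 := h.dim
  rw [ndim_eq] at h5
  simp only at h5
  have hP100 : 100 ≤ P := by have := hp.p10; omega
  have e1 : (d + 1) ≤ P := by have := hp.p10; omega
  have e2 : 4 * (hSeq d k * L) + 20 ≤ P * L := by have := hp.p9; nlinarith
  have e3 : (d + 1) * (d + 1) * (4 * (hSeq d k * L) + 20) ≤ P * P * (P * L) :=
    Nat.mul_le_mul (Nat.mul_le_mul e1 e1) e2
  have e4 : P * P * (P * L) = P ^ 3 * L := by ring
  have e5 : N1.length + N2.length + 4 ≤ P := by have := hp.p6; omega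
  set Z := (d + 1) * (d + 1) * (4 * (hSeq d k * L) + 20)
  have e6 : 100 ≤ P ^ 3 * L := by
    calc 100 ≤ P := hP100
      _ ≤ P ^ 3 := Nat.le_self_pow (by norm_num) P
      _ = P ^ 3 * 1 := by ring
      _ ≤ P ^ 3 * L := Nat.mul_le_mul_left _ hL
  have e7 : (N1.length + N2.length) * (Z + 2) ≤ P * (2 * (P ^ 3 * L)) :=
    Nat.mul_le_mul (by omega) (by omega)
  have e8 : P * (2 * (P ^ 3 * L)) = 2 * (P ^ 4 * L) := by ring
  have e9 : P ^ 3 * L ≤ P ^ 4 * L := Nat.mul_le_mul_right _ (Nat.pow_le_pow_right (by omega)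
    (by norm_num))
  have e10 : (N1.length + N2.length) * (Z + 2) = N1.length * (Z + 2) + N2.length * (Z + 2) := by
    ring
  omega

end Main

end Run7.h960
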