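import Pool.Agent.Run7.h960.AlgoB

set_option autoImplicit false

/-!
# Solutions of the initial node
-/

namespace Run7.h960

open Pool.Agent.NPC
open Pool.Agent.H687R2.LLL (dot nrm lllStep cnt fsts gsr nrm_lt nrm_cons nrm_nil)

variable {I : Inst} {t : Box} {d : ℕ} {N : Node}

/-- the set of all points -/
def SI (I : Inst) : Set (Fin I.2.length → ℤ) :=
  {z : Fin I.2.length → ℤ | (∀ i, 0 ≤ z i) ∧ ∀ r ∈ I.1,
      ∑ i : Fin I.2.length, r.1.getD i 0 * z i ≤ r.2}

theorem allRows_len : ∀ r ∈ allRows I, r.1.length = I.2.length := by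
  intro r hr
  simp only [allRows, List.mem_append, List.mem_map, List.mem_flatMap, List.mem_range,
    List.mem_cons, List.not_mem_nil, or_false] at hr
  rcases hr with (⟨r', _, rfl⟩ | ⟨k, _, rfl | rfl⟩) | rfl <;> simp

theorem posRows (I : Inst) : PosRows I.2.length (allRows I) := by
  constructor
  · intro k hk
    refine ⟨(nneg (unitV I.2.length k), 0), ?_, rfl⟩
    simp only [allRows, List.mem_append, List.mem_map, List.mem_flatMap, List.mem_range,
      List.mem_cons, List.not_mem_nil, or_false]
    exact Or.inl (Or.inr ⟨k, hk, Or.inl rfl⟩)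
  · simp only [allRows, List.mem_append, List.mem_cons, List.not_mem_nil, or_false]
    exact Or.inr trivial

/-- The rows of a type, in terms of the points `z`. -/
theorem sh_rows {rows : Rows} {y : Vec} (hwf : WF d t) (hlen : ∀ r ∈ rows, r.1.length = d)
    (hy : y ∈ Sh rows t) : ∀ r ∈ rows, dot r.1 (lin t.1 (bvs t) y) ≤ r.2 := by
  intro r hr
  have h1 := hy.2 ((bvs t).map fun b => dot r.1 b, r.2 - dot r.1 t.1) (by
    unfold yrows
    exact List.mem_append_left _ (List.mem_map.2 ⟨r, hr, rfl⟩))
  rw [dot_lin (by rw [hlen r hr, hwf.1]) (by intro v hv; rw [hwf.bvs_len v hv, hwf.1]),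
    dot_comm y]
  simp only at h1
  linarith

theorem zt_sub (hwf : WF I.2.length t) : toFn I.2.length '' Zt (allRows I) t ⊆ SI I := by
  rintro u ⟨z, ⟨y, hy, rfl⟩, rfl⟩
  have h1 := sh_rows hwf allRows_len hy
  set z := lin t.1 (bvs t) y with hz
  refine ⟨fun i => ?_, fun r hr => ?_⟩
  · have h2 := h1 (nneg (unitV I.2.length i), 0) (by
      simp only [allRows, List.mem_append, List.mem_map, List.mem_flatMap, List.mem_range,
        List.mem_cons, List.not_mem_nil, or_false]
      exact Or.inl (Or.inr ⟨i, i.2, Or.inl rfl⟩))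
    simp only [dot_nneg, dot_unitV z i.2] at h2
    change 0 ≤ z.getD i 0
    omega
  · have h2 := h1 ((List.range I.2.length).map (fun i => r.1.getD i 0), r.2) (by
      simp only [allRows, List.mem_append, List.mem_map]
      exact Or.inl (Or.inl ⟨r, hr, rfl⟩))
    simp only at h2
    rw [dot_eq_sum (N := I.2.length) (Or.inl (by simp)), Finset.sum_range] at h2
    refine le_of_eq_of_le (Finset.sum_congr rfl fun i _ => ?_) h2
    rw [getD_map_range, if_pos i.2]
    rfl

theorem sum_forall2_mem {α β : Type*} [AddCommMonoid β] (Q : AddSubmonoid β) (p : α → β → Prop) :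
    ∀ (l : List α) (us : List β), List.Forall₂ p l us → (∀ t ∈ l, ∀ u, p t u → u ∈ Q) →
      us.sum ∈ Q := by
  intro l us h
  induction h with
  | nil => intro _; simpa using Q.zero_mem
  | cons h1 _ ih =>
    intro hp
    rw [List.sum_cons]
    exact Q.add_mem (hp _ (by simp) _ h1) (ih fun t ht => hp t (by simp [ht]))

/-- Solutions of nodes are decompositions. -/
theorem decomposable_of_nodeSol (hwf : ∀ t ∈ nbs N, WF I.2.length t)
    (h : NodeSol I.2.length (allRows I) I.2 N) : Decomposable I := by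
  obtain ⟨us, ts, h1, h2, h3⟩ := h
  change toFn I.2.length I.2 ∈ AddSubmonoid.closure (SI I)
  rw [← h3]
  refine AddSubmonoid.add_mem _ (sum_forall2_mem _ _ _ _ h1 ?_) (sum_forall2_mem _ _ _ _ h2 ?_)
  · intro t ht u hu
    exact AddSubmonoid.closure_mono (zt_sub (hwf t (mem_nbs_left ht))) hu
  · rintro t ht u (rfl | hu)
    · exact AddSubmonoid.zero_mem _
    · exact AddSubmonoid.subset_closure (zt_sub (hwf t (mem_nbs_right ht)) hu)

/-- the initial type -/
def T0 (I : Inst) : Box := stdBox (I.2.map Int.toNat)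

theorem T0_wf : WF I.2.length (T0 I) := by
  have := stdBox_wf (I.2.map Int.toNat)
  rwa [List.length_map] at this

theorem T0_len : (T0 I).2.length = I.2.length := by simp [T0]

/-- A point of `S` that is nonzero and at most `a` is a point of the initial type. -/
theorem mem_Zt_T0 {z : Fin I.2.length → ℤ} (hz : z ∈ SI I) (hne : z ≠ 0)
    (hle : ∀ i : Fin I.2.length, z i ≤ I.2.getD i 0) :
    z ∈ toFn I.2.length '' Zt (allRows I) (T0 I) := by
  set y : Vec := List.ofFn z with hy
  have hyl : y.length = I.2.length := by simp [hy]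
  have hyd : ∀ i : Fin I.2.length, y.getD i 0 = z i := by
    intro i
    rw [List.getD_eq_getElem _ _ (by simp [hy])]
    simp [hy]
  have hlin : lin (T0 I).1 (bvs (T0 I)) y = y := lin_stdBox (by simp [hyl])
  have hbns : bns (T0 I) = I.2.map Int.toNat := bns_stdBox _
  have hrow : ∀ r ∈ allRows I, dot r.1 y ≤ r.2 := by
    intro r hr
    simp only [allRows, List.mem_append, List.mem_map, List.mem_flatMap, List.mem_range,
      List.mem_cons, List.not_mem_nil, or_false] at hr
    rcases hr with (⟨r', hr', rfl⟩ | ⟨k, hk, rfl | rfl⟩) | rfl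
    · simp only
      rw [dot_eq_sum (N := I.2.length) (Or.inl (by simp)), Finset.sum_range]
      refine le_of_eq_of_le (Finset.sum_congr rfl fun i _ => ?_) (hz.2 r' hr')
      rw [getD_map_range, if_pos i.2, hyd i]
    · simp only [dot_nneg, dot_unitV y hk]
      have := hz.1 ⟨k, hk⟩
      rw [hyd ⟨k, hk⟩]
      omega
    · simp only [dot_unitV y hk]
      rw [hyd ⟨k, hk⟩]
      exact hle ⟨k, hk⟩
    · simp only
      rw [dot_eq_sum (N := I.2.length) (Or.inl (by simp)), Finset.sum_range]
      have h1 : ∀ i : Fin I.2.length, (List.replicate I.2.length (-1 : ℤ)).getD i 0 * y.getD i 0 =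
          -(z i) := by
        intro i
        rw [hyd i, List.getD_eq_getElem _ _ (by simp)]
        simp
      rw [Finset.sum_congr rfl fun i _ => h1 i, Finset.sum_neg_distrib]
      have h2 : 0 ≤ ∑ i, z i := Finset.sum_nonneg fun i _ => hz.1 i
      have h3 : ∑ i, z i ≠ 0 := by
        intro h
        rw [Finset.sum_eq_zero_iff_of_nonneg fun i _ => hz.1 i] at h
        exact hne (funext fun i => h i (Finset.mem_univ i))
      omega
  refine ⟨y, ⟨y, ⟨by rw [T0_len, hyl], ?_⟩, hlin.symm⟩, funext fun i => hyd i⟩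
  intro r hr
  unfold yrows at hr
  rw [List.mem_append, List.mem_map] at hr
  rcases hr with ⟨r', hr', rfl⟩ | hr
  · have h1 := hrow r' hr'
    have h2 : dot r'.1 (lin (T0 I).1 (bvs (T0 I)) y) = dot r'.1 (T0 I).1 +
        dot y ((bvs (T0 I)).map fun b => dot r'.1 b) :=
      dot_lin (by rw [allRows_len r' hr', T0_wf.1])
        (by intro v hv; rw [T0_wf.bvs_len v hv, T0_wf.1])
    rw [hlin] at h2
    simp only
    rw [dot_comm y] at h2
    linarith
  · refine boxRows_of (fun k hk => ?_) r hr
    rw [hbns] at hk ⊢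
    have hk' : k < I.2.length := by simpa using hk
    rw [hyd ⟨k, hk'⟩, List.getD_eq_getElem _ _ hk, List.getElem_map]
    have h1 := hz.1 ⟨k, hk'⟩
    have h2 := hle ⟨k, hk'⟩
    simp only at h2
    rw [List.getD_eq_getElem _ _ hk'] at h2
    omega

theorem closure_le_of_sum {n : ℕ} {S : Set (Fin n → ℤ)} (hS : ∀ z ∈ S, ∀ i, 0 ≤ z i)
    {a : Fin n → ℤ} (ha : a ∈ AddSubmonoid.closure S) :
    a ∈ AddSubmonoid.closure {z | z ∈ S ∧ z ≠ 0 ∧ ∀ i, z i ≤ a i} := by
  obtain ⟨l, hl, rfl⟩ := AddSubmonoid.exists_list_of_mem_closure ha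
  have key : ∀ l : List (Fin n → ℤ), (∀ y ∈ l, y ∈ S) → ∀ i, 0 ≤ l.sum i := by
    intro l
    induction l with
    | nil => intro _ i; simp
    | cons y l ih =>
      intro h i
      rw [List.sum_cons, Pi.add_apply]
      exact add_nonneg (hS y (h y (by simp)) i) (ih (fun y' hy' => h y' (by simp [hy'])) i)
  have key2 : ∀ (l : List (Fin n → ℤ)) (b : Fin n → ℤ), (∀ y ∈ l, y ∈ S) →
      (∀ i, l.sum i ≤ b i) → l.sum ∈ AddSubmonoid.closure {z | z ∈ S ∧ z ≠ 0 ∧ ∀ i, z i ≤ b i} := by
    intro l
    induction l with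
    | nil => intro b _ _; simpa using AddSubmonoid.zero_mem _
    | cons y l ih =>
      intro b h hb
      rw [List.sum_cons]
      have h1 := key l fun y' hy' => h y' (by simp [hy'])
      have h2 := hS y (h y (by simp))
      have hb' : ∀ i, y i + l.sum i ≤ b i := fun i => by
        have := hb i; rwa [List.sum_cons, Pi.add_apply] at this
      refine AddSubmonoid.add_mem _ ?_ (ih b (fun y' hy' => h y' (by simp [hy'])) fun i => by
        have := hb' i; have := h2 i; linarith)
      by_cases hy : y = 0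
      · rw [hy]; exact AddSubmonoid.zero_mem _
      · exact AddSubmonoid.subset_closure ⟨h y (by simp), hy, fun i => by
          have := hb' i; have := h1 i; linarith⟩
  exact key2 l _ hl fun i => le_rfl

/-- Decompositions are solutions of the initial node. -/
theorem nodeSol_of_decomposable (h : Decomposable I) :
    NodeSol I.2.length (allRows I) I.2 ([T0 I], []) := by
  refine ⟨[toFn I.2.length I.2], [], ?_, List.Forall₂.nil, by simp⟩
  refine List.Forall₂.cons ?_ List.Forall₂.nil
  have h1 : toFn I.2.length I.2 ∈ AddSubmonoid.closure (SI I) := h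
  refine AddSubmonoid.closure_mono ?_ (closure_le_of_sum (fun z hz => hz.1) h1)
  rintro z ⟨hz1, hz2, hz3⟩
  exact mem_Zt_T0 hz1 hz2 hz3

end Run7.h960
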