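import Pool.Agent.Run7.h960.Sem

set_option autoImplicit false

/-!
# Basic facts on list vectors
-/

namespace Run7.h960

open Pool.Agent.NPC
open Pool.Agent.H687R2.LLL (dot nrm lllStep cnt fsts gsr)

theorem getD_map_range {β : Type} (f : ℕ → β) (n i : ℕ) (d : β) :
    ((List.range n).map f).getD i d = if i < n then f i else d := by
  split_ifs with h
  · rw [List.getD_eq_getElem _ _ (by simpa using h)]
    simp
  · rw [List.getD_eq_default _ _ (by simpa using h)]

@[simp] theorem dot_nil_left (v : Vec) : dot [] v = 0 := by simp [dot]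
@[simp] theorem dot_nil_right (v : Vec) : dot v [] = 0 := by simp [dot]
@[simp] theorem dot_cons (x y : ℤ) (u v : Vec) : dot (x :: u) (y :: v) = x * y + dot u v := by
  simp [dot]

theorem dot_comm (u v : Vec) : dot u v = dot v u := by
  induction u generalizing v with
  | nil => simp
  | cons x u ih => cases v with
    | nil => simp
    | cons y v => simp [ih v, mul_comm]

theorem dot_eq_sum {u v : Vec} {N : ℕ} (h : u.length ≤ N ∨ v.length ≤ N) :
    dot u v = ∑ i ∈ Finset.range N, u.getD i 0 * v.getD i 0 := by
  induction N generalizing u v with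
  | zero =>
    rcases h with h | h
    · rw [List.length_eq_zero_iff.1 (Nat.le_zero.1 h)]; simp
    · rw [List.length_eq_zero_iff.1 (Nat.le_zero.1 h)]; simp
  | succ N ih =>
    rw [Finset.sum_range_succ']
    cases u with
    | nil => simp
    | cons x u => cases v with
      | nil => simp
      | cons y v =>
        rw [dot_cons, ih (by simpa using h)]
        simp [add_comm]

theorem dot_zv_right (u : Vec) (n : ℕ) : dot u (zv n) = 0 := by
  rw [dot_eq_sum (N := u.length) (Or.inl le_rfl)]
  refine Finset.sum_eq_zero fun i _ => ?_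
  have : (zv n).getD i 0 = 0 := by
    unfold zv
    rcases Nat.lt_or_ge i n with h | h
    · rw [List.getD_eq_getElem _ _ (by simpa using h)]; simp
    · rw [List.getD_eq_default _ _ (by simpa using h)]
  rw [this, mul_zero]

theorem dot_zv_left (u : Vec) (n : ℕ) : dot (zv n) u = 0 := by rw [dot_comm, dot_zv_right]

@[simp] theorem length_zv (n : ℕ) : (zv n).length = n := by simp [zv]

@[simp] theorem getD_zv (n i : ℕ) : (zv n).getD i 0 = 0 := by
  unfold zv
  rcases Nat.lt_or_ge i n with h | h
  · rw [List.getD_eq_getElem _ _ (by simpa using h)]; simp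
  · rw [List.getD_eq_default _ _ (by simpa using h)]

@[simp] theorem length_lin (x0 : Vec) (vs : List Vec) (y : Vec) :
    (lin x0 vs y).length = x0.length := by simp [lin]

theorem getD_lin {x0 : Vec} {vs : List Vec} {y : Vec} {i : ℕ} (h : i < x0.length) :
    (lin x0 vs y).getD i 0 = x0.getD i 0 + dot y (vs.map fun v => v.getD i 0) := by
  rw [lin, getD_map_range, if_pos h]

theorem vec_ext {u v : Vec} (h : u.length = v.length)
    (h2 : ∀ i < u.length, u.getD i 0 = v.getD i 0) : u = v := by
  apply List.ext_getElem h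
  intro i h3 h4
  have := h2 i h3
  rwa [List.getD_eq_getElem _ _ h3, List.getD_eq_getElem _ _ h4] at this

/-- `getD` of a combination, in terms of sums. -/
theorem getD_lin_sum {x0 : Vec} {vs : List Vec} {y : Vec} {i : ℕ} (h : i < x0.length) :
    (lin x0 vs y).getD i 0 = x0.getD i 0 +
      ∑ k ∈ Finset.range vs.length, y.getD k 0 * (vs.getD k []).getD i 0 := by
  rw [getD_lin h, dot_eq_sum (N := vs.length) (Or.inr (by simp))]
  congr 1
  refine Finset.sum_congr rfl fun k hk => ?_
  have hk' : k < vs.length := Finset.mem_range.1 hk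
  rw [List.getD_eq_getElem (vs.map _) _ (by simpa using hk'), List.getElem_map,
    List.getD_eq_getElem vs _ hk']

/-- The dot product with a combination. -/
theorem dot_lin {g x0 : Vec} {vs : List Vec} {y : Vec} (hg : g.length = x0.length)
    (hvs : ∀ v ∈ vs, v.length = x0.length) :
    dot g (lin x0 vs y) = dot g x0 + dot y (vs.map fun v => dot g v) := by
  rw [dot_eq_sum (N := x0.length) (Or.inl hg.le), dot_eq_sum (N := x0.length) (Or.inl hg.le),
    dot_eq_sum (u := y) (N := vs.length) (Or.inr (by simp))]
  have h1 : ∀ i ∈ Finset.range x0.length, g.getD i 0 * (lin x0 vs y).getD i 0 =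
      g.getD i 0 * x0.getD i 0 +
        ∑ k ∈ Finset.range vs.length, y.getD k 0 * (g.getD i 0 * (vs.getD k []).getD i 0) := by
    intro i hi
    rw [getD_lin_sum (Finset.mem_range.1 hi), mul_add, Finset.mul_sum]
    congr 1
    exact Finset.sum_congr rfl fun k _ => by ring
  rw [Finset.sum_congr rfl h1, Finset.sum_add_distrib, Finset.sum_comm]
  congr 1
  refine Finset.sum_congr rfl fun k hk => ?_
  have hk' : k < vs.length := Finset.mem_range.1 hk
  rw [← Finset.mul_sum, List.getD_eq_getElem (vs.map _) _ (by simpa using hk'), List.getElem_map,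
    List.getD_eq_getElem vs _ hk', dot_eq_sum (N := x0.length) (Or.inl hg.le)]

@[simp] theorem length_bvs (s : Box) : (bvs s).length = s.2.length := by simp [bvs]
@[simp] theorem length_bns (s : Box) : (bns s).length = s.2.length := by simp [bns]

theorem getD_bns (s : Box) (k : ℕ) : (bns s).getD k 0 = (s.2.getD k ([], 0)).2 := by
  unfold bns
  rcases Nat.lt_or_ge k s.2.length with h | h
  · rw [List.getD_eq_getElem _ _ (by simpa using h), List.getD_eq_getElem _ _ h]; simp
  · rw [List.getD_eq_default _ _ (by simpa using h), List.getD_eq_default _ _ h]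

theorem getD_bvs (s : Box) (k : ℕ) : (bvs s).getD k [] = (s.2.getD k ([], 0)).1 := by
  unfold bvs
  rcases Nat.lt_or_ge k s.2.length with h | h
  · rw [List.getD_eq_getElem _ _ (by simpa using h), List.getD_eq_getElem _ _ h]; simp
  · rw [List.getD_eq_default _ _ (by simpa using h), List.getD_eq_default _ _ h]

theorem WF.bvs_len {n : ℕ} {s : Box} (h : WF n s) : ∀ v ∈ bvs s, v.length = n := by
  intro v hv
  unfold bvs at hv
  rw [List.mem_map] at hv
  obtain ⟨p, hp, rfl⟩ := hv
  exact h.2 p hp

theorem compo_wf {n m : ℕ} {t s : Box} (ht : WF n t) (hs : WF m s) : WF n (compo t s) := by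
  refine ⟨by simp [compo, ht.1], ?_⟩
  intro p hp
  simp only [compo, List.mem_map] at hp
  obtain ⟨q, hq, rfl⟩ := hp
  simp [ht.1]

@[simp] theorem compo_len (t s : Box) : (compo t s).2.length = s.2.length := by simp [compo]

@[simp] theorem bns_compo (t s : Box) : bns (compo t s) = bns s := by
  simp [compo, bns, Function.comp_def]

theorem bvs_compo (t s : Box) :
    bvs (compo t s) = (bvs s).map fun v => lin (zv t.1.length) (bvs t) v := by
  simp [compo, bvs, Function.comp_def]

/-- Composition of boxes. -/
theorem lin_compo {m : ℕ} {t s : Box} (hs : WF m s) (hm : t.2.length ≤ m) (y : Vec) :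
    lin (compo t s).1 (bvs (compo t s)) y = lin t.1 (bvs t) (lin s.1 (bvs s) y) := by
  refine vec_ext (by simp [compo]) fun i hi => ?_
  have hi' : i < t.1.length := by simpa [compo] using hi
  rw [getD_lin_sum (by simpa [compo] using hi'), getD_lin hi']
  have e1 : (compo t s).1.getD i 0 = t.1.getD i 0 + dot s.1 ((bvs t).map fun v => v.getD i 0) := by
    simp only [compo]; rw [getD_lin hi']
  rw [e1, dot_comm (lin s.1 (bvs s) y)]
  have e2 : dot ((bvs t).map fun v => v.getD i 0) (lin s.1 (bvs s) y) =
      dot ((bvs t).map fun v => v.getD i 0) s.1 +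
      ∑ k ∈ Finset.range s.2.length, y.getD k 0 *
        dot ((bvs t).map fun v => v.getD i 0) ((bvs s).getD k []) := by
    have hl : ((bvs t).map fun v => v.getD i 0).length ≤ s.1.length := by
      simpa [hs.1] using hm
    rw [dot_eq_sum (N := s.1.length) (Or.inl hl), dot_eq_sum (N := s.1.length) (Or.inl hl)]
    have h1 : ∀ j ∈ Finset.range s.1.length, ((bvs t).map fun v => v.getD i 0).getD j 0 *
        (lin s.1 (bvs s) y).getD j 0 =
        ((bvs t).map fun v => v.getD i 0).getD j 0 * s.1.getD j 0 +
        ∑ k ∈ Finset.range s.2.length, y.getD k 0 * (((bvs t).map fun v => v.getD i 0).getD j 0 *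
          ((bvs s).getD k []).getD j 0) := by
      intro j hj
      rw [getD_lin_sum (Finset.mem_range.1 hj), mul_add, Finset.mul_sum, length_bvs]
      congr 1
      exact Finset.sum_congr rfl fun k _ => by ring
    rw [Finset.sum_congr rfl h1, Finset.sum_add_distrib, Finset.sum_comm]
    congr 1
    refine Finset.sum_congr rfl fun k hk => ?_
    rw [← Finset.mul_sum, dot_eq_sum (N := s.1.length) (Or.inl hl)]
  rw [e2, dot_comm s.1, add_assoc]
  congr 2
  rw [length_bvs, compo_len]
  refine Finset.sum_congr rfl fun k hk => ?_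
  have hk' : k < s.2.length := Finset.mem_range.1 hk
  congr 1
  have hk2 : k < (bvs s).length := by simpa using hk'
  rw [bvs_compo, List.getD_eq_getElem ((bvs s).map _) _ (by simpa using hk'), List.getElem_map,
    getD_lin (by simpa using hi'), List.getD_eq_getElem (bvs s) _ hk2, getD_zv, zero_add, dot_comm]

/-! ### unit vectors and standard boxes -/

@[simp] theorem length_unitV (n k : ℕ) : (unitV n k).length = n := by simp [unitV]

theorem getD_unitV (n k i : ℕ) : (unitV n k).getD i 0 = if i < n ∧ i = k then 1 else 0 := by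
  rw [unitV, getD_map_range]
  by_cases h1 : i < n
  · by_cases h2 : i = k
    · rw [if_pos h1, if_pos ⟨h1, h2⟩]; simp [h2]
    · rw [if_pos h1, if_neg (fun h => h2 h.2)]; simp [h2]
  · rw [if_neg h1, if_neg (fun h => h1 h.1)]

theorem dot_unitV {n k : ℕ} (v : Vec) (hk : k < n) : dot (unitV n k) v = v.getD k 0 := by
  rw [dot_eq_sum (N := n) (Or.inl (by simp))]
  rw [Finset.sum_eq_single k]
  · rw [getD_unitV, if_pos ⟨hk, rfl⟩, one_mul]
  · intro b hb hbk
    rw [getD_unitV, if_neg (fun h => hbk h.2), zero_mul]
  · intro h; exact absurd (Finset.mem_range.2 hk) h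

@[simp] theorem length_nneg (v : Vec) : (nneg v).length = v.length := by simp [nneg]

theorem getD_nneg (v : Vec) (i : ℕ) : (nneg v).getD i 0 = -(v.getD i 0) := by
  unfold nneg
  rcases Nat.lt_or_ge i v.length with h | h
  · rw [List.getD_eq_getElem _ _ (by simpa using h), List.getD_eq_getElem _ _ h]; simp
  · rw [List.getD_eq_default _ _ (by simpa using h), List.getD_eq_default _ _ h]; simp

theorem dot_nneg (u v : Vec) : dot (nneg u) v = -(dot u v) := by
  rw [dot_eq_sum (N := u.length) (Or.inl (by simp)), dot_eq_sum (N := u.length) (Or.inl le_rfl),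
    ← Finset.sum_neg_distrib]
  exact Finset.sum_congr rfl fun i _ => by rw [getD_nneg]; ring

theorem stdBox_wf (ns : List ℕ) : WF ns.length (stdBox ns) := by
  refine ⟨by simp [stdBox], ?_⟩
  intro p hp
  simp only [stdBox, List.mem_map] at hp
  obtain ⟨k, _, rfl⟩ := hp
  simp

@[simp] theorem length_stdBox (ns : List ℕ) : (stdBox ns).2.length = ns.length := by
  simp [stdBox]

theorem bns_stdBox (ns : List ℕ) : bns (stdBox ns) = ns := by
  apply List.ext_getElem
  · simp
  · intro i h1 h2
    have h3 : i < ns.length := h2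
    simp only [bns, stdBox, List.map_map, List.getElem_map, List.getElem_range, Function.comp]
    exact List.getD_eq_getElem _ _ h3

theorem lin_stdBox {ns : List ℕ} {y : Vec} (hy : y.length = ns.length) :
    lin (stdBox ns).1 (bvs (stdBox ns)) y = y := by
  refine vec_ext (by simp [stdBox, hy]) fun i hi => ?_
  have hi' : i < ns.length := by simpa [stdBox] using hi
  rw [getD_lin_sum (by simpa [stdBox] using hi')]
  have e : (stdBox ns).1.getD i 0 = 0 := by simp only [stdBox]; exact getD_zv _ _
  rw [e, zero_add, Finset.sum_eq_single i]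
  · rw [getD_bvs]
    simp only [stdBox]
    rw [getD_map_range, if_pos hi', getD_unitV, if_pos ⟨hi', rfl⟩, mul_one]
  · intro k hk hki
    rw [getD_bvs]
    simp only [stdBox]
    rw [getD_map_range]
    have hk' : k < ns.length := by simpa using hk
    rw [if_pos hk', getD_unitV, if_neg (fun h => hki h.2.symm), mul_zero]
  · intro h
    exact absurd (Finset.mem_range.2 (by simpa using hi')) h

theorem inBox_stdBox {ns : List ℕ} {y : Vec} (hy : y.length = ns.length)
    (h : ∀ k < ns.length, (y.getD k 0).natAbs ≤ ns.getD k 0) : InBox (stdBox ns) y := by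
  refine ⟨y, by simpa using hy, ?_, (lin_stdBox hy).symm⟩
  intro k hk
  rw [bns_stdBox]
  exact h k (by simpa using hk)

theorem mem_boxRows {ns : List ℕ} {y : Vec} (h : ∀ r ∈ boxRows ns, dot r.1 y ≤ r.2) :
    ∀ k < ns.length, (y.getD k 0).natAbs ≤ ns.getD k 0 := by
  intro k hk
  have h1 := h (unitV ns.length k, (ns.getD k 0 : ℤ)) (by
    simp only [boxRows, List.mem_flatMap, List.mem_range]
    exact ⟨k, hk, by simp⟩)
  have h2 := h (nneg (unitV ns.length k), (ns.getD k 0 : ℤ)) (by
    simp only [boxRows, List.mem_flatMap, List.mem_range]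
    exact ⟨k, hk, by simp⟩)
  simp only [dot_nneg, dot_unitV y hk] at h1 h2
  omega

theorem boxRows_of {ns : List ℕ} {y : Vec} (h : ∀ k < ns.length, (y.getD k 0).natAbs ≤ ns.getD k 0) :
    ∀ r ∈ boxRows ns, dot r.1 y ≤ r.2 := by
  intro r hr
  simp only [boxRows, List.mem_flatMap, List.mem_range] at hr
  obtain ⟨k, hk, hr⟩ := hr
  have h1 := h k hk
  simp only [List.mem_cons, List.not_mem_nil, or_false] at hr
  rcases hr with rfl | rfl
  · simp only [dot_unitV y hk]; omega
  · simp only [dot_nneg, dot_unitV y hk]; omega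

theorem boxRows_len {ns : List ℕ} : ∀ r ∈ boxRows ns, r.1.length = ns.length := by
  intro r hr
  simp only [boxRows, List.mem_flatMap, List.mem_range] at hr
  obtain ⟨k, hk, hr⟩ := hr
  simp only [List.mem_cons, List.not_mem_nil, or_false] at hr
  rcases hr with rfl | rfl <;> simp

/-! ### violated inequalities -/

theorem viol_none {rows : Rows} {x : Vec} (h : viol rows x = none) :
    ∀ r ∈ rows, dot r.1 x ≤ r.2 := by
  intro r hr
  unfold viol at h
  rw [List.head?_eq_none_iff, List.map_eq_nil_iff, List.filter_eq_nil_iff] at h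
  have := h r hr
  simpa using this

theorem viol_some {rows : Rows} {x h : Vec} (hv : viol rows x = some h) :
    ∃ c, (h, c) ∈ rows ∧ c < dot h x := by
  unfold viol at hv
  have h1 := List.mem_of_mem_head? hv
  rw [List.mem_map] at h1
  obtain ⟨r, hr, rfl⟩ := h1
  rw [List.mem_filter] at hr
  exact ⟨r.2, hr.1, by simpa using hr.2⟩

/-! ### capped iteration -/

theorem capd_eq {σ : Type} [TEnc σ] {B : ℕ} {d x : σ} (h : sz x ≤ B) : capd B d x = x := by
  simp [capd, h]

/-- If no cap is hit, the capped iteration is the iteration. -/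
theorem iterCap_eq {σ : Type} [TEnc σ] {B : ℕ} {F : σ → σ} {d s : σ} {n : ℕ}
    (h : ∀ k < n, sz (F^[k + 1] s) ≤ B) : iterCap B F d n s = F^[n] s := by
  induction n with
  | zero => rfl
  | succ n ih =>
    have h1 := ih fun k hk => h k (by omega)
    unfold iterCap at h1 ⊢
    rw [Function.iterate_succ_apply', h1, Function.iterate_succ_apply', ← Function.iterate_succ_apply' F]
    exact capd_eq (h n (by omega))

/-- An invariant of a capped iteration. -/
theorem iterCap_inv {σ : Type} [TEnc σ] {B : ℕ} {F : σ → σ} {d s : σ} {n : ℕ} (V : ℕ → σ → Prop)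
    (h0 : V 0 s) (hstep : ∀ k < n, ∀ x, V k x → V (k + 1) (F x) ∧ sz (F x) ≤ B) :
    V n (iterCap B F d n s) := by
  induction n with
  | zero => exact h0
  | succ n ih =>
    have h1 := ih fun k hk => hstep k (by omega)
    unfold iterCap at h1 ⊢
    rw [Function.iterate_succ_apply']
    obtain ⟨h2, h3⟩ := hstep n (by omega) _ h1
    rw [capd_eq h3]
    exact h2

end Run7.h960
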