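import Pool.Agent.H687R2.LLLMain

set_option autoImplicit false

/-!
# A fixed-parameter algorithm for the monoid decomposition problem: definitions

Everything is a total computable function on lists of integers. `P` is the length of a pad (a
bound depending on the parameter), `B` a bound on the size of all intermediate states.
-/

namespace Run7.h960

open Pool.Agent.NPC
open Pool.Agent.H687R2.LLL (dot nrm lllStep cnt fsts gsr)

/-- integer vectors -/
abbrev Vec : Type := List ℤ

/-- a box `(x₀, [(b₁, n₁), ...])`, standing for the points `x₀ + ∑ yₖ bₖ`, `|yₖ| ≤ nₖ` -/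
abbrev Box : Type := List ℤ × List (List ℤ × ℕ)

/-- linear inequalities `r · x ≤ c` -/
abbrev Rows : Type := List (List ℤ × ℤ)

/-! ### capped iteration -/

/-- `x`, unless it is too large -/
def capd {σ : Type} [TEnc σ] (B : ℕ) (d x : σ) : σ := bif decide (sz x ≤ B) then x else d

/-- iteration of `F`, values of size more than `B` being replaced by `d` -/
def iterCap {σ : Type} [TEnc σ] (B : ℕ) (F : σ → σ) (d : σ) (n : ℕ) (s : σ) : σ :=
  (fun x => capd B d (F x))^[n] s

/-! ### constants -/

/-- constant of lattice reduction -/
def cc (D : ℕ) : ℕ := 2 ^ ((D + 2) ^ 2)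
/-- flatness constant -/
def cDel (D : ℕ) : ℕ := 2 ^ ((D + 3) ^ 3)
/-- half width of the fine grid -/
def cM (D : ℕ) : ℕ := 2 ^ ((D + 4) ^ 3)
/-- boxes with a side less than this are flat -/
def cw (D : ℕ) : ℕ := 2 * cM D ^ 2

/-! ### vectors -/

/-- `x₀ + ∑ yₖ vₖ` -/
def lin (x0 : Vec) (vs : List Vec) (y : Vec) : Vec :=
  (List.range x0.length).map fun i => x0.getD i 0 + dot y (vs.map fun v => v.getD i 0)

/-- the zero vector of length `n` -/
def zv (n : ℕ) : Vec := List.replicate n 0

/-- unit vectors -/
def unitV (n k : ℕ) : Vec := (List.range n).map fun i => bif decide (i = k) then 1 else 0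

/-- `q + s eₖ` -/
def bump (q : Vec) (k : ℕ) (s : ℤ) : Vec :=
  (List.range q.length).map fun i => q.getD i 0 + bif decide (i = k) then s else 0

/-- negation -/
def nneg (v : Vec) : Vec := v.map fun x => -x

/-- difference -/
def vsub (u v : Vec) : Vec := List.zipWith (fun x y => x - y) u v

/-- one more coordinate in `[-M, M]` -/
def gridStep (M : ℕ) (l : List Vec) : List Vec :=
  l.flatMap fun v => (List.range (2 * M + 1)).map fun i => ((i : ℤ) - (M : ℤ)) :: v

/-- all vectors of length `n` with entries in `[-M, M]` -/
def grid (B M n : ℕ) : List Vec := iterCap B (gridStep M) [] n [[]]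

/-! ### a shrinking step -/

/-- the vectors of a box -/
def bvs (s : Box) : List Vec := s.2.map fun p => p.1

/-- the half widths of a box -/
def bns (s : Box) : List ℕ := s.2.map fun p => p.2

/-- `x₀ + ∑ pₖ lₖ bₖ` -/
def ptS (s : Box) (l : List ℕ) (p : Vec) : Vec :=
  lin s.1 (bvs s) (List.zipWith (fun (x : ℤ) (m : ℕ) => x * (m : ℤ)) p l)

/-- the functional `h` in grid coordinates -/
def eta (s : Box) (l : List ℕ) (h : Vec) : Vec :=
  List.zipWith (fun (b : Vec) (m : ℕ) => (m : ℤ) * dot h b) (bvs s) l

/-- `4 q` -/
def four (q : Vec) : Vec := q.map fun x => 4 * x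

/-- acceptance of a coarse point -/
def accQ (orc : Vec → Option Vec) (s : Box) (l : List ℕ) (q : Vec) : Bool :=
  (orc (ptS s l (four q))).isNone

/-- acceptance of a coarse point with all its neighbours -/
def fatQ (orc : Vec → Option Vec) (s : Box) (l : List ℕ) (q : Vec) : Bool :=
  accQ orc s l q && (List.range q.length).all fun k =>
    accQ orc s l (bump q k 1) && accQ orc s l (bump q k (-1))

/-- the cut of a coarse point -/
def cutQ (orc : Vec → Option Vec) (s : Box) (l : List ℕ) (q : Vec) : List (Vec × Vec) :=
  match orc (ptS s l (four q)) with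
  | none => []
  | some h => [(four q, eta s l h)]

/-- the fine points respecting all cuts -/
def fineS (B M : ℕ) (n : ℕ) (cuts : List (Vec × Vec)) : List Vec :=
  (grid B M n).filter fun p => cuts.all fun c => decide (dot c.2 (vsub p c.1) < (nrm c.2 : ℤ))

/-- the flat directions: pairs `(c, j)` with `c_j = M`, such that `S` is in a thin slab -/
def flatDir (B M Δ n : ℕ) (S : List Vec) (p0 : Vec) : List (Vec × ℕ) :=
  ((grid B M n).flatMap fun c => (List.range n).map fun j => (c, j)).filter fun cj =>
    decide (cj.1.getD cj.2 0 = (M : ℤ)) && S.all fun p =>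
      decide (2 * Δ * (dot cj.1 (vsub p p0)).natAbs ≤ M * M)

/-- product of all entries but the `k`-th one -/
def prodEx (l : List ℕ) (k : ℕ) : ℕ := l.prod / l.getD k 0

/-- the rows of the linear map measuring the slab -/
def arow (M Δ : ℕ) (l : List ℕ) (c : Vec) (j k : ℕ) : Vec :=
  (List.range l.length).map fun i => bif decide (i = j) then (Δ : ℤ) * c.getD k 0 * (prodEx l k : ℤ)
    else bif decide (i = k) then (M : ℤ) * (prodEx l k : ℤ) else 0

/-- all rows -/
def arows (M Δ : ℕ) (l : List ℕ) (c : Vec) (j : ℕ) : List Vec :=
  (List.range l.length).map fun k => arow M Δ l c j k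

/-- the LLL-reduced basis -/
def redB (A : List Vec) : List Vec := fsts (gsr (lllStep^[cnt (sz A)] A))

/-- coefficients, except the `j`-th one -/
def rec0 (M : ℕ) (l : List ℕ) (j : ℕ) (r : Vec) : Vec :=
  (List.range l.length).map fun i => bif decide (i = j) then 0 else
    r.getD i 0 / ((M * prodEx l i : ℕ) : ℤ)

/-- coefficients of a vector of the lattice generated by the rows -/
def recv (M Δ : ℕ) (l : List ℕ) (c : Vec) (j : ℕ) (r : Vec) : Vec :=
  (List.range l.length).map fun i => bif decide (i = j) then
    (r.getD j 0 - (Δ : ℤ) * dot (rec0 M l j r)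
      ((List.range l.length).map fun k => c.getD k 0 * (prodEx l k : ℤ))) /
      ((Δ * M * prodEx l j : ℕ) : ℤ)
    else (rec0 M l j r).getD i 0

/-- validity of the data for lattice reduction -/
def rebOK (M Δ : ℕ) (l : List ℕ) (c : Vec) (j : ℕ) : Bool :=
  decide (0 < M) && decide (0 < Δ) && l.all (fun m => decide (0 < m)) && decide (j < l.length) &&
    decide (c.getD j 0 = (M : ℤ))

/-- the new basis in terms of the old one, with new half widths -/
def reb (C M Δ : ℕ) (l : List ℕ) (c : Vec) (j : ℕ) : List (Vec × ℕ) :=
  bif rebOK M Δ l c j then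
    (redB (arows M Δ l c j)).map fun r => (recv M Δ l c j r, C * (M * M) * l.prod / nrm r)
  else []

/-- a box relative to another one -/
def compo (t s : Box) : Box :=
  (lin t.1 (bvs t) s.1, s.2.map fun p => (lin (zv t.1.length) (bvs t) p.1, p.2))

/-- One shrinking step; the tag is `0` (new box), `1` (fat, with the centre as origin) or `2`
(empty). -/
def shrink (P D B : ℕ) (orc : Vec → Option Vec) (s : Box) : ℕ × Box :=
  let M := min P (cM D)
  let n := s.2.length
  let l := (bns s).map fun m => m / M
  match ((grid B (M / 4 - 1) n).filter (fatQ orc s l)).head? with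
  | some q => (1, (ptS s l (four q), s.2))
  | none =>
    let S := fineS B M n ((grid B (M / 4) n).flatMap (cutQ orc s l))
    match S.head? with
    | none => (2, s)
    | some p0 =>
      match (flatDir B M (cDel D) n S p0).head? with
      | none => (2, s)
      | some cj => (0, compo s (List.zipWith (fun (x : ℤ) (m : ℕ) => x * (m : ℤ)) p0 l,
          reb (cc D) M (cDel D) l cj.1 cj.2))

/-! ### sand and leaves -/

/-- one step of shrinking until the box is flat, fat or empty -/
def stepS (P D B : ℕ) (orc : Vec → Option Vec) (t : ℕ × Box) : ℕ × Box :=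
  bif decide (t.1 = 0) && (!(t.2.2.isEmpty) && !(t.2.2.any fun p => decide (p.2 < cw D))) then
    shrink P D B orc t.2 else t

/-- shrink until the box is flat (tag `0`), fat (tag `1`) or empty (tag `2`) -/
def sand (P D B : ℕ) (orc : Vec → Option Vec) (s : Box) : ℕ × Box :=
  iterCap B (stepS P D B orc) (2, ([], [])) B (0, s)

/-- delete the `k`-th vector -/
def delAt (l : List (Vec × ℕ)) (k : ℕ) : List (Vec × ℕ) :=
  ((List.range l.length).filter fun i => !(decide (i = k))).map fun i => l.getD i ([], 0)

/-- the slices of a flat box -/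
def slices (P D : ℕ) (s : Box) : List Box :=
  match ((List.range s.2.length).filter
      fun k => decide ((s.2.getD k ([], 0)).2 < cw D)).head? with
  | none => []
  | some k => (List.range (2 * min P (s.2.getD k ([], 0)).2 + 1)).map fun i =>
      (lin s.1 [(s.2.getD k ([], 0)).1] [(i : ℤ) - ((s.2.getD k ([], 0)).2 : ℤ)], delAt s.2 k)

/-- one level of the search tree -/
def lvl1 (P D B : ℕ) (orc : Vec → Option Vec) (s : Box) : List Box :=
  bif s.2.isEmpty then [s] else
    let r := sand P D B orc s
    bif decide (r.1 = 0) then slices P D r.2 else bif decide (r.1 = 1) then [(r.2.1, [])] else []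

/-- the leaves: central points of the set described by the oracle -/
def leaves (P D B : ℕ) (orc : Vec → Option Vec) (s : Box) : List Vec :=
  ((iterCap B (fun L => L.flatMap (lvl1 P D B orc)) [] s.2.length [s]).filter
    fun t => t.2.isEmpty && (orc t.1).isNone).map fun t => t.1

/-! ### oracles -/

/-- a violated inequality -/
def viol (rows : Rows) (x : Vec) : Option Vec :=
  ((rows.filter fun r => decide (r.2 < dot r.1 x)).map fun r => r.1).head?

/-- the box of all `y` with `|yₖ| ≤ nₖ` -/
def stdBox (ns : List ℕ) : Box :=
  (zv ns.length, (List.range ns.length).map fun k => (unitV ns.length k, ns.getD k 0))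

/-- the inequalities `|yₖ| ≤ nₖ` -/
def boxRows (ns : List ℕ) : Rows :=
  (List.range ns.length).flatMap fun k =>
    [(unitV ns.length k, (ns.getD k 0 : ℤ)), (nneg (unitV ns.length k), (ns.getD k 0 : ℤ))]

/-- the inequalities in the coordinates of a box -/
def yrows (rows : Rows) (t : Box) : Rows :=
  rows.map (fun r => ((bvs t).map fun b => dot r.1 b, r.2 - dot r.1 t.1)) ++ boxRows (bns t)

/-- oracle for `{y ∈ Sh t : g · (1, y) ≤ -1}` -/
def yorc (rows : Rows) (t : Box) (g : Vec) : Vec → Option Vec :=
  viol (yrows rows t ++ [(g.tail, -1 - g.headD 0)])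

/-- points `y ∈ Sh t` with `g · (1, y) ≤ -1` -/
def ylv (P D B : ℕ) (rows : Rows) (t : Box) (g : Vec) : List Vec :=
  leaves P D B (yorc rows t g) (stdBox (bns t))

/-- oracle for the test functionals `g` with `g · F ≤ -1` -/
def gorc (P D B : ℕ) (rows : Rows) (t : Box) (R : ℕ) (F : Vec) (g : Vec) : Option Vec :=
  match viol (boxRows (List.replicate (t.2.length + 1) R) ++ [(F, -1)]) g with
  | some h => some h
  | none => match (ylv P D B rows t g).head? with
    | none => none
    | some y => some (nneg (1 :: y))

/-- test functionals `g` with `g · F ≤ -1` -/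
def glv (P D B : ℕ) (rows : Rows) (t : Box) (R : ℕ) (F : Vec) : List Vec :=
  leaves P D B (gorc P D B rows t R F) (stdBox (List.replicate (t.2.length + 1) R))

/-- oracle for `{y ∈ Sh t : F - C₁ (1, y) ∈ K}` -/
def zorc (P D B : ℕ) (rows : Rows) (t : Box) (R : ℕ) (C1 : ℕ) (F : Vec) (y : Vec) : Option Vec :=
  match viol (yrows rows t) y with
  | some h => some h
  | none => match (glv P D B rows t R (vsub F ((1 :: y).map fun x => (C1 : ℤ) * x))).head? with
    | none => none
    | some g => some g.tail

/-! ### nodes -/

/-- free types and optional single types -/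
abbrev Node : Type := List Box × List Box

/-- the offset of the `i`-th block -/
def off (bs : List Box) (i : ℕ) : ℕ :=
  ((List.range i).map fun k => (bs.getD k ([], [])).2.length + 1).sum

/-- `v` placed at offset `o` in a vector of length `D` -/
def place (D o : ℕ) (v : Vec) : Vec :=
  (List.range D).map fun i => bif decide (o ≤ i) then v.getD (i - o) 0 else 0

/-- the block of length `m` at offset `o` -/
def blk (F : Vec) (o m : ℕ) : Vec := (List.range m).map fun i => F.getD (o + i) 0

/-- the `i`-th coordinate of the sum of all blocks -/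
def eqRow (bs : List Box) (i : ℕ) : Vec :=
  bs.flatMap fun b => b.1.getD i 0 :: (bvs b).map fun v => v.getD i 0

/-- all explicit inequalities of a node: box, equations, single types -/
def fRows (rows : Rows) (a : Vec) (R : ℕ) (N : Node) : Rows :=
  let bs := N.1 ++ N.2
  let D := off bs bs.length
  boxRows (List.replicate D R) ++
  ((List.range a.length).flatMap fun i =>
    [(eqRow bs i, a.getD i 0), (nneg (eqRow bs i), -(a.getD i 0))]) ++
  (List.range N.2.length).flatMap fun i =>
    let o := off bs (N.1.length + i)
    [(place D o [1], (1 : ℤ)), (place D o [-1], (0 : ℤ))] ++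
      (yrows rows (N.2.getD i ([], []))).map fun r => (place D o (-r.2 :: r.1), 0)

/-- oracle for the feasible set of a node -/
def forc (P d B : ℕ) (rows : Rows) (a : Vec) (R1 R : ℕ) (N : Node) (F : Vec) : Option Vec :=
  let bs := N.1 ++ N.2
  let D := off bs bs.length
  match viol (fRows rows a R N) F with
  | some h => some h
  | none =>
    ((List.range N.1.length).flatMap fun i =>
      let t := N.1.getD i ([], [])
      (glv P (d + 1) B rows t R1 (blk F (off bs i) (t.2.length + 1))).map fun g =>
        nneg (place D (off bs i) g)).head?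

/-- the central points of the feasible set of a node -/
def flv (P d B : ℕ) (rows : Rows) (a : Vec) (R1 R : ℕ) (N : Node) : List Vec :=
  let bs := N.1 ++ N.2
  let D := off bs bs.length
  leaves P D B (forc P d B rows a R1 R N) (stdBox (List.replicate D R))

/-- the outcome for the `i`-th free type -/
def outc (P d B : ℕ) (rows : Rows) (R1 : ℕ) (N : Node) (F : Vec) (i : ℕ) : ℕ × Box :=
  let t := N.1.getD i ([], [])
  bif t.2.isEmpty then (1, ([], [])) else
    sand P (d + 1) B (zorc P (d + 1) B rows t R1 (2 * d + 4)
      (blk F (off (N.1 ++ N.2) i) (t.2.length + 1))) (stdBox (bns t))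

/-- the number of single copies of a type added to the child of a node with `D` coordinates -/
def cSing (d D : ℕ) : ℕ := 2 ^ d * ((2 * d + 4) * (D * cM D + 1))

/-- the answer (`none`) or the child (`some`) for a central point -/
def child (P d B : ℕ) (rows : Rows) (R1 : ℕ) (N : Node) (F : Vec) : Option Node :=
  let D := off (N.1 ++ N.2) (N.1 ++ N.2).length
  let os := (List.range N.1.length).map fun i => (N.1.getD i ([], []), outc P d B rows R1 N F i)
  bif os.all (fun o => decide (o.2.1 = 1)) then none else
    some (os.flatMap (fun o => bif decide (o.2.1 = 1) then [o.1] else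
        bif decide (o.2.1 = 0) then (slices P (d + 1) o.2.2).map (compo o.1) else []),
      N.2 ++ os.flatMap fun o => bif decide (o.2.1 = 1) then [] else
        List.replicate (min P (cSing d D)) o.1)

/-- all answers and children of a node -/
def expand (P d B : ℕ) (rows : Rows) (a : Vec) (R1 R : ℕ) (N : Node) : List (Option Node) :=
  (flv P d B rows a R1 R N).map (child P d B rows R1 N)

/-- one round -/
def round (P d B : ℕ) (rows : Rows) (a : Vec) (R1 R : ℕ) (st : Bool × List Node) :
    Bool × List Node :=
  let out := st.2.flatMap (expand P d B rows a R1 R)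
  (st.1 || out.any (fun o => o.isNone), out.flatMap fun o => match o with
    | none => []
    | some N => [N])

/-! ### the algorithm -/

/-- instances: the rows `(Aᵢ, bᵢ)` and the vector `a` -/
abbrev Inst : Type := Rows × Vec

/-- the inequalities `A z ≤ b`, `z ≥ 0`, `z ≤ a`, `∑ z ≥ 1` -/
def allRows (I : Inst) : Rows :=
  let d := I.2.length
  I.1.map (fun r => ((List.range d).map fun i => r.1.getD i 0, r.2)) ++
  ((List.range d).flatMap fun k => [(nneg (unitV d k), 0), (unitV d k, I.2.getD k 0)]) ++
  [(List.replicate d (-1), -1)]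

/-- the algorithm with explicit bounds -/
def algo (P L : ℕ) (I : Inst) : Bool :=
  I.2.all (fun x => decide (0 ≤ x)) &&
  (iterCap ((P * L) ^ 8) (round P I.2.length ((P * L) ^ 8) (allRows I) I.2 (2 ^ (P ^ 2 * L))
    (2 ^ (P * L))) (false, []) P (false, [([stdBox (I.2.map Int.toNat)], [])])).1

/-- the algorithm on padded inputs -/
def alg (x : Inst × List Unit) : Bool := algo x.2.length (sz x.1) x.1

/-- The monoid decomposition problem: is `a` in the monoid generated by
`S = {z ∈ ℤ^d : z ≥ 0, A z ≤ b}`, `d` being the length of `a`? -/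
def Decomposable (I : Inst) : Prop :=
  (fun i : Fin I.2.length => I.2.getD i 0) ∈ AddSubmonoid.closure
    {z : Fin I.2.length → ℤ | (∀ i, 0 ≤ z i) ∧ ∀ r ∈ I.1,
      ∑ i : Fin I.2.length, r.1.getD i 0 * z i ≤ r.2}

end Run7.h960
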