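import Mathlib

set_option autoImplicit false

/-!
# Sums with small support (Eisenbrand-Shmonin)
-/

namespace Run7.h960

/-- sum of all squares of entries -/
private def esq {n : ℕ} (L : Multiset (Fin n → ℤ)) : ℕ :=
  (L.map fun y => ∑ i, (y i).natAbs ^ 2).sum

private theorem parity_exists {n : ℕ} (F : Finset (Fin n → ℤ)) (hF : 2 ^ n < F.card) :
    ∃ x ∈ F, ∃ y ∈ F, x ≠ y ∧ ∃ z : Fin n → ℤ, x + y = z + z := by
  classical
  have h1 : (Finset.univ : Finset (Fin n → Bool)).card < F.card := by
    simpa using hF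
  obtain ⟨x, hx, y, hy, hxy, he⟩ := Finset.exists_ne_map_eq_of_card_lt_of_maps_to
    (f := fun (x : Fin n → ℤ) => fun i => decide (x i % 2 = 0)) h1
    (fun a _ => Finset.mem_univ _)
  refine ⟨x, hx, y, hy, hxy, fun i => (x i + y i) / 2, ?_⟩
  funext i
  have h2 := congrFun he i
  simp only [decide_eq_decide] at h2
  simp only [Pi.add_apply]
  omega

private theorem natAbs_sq_lt {n : ℕ} {x y z : Fin n → ℤ} (hxy : x ≠ y) (h : x + y = z + z) :
    (∑ i, (z i).natAbs ^ 2) + ∑ i, (z i).natAbs ^ 2 <
      (∑ i, (x i).natAbs ^ 2) + ∑ i, (y i).natAbs ^ 2 := by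
  rw [← Finset.sum_add_distrib, ← Finset.sum_add_distrib]
  have key : ∀ i, (z i).natAbs ^ 2 + (z i).natAbs ^ 2 ≤ (x i).natAbs ^ 2 + (y i).natAbs ^ 2 ∧
      (x i ≠ y i → (z i).natAbs ^ 2 + (z i).natAbs ^ 2 < (x i).natAbs ^ 2 + (y i).natAbs ^ 2) := by
    intro i
    have h1 : x i + y i = z i + z i := congrFun h i
    have e : ∀ a : ℤ, ((a.natAbs ^ 2 : ℕ) : ℤ) = a ^ 2 := fun a => by simp
    have hy : y i = z i + z i - x i := by linarith
    constructor
    · zify
      simp only [sq_abs]
      rw [hy]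
      nlinarith [sq_nonneg (x i - z i)]
    · intro hne
      have h2 : 0 < (x i - z i) ^ 2 := by
        have : x i - z i ≠ 0 := by
          intro h3
          apply hne
          linarith
        positivity
      zify
      simp only [sq_abs]
      rw [hy]
      nlinarith
  obtain ⟨i, hi⟩ := Function.ne_iff.1 hxy
  exact Finset.sum_lt_sum (fun i _ => (key i).1) ⟨i, Finset.mem_univ _, (key i).2 hi⟩

/-- Any multiset over `S` (closed under midpoints) can be replaced by one with the same number of
elements, the same sum, and at most `2 ^ n` different elements. -/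
theorem small_support {n : ℕ} (S : Set (Fin n → ℤ))
    (hmid : ∀ x ∈ S, ∀ y ∈ S, ∀ z : Fin n → ℤ, x + y = z + z → z ∈ S)
    (L : Multiset (Fin n → ℤ)) (hL : ∀ y ∈ L, y ∈ S) :
    ∃ L' : Multiset (Fin n → ℤ), (∀ y ∈ L', y ∈ S) ∧ L'.card = L.card ∧ L'.sum = L.sum ∧
      L'.toFinset.card ≤ 2 ^ n := by
  classical
  induction hk : esq L using Nat.strong_induction_on generalizing L with
  | _ k ih =>
  by_cases hc : L.toFinset.card ≤ 2 ^ n
  · exact ⟨L, hL, rfl, rfl, hc⟩
  obtain ⟨x, hx, y, hy, hxy, z, hz⟩ := parity_exists L.toFinset (by omega)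
  rw [Multiset.mem_toFinset] at hx hy
  have hy' : y ∈ L.erase x := (Multiset.mem_erase_of_ne (Ne.symm hxy)).2 hy
  obtain ⟨L1, hL1⟩ := Multiset.exists_cons_of_mem hx
  have hy1 : y ∈ L1 := by
    rw [hL1, Multiset.erase_cons_head] at hy'
    exact hy'
  obtain ⟨L2, hL2⟩ := Multiset.exists_cons_of_mem hy1
  subst hL2
  subst hL1
  have hzS : z ∈ S := hmid x (hL x (by simp)) y (hL y (by simp)) z hz
  have hlt : esq (z ::ₘ z ::ₘ L2) < k := by
    rw [← hk]
    have := natAbs_sq_lt hxy hz
    simp only [esq, Multiset.map_cons, Multiset.sum_cons]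
    omega
  obtain ⟨L', h1, h2, h3, h4⟩ := ih _ hlt (z ::ₘ z ::ₘ L2) (by
    intro w hw
    simp only [Multiset.mem_cons] at hw
    rcases hw with rfl | rfl | hw
    · exact hzS
    · exact hzS
    · exact hL w (by simp [hw])) rfl
  refine ⟨L', h1, by rw [h2]; simp, ?_, h4⟩
  rw [h3]
  simp only [Multiset.sum_cons]
  rw [← add_assoc, ← add_assoc, hz]

/-- The elements of multiplicity less than `C` are few. -/
theorem light_card {α : Type*} [DecidableEq α] (L : Multiset α) (C K : ℕ)
    (hK : L.toFinset.card ≤ K) : (L.filter fun y => L.count y < C).card ≤ K * C := by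
  classical
  have h1 : (L.filter fun y => L.count y < C).card =
      ∑ a ∈ L.toFinset, (L.filter fun y => L.count y < C).count a := by
    rw [← Multiset.toFinset_sum_count_eq]
    apply Finset.sum_subset
    · exact Multiset.toFinset_subset.2 (Multiset.filter_subset _ _)
    · intro a _ h
      rw [Multiset.mem_toFinset] at h
      exact Multiset.count_eq_zero_of_notMem h
  rw [h1]
  calc ∑ a ∈ L.toFinset, (L.filter fun y => L.count y < C).count a
      ≤ ∑ a ∈ L.toFinset, C := by
        apply Finset.sum_le_sum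
        intro a _
        rw [Multiset.count_filter]
        split_ifs with h
        · exact h.le
        · exact Nat.zero_le _
    _ = L.toFinset.card * C := by simp
    _ ≤ K * C := Nat.mul_le_mul_right _ hK

end Run7.h960
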