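import Pool.Agent.NPC.Num

set_option autoImplicit false

/-!
# From polynomial-time algorithms on padded inputs to fixed-parameter algorithms, with pads of
primitive recursive length
-/

namespace Pool.Agent.NPC.M960

open Turing
open Function (update)

/-! ### pads -/

/-- the code of a pad -/
def U (n : ℕ) : List Bool := bits (List.replicate n ())

theorem U_succ (n : ℕ) : U (n + 1) = true :: false :: U n := rfl

theorem U_length (n : ℕ) : (U n).length = 2 * n + 1 := by
  induction n with
  | zero => rfl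
  | succ n ih => rw [U_succ, List.length_cons, List.length_cons, ih]; ring

/-- one step of an iteration with its running time -/
def stp (g : ℕ → ℕ × ℕ) (s : ℕ × ℕ) : ℕ × ℕ := ((g s.1).1, s.2 + (g s.1).2 + 2)

/-- values and running times of a fast growing hierarchy -/
def AT : ℕ → ℕ → ℕ × ℕ
  | 0, n => (n + 1, 2)
  | m + 1, n => (((stp (AT m))^[2 * n + 1] (1, 0)).1,
      ((stp (AT m))^[2 * n + 1] (1, 0)).2 + (10 * n + 20))

/-- the programs -/
def PG : ℕ → Cmd ℕ
  | 0 => Cmd.seq (Cmd.push 0 false) (Cmd.push 0 true)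
  | m + 1 => Cmd.seq (mv 0 1) (Cmd.seq (pushL 0 (U 1))
      (Cmd.loop 1 (Cmd.seq (Cmd.pop 1) (ev (PG m)))))

theorem loop_gen {c : Cmd ℕ} {g : ℕ → ℕ × ℕ} (h : ∀ n, Runs c (inp (U n)) (inp (U (g n).1)) (g n).2) :
    ∀ (l : List Bool) (n t : ℕ), ∃ R, R + t = ((stp g)^[l.length] (n, t)).2 + 1 ∧
      Runs (Cmd.loop 1 (Cmd.seq (Cmd.pop 1) (ev c))) (st (U n) l [])
        (st (U ((stp g)^[l.length] (n, t)).1) [] []) R := by
  intro l
  induction l with
  | nil =>
    intro n t
    refine ⟨1, ?_, (Runs.loopNil (by simp)).mono le_rfl⟩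
    simp only [List.length_nil, Function.iterate_zero_apply]
    omega
  | cons b l ih =>
    intro n t
    obtain ⟨R, hR, h3⟩ := ih (g n).1 (t + (g n).2 + 2)
    have h1 : Runs (Cmd.pop 1) (st (U n) (b :: l) []) (st (U n) l []) 1 :=
      (Runs.pop _ 1).conv rfl (by simp) le_rfl
    have h2 := ev_runs (h n) l
    have e : (stp g)^[(b :: l).length] (n, t) =
        (stp g)^[l.length] ((g n).1, t + (g n).2 + 2) := by
      rw [List.length_cons, Function.iterate_succ_apply]; rfl
    refine ⟨R + (g n).2 + 2, ?_, ?_⟩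
    · rw [e]; omega
    · rw [e]
      refine (Runs.loopCons (by simp) (h1.seq h2) h3).mono ?_
      omega

theorem PG_runs (m : ℕ) : ∀ n, Runs (PG m) (inp (U n)) (inp (U (AT m n).1)) (AT m n).2 := by
  induction m with
  | zero =>
    intro n
    rw [inp_eq_st, inp_eq_st]
    refine ((Runs.push _ 0 false).seq (Runs.push _ 0 true)).conv rfl ?_ le_rfl
    simp [AT, U_succ]
  | succ m ih =>
    intro n
    rw [inp_eq_st, inp_eq_st]
    obtain ⟨R, hR, h3⟩ := loop_gen ih (U n).reverse 1 0
    have h1 := mv_runs (i := 0) (j := 1) (by decide) (U n) (st (U n) [] [])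
      (st [] (U n).reverse []) rfl (by simp)
    have h2 := pushL_runs (i := 0) (U 1) (st [] (U n).reverse []) (st (U 1) (U n).reverse [])
      (by simp)
    rw [List.length_reverse, U_length] at hR h3
    refine (h1.seq (h2.seq h3)).conv rfl rfl ?_
    rw [U_length, U_length]
    have e : (AT (m + 1) n).2 = ((stp (AT m))^[2 * n + 1] (1, 0)).2 + (10 * n + 20) := rfl
    rw [e]
    omega

/-! ### growth -/

/-- the values -/
def G (m n : ℕ) : ℕ := (AT m n).1

theorem stp_iter (g : ℕ → ℕ × ℕ) (k : ℕ) (s : ℕ × ℕ) :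
    ((stp g)^[k] s).1 = (fun n => (g n).1)^[k] s.1 := by
  induction k generalizing s with
  | zero => rfl
  | succ k ih => rw [Function.iterate_succ_apply, Function.iterate_succ_apply, ih]; rfl

theorem G_zero (n : ℕ) : G 0 n = n + 1 := rfl

theorem G_succ (m n : ℕ) : G (m + 1) n = (G m)^[2 * n + 1] 1 := by
  have h : G (m + 1) n = ((stp (AT m))^[2 * n + 1] (1, 0)).1 := rfl
  rw [h, stp_iter]
  rfl

theorem iter_gt {f : ℕ → ℕ} (hf : ∀ n, n < f n) (k x : ℕ) : x + k ≤ f^[k] x := by
  induction k with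
  | zero => simp
  | succ k ih =>
    rw [Function.iterate_succ_apply']
    have := hf (f^[k] x)
    omega

theorem iter_mono_count {f : ℕ → ℕ} (hf : ∀ n, n < f n) {k l : ℕ} (h : k ≤ l) (x : ℕ) :
    f^[k] x ≤ f^[l] x := by
  obtain ⟨j, rfl⟩ := Nat.exists_eq_add_of_le' h
  rw [Function.iterate_add_apply]
  exact (Nat.le_add_right _ _).trans (iter_gt hf j _)

theorem G_lt (m : ℕ) : ∀ n, n < G m n := by
  induction m with
  | zero => intro n; rw [G_zero]; omega
  | succ m ih =>
    intro n
    rw [G_succ]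
    have := iter_gt ih (2 * n + 1) 1
    omega

theorem ack_succ_iter (m n : ℕ) : ack (m + 1) n = (ack m)^[n + 1] 1 := by
  induction n with
  | zero => rw [ack_succ_zero]; rfl
  | succ n ih => rw [ack_succ_succ, ih, ← Function.iterate_succ_apply' (ack m)]

theorem iter_le_iter {f g : ℕ → ℕ} (hf : Monotone f) (h : ∀ n, f n ≤ g n) (k x : ℕ) :
    f^[k] x ≤ g^[k] x := by
  induction k with
  | zero => exact le_rfl
  | succ k ih =>
    rw [Function.iterate_succ_apply', Function.iterate_succ_apply']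
    exact (hf ih).trans (h _)

theorem ack_le_G (m : ℕ) : ∀ n, ack m n ≤ G m n := by
  induction m with
  | zero => intro n; rw [ack_zero, G_zero]
  | succ m ih =>
    intro n
    rw [ack_succ_iter, G_succ]
    exact (iter_le_iter (ack_mono_right m) ih (n + 1) 1).trans
      (iter_mono_count (G_lt m) (by omega) 1)

theorem AT_primrec (m : ℕ) : Primrec (AT m) := by
  induction m with
  | zero => exact Primrec.pair Primrec.succ (Primrec.const 2)
  | succ m ih =>
    have h1 : Primrec (stp (AT m)) := by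
      have h2 : Primrec (fun s : ℕ × ℕ => AT m s.1) := ih.comp Primrec.fst
      exact Primrec.pair (Primrec.fst.comp h2) (Primrec.nat_add.comp (Primrec.nat_add.comp
        Primrec.snd (Primrec.snd.comp h2)) (Primrec.const 2))
    have h3 : Primrec (fun n : ℕ => 2 * n + 1) :=
      Primrec.succ.comp (Primrec.nat_mul.comp (Primrec.const 2) Primrec.id)
    have h4 : Primrec (fun n : ℕ => (stp (AT m))^[2 * n + 1] (1, 0)) :=
      Primrec.nat_iterate h3 (Primrec.const (1, 0)) (h1.comp₂ Primrec₂.right)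
    have h5 : Primrec (fun n : ℕ => 10 * n + 20) :=
      Primrec.nat_add.comp (Primrec.nat_mul.comp (Primrec.const 10) Primrec.id) (Primrec.const 20)
    exact Primrec.pair (Primrec.fst.comp h4) (Primrec.nat_add.comp (Primrec.snd.comp h4) h5)

/-! ### machines -/

/-- polynomials grow polynomially -/
theorem eval_le_pow (P : Polynomial ℕ) : ∃ C D : ℕ, ∀ x, 1 ≤ x → P.eval x ≤ C * x ^ D := by
  induction P using Polynomial.induction_on' with
  | add p q hp hq =>
    obtain ⟨C, D, h⟩ := hp
    obtain ⟨C', D', h'⟩ := hq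
    refine ⟨C + C', D + D', fun x hx => ?_⟩
    rw [Polynomial.eval_add, Nat.add_mul]
    refine Nat.add_le_add ((h x hx).trans (Nat.mul_le_mul_left _ ?_))
      ((h' x hx).trans (Nat.mul_le_mul_left _ ?_))
    · exact Nat.pow_le_pow_right hx (by omega)
    · exact Nat.pow_le_pow_right hx (by omega)
  | monomial k c =>
    refine ⟨c, k, fun x _ => ?_⟩
    rw [Polynomial.eval_monomial]

/-- A program running within a time bound gives a Turing machine. -/
theorem runs_to_tm {α β : Type} [TEnc α] [TEnc β] (g : α → β) (c : Cmd ℕ) (Tm : α → ℕ)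
    (h : ∀ a, Runs c (inp (bits a)) (inp (bits (g a))) (Tm a)) :
    ∃ (tm : FinTM2) (e₀ : tm.Γ tm.k₀ ≃ Bool) (e₁ : tm.Γ tm.k₁ ≃ Bool), ∀ a,
      Nonempty (TM2OutputsInTime tm ((bits a).map e₀.invFun)
        (some ((bits (g a)).map e₁.invFun)) (Tm a + 1)) := by
  refine ⟨(c.map (Fin.ofNat (c.bd + 1))).toTM, Equiv.refl Bool, Equiv.refl Bool, fun a => ?_⟩
  obtain ⟨t, ht, hr⟩ := h a
  have h1 := hr.restrict (n := c.bd) (by omega)
  have h2 : Nonempty (TM2OutputsInTime (c.map (Fin.ofNat (c.bd + 1))).toTM (bits a)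
      (some (bits (g a))) (t + 1)) := by
    apply toTM_outputs
    convert! h1 using 1
    · funext i
      by_cases hi : i = 0
      · subst hi; simp [inp]
      · have : (i : ℕ) ≠ 0 := fun h => hi (Fin.ext h)
        simp [inp, hi, this]
    · funext i
      by_cases hi : i = 0
      · subst hi; simp [inp]
      · have : (i : ℕ) ≠ 0 := fun h => hi (Fin.ext h)
        simp [inp, hi, this]
  exact ⟨outputs_conv (List.map_id _).symm (List.map_id _).symm (by omega) h2.some⟩

/-- The program: compute the pad, keep the input, run the padded algorithm. -/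
theorem fpt_run {α β : Type} [TEnc α] [TEnc β] (g : α × List Unit → β) (hg : Poly g)
    (κ : α → ℕ) (hκ : UPoly κ) (m : ℕ) :
    ∃ (c : Cmd ℕ) (P : Polynomial ℕ), ∀ a, Runs c (inp (bits a))
      (inp (bits (g (a, List.replicate (G m (κ a)) ()))))
      (P.eval ((bits a).length + (2 * G m (κ a) + (AT m (κ a)).2 + 2))) := by
  obtain ⟨d, r, hd⟩ := hκ
  obtain ⟨e, q, he⟩ := hg
  refine ⟨Cmd.seq (Cmd.seq (mv 0 2) (cp 2 0 1)) (Cmd.seq (ev d) (Cmd.seq (ev (PG m))
    (Cmd.seq (mv 1 2) (Cmd.seq (mv 2 0) (Cmd.seq (Cmd.push 0 true) e))))),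
    Polynomial.C 20 * Polynomial.X + Polynomial.C 20 + r + Polynomial.X + q, fun a => ?_⟩
  rw [inp_eq_st, inp_eq_st]
  have h1 := dup_runs (bits a)
  have h2 := ev_runs (hd a) (bits a)
  have h3 := ev_runs (PG_runs m (κ a)) (bits a)
  have h4 := mv_runs (i := 1) (j := 2) (by decide) (bits a) (st (U (G m (κ a))) (bits a) [])
    (st (U (G m (κ a))) [] (bits a).reverse) rfl (by simp)
  have h5 := mv_runs (i := 2) (j := 0) (by decide) (bits a).reverse
    (st (U (G m (κ a))) [] (bits a).reverse) (st (bits a ++ U (G m (κ a))) [] []) rfl (by simp)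
  have e1 : true :: (bits a ++ U (G m (κ a))) = bits (a, List.replicate (G m (κ a)) ()) := rfl
  have h6 := (Runs.push (st (bits a ++ U (G m (κ a))) [] []) 0 true).conv rfl
    (s₁' := st (bits (a, List.replicate (G m (κ a)) ())) [] []) (by rw [← e1]; simp) le_rfl
  have h7 := he (a, List.replicate (G m (κ a)) ())
  rw [inp_eq_st, inp_eq_st] at h7
  refine (h1.seq (h2.seq (h3.seq (h4.seq (h5.seq (h6.seq h7)))))).conv rfl rfl ?_
  have e2 : (bits (a, List.replicate (G m (κ a)) ())).length =
      (bits a).length + (2 * G m (κ a) + 2) := by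
    rw [← e1, List.length_cons, List.length_append, U_length]; ring
  rw [e2, List.length_reverse]
  set X := (bits a).length + (2 * G m (κ a) + (AT m (κ a)).2 + 2) with hX
  have e3 : r.eval (bits a).length ≤ r.eval X := eval_mono r (by omega)
  have e4 : q.eval ((bits a).length + (2 * G m (κ a) + 2)) ≤ q.eval X := eval_mono q (by omega)
  simp only [Polynomial.eval_add, Polynomial.eval_mul, Polynomial.eval_C, Polynomial.eval_X]
  omega

end Pool.Agent.NPC.M960

namespace Run7.h960

open Pool.Agent.NPC Turing Pool.Agent.NPC.M960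

/-- If `g` is polynomial-time on padded inputs and gives the right answer `h a` whenever the pad
has length at least `F (κ a)`, where `F` is primitive recursive, then `h` is computed by a
fixed-parameter algorithm. -/
theorem fpt_of_alg {α β : Type} [TEnc α] [TEnc β] (g : α × List Unit → β) (hg : Pool.Agent.NPC.Poly g)
    (κ : α → ℕ) (hκ : UPoly κ) (F : ℕ → ℕ) (hF : Primrec F) (h : α → β)
    (hgh : ∀ (a : α) (u : List Unit), F (κ a) ≤ u.length → g (a, u) = h a) :
    ∃ (tm : FinTM2) (e₀ : tm.Γ tm.k₀ ≃ Bool) (e₁ : tm.Γ tm.k₁ ≃ Bool) (f : ℕ → ℕ) (c : ℕ),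
      Computable f ∧ ∀ a, Nonempty (TM2OutputsInTime tm ((bits a).map e₀.invFun)
        (some ((bits (h a)).map e₁.invFun)) (f (κ a) * ((bits a).length + 1) ^ c)) := by
  obtain ⟨m, hm⟩ := exists_lt_ack_of_nat_primrec (Primrec.nat_iff.1 hF)
  obtain ⟨c, P, hc⟩ := fpt_run g hg κ hκ m
  obtain ⟨C, D, hP⟩ := eval_le_pow P
  have hgh' : ∀ a, g (a, List.replicate (G m (κ a)) ()) = h a := fun a => hgh a _ (by
    rw [List.length_replicate]
    exact ((hm (κ a)).le).trans (ack_le_G m (κ a)))
  obtain ⟨tm, e₀, e₁, htm⟩ := runs_to_tm (fun a => g (a, List.replicate (G m (κ a)) ())) c _ hc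
  refine ⟨tm, e₀, e₁, fun k => (C + 1) * (2 * G m k + (AT m k).2 + 2) ^ D, D, ?_, fun a => ?_⟩
  · apply Primrec.to_comp
    have hpow : Primrec₂ (fun a b : ℕ => a ^ b) := Primrec₂.unpaired'.1 Nat.Primrec.pow
    have h1 : Primrec (fun k => 2 * G m k + (AT m k).2 + 2) :=
      Primrec.nat_add.comp (Primrec.nat_add.comp (Primrec.nat_mul.comp (Primrec.const 2)
        (Primrec.fst.comp (AT_primrec m))) (Primrec.snd.comp (AT_primrec m))) (Primrec.const 2)
    exact Primrec.nat_mul.comp (Primrec.const (C + 1)) (hpow.comp h1 (Primrec.const D))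
  · obtain ⟨h0⟩ := htm a
    refine ⟨outputs_conv rfl (by rw [hgh' a]) ?_ h0⟩
    set E := 2 * G m (κ a) + (AT m (κ a)).2 + 2 with hE
    have hE1 : 1 ≤ E := by omega
    have h1 : (bits a).length + E ≤ E * ((bits a).length + 1) := by
      nlinarith [Nat.mul_le_mul_left (bits a).length hE1]
    have h2 := hP ((bits a).length + E) (by omega)
    have h3 : ((bits a).length + E) ^ D ≤ (E * ((bits a).length + 1)) ^ D :=
      Nat.pow_le_pow_left h1 D
    have h4 : 1 ≤ ((bits a).length + E) ^ D := Nat.one_le_pow _ _ (by omega)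
    calc P.eval ((bits a).length + E) + 1
        ≤ C * ((bits a).length + E) ^ D + ((bits a).length + E) ^ D := Nat.add_le_add h2 h4
      _ = (C + 1) * ((bits a).length + E) ^ D := by ring
      _ ≤ (C + 1) * (E * ((bits a).length + 1)) ^ D := Nat.mul_le_mul_left _ h3
      _ = (C + 1) * E ^ D * ((bits a).length + 1) ^ D := by
        rw [mul_pow]; ring

end Run7.h960
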