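import Pool.Agent.Run7.h960.PolyC

set_option autoImplicit false

/-!
# Polynomial time: nodes and the algorithm
-/

namespace Pool.Agent.NPC.R960

open Run7.h960
open Pool.Agent.H687R2.LLL (dot nrm lllStep cnt fsts gsr)

variable {α β γ σ : Type} [TEnc α] [TEnc β] [TEnc γ] [TEnc σ]

theorem upoly_congr {m n : α → ℕ} (hm : UPoly m) (h : ∀ a, m a = n a) : UPoly n := by
  have h1 : m = n := funext h
  rw [← h1]
  exact hm

/-- weakening of the context -/
theorem uwk {n : α → ℕ} (hn : UPoly n) : UPoly (fun p : α × β => n p.1) :=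
  UPoly.comp (n := n) hn c1

theorem poly_nth {l : α → List Box} {k : α → ℕ} (hl : Poly l) (hk : Poly k) :
    Poly (fun a => (l a).getD (k a) ([], [])) := Poly.getD hl hk (Poly.const _)

/-! ### offsets -/

theorem replicate_sum (l : List ℕ) (g : ℕ → ℕ) :
    l.flatMap (fun k => List.replicate (g k) ()) = List.replicate (l.map g).sum () := by
  induction l with
  | nil => rfl
  | cons x l ih => rw [List.flatMap_cons, ih, List.map_cons, List.sum_cons, List.replicate_add]

theorem upoly_off {bs : α → List Box} {i : α → ℕ} (hb : Poly bs) (hi : UPoly i) :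
    UPoly (fun a => off (bs a) (i a)) := by
  have h1 : UPoly (fun p : α × ℕ => ((bs p.1).getD p.2 ([], [])).2.length + 1) :=
    UPoly.add (UPoly.length (Poly.snd (poly_nth (hb.comp c1) c2))) (UPoly.const 1)
  exact (Poly.flatMap (F := fun a (k : ℕ) =>
    List.replicate (((bs a).getD k ([], [])).2.length + 1) ()) hi.range h1).congr fun a => by
      rw [replicate_sum]; rfl

theorem off_ge (bs : List Box) (j : ℕ) : off bs (bs.length + j) = off bs bs.length + j := by
  induction j with
  | zero => rfl
  | succ j ih =>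
    have h1 : off bs (bs.length + (j + 1)) = off bs (bs.length + j) +
        ((bs.getD (bs.length + j) ([], [])).2.length + 1) := by
      unfold off
      rw [← Nat.add_assoc, List.range_succ, List.map_append, List.sum_append]
      simp only [List.map_cons, List.map_nil, List.sum_cons, List.sum_nil, Nat.add_zero]
    rw [h1, ih, List.getD_eq_default _ _ (by omega)]
    simp only [List.length_nil]
    omega

theorem off_eq (bs : List Box) (i : ℕ) : off bs i = off bs (min i bs.length) + (i - bs.length) := by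
  rcases le_total i bs.length with h | h
  · rw [min_eq_left h, Nat.sub_eq_zero_of_le h, Nat.add_zero]
  · rw [min_eq_right h]
    obtain ⟨j, rfl⟩ := Nat.exists_eq_add_of_le h
    rw [off_ge]
    omega

theorem poly_off {bs : α → List Box} {i : α → ℕ} (hb : Poly bs) (hi : Poly i) :
    Poly (fun a => off (bs a) (i a)) := by
  have h1 : UPoly (fun a => min (i a) (bs a).length) :=
    UPoly.of_le (Poly.min hi (Poly.length hb)) (UPoly.length hb) fun a => min_le_right _ _
  exact (Poly.add (upoly_off hb h1).toPoly (Poly.sub hi (Poly.length hb))).congr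
    fun a => (off_eq _ _).symm

theorem upoly_tot {bs : α → List Box} (hb : Poly bs) :
    UPoly (fun a => off (bs a) (bs a).length) := upoly_off hb (UPoly.length hb)

theorem poly_place {D o : α → ℕ} {v : α → Vec} (hD : UPoly D) (ho : Poly o) (hv : Poly v) :
    Poly (fun a => place (D a) (o a) (v a)) :=
  Poly.map (F := fun a (i : ℕ) => bif decide (o a ≤ i) then (v a).getD (i - o a) 0 else 0)
    hD.range (Poly.cond (Poly.decide_le (ho.comp c1) c2)
      (Poly.getD (hv.comp c1) (Poly.sub c2 (ho.comp c1)) (Poly.const 0)) (Poly.const 0))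

theorem poly_blk {m o : α → ℕ} {F : α → Vec} (hF : Poly F) (ho : Poly o) (hm : UPoly m) :
    Poly (fun a => blk (F a) (o a) (m a)) :=
  Poly.map (F := fun a (i : ℕ) => (F a).getD (o a + i) 0) hm.range
    (Poly.getD (hF.comp c1) (Poly.add (ho.comp c1) c2) (Poly.const 0))

theorem poly_eqRow {bs : α → List Box} {i : α → ℕ} (hb : Poly bs) (hi : Poly i) :
    Poly (fun a => eqRow (bs a) (i a)) :=
  Poly.flatMap (F := fun a (b : Box) => (b.1.getD (i a) 0 ::
      (bvs b).map fun (v : Vec) => v.getD (i a) 0 : Vec)) hb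
    (Poly.cons (Poly.getD (Poly.fst c2) (hi.comp c1) (Poly.const 0))
      (poly_colD (vs := fun p : α × Box => bvs p.2) (i := fun p : α × Box => i p.1)
        (poly_bvs c2) (hi.comp c1)))

/-! ### nodes -/

theorem poly_bs {N : α → Node} (hN : Poly N) : Poly (fun a => (N a).1 ++ (N a).2) :=
  Poly.append (Poly.fst hN) (Poly.snd hN)

/-- the rows of a single type -/
def sRows (rows : Rows) (N : Node) (i : ℕ) : Rows :=
  [(place (off (N.1 ++ N.2) (N.1 ++ N.2).length) (off (N.1 ++ N.2) (N.1.length + i)) [1], (1 : ℤ)),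
    (place (off (N.1 ++ N.2) (N.1 ++ N.2).length) (off (N.1 ++ N.2) (N.1.length + i)) [-1],
      (0 : ℤ))] ++
    (yrows rows (N.2.getD i ([], []))).map fun r =>
      (place (off (N.1 ++ N.2) (N.1 ++ N.2).length) (off (N.1 ++ N.2) (N.1.length + i))
        (-r.2 :: r.1), 0)

theorem poly_sRows {rows : α → Rows} {N : α → Node} {i : α → ℕ} (hr : Poly rows) (hN : Poly N)
    (hi : Poly i) : Poly (fun a => sRows (rows a) (N a) (i a)) := by
  have hD := upoly_tot (poly_bs hN)
  have ho : Poly (fun a => off ((N a).1 ++ (N a).2) ((N a).1.length + i a)) :=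
    poly_off (poly_bs hN) (Poly.add (Poly.length (Poly.fst hN)) hi)
  exact Poly.append (Poly.cons (Poly.pair (poly_place hD ho (Poly.const _)) (Poly.const _))
    (Poly.cons (Poly.pair (poly_place hD ho (Poly.const _)) (Poly.const _)) (Poly.const _)))
    (Poly.map (F := fun a (r : Vec × ℤ) => (place (off ((N a).1 ++ (N a).2)
        ((N a).1 ++ (N a).2).length) (off ((N a).1 ++ (N a).2) ((N a).1.length + i a))
        (-r.2 :: r.1), (0 : ℤ)))
      (poly_yrows hr (poly_nth (Poly.snd hN) hi))
      (Poly.pair (poly_place ((uwk (β := Vec × ℤ) hD)) (ho.comp c1)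
        (Poly.cons (Poly.ineg (Poly.snd c2)) (Poly.fst c2))) (Poly.const _)))

theorem poly_fRows {R : α → ℕ} {rows : α → Rows} {a : α → Vec} {N : α → Node} (hr : Poly rows)
    (ha : Poly a) (hR : Poly R) (hN : Poly N) :
    Poly (fun x => fRows (rows x) (a x) (R x) (N x)) := by
  have hD := upoly_tot (poly_bs hN)
  have h1 : Poly (fun x => boxRows (List.replicate (off ((N x).1 ++ (N x).2)
      ((N x).1 ++ (N x).2).length) (R x))) := poly_boxRows (poly_replicate hD hR)
  have he : Poly (fun p : α × ℕ => eqRow ((N p.1).1 ++ (N p.1).2) p.2) :=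
    poly_eqRow ((poly_bs hN).comp c1) c2
  have hg : Poly (fun p : α × ℕ => (a p.1).getD p.2 0) :=
    Poly.getD (ha.comp c1) c2 (Poly.const 0)
  have h2 : Poly (fun x => (List.range (a x).length).flatMap fun i =>
      [(eqRow ((N x).1 ++ (N x).2) i, (a x).getD i 0),
        (nneg (eqRow ((N x).1 ++ (N x).2) i), -((a x).getD i 0))]) :=
    Poly.flatMap (F := fun x (i : ℕ) => [(eqRow ((N x).1 ++ (N x).2) i, (a x).getD i 0),
        (nneg (eqRow ((N x).1 ++ (N x).2) i), -((a x).getD i 0))]) (Poly.range_length ha)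
      (Poly.cons (Poly.pair he hg) (Poly.cons (Poly.pair (poly_nneg he) (Poly.ineg hg))
        (Poly.const _)))
  have h3 : Poly (fun x => (List.range (N x).2.length).flatMap fun i =>
      sRows (rows x) (N x) i) :=
    Poly.flatMap (F := fun x (i : ℕ) => sRows (rows x) (N x) i)
      (Poly.range_length (Poly.snd hN)) (poly_sRows (hr.comp c1) (hN.comp c1) c2)
  exact Poly.append (Poly.append h1 h2) h3

/-- the second part of the oracle of a node -/
def forcB (P d B : ℕ) (rows : Rows) (R1 : ℕ) (N : Node) (F : Vec) (i : ℕ) : List Vec :=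
  (glv P (d + 1) B rows (N.1.getD i ([], [])) R1 (blk F (off (N.1 ++ N.2) i)
    ((N.1.getD i ([], [])).2.length + 1))).map fun g =>
      nneg (place (off (N.1 ++ N.2) (N.1 ++ N.2).length) (off (N.1 ++ N.2) i) g)

theorem poly_forcB {P d B R1 i : α → ℕ} {rows : α → Rows} {N : α → Node} {F : α → Vec}
    (hP : UPoly P) (hd : UPoly d) (hB : UPoly B) (hr : Poly rows) (hR1 : Poly R1) (hN : Poly N)
    (hF : Poly F) (hi : Poly i) :
    Poly (fun x => forcB (P x) (d x) (B x) (rows x) (R1 x) (N x) (F x) (i x)) := by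
  have hD := upoly_tot (poly_bs hN)
  have ht := poly_nth (Poly.fst hN) hi
  have ho := poly_off (poly_bs hN) hi
  exact Poly.map (F := fun x (g : Vec) => nneg (place (off ((N x).1 ++ (N x).2)
      ((N x).1 ++ (N x).2).length) (off ((N x).1 ++ (N x).2) (i x)) g))
    (poly_glv hP (UPoly.add hd (UPoly.const 1)) hB hr ht hR1
      (poly_blk hF ho (UPoly.add (UPoly.length (Poly.snd ht)) (UPoly.const 1))))
    (poly_nneg (poly_place ((uwk (β := Vec) hD)) (ho.comp c1) c2))

theorem poly_forc {P d B R1 R : α → ℕ} {rows : α → Rows} {a : α → Vec} {N : α → Node}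
    {F : α → Vec} (hP : UPoly P) (hd : UPoly d) (hB : UPoly B) (hr : Poly rows) (ha : Poly a)
    (hR1 : Poly R1) (hR : Poly R) (hN : Poly N) (hF : Poly F) :
    Poly (fun x => forc (P x) (d x) (B x) (rows x) (a x) (R1 x) (R x) (N x) (F x)) := by
  have h1 : Poly (fun x => viol (fRows (rows x) (a x) (R x) (N x)) (F x)) :=
    poly_viol (poly_fRows hr ha hR hN) hF
  have h2 : Poly (fun x => ((List.range (N x).1.length).flatMap fun i =>
      forcB (P x) (d x) (B x) (rows x) (R1 x) (N x) (F x) i).head?) :=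
    Poly.head? (Poly.flatMap (F := fun x (i : ℕ) =>
      forcB (P x) (d x) (B x) (rows x) (R1 x) (N x) (F x) i) (Poly.range_length (Poly.fst hN))
      (poly_forcB ((UPoly.comp hP c1)) ((UPoly.comp hd c1)) ((UPoly.comp hB c1)) (hr.comp c1)
        (hR1.comp c1) (hN.comp c1) (hF.comp c1) c2))
  refine (Poly.optElim (h := fun _ (h : Vec) => some h) h1 h2 (Poly.some c2)).congr fun x => ?_
  unfold forc
  simp only
  cases viol (fRows (rows x) (a x) (R x) (N x)) (F x) <;> rfl

theorem poly_flv {P d B R1 R : α → ℕ} {rows : α → Rows} {a : α → Vec} {N : α → Node}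
    (hP : UPoly P) (hd : UPoly d) (hB : UPoly B) (hr : Poly rows) (ha : Poly a) (hR1 : Poly R1)
    (hR : Poly R) (hN : Poly N) :
    Poly (fun x => flv (P x) (d x) (B x) (rows x) (a x) (R1 x) (R x) (N x)) := by
  have hD := upoly_tot (poly_bs hN)
  exact poly_leaves (orc := fun x => forc (P x) (d x) (B x) (rows x) (a x) (R1 x) (R x) (N x)) hP hD
    hB (poly_forc ((UPoly.comp hP c1)) ((UPoly.comp hd c1)) ((UPoly.comp hB c1)) (hr.comp c1)
      (ha.comp c1) (hR1.comp c1) (hR.comp c1) (hN.comp c1) c2)
    (poly_stdBox (poly_replicate hD hR))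

theorem poly_outc {P d B R1 i : α → ℕ} {rows : α → Rows} {N : α → Node} {F : α → Vec}
    (hP : UPoly P) (hd : UPoly d) (hB : UPoly B) (hr : Poly rows) (hR1 : Poly R1) (hN : Poly N)
    (hF : Poly F) (hi : Poly i) :
    Poly (fun x => outc (P x) (d x) (B x) (rows x) (R1 x) (N x) (F x) (i x)) := by
  have ht := poly_nth (Poly.fst hN) hi
  have ho := poly_off (poly_bs hN) hi
  have hd1 : UPoly (fun x => d x + 1) := UPoly.add hd (UPoly.const 1)
  have hb : Poly (fun x => blk (F x) (off ((N x).1 ++ (N x).2) (i x))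
      (((N x).1.getD (i x) ([], [])).2.length + 1)) :=
    poly_blk hF ho (UPoly.add (UPoly.length (Poly.snd ht)) (UPoly.const 1))
  have hC : Poly (fun x => 2 * d x + 4) :=
    Poly.add (Poly.mul (Poly.const 2) hd.toPoly) (Poly.const 4)
  have h1 : Poly (fun p : α × Vec => zorc (P p.1) (d p.1 + 1) (B p.1) (rows p.1)
      ((N p.1).1.getD (i p.1) ([], [])) (R1 p.1) (2 * d p.1 + 4)
      (blk (F p.1) (off ((N p.1).1 ++ (N p.1).2) (i p.1))
      (((N p.1).1.getD (i p.1) ([], [])).2.length + 1)) p.2) :=
    poly_zorc ((uwk (β := Vec) hP)) ((uwk (β := Vec) hd1)) ((uwk (β := Vec) hB)) (hr.comp c1) (ht.comp c1)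
      (hR1.comp c1) (hC.comp c1) (hb.comp c1) c2
  exact Poly.cond (Poly.isEmpty (Poly.snd ht)) (Poly.const _)
    (poly_sand (orc := fun x => zorc (P x) (d x + 1) (B x) (rows x)
      ((N x).1.getD (i x) ([], [])) (R1 x) (2 * d x + 4)
      (blk (F x) (off ((N x).1 ++ (N x).2) (i x))
      (((N x).1.getD (i x) ([], [])).2.length + 1))) hP hd1 hB h1 (poly_stdBox (poly_bns ht)))

theorem poly_cSing {d D : α → ℕ} (hd : UPoly d) (hD : UPoly D) :
    Poly (fun a => cSing (d a) (D a)) :=
  Poly.mul (Poly.npow (Poly.const 2) hd)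
    (Poly.mul (Poly.add (Poly.mul (Poly.const 2) hd.toPoly) (Poly.const 4))
      (Poly.add (Poly.mul hD.toPoly (poly_cM hD)) (Poly.const 1)))

theorem poly_child {P d B R1 : α → ℕ} {rows : α → Rows} {N : α → Node} {F : α → Vec}
    (hP : UPoly P) (hd : UPoly d) (hB : UPoly B) (hr : Poly rows) (hR1 : Poly R1) (hN : Poly N)
    (hF : Poly F) :
    Poly (fun x => child (P x) (d x) (B x) (rows x) (R1 x) (N x) (F x)) := by
  have hD := upoly_tot (poly_bs hN)
  have hd1 : UPoly (fun x => d x + 1) := UPoly.add hd (UPoly.const 1)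
  have hos : Poly (fun x => (List.range (N x).1.length).map fun i => ((N x).1.getD i ([], []),
      outc (P x) (d x) (B x) (rows x) (R1 x) (N x) (F x) i)) :=
    Poly.map (F := fun x (i : ℕ) => ((N x).1.getD i ([], []),
      outc (P x) (d x) (B x) (rows x) (R1 x) (N x) (F x) i)) (Poly.range_length (Poly.fst hN))
      (Poly.pair (poly_nth (Poly.fst (hN.comp c1)) c2)
        (poly_outc ((UPoly.comp hP c1)) ((UPoly.comp hd c1)) ((UPoly.comp hB c1)) (hr.comp c1)
          (hR1.comp c1) (hN.comp c1) (hF.comp c1) c2))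
  have e1 : ∀ n : ℕ, Poly (fun p : α × Box × ℕ × Box => decide (p.2.2.1 = n)) := fun n =>
    Poly.decide_eq (Poly.fst (Poly.snd c2)) (Poly.const n)
  have hc : Poly (fun p : (α × Box × ℕ × Box) × Box => compo p.1.2.1 p.2) :=
    poly_compo (Poly.fst c12) c2
  have h1 : Poly (fun p : α × Box × ℕ × Box => bif decide (p.2.2.1 = 1) then [p.2.1] else
        bif decide (p.2.2.1 = 0) then (slices (P p.1) (d p.1 + 1) p.2.2.2).map (compo p.2.1)
        else []) :=
    Poly.cond (e1 1) (Poly.cons (Poly.fst c2) (Poly.const _)) (Poly.cond (e1 0)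
      (Poly.map (F := fun (p : α × Box × ℕ × Box) (b : Box) => compo p.2.1 b)
        (poly_slices ((UPoly.comp hP c1)) ((uwk (β := Box × ℕ × Box) hd1)) (Poly.snd (Poly.snd c2))) hc)
      (Poly.const _))
  have hm : UPoly (fun x => min (P x) (cSing (d x) (off ((N x).1 ++ (N x).2)
      ((N x).1 ++ (N x).2).length))) := upoly_minP hP (poly_cSing hd hD)
  have h2 : Poly (fun p : α × Box × ℕ × Box => bif decide (p.2.2.1 = 1) then [] else
        List.replicate (min (P p.1) (cSing (d p.1) (off ((N p.1).1 ++ (N p.1).2)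
          ((N p.1).1 ++ (N p.1).2).length))) p.2.1) :=
    Poly.cond (e1 1) (Poly.const _) (poly_replicate ((uwk (β := Box × ℕ × Box) hm)) (Poly.fst c2))
  exact Poly.cond (Poly.all (p := fun _ (o : Box × ℕ × Box) => decide (o.2.1 = 1)) hos (e1 1))
    (Poly.const _) (Poly.some (Poly.pair
      (Poly.flatMap (F := fun x (o : Box × ℕ × Box) => bif decide (o.2.1 = 1) then [o.1] else
        bif decide (o.2.1 = 0) then (slices (P x) (d x + 1) o.2.2).map (compo o.1) else []) hos h1)
      (Poly.append (Poly.snd hN) (Poly.flatMap (F := fun x (o : Box × ℕ × Box) =>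
        bif decide (o.2.1 = 1) then [] else
        List.replicate (min (P x) (cSing (d x) (off ((N x).1 ++ (N x).2)
          ((N x).1 ++ (N x).2).length))) o.1) hos h2))))

theorem poly_expand {P d B R1 R : α → ℕ} {rows : α → Rows} {a : α → Vec} {N : α → Node}
    (hP : UPoly P) (hd : UPoly d) (hB : UPoly B) (hr : Poly rows) (ha : Poly a) (hR1 : Poly R1)
    (hR : Poly R) (hN : Poly N) :
    Poly (fun x => expand (P x) (d x) (B x) (rows x) (a x) (R1 x) (R x) (N x)) :=
  Poly.map (F := fun x (F : Vec) => child (P x) (d x) (B x) (rows x) (R1 x) (N x) F)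
    (poly_flv hP hd hB hr ha hR1 hR hN)
    (poly_child ((UPoly.comp hP c1)) ((UPoly.comp hd c1)) ((UPoly.comp hB c1)) (hr.comp c1)
      (hR1.comp c1) (hN.comp c1) c2)

/-! ### rounds -/

/-- one round -/
theorem poly_round {P d B R1 R : α → ℕ} {rows : α → Rows} {a : α → Vec}
    {st : α → Bool × List Node} (hP : UPoly P) (hd : UPoly d) (hB : UPoly B) (hr : Poly rows)
    (ha : Poly a) (hR1 : Poly R1) (hR : Poly R) (hst : Poly st) :
    Poly (fun x => Run7.h960.round (P x) (d x) (B x) (rows x) (a x) (R1 x) (R x) (st x)) := by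
  have h1 : Poly (fun x => (st x).2.flatMap (expand (P x) (d x) (B x) (rows x) (a x) (R1 x)
      (R x))) :=
    Poly.flatMap (F := fun x (N : Node) => expand (P x) (d x) (B x) (rows x) (a x) (R1 x) (R x) N)
      (Poly.snd hst) (poly_expand ((UPoly.comp hP c1)) ((UPoly.comp hd c1)) ((UPoly.comp hB c1))
        (hr.comp c1) (ha.comp c1) (hR1.comp c1) (hR.comp c1) c2)
  have h2 : Poly (fun p : α × Option Node => p.2.elim ([] : List Node) fun N => [N]) :=
    Poly.optElim (o := fun p : α × Option Node => p.2) (g := fun _ => ([] : List Node))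
      (h := fun _ (N : Node) => [N]) c2 (Poly.const _) (Poly.cons c2 (Poly.const _))
  have h3 : Poly (fun x => (((st x).1 || ((st x).2.flatMap (expand (P x) (d x) (B x) (rows x)
      (a x) (R1 x) (R x))).any fun o => o.isNone), ((st x).2.flatMap (expand (P x) (d x) (B x)
      (rows x) (a x) (R1 x) (R x))).flatMap fun o => o.elim ([] : List Node) fun N => [N])) :=
    Poly.pair (Poly.or (Poly.fst hst) (Poly.any (p := fun _ (o : Option Node) => o.isNone) h1
      (poly_isNone c2)))
      (Poly.flatMap (F := fun _ (o : Option Node) => o.elim ([] : List Node) fun N => [N]) h1 h2)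
  refine h3.congr fun x => ?_
  unfold Run7.h960.round
  simp only
  congr 2
  funext o
  cases o <;> rfl

theorem poly_allRows {I : α → Inst} (hI : Poly I) : Poly (fun a => allRows (I a)) := by
  have hd : UPoly (fun a => (I a).2.length) := UPoly.length (Poly.snd hI)
  have h1 : Poly (fun a => (I a).1.map fun r =>
      ((List.range (I a).2.length).map fun i => r.1.getD i 0, r.2)) :=
    Poly.map (F := fun a (r : Vec × ℤ) => ((List.range (I a).2.length).map fun i => r.1.getD i 0,
      r.2)) (Poly.fst hI) (Poly.pair (Poly.map (F := fun (p : α × Vec × ℤ) (i : ℕ) =>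
        p.2.1.getD i 0) (hd.range.comp c1) (Poly.getD (Poly.fst c12) c2 (Poly.const 0)))
        (Poly.snd c2))
  have hu : Poly (fun p : α × ℕ => unitV (I p.1).2.length p.2) :=
    poly_unitV ((uwk (β := ℕ) hd)) c2
  have h2 : Poly (fun a => (List.range (I a).2.length).flatMap fun k =>
      [(nneg (unitV (I a).2.length k), 0), (unitV (I a).2.length k, (I a).2.getD k 0)]) :=
    Poly.flatMap (F := fun a (k : ℕ) => [(nneg (unitV (I a).2.length k), 0),
      (unitV (I a).2.length k, (I a).2.getD k 0)]) hd.range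
      (Poly.cons (Poly.pair (poly_nneg hu) (Poly.const 0)) (Poly.cons (Poly.pair hu
        (Poly.getD (Poly.snd (hI.comp c1)) c2 (Poly.const 0))) (Poly.const _)))
  have h3 : Poly (fun a => [(List.replicate (I a).2.length (-1 : ℤ), (-1 : ℤ))]) :=
    Poly.cons (Poly.pair (poly_replicate hd (Poly.const (-1))) (Poly.const (-1))) (Poly.const _)
  exact Poly.append (Poly.append h1 h2) h3

/-- The algorithm on padded inputs runs in polynomial time. -/
theorem alg_poly : Poly alg := by
  have hI : Poly (fun x : Inst × List Unit => x.1) := c1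
  have hP : UPoly (fun x : Inst × List Unit => x.2.length) := UPoly.length c2
  have hL : UPoly (fun x : Inst × List Unit => sz x.1) := upoly_sz c1
  have hPL : UPoly (fun x : Inst × List Unit => x.2.length * sz x.1) := UPoly.mul hP hL
  have hB : UPoly (fun x : Inst × List Unit => (x.2.length * sz x.1) ^ 8) :=
    upoly_congr (UPoly.mul (UPoly.mul (UPoly.mul hPL hPL) (UPoly.mul hPL hPL))
      (UPoly.mul (UPoly.mul hPL hPL) (UPoly.mul hPL hPL))) fun x => by ring
  have hR1 : Poly (fun x : Inst × List Unit => 2 ^ (x.2.length ^ 2 * sz x.1)) :=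
    Poly.npow (Poly.const 2) (upoly_congr (UPoly.mul (UPoly.mul hP hP) hL) fun x => by ring)
  have hR : Poly (fun x : Inst × List Unit => 2 ^ (x.2.length * sz x.1)) :=
    Poly.npow (Poly.const 2) hPL
  have hd : UPoly (fun x : Inst × List Unit => x.1.2.length) := UPoly.length (Poly.snd hI)
  have hs : Poly (fun x : Inst × List Unit =>
      (false, [([stdBox (x.1.2.map Int.toNat)], ([] : List Box))])) :=
    Poly.pair (Poly.const false) (Poly.cons (Poly.pair (Poly.cons (poly_stdBox
      (Poly.map (F := fun _ (y : ℤ) => y.toNat) (Poly.snd hI) (Poly.toNat c2))) (Poly.const _))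
      (Poly.const _)) (Poly.const _))
  have h1 : Poly (fun x : Inst × List Unit => iterCap ((x.2.length * sz x.1) ^ 8)
      (Run7.h960.round x.2.length x.1.2.length ((x.2.length * sz x.1) ^ 8) (allRows x.1) x.1.2
        (2 ^ (x.2.length ^ 2 * sz x.1)) (2 ^ (x.2.length * sz x.1))) (false, []) x.2.length
      (false, [([stdBox (x.1.2.map Int.toNat)], [])])) :=
    poly_iterCap (F := fun (x : Inst × List Unit) st => Run7.h960.round x.2.length x.1.2.length
      ((x.2.length * sz x.1) ^ 8) (allRows x.1) x.1.2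
        (2 ^ (x.2.length ^ 2 * sz x.1)) (2 ^ (x.2.length * sz x.1)) st)
      (d := fun _ => (false, ([] : List Node))) hB hP
      (poly_round ((uwk (β := Bool × List Node) hP)) ((uwk (β := Bool × List Node) hd)) ((uwk (β := Bool × List Node) hB))
        ((poly_allRows hI).comp c1) ((Poly.snd hI).comp c1) (hR1.comp c1) (hR.comp c1) c2)
      (Poly.const _) hs
  exact Poly.and (Poly.all (p := fun _ (y : ℤ) => decide (0 ≤ y)) (Poly.snd hI)
    (Poly.ile (Poly.const 0) c2)) (Poly.fst h1)

end Pool.Agent.NPC.R960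

namespace Run7.h960

export Pool.Agent.NPC.R960 (poly_expand alg_poly)

end Run7.h960
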