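import Pool.Agent.Run7.h960.Algo
import Pool.Agent.Run7.h960.PolyD
import Pool.Agent.Run7.h960.Mach

set_option autoImplicit false

/-!
# The monoid decomposition problem is fixed-parameter tractable
-/

namespace Run7.h960

open Pool.Agent.NPC Turing

/-- The monoid decomposition problem is fixed-parameter tractable in the dimension. -/
theorem decomposable_fpt :
    ∃ (tm : FinTM2) (e₀ : tm.Γ tm.k₀ ≃ Bool) (e₁ : tm.Γ tm.k₁ ≃ Bool) (f : ℕ → ℕ) (c : ℕ),
      Computable f ∧ ∀ (I : Inst) (b : Bool), (b = true ↔ Decomposable I) →
        Nonempty (TM2OutputsInTime tm ((bits I).map e₀.invFun)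
          (some ((bits b).map e₁.invFun)) (f I.2.length * ((bits I).length + 1) ^ c)) := by
  classical
  obtain ⟨F, hF, hcor⟩ := algo_correct
  obtain ⟨tm, e₀, e₁, f, c, hf, h⟩ := fpt_of_alg alg alg_poly (fun I : Inst => I.2.length)
    (UPoly.length (Poly.snd Poly.id)) F hF (fun I => decide (Decomposable I)) (by
      intro I u hu
      have h1 := hcor I u.length hu
      have h2 : alg (I, u) = algo u.length (sz I) I := rfl
      rw [h2]
      by_cases hd : Decomposable I
      · rw [decide_eq_true hd]; exact h1.2 hd
      · rw [decide_eq_false hd]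
        cases hb : algo u.length (sz I) I
        · rfl
        · exact absurd (h1.1 hb) hd)
  refine ⟨tm, e₀, e₁, f, c, hf, fun I b hb => ?_⟩
  have : b = decide (Decomposable I) := by
    by_cases hd : Decomposable I
    · rw [decide_eq_true hd]; exact hb.2 hd
    · rw [decide_eq_false hd]
      cases b
      · rfl
      · exact absurd (hb.1 rfl) hd
  rw [this]
  exact h I

end Run7.h960
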