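import Pool.Agent.Run7.h960.Basic

set_option autoImplicit false

/-!
# The grid
-/

namespace Run7.h960

open Pool.Agent.NPC
open Pool.Agent.H687R2.LLL (dot nrm lllStep cnt fsts gsr)

theorem mem_gridStep {M : ℕ} {l : List Vec} {w : Vec} :
    w ∈ gridStep M l ↔ ∃ v ∈ l, ∃ x : ℤ, x.natAbs ≤ M ∧ w = x :: v := by
  unfold gridStep
  simp only [List.mem_flatMap, List.mem_map, List.mem_range, List.bind_eq_flatMap, List.pure_def,
    List.mem_singleton]
  constructor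
  · rintro ⟨v, hv, _, ⟨i, hi, rfl⟩, rfl⟩
    exact ⟨v, hv, (i : ℤ) - (M : ℤ), by omega, rfl⟩
  · rintro ⟨v, hv, x, hx, rfl⟩
    refine ⟨v, hv, _, ⟨(x + M).toNat, by omega, rfl⟩, ?_⟩
    congr 1
    omega

theorem length_gridStep (M : ℕ) (l : List Vec) :
    (gridStep M l).length = l.length * (2 * M + 1) := by
  unfold gridStep
  rw [List.length_flatMap]
  simp

theorem mem_gridStep_iter (M : ℕ) : ∀ k (v : Vec), v ∈ (gridStep M)^[k] [[]] ↔
    v.length = k ∧ ∀ x ∈ v, x.natAbs ≤ M := by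
  intro k
  induction k with
  | zero =>
    intro v
    simp only [Function.iterate_zero, id_eq, List.mem_singleton, List.length_eq_zero_iff]
    constructor
    · rintro rfl; simp
    · exact fun h => h.1
  | succ k ih =>
    intro v
    rw [Function.iterate_succ_apply', mem_gridStep]
    constructor
    · rintro ⟨u, hu, x, hx, rfl⟩
      rw [ih] at hu
      refine ⟨by simp [hu.1], ?_⟩
      intro y hy
      rcases List.mem_cons.1 hy with rfl | hy
      · exact hx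
      · exact hu.2 y hy
    · rintro ⟨h1, h2⟩
      cases v with
      | nil => simp at h1
      | cons x u =>
        refine ⟨u, (ih u).2 ⟨by simpa using h1, fun y hy => h2 y (by simp [hy])⟩, x,
          h2 x (by simp), rfl⟩

theorem length_gridStep_iter (M : ℕ) : ∀ k, ((gridStep M)^[k] [[]]).length = (2 * M + 1) ^ k := by
  intro k
  induction k with
  | zero => simp
  | succ k ih => rw [Function.iterate_succ_apply', length_gridStep, ih, pow_succ]

theorem sz_grid_iter {D M : ℕ} (hM : M ≤ cM D) {k : ℕ} (hk : k ≤ D) :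
    sz ((gridStep M)^[k] [[]]) ≤ cG D := by
  have h0 : M < 2 ^ ((D + 4) ^ 3 + 1) := by
    unfold cM at hM
    refine lt_of_le_of_lt hM (Nat.pow_lt_pow_right (by norm_num) (by omega))
  have h1 := sz_le_length_mul ((gridStep M)^[k] [[]])
    (D * (4 * ((D + 4) ^ 3 + 1) + 6) + 1) (by
      intro v hv
      rw [mem_gridStep_iter] at hv
      refine (sz_le_length_mul v (4 * ((D + 4) ^ 3 + 1) + 5) ?_).trans ?_
      · intro x hx
        exact Pool.Agent.H687R2.LLL.sz_of_lt (lt_of_le_of_lt (hv.2 x hx) h0)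
      · rw [hv.1]
        exact Nat.add_le_add_right (Nat.mul_le_mul_right _ hk) _)
  rw [length_gridStep_iter] at h1
  refine h1.trans ?_
  have h2 : (2 * M + 1) ^ k ≤ 2 ^ (((D + 4) ^ 3 + 2) * D) := by
    rw [pow_mul]
    have h3 : 2 * M + 1 ≤ 2 ^ ((D + 4) ^ 3 + 2) := by
      have : 2 ^ ((D + 4) ^ 3 + 2) = 2 * 2 ^ ((D + 4) ^ 3 + 1) := by rw [pow_succ]; ring
      omega
    exact (Nat.pow_le_pow_left h3 k).trans (Nat.pow_le_pow_right (by positivity) hk)
  have h3 : D * (4 * ((D + 4) ^ 3 + 1) + 6) + 1 + 1 + 1 ≤ 2 ^ (4 * D + 17) := by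
    have e1 : D ≤ 2 ^ D := Nat.lt_two_pow_self.le
    have e2 : (D + 4) ^ 3 ≤ (2 ^ (D + 4)) ^ 3 := Nat.pow_le_pow_left Nat.lt_two_pow_self.le 3
    have e3 : (2 ^ (D + 4)) ^ 3 = 2 ^ (3 * (D + 4)) := by rw [← pow_mul]; congr 1; ring
    have e4 : 4 * ((D + 4) ^ 3 + 1) + 6 ≤ 14 * 2 ^ (3 * (D + 4)) := by
      have : 1 ≤ 2 ^ (3 * (D + 4)) := Nat.one_le_two_pow
      rw [e3] at e2
      omega
    have e5 : D * (4 * ((D + 4) ^ 3 + 1) + 6) ≤ 2 ^ D * (14 * 2 ^ (3 * (D + 4))) :=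
      Nat.mul_le_mul e1 e4
    have e6 : 2 ^ D * (14 * 2 ^ (3 * (D + 4))) = 14 * 2 ^ (4 * D + 12) := by
      have : 2 ^ (4 * D + 12) = 2 ^ D * 2 ^ (3 * (D + 4)) := by rw [← pow_add]; congr 1; ring
      rw [this]; ring
    have e7 : 2 ^ (4 * D + 17) = 32 * 2 ^ (4 * D + 12) := by
      rw [show 4 * D + 17 = 4 * D + 12 + 5 by ring, pow_add]; ring
    have e8 : 1 ≤ 2 ^ (4 * D + 12) := Nat.one_le_two_pow
    omega
  calc (2 * M + 1) ^ k * (D * (4 * ((D + 4) ^ 3 + 1) + 6) + 1 + 1) + 1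
      ≤ 2 ^ (((D + 4) ^ 3 + 2) * D) * (D * (4 * ((D + 4) ^ 3 + 1) + 6) + 1 + 1) + 1 :=
        Nat.add_le_add_right (Nat.mul_le_mul_right _ h2) _
    _ ≤ 2 ^ (((D + 4) ^ 3 + 2) * D) * (D * (4 * ((D + 4) ^ 3 + 1) + 6) + 1 + 1 + 1) := by
        have : 1 ≤ 2 ^ (((D + 4) ^ 3 + 2) * D) := Nat.one_le_two_pow
        nlinarith
    _ ≤ 2 ^ (((D + 4) ^ 3 + 2) * D) * 2 ^ (4 * D + 17) := Nat.mul_le_mul_left _ h3
    _ = 2 ^ (((D + 4) ^ 3 + 2) * D + (4 * D + 17)) := by rw [← pow_add]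
    _ ≤ 2 ^ ((D + 6) ^ 4) := by
        apply Nat.pow_le_pow_right (by norm_num)
        nlinarith [Nat.zero_le (D ^ 4), Nat.zero_le (D ^ 3), Nat.zero_le (D ^ 2)]

/-- The grid contains exactly the vectors with entries in `[-M, M]`, if the cap is large enough. -/
theorem mem_grid {D B M n : ℕ} (hn : n ≤ D) (hM : M ≤ cM D) (hB : cG D ≤ B) (v : Vec) :
    v ∈ grid B M n ↔ v.length = n ∧ ∀ x ∈ v, x.natAbs ≤ M := by
  unfold grid
  rw [iterCap_eq, mem_gridStep_iter]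
  intro k hk
  exact (sz_grid_iter hM (by omega)).trans hB

end Run7.h960
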