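import Mathlib

/-!
Counting dominoes and holes in gunport configurations, row by row.
`o i j = 1` when the cell `(i, j)` is a hole, `a i k = 1` when a domino covers `(i, k - 1)` and
`(i, k)`, `b k j = 1` when a domino covers `(k - 1, j)` and `(k, j)`.
-/

set_option autoImplicit false

namespace Pool.Agent.Run7.h960.Gun

open Finset

structure Cfg (m n : ℕ) (o a b : ℕ → ℕ → ℤ) : Prop where
  o01 : ∀ i j, o i j = 0 ∨ o i j = 1
  a01 : ∀ i j, a i j = 0 ∨ a i j = 1
  b01 : ∀ i j, b i j = 0 ∨ b i j = 1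
  one : ∀ i j, i < m → j < n → o i j + a i j + a i (j + 1) + b i j + b (i + 1) j = 1
  aL : ∀ i, a i 0 = 0
  aR : ∀ i, a i n = 0
  bT : ∀ j, b 0 j = 0
  bB : ∀ j, b m j = 0
  hh : ∀ i j, i < m → j + 1 < n → o i j + o i (j + 1) ≤ 1
  vv : ∀ i j, i + 1 < m → j < n → o i j + o (i + 1) j ≤ 1

theorem Cfg.transpose {m n : ℕ} {o a b : ℕ → ℕ → ℤ} (c : Cfg m n o a b) :
    Cfg n m (fun i j => o j i) (fun i k => b k i) (fun k j => a j k) where
  o01 := fun i j => c.o01 j i
  a01 := fun i j => c.b01 j i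
  b01 := fun i j => c.a01 j i
  one := fun i j hi hj => by have := c.one j i hj hi; linarith
  aL := fun i => c.bT i
  aR := fun i => c.bB i
  bT := fun j => c.aL j
  bB := fun j => c.aR j
  hh := fun i j hi hj => c.vv j i hj hi
  vv := fun i j hi hj => c.hh j i hj hi

/-- The basic counting lemma: each hole is charged to a neighbouring domino. -/
theorem charge (n : ℕ) (x a c : ℕ → ℤ) (x01 : ∀ j, x j = 0 ∨ x j = 1)
    (a01 : ∀ j, a j = 0 ∨ a j = 1) (c0 : ∀ j, 0 ≤ c j)
    (h1 : ∀ j, j < n → x j = 1 → 1 ≤ a j + a (j + 1) + c j)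
    (h2 : ∀ j, j + 1 < n → x j + x (j + 1) ≤ 1) (han : a n = 0) :
    ∑ j ∈ range n, x j ≤ ∑ j ∈ range n, a j + ∑ j ∈ range n, c j := by
  have key : ∀ N, N ≤ n → ∑ j ∈ range N, x j ≤ ∑ j ∈ range N, a j + ∑ j ∈ range N, c j +
      (if N = 0 then 0 else a N * x (N - 1)) := by
    intro N
    induction N with
    | zero => intro _; simp
    | succ N ih =>
      intro hN
      have h := ih (by omega)
      rw [sum_range_succ, sum_range_succ, sum_range_succ]
      have hc := c0 N
      have e1 : (if N + 1 = 0 then (0 : ℤ) else a (N + 1) * x (N + 1 - 1)) = a (N + 1) * x N := by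
        simp
      rw [e1]
      have hA : 0 ≤ a N := by rcases a01 N with h | h <;> simp [h]
      have hA1 : 0 ≤ a (N + 1) := by rcases a01 (N + 1) with h | h <;> simp [h]
      rcases x01 N with hx | hx
      · have e2 : (if N = 0 then (0 : ℤ) else a N * x (N - 1)) ≤ a N := by
          split_ifs with h0
          · exact hA
          · rcases x01 (N - 1) with h3 | h3 <;> simp [h3, hA]
        rw [hx]; simp only [mul_zero]; linarith
      · have e2 : (if N = 0 then (0 : ℤ) else a N * x (N - 1)) = 0 := by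
          split_ifs with h0
          · rfl
          · have h4 := h2 (N - 1) (by omega)
            have h5 : N - 1 + 1 = N := by omega
            rw [h5, hx] at h4
            rcases x01 (N - 1) with h3 | h3
            · simp [h3]
            · rw [h3] at h4; norm_num at h4
        have h6 := h1 N (by omega) hx
        rw [e2] at h
        rw [hx]; simp only [mul_one]; linarith
  have := key n le_rfl
  rcases Nat.eq_zero_or_pos n with h0 | h0
  · subst h0; simp
  · rw [if_neg (by omega), han, zero_mul, add_zero] at this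
    exact this

section rows

variable {m n : ℕ} {o a b : ℕ → ℕ → ℤ}

/-- number of holes in a row -/
def hr (n : ℕ) (o : ℕ → ℕ → ℤ) (i : ℕ) : ℤ := ∑ j ∈ range n, o i j

theorem b0 (c : Cfg m n o a b) (i j : ℕ) : 0 ≤ b i j := by
  rcases c.b01 i j with h | h <;> simp [h]

theorem a0 (c : Cfg m n o a b) (i j : ℕ) : 0 ≤ a i j := by
  rcases c.a01 i j with h | h <;> simp [h]

theorem o0 (c : Cfg m n o a b) (i j : ℕ) : 0 ≤ o i j := by
  rcases c.o01 i j with h | h <;> simp [h]

theorem hr0 (c : Cfg m n o a b) (i : ℕ) : 0 ≤ hr n b i := sum_nonneg fun _ _ => b0 c _ _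

theorem E1 (c : Cfg m n o a b) {i : ℕ} (hi : i < m) :
    hr n o i + 2 * hr n a i + hr n b i + hr n b (i + 1) = n := by
  have h1 : ∑ j ∈ range n, (o i j + a i j + a i (j + 1) + b i j + b (i + 1) j) =
      ∑ j ∈ range n, (1 : ℤ) := sum_congr rfl fun j hj => c.one i j hi (mem_range.1 hj)
  have h2 : ∑ j ∈ range n, a i (j + 1) = ∑ j ∈ range n, a i j := by
    have e1 := sum_range_succ (fun j => a i j) n
    have e2 := sum_range_succ' (fun j => a i j) n
    rw [c.aR i] at e1
    rw [c.aL i] at e2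
    linarith
  simp only [sum_add_distrib, h2, sum_const, card_range, nsmul_eq_mul, mul_one] at h1
  unfold hr
  linarith

theorem EU (c : Cfg m n o a b) {i : ℕ} (hi : i + 1 < m) :
    hr n o (i + 1) ≤ hr n a i + hr n b i := by
  refine charge n (fun j => o (i + 1) j) (fun j => a i j) (fun j => b i j)
    (fun j => c.o01 _ _) (fun j => c.a01 _ _) (fun j => b0 c _ _) ?_ ?_ (c.aR i)
  · intro j hj hx
    have h1 := c.one i j (by omega) hj
    have h2 := c.one (i + 1) j hi hj
    have h3 := c.vv i j hi hj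
    have := o0 c i j
    have := a0 c (i + 1) j
    have := a0 c (i + 1) (j + 1)
    have := b0 c (i + 1) j
    have := b0 c (i + 1 + 1) j
    change o (i + 1) j = 1 at hx
    change 1 ≤ a i j + a i (j + 1) + b i j
    linarith
  · intro j hj
    exact c.hh (i + 1) j hi hj

theorem EL (c : Cfg m n o a b) {i : ℕ} (hi : i + 1 < m) :
    hr n o i ≤ hr n a (i + 1) + hr n b (i + 2) := by
  refine charge n (fun j => o i j) (fun j => a (i + 1) j) (fun j => b (i + 2) j)
    (fun j => c.o01 _ _) (fun j => c.a01 _ _) (fun j => b0 c _ _) ?_ ?_ (c.aR (i + 1))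
  · intro j hj hx
    have h1 := c.one i j (by omega) hj
    have h2 := c.one (i + 1) j hi hj
    have h3 := c.vv i j hi hj
    have := o0 c (i + 1) j
    have := a0 c i j
    have := a0 c i (j + 1)
    have := b0 c i j
    have := b0 c (i + 1) j
    have e : i + 1 + 1 = i + 2 := rfl
    rw [e] at h2
    change o i j = 1 at hx
    change 1 ≤ a (i + 1) j + a (i + 1) (j + 1) + b (i + 2) j
    linarith
  · intro j hj
    exact c.hh i j (by omega) hj

theorem Eend (c : Cfg m n o a b) {i : ℕ} (hi : i < m) :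
    hr n o i ≤ hr n a i + hr n b i + hr n b (i + 1) + 1 := by
  rcases Nat.eq_zero_or_pos n with h0 | h0
  · subst h0; simp [hr]
  obtain ⟨N, rfl⟩ : ∃ N, n = N + 1 := ⟨n - 1, by omega⟩
  have h1 : ∑ j ∈ range (N + 1), o i j = ∑ j ∈ range N, o i (j + 1) + o i 0 :=
    sum_range_succ' _ _
  have h2 : ∑ j ∈ range N, o i (j + 1) ≤ ∑ j ∈ range N, (a i j + b i j + b (i + 1) j) := by
    refine sum_le_sum fun j hj => ?_
    have hj := mem_range.1 hj
    have h3 := c.one i j hi (by omega)
    have h4 := c.one i (j + 1) hi (by omega)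
    have h5 := c.hh i j hi (by omega)
    have := a0 c i j
    have := a0 c i (j + 1)
    have := a0 c i (j + 1 + 1)
    have := b0 c i j
    have := b0 c (i + 1) j
    have := b0 c i (j + 1)
    have := b0 c (i + 1) (j + 1)
    have := o0 c i j
    rcases c.o01 i (j + 1) with h | h
    · rw [h]; linarith
    · rw [h] at h4 h5 ⊢; linarith
  have h3 : ∑ j ∈ range N, (a i j + b i j + b (i + 1) j) ≤
      ∑ j ∈ range (N + 1), (a i j + b i j + b (i + 1) j) := by
    rw [sum_range_succ]
    have := a0 c i N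
    have := b0 c i N
    have := b0 c (i + 1) N
    linarith
  have h4 : o i 0 ≤ 1 := by rcases c.o01 i 0 with h | h <;> simp [h]
  unfold hr
  simp only [sum_add_distrib] at h2 h3
  rw [h1]
  linarith

/-- slack of the inequality `EU`, zero outside the board -/
def U (m n : ℕ) (o a b : ℕ → ℕ → ℤ) (i : ℕ) : ℤ :=
  if i + 1 < m then hr n a i + hr n b i - hr n o (i + 1) else 0

/-- slack of the inequality `EL`, zero outside the board -/
def L (m n : ℕ) (o a b : ℕ → ℕ → ℤ) (i : ℕ) : ℤ :=
  if i + 1 < m then hr n a (i + 1) + hr n b (i + 2) - hr n o i else 0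

theorem U0 (c : Cfg m n o a b) (i : ℕ) : 0 ≤ U m n o a b i := by
  unfold U; split_ifs with h
  · have := EU c h; linarith
  · exact le_rfl

theorem L0 (c : Cfg m n o a b) (i : ℕ) : 0 ≤ L m n o a b i := by
  unfold L; split_ifs with h
  · have := EL c h; linarith
  · exact le_rfl

/-- total number of holes -/
def tot (m n : ℕ) (o : ℕ → ℕ → ℤ) : ℤ := ∑ i ∈ range m, hr n o i

theorem slack (c : Cfg m n o a b) (hm : 0 < m) :
    ∑ i ∈ range m, U m n o a b i + ∑ i ∈ range m, L m n o a b i ≤ m * n - 3 * tot m n o + 2 := by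
  obtain ⟨M, rfl⟩ : ∃ M, m = M + 1 := ⟨m - 1, by omega⟩
  have hb0 : hr n b 0 = 0 := by unfold hr; exact sum_eq_zero fun j _ => c.bT j
  have hbm : hr n b (M + 1) = 0 := by unfold hr; exact sum_eq_zero fun j _ => c.bB j
  have eU : ∑ i ∈ range (M + 1), U (M + 1) n o a b i =
      ∑ i ∈ range M, (hr n a i + hr n b i - hr n o (i + 1)) := by
    rw [sum_range_succ]
    have e : U (M + 1) n o a b M = 0 := by unfold U; rw [if_neg (by omega)]
    rw [e, add_zero]
    refine sum_congr rfl fun i hi => ?_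
    have := mem_range.1 hi
    unfold U; rw [if_pos (by omega)]
  have eL : ∑ i ∈ range (M + 1), L (M + 1) n o a b i =
      ∑ i ∈ range M, (hr n a (i + 1) + hr n b (i + 2) - hr n o i) := by
    rw [sum_range_succ]
    have e : L (M + 1) n o a b M = 0 := by unfold L; rw [if_neg (by omega)]
    rw [e, add_zero]
    refine sum_congr rfl fun i hi => ?_
    have := mem_range.1 hi
    unfold L; rw [if_pos (by omega)]
  have hsum : ∑ i ∈ range (M + 1), (hr n o i + 2 * hr n a i + hr n b i + hr n b (i + 1)) =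
      (M + 1) * n := by
    rw [sum_congr rfl fun i hi => E1 c (mem_range.1 hi)]
    simp
  rw [eU, eL]
  simp only [sum_sub_distrib, sum_add_distrib, ← mul_sum] at hsum ⊢
  -- express everything through sums over `range (M + 1)` and `range M`
  have a1 := sum_range_succ (fun i => hr n a i) M
  have a2 := sum_range_succ' (fun i => hr n a i) M
  have o1 := sum_range_succ (fun i => hr n o i) M
  have o2 := sum_range_succ' (fun i => hr n o i) M
  have b1 := sum_range_succ (fun i => hr n b i) M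
  have b2 := sum_range_succ' (fun i => hr n b i) M
  have b3 := sum_range_succ (fun i => hr n b (i + 1)) M
  have b4 := sum_range_succ' (fun i => hr n b (i + 1)) M
  have t1 := Eend c (i := 0) (by omega)
  have t2 := Eend c (i := M) (by omega)
  simp only [zero_add] at *
  have e5 : ∑ i ∈ range M, hr n b (i + 1 + 1) = ∑ i ∈ range M, hr n b (i + 2) := rfl
  rw [e5] at b4
  unfold tot
  push_cast
  nlinarith [a1, a2, o1, o2, b1, b2, b3, b4, t1, t2, hsum, hb0, hbm]

theorem step (c : Cfg m n o a b) {i : ℕ} (hi : i + 2 < m) :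
    hr n b (i + 3) = hr n b i - 2 * U m n o a b i + L m n o a b i - U m n o a b (i + 1) +
      2 * L m n o a b (i + 1) := by
  have h0 := E1 c (i := i) (by omega)
  have h1 := E1 c (i := i + 1) (by omega)
  have h2 := E1 c (i := i + 2) (by omega)
  unfold U L
  rw [if_pos (by omega), if_pos (by omega), if_pos (by omega), if_pos (by omega)]
  have e1 : i + 1 + 1 = i + 2 := rfl
  have e2 : i + 1 + 2 = i + 3 := rfl
  have e3 : i + 2 + 1 = i + 3 := rfl
  rw [e1] at *
  rw [e2]
  rw [e3] at h2
  linarith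

theorem low1 (c : Cfg m n o a b) (t : ℕ) (ht : 3 * t ≤ m) :
    hr n b (3 * t) ≤ 2 * ∑ i ∈ range (3 * t), L m n o a b i := by
  induction t with
  | zero =>
    have hb0 : hr n b 0 = 0 := by unfold hr; exact sum_eq_zero fun j _ => c.bT j
    simp [hb0]
  | succ t ih =>
    have h := ih (by omega)
    have hs := step c (i := 3 * t) (by omega)
    have e : 3 * (t + 1) = 3 * t + 1 + 1 + 1 := by ring
    have e' : 3 * t + 1 + 1 + 1 = 3 * t + 3 := rfl
    rw [e, sum_range_succ, sum_range_succ, sum_range_succ, e', hs]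
    have := U0 c (3 * t)
    have := U0 c (3 * t + 1)
    have := L0 c (3 * t)
    have := L0 c (3 * t + 1 + 1)
    linarith

theorem low2 (c : Cfg m n o a b) (t : ℕ) (k : ℕ) (ht : k + 3 * t = m) :
    hr n b k + 2 * ∑ i ∈ range k, U m n o a b i ≤ 2 * ∑ i ∈ range m, U m n o a b i := by
  induction t generalizing k with
  | zero =>
    have hbm : hr n b m = 0 := by unfold hr; exact sum_eq_zero fun j _ => c.bB j
    obtain rfl : k = m := by omega
    linarith
  | succ t ih =>
    have h := ih (k + 3) (by omega)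
    have hs := step c (i := k) (by omega)
    have e' : k + 3 = k + 1 + 1 + 1 := rfl
    rw [hs] at h
    rw [e', sum_range_succ, sum_range_succ, sum_range_succ] at h
    have := U0 c (k + 1)
    have := U0 c (k + 1 + 1)
    have := L0 c k
    have := L0 c (k + 1)
    linarith

theorem low2' (c : Cfg m n o a b) (t : ℕ) (k : ℕ) (ht : k + 3 * t = m) :
    hr n b k ≤ 2 * ∑ i ∈ range m, U m n o a b i := by
  have h := low2 c t k ht
  have : 0 ≤ ∑ i ∈ range k, U m n o a b i := sum_nonneg fun i _ => U0 c i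
  linarith

theorem low1' (c : Cfg m n o a b) (t : ℕ) (ht : 3 * t ≤ m) :
    hr n b (3 * t) ≤ 2 * ∑ i ∈ range m, L m n o a b i := by
  have h := low1 c t ht
  have : ∑ i ∈ range (3 * t), L m n o a b i ≤ ∑ i ∈ range m, L m n o a b i :=
    sum_le_sum_of_subset_of_nonneg (range_mono ht) fun i _ _ => L0 c i
  linarith

/-- Rows `3 s + r` (where `3 q + r ≤ m` and `3 ∣ m - 2 r - 1`) meet few vertical dominoes. -/
theorem lowrow (c : Cfg m n o a b) (q r : ℕ)
    (hm : (m = 3 * q + 1 ∧ r = 0) ∨ (m = 3 * q + 2 ∧ r = 2)) {s : ℕ} (hs : s < q) :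
    hr n b (3 * s + r) + hr n b (3 * s + r + 1) ≤ 2 * (m * n - 3 * tot m n o + 2) := by
  have hsl := slack c (by omega)
  rcases hm with ⟨hm, rfl⟩ | ⟨hm, rfl⟩
  · have h1 := low1' c s (by omega)
    have h2 := low2' c (q - s) (3 * s + 0 + 1) (by omega)
    simp only [add_zero] at *
    linarith
  · have h1 := low1' c (s + 1) (by omega)
    have h2 := low2' c (q - s) (3 * s + 2) (by omega)
    have e : 3 * (s + 1) = 3 * s + 2 + 1 := by ring
    rw [e] at h1
    linarith

theorem skip (x : ℕ → ℤ) (x0 : ∀ i, 0 ≤ x i) (q r : ℕ) :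
    ∑ t ∈ range q, (x (3 * t + r) + x (3 * t + r + 1) + x (3 * t + r + 2)) ≤
      ∑ i ∈ range (3 * q + r), x i := by
  induction q with
  | zero => simpa using sum_nonneg fun i _ => x0 i
  | succ q ih =>
    have e : 3 * (q + 1) + r = 3 * q + r + 1 + 1 + 1 := by ring
    have e' : 3 * q + r + 1 + 1 = 3 * q + r + 2 := rfl
    rw [sum_range_succ, e, sum_range_succ, sum_range_succ, sum_range_succ, e']
    linarith

theorem skip' (x : ℕ → ℤ) (x0 : ∀ i, 0 ≤ x i) (q r N : ℕ) (h : 3 * q + r ≤ N) :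
    ∑ t ∈ range q, x (3 * t + r) + ∑ t ∈ range q, x (3 * t + r + 1) +
      ∑ t ∈ range q, x (3 * t + r + 2) ≤ ∑ i ∈ range N, x i := by
  rw [← sum_add_distrib, ← sum_add_distrib]
  exact (skip x x0 q r).trans
    (sum_le_sum_of_subset_of_nonneg (range_mono h) fun i _ _ => x0 i)

end rows

theorem tot_transpose (m n : ℕ) (o : ℕ → ℕ → ℤ) : tot n m (fun i j => o j i) = tot m n o := by
  unfold tot hr
  exact sum_comm

section better

variable {m n : ℕ} {o a b : ℕ → ℕ → ℤ}

/-- The third row boundary after a special row. -/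
theorem third (c : Cfg m n o a b) {i : ℕ} (hi : i + 1 < m) :
    hr n b (i + 2) ≤ hr n b i + hr n b (i + 1) + 1 + 2 * L m n o a b i := by
  have e0 := E1 c (i := i) (by omega)
  have e1 := E1 c (i := i + 1) hi
  have h2 := Eend c (i := i) (by omega)
  have hU := U0 c i
  unfold U at hU
  unfold L
  rw [if_pos hi] at hU ⊢
  have e : i + 1 + 1 = i + 2 := rfl
  rw [e] at e1
  linarith

theorem sum3 (x : ℕ → ℤ) (q r : ℕ) :
    ∑ i ∈ range (3 * q + r), x i = ∑ i ∈ range r, x i +
      ∑ t ∈ range q, (x (3 * t + r) + x (3 * t + r + 1) + x (3 * t + r + 2)) := by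
  induction q with
  | zero => simp
  | succ q ih =>
    have e : 3 * (q + 1) + r = 3 * q + r + 1 + 1 + 1 := by ring
    have e' : 3 * q + r + 1 + 1 = 3 * q + r + 2 := rfl
    rw [e, sum_range_succ, sum_range_succ, sum_range_succ, ih, sum_range_succ, e']
    ring

/-- There are few vertical dominoes. -/
theorem vert (c : Cfg m n o a b) (q r : ℕ) (hq : 1 ≤ q)
    (hm : (m = 3 * q + 1 ∧ r = 0) ∨ (m = 3 * q + 2 ∧ r = 2)) :
    ∑ k ∈ range m, hr n b k ≤ (4 * (m * n - 3 * tot m n o + 2) + 1) * (q + 2) := by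
  have hsl := slack c (by omega)
  set K : ℤ := m * n - 3 * tot m n o + 2 with hK
  have hU0 : 0 ≤ ∑ i ∈ range m, U m n o a b i := sum_nonneg fun i _ => U0 c i
  have hL0 : 0 ≤ ∑ i ∈ range m, L m n o a b i := sum_nonneg fun i _ => L0 c i
  have hK0 : 0 ≤ K := by linarith
  have hV : ∀ s ∈ range q, hr n b (3 * s + r) + hr n b (3 * s + r + 1) ≤ 2 * K := by
    intro s hs
    exact lowrow c q r hm (mem_range.1 hs)
  have hz : ∀ s ∈ range q, hr n b (3 * s + r) + hr n b (3 * s + r + 1) + hr n b (3 * s + r + 2) ≤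
      4 * K + 1 + 2 * L m n o a b (3 * s + r) := by
    intro s hs
    have h1 := hV s hs
    have h2 := third c (i := 3 * s + r) (by have := mem_range.1 hs; omega)
    linarith
  have hsum := sum_le_sum hz
  have hLs : ∑ s ∈ range q, L m n o a b (3 * s + r) ≤ ∑ i ∈ range m, L m n o a b i := by
    have h := skip' (fun i => L m n o a b i) (fun i => L0 c i) q r m (by omega)
    have h1 : 0 ≤ ∑ t ∈ range q, L m n o a b (3 * t + r + 1) := sum_nonneg fun i _ => L0 c _
    have h2 : 0 ≤ ∑ t ∈ range q, L m n o a b (3 * t + r + 2) := sum_nonneg fun i _ => L0 c _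
    linarith
  have hR : ∑ s ∈ range q, (4 * K + 1 + 2 * L m n o a b (3 * s + r)) =
      q * (4 * K + 1) + 2 * ∑ s ∈ range q, L m n o a b (3 * s + r) := by
    rw [sum_add_distrib, ← mul_sum]
    simp
  rw [hR] at hsum
  have hb0 : hr n b 0 = 0 := by unfold hr; exact sum_eq_zero fun j _ => c.bT j
  rcases hm with ⟨hm, rfl⟩ | ⟨hm, rfl⟩
  · have h1 := sum3 (fun k => hr n b k) q 0
    simp only [add_zero, range_zero, sum_empty, zero_add] at h1 hsum hLs
    have h2 := sum_range_succ (fun k => hr n b k) (3 * q)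
    have h3 := low1' c q (by omega)
    have h4 : ∑ k ∈ range m, hr n b k = ∑ k ∈ range (3 * q + 1), hr n b k := by rw [hm]
    rw [h4, h2, h1]
    nlinarith
  · have h1 := sum3 (fun k => hr n b k) q 2
    have h4 : ∑ k ∈ range m, hr n b k = ∑ k ∈ range (3 * q + 2), hr n b k := by rw [hm]
    have h5 : ∑ i ∈ range 2, hr n b i = hr n b 1 := by
      rw [sum_range_succ, sum_range_succ]; simp [hb0]
    have h6 := step c (i := 1) (by omega)
    have h7 := hz 0 (mem_range.2 (by omega))
    have h8 : U m n o a b 1 + U m n o a b 2 ≤ ∑ i ∈ range m, U m n o a b i := by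
      have h9 : ∑ i ∈ range 3, U m n o a b i ≤ ∑ i ∈ range m, U m n o a b i :=
        sum_le_sum_of_subset_of_nonneg (range_mono (by omega)) fun i _ _ => U0 c i
      rw [sum_range_succ, sum_range_succ, sum_range_succ] at h9
      have := U0 c 0
      simp only [range_zero, sum_empty] at h9
      linarith
    have g1 := L0 c 1
    have g2 := U0 c 2
    have g3 := hr0 c 2
    have g4 := hr0 c 3
    have g5 := U0 c 1
    simp only [mul_zero, zero_add] at h7
    have e1 : 1 + 1 = 2 := rfl
    have e3 : 1 + 3 = 4 := rfl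
    have e4 : 2 + 2 = 4 := rfl
    have e5 : 2 + 1 = 3 := rfl
    rw [e1, e3] at h6
    rw [e4, e5] at h7
    rw [h4, h1, h5]
    nlinarith

/-- The main inequality. -/
theorem main2 (c : Cfg m n o a b) (hm : 4 ≤ m) (hn : 4 ≤ n) (hm3 : ¬ 3 ∣ m) (hn3 : ¬ 3 ∣ n) :
    2 * (m * n : ℤ) + (m * n - 3 * tot m n o) ≤
      (8 * (m * n - 3 * tot m n o) + 18) * (m + n + 10) := by
  obtain ⟨q, r, hmq⟩ : ∃ q r, (m = 3 * q + 1 ∧ r = 0) ∨ (m = 3 * q + 2 ∧ r = 2) := by
    have : m % 3 = 1 ∨ m % 3 = 2 := by omega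
    rcases this with h | h
    · exact ⟨m / 3, 0, Or.inl ⟨by omega, rfl⟩⟩
    · exact ⟨m / 3, 2, Or.inr ⟨by omega, rfl⟩⟩
  obtain ⟨p, r', hnp⟩ : ∃ q r, (n = 3 * q + 1 ∧ r = 0) ∨ (n = 3 * q + 2 ∧ r = 2) := by
    have : n % 3 = 1 ∨ n % 3 = 2 := by omega
    rcases this with h | h
    · exact ⟨n / 3, 0, Or.inl ⟨by omega, rfl⟩⟩
    · exact ⟨n / 3, 2, Or.inr ⟨by omega, rfl⟩⟩
  have hv := vert c q r (by omega) hmq
  have hh := vert c.transpose p r' (by omega) hnp
  rw [tot_transpose] at hh
  have hsl := slack c (by omega)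
  have hU0 : 0 ≤ ∑ i ∈ range m, U m n o a b i := sum_nonneg fun i _ => U0 c i
  have hL0 : 0 ≤ ∑ i ∈ range m, L m n o a b i := sum_nonneg fun i _ => L0 c i
  have hsw : ∑ k ∈ range n, hr m (fun k j => a j k) k = ∑ i ∈ range m, hr n a i := by
    unfold hr; exact sum_comm
  rw [hsw] at hh
  have hb0 : hr n b 0 = 0 := by unfold hr; exact sum_eq_zero fun j _ => c.bT j
  have hbm : hr n b m = 0 := by unfold hr; exact sum_eq_zero fun j _ => c.bB j
  have hsum : ∑ i ∈ range m, (hr n o i + 2 * hr n a i + hr n b i + hr n b (i + 1)) =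
      m * n := by
    rw [sum_congr rfl fun i hi => E1 c (mem_range.1 hi)]
    simp
  simp only [sum_add_distrib, ← mul_sum] at hsum
  have b1 := sum_range_succ (fun i => hr n b i) m
  have b2 := sum_range_succ' (fun i => hr n b i) m
  simp only [hb0, hbm] at b1 b2
  have ht : ∑ i ∈ range m, hr n o i = tot m n o := rfl
  have hp : 3 * (p : ℤ) + 1 ≤ n := by
    have : 3 * p + 1 ≤ n := by omega
    exact_mod_cast this
  have hq : 3 * (q : ℤ) + 1 ≤ m := by
    have : 3 * q + 1 ≤ m := by omega
    exact_mod_cast this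
  set K : ℤ := m * n - 3 * tot m n o + 2 with hK
  have hK0 : 0 ≤ K := by linarith
  have hK' : (n : ℤ) * m - 3 * tot m n o + 2 = K := by rw [hK]; ring
  rw [hK'] at hh
  have h1 : (m * n : ℤ) - tot m n o ≤ 2 * ((4 * K + 1) * (p + q + 4)) := by
    have : (m * n : ℤ) - tot m n o =
      2 * (∑ i ∈ range m, hr n a i + ∑ k ∈ range m, hr n b k) := by
      linarith
    rw [this]
    have : (4 * K + 1) * (p + q + 4) = (4 * K + 1) * (p + 2) + (4 * K + 1) * (q + 2 : ℤ) := by ring
    rw [this]
    linarith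
  have h2 : (4 * K + 1) * (3 * (p + q + 4) : ℤ) ≤ (4 * K + 1) * (m + n + 10) := by
    apply mul_le_mul_of_nonneg_left _ (by linarith)
    linarith
  have h3 : (8 * (m * n - 3 * tot m n o) + 18) * (m + n + 10 : ℤ) =
      2 * ((4 * K + 1) * (m + n + 10)) := by rw [hK]; ring
  rw [h3]
  linarith

end better

end Pool.Agent.Run7.h960.Gun
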