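import Pool.Agent.Run7.h960.Gun

/-!
Gunport configurations on an `m × n` board as finite sets of dominoes, and the translation to the
counting functions of `Pool.Agent.Run7.h960.Gun`.
-/

set_option autoImplicit false

namespace Pool.Agent.Run7.h960.Gun

open Finset

/-- Two cells share an edge. -/
def Adj (x y : ℕ × ℕ) : Prop :=
  (x.1 = y.1 ∧ (x.2 + 1 = y.2 ∨ y.2 + 1 = x.2)) ∨ (x.2 = y.2 ∧ (x.1 + 1 = y.1 ∨ y.1 + 1 = x.1))

/-- The cells `(i, j)` with `i < m` and `j < n`. -/
def board (m n : ℕ) : Finset (ℕ × ℕ) := range m ×ˢ range n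

/-- The cells of the board that no domino of `D` covers. -/
def holes (m n : ℕ) (D : Finset (Finset (ℕ × ℕ))) : Finset (ℕ × ℕ) :=
  (board m n).filter fun x => ∀ d ∈ D, x ∉ d

/-- `D` is a gunport configuration on the `m × n` board. -/
structure IsGunport (m n : ℕ) (D : Finset (Finset (ℕ × ℕ))) : Prop where
  domino : ∀ d ∈ D, ∃ x ∈ board m n, ∃ y ∈ board m n, Adj x y ∧ d = {x, y}
  disjoint : ∀ d ∈ D, ∀ e ∈ D, d ≠ e → Disjoint d e
  isolated : ∀ x ∈ holes m n D, ∀ y ∈ holes m n D, ¬ Adj x y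

/-- The numbers of holes of the gunport configurations on the `m × n` board. -/
def holeCounts (m n : ℕ) : Set ℕ := {k | ∃ D, IsGunport m n D ∧ (holes m n D).card = k}

/-- The largest number of holes. -/
noncomputable def G (m n : ℕ) : ℕ := sSup (holeCounts m n)

theorem Adj.symm {x y : ℕ × ℕ} (h : Adj x y) : Adj y x := by
  unfold Adj at *; omega

theorem mem_board {m n : ℕ} {x : ℕ × ℕ} : x ∈ board m n ↔ x.1 < m ∧ x.2 < n := by
  simp [board]

theorem mem_holes {m n : ℕ} {D : Finset (Finset (ℕ × ℕ))} {x : ℕ × ℕ} :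
    x ∈ holes m n D ↔ x ∈ board m n ∧ ∀ d ∈ D, x ∉ d := by
  simp [holes]

noncomputable section

open Classical in
def ov (m n : ℕ) (D : Finset (Finset (ℕ × ℕ))) (i j : ℕ) : ℤ :=
  if (i, j) ∈ holes m n D then 1 else 0

open Classical in
def av (D : Finset (Finset (ℕ × ℕ))) (i k : ℕ) : ℤ :=
  if k ≠ 0 ∧ ({(i, k - 1), (i, k)} : Finset (ℕ × ℕ)) ∈ D then 1 else 0

open Classical in
def bv (D : Finset (Finset (ℕ × ℕ))) (k j : ℕ) : ℤ :=
  if k ≠ 0 ∧ ({(k - 1, j), (k, j)} : Finset (ℕ × ℕ)) ∈ D then 1 else 0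

end

theorem four {m n : ℕ} {D : Finset (Finset (ℕ × ℕ))} (h : IsGunport m n D)
    {d : Finset (ℕ × ℕ)} (hd : d ∈ D) {i j : ℕ} (hx : (i, j) ∈ d) :
    (j ≠ 0 ∧ d = {(i, j - 1), (i, j)}) ∨ d = {(i, j), (i, j + 1)} ∨
      (i ≠ 0 ∧ d = {(i - 1, j), (i, j)}) ∨ d = {(i, j), (i + 1, j)} := by
  obtain ⟨x, hxb, y, hyb, hxy, rfl⟩ := h.domino d hd
  -- we may assume `x = (i, j)`
  have key : ∀ y : ℕ × ℕ, Adj (i, j) y → (j ≠ 0 ∧ ({(i, j), y} : Finset (ℕ × ℕ)) =
      {(i, j - 1), (i, j)}) ∨ ({(i, j), y} : Finset (ℕ × ℕ)) = {(i, j), (i, j + 1)} ∨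
      (i ≠ 0 ∧ ({(i, j), y} : Finset (ℕ × ℕ)) = {(i - 1, j), (i, j)}) ∨
      ({(i, j), y} : Finset (ℕ × ℕ)) = {(i, j), (i + 1, j)} := by
    rintro ⟨y1, y2⟩ hy
    unfold Adj at hy
    simp only at hy
    rcases hy with ⟨h1, h2 | h2⟩ | ⟨h1, h2 | h2⟩
    · right; left; rw [← h1, ← h2]
    · left
      refine ⟨by omega, ?_⟩
      have e : j - 1 = y2 := by omega
      rw [e, ← h1, pair_comm]
    · right; right; right; rw [← h1, ← h2]
    · right; right; left
      refine ⟨by omega, ?_⟩
      have e : i - 1 = y1 := by omega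
      rw [e, ← h1, pair_comm]
  rcases mem_insert.1 hx with hx | hx
  · rw [← hx] at hxy ⊢
    exact key y hxy
  · rw [mem_singleton] at hx
    rw [← hx] at hxy ⊢
    rw [pair_comm]
    exact key x hxy.symm

theorem uniq {m n : ℕ} {D : Finset (Finset (ℕ × ℕ))} (h : IsGunport m n D)
    {d e : Finset (ℕ × ℕ)} (hd : d ∈ D) (he : e ∈ D) {x : ℕ × ℕ} (hx : x ∈ d) (hx' : x ∈ e) :
    d = e := by
  by_contra hne
  exact (disjoint_left.1 (h.disjoint d hd e he hne)) hx hx'

theorem cfg {m n : ℕ} {D : Finset (Finset (ℕ × ℕ))} (h : IsGunport m n D) :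
    Cfg m n (ov m n D) (av D) (bv D) where
  o01 := fun i j => by unfold ov; split_ifs <;> simp
  a01 := fun i j => by unfold av; split_ifs <;> simp
  b01 := fun i j => by unfold bv; split_ifs <;> simp
  one := fun i j hi hj => by
    have hb : (i, j) ∈ board m n := mem_board.2 ⟨hi, hj⟩
    have e1 : av D i (j + 1) = if ({(i, j), (i, j + 1)} : Finset (ℕ × ℕ)) ∈ D then 1 else 0 := by
      unfold av; simp
    have e2 : bv D (i + 1) j = if ({(i, j), (i + 1, j)} : Finset (ℕ × ℕ)) ∈ D then 1 else 0 := by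
      unfold bv; simp
    rw [e1, e2]
    unfold ov av bv
    by_cases ho : (i, j) ∈ holes m n D
    · have hn := (mem_holes.1 ho).2
      rw [if_pos ho, if_neg (fun hc => hn _ hc.2 (by simp)), if_neg (fun hc => hn _ hc (by simp)),
        if_neg (fun hc => hn _ hc.2 (by simp)), if_neg (fun hc => hn _ hc (by simp))]
      norm_num
    · have : ∃ d ∈ D, (i, j) ∈ d := by
        by_contra hcon
        push Not at hcon
        exact ho (mem_holes.2 ⟨hb, hcon⟩)
      obtain ⟨d, hd, hxd⟩ := this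
      rw [if_neg ho]
      rcases four h hd hxd with ⟨hj0, e⟩ | e | ⟨hi0, e⟩ | e
      · have g1 : ({(i, j), (i, j + 1)} : Finset (ℕ × ℕ)) ∉ D := fun hc => by
          have := uniq h hc hd (x := (i, j)) (by simp) hxd
          have h2 : (i, j + 1) ∈ d := by rw [← this]; simp
          rw [e] at h2; simp at h2; omega
        have g2 : ¬ (i ≠ 0 ∧ ({(i - 1, j), (i, j)} : Finset (ℕ × ℕ)) ∈ D) := fun hc => by
          have := uniq h hc.2 hd (x := (i, j)) (by simp) hxd
          have h2 : (i - 1, j) ∈ d := by rw [← this]; simp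
          rw [e] at h2; simp at h2; omega
        have g3 : ({(i, j), (i + 1, j)} : Finset (ℕ × ℕ)) ∉ D := fun hc => by
          have := uniq h hc hd (x := (i, j)) (by simp) hxd
          have h2 : (i + 1, j) ∈ d := by rw [← this]; simp
          rw [e] at h2; simp at h2
        rw [if_pos ⟨hj0, e ▸ hd⟩, if_neg g1, if_neg g2, if_neg g3]; norm_num
      · have g1 : ¬ (j ≠ 0 ∧ ({(i, j - 1), (i, j)} : Finset (ℕ × ℕ)) ∈ D) := fun hc => by
          have := uniq h hc.2 hd (x := (i, j)) (by simp) hxd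
          have h2 : (i, j - 1) ∈ d := by rw [← this]; simp
          rw [e] at h2; simp at h2; omega
        have g2 : ¬ (i ≠ 0 ∧ ({(i - 1, j), (i, j)} : Finset (ℕ × ℕ)) ∈ D) := fun hc => by
          have := uniq h hc.2 hd (x := (i, j)) (by simp) hxd
          have h2 : (i - 1, j) ∈ d := by rw [← this]; simp
          rw [e] at h2; simp at h2; omega
        have g3 : ({(i, j), (i + 1, j)} : Finset (ℕ × ℕ)) ∉ D := fun hc => by
          have := uniq h hc hd (x := (i, j)) (by simp) hxd
          have h2 : (i + 1, j) ∈ d := by rw [← this]; simp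
          rw [e] at h2; simp at h2
        rw [if_neg g1, if_pos (e ▸ hd), if_neg g2, if_neg g3]; norm_num
      · have g1 : ¬ (j ≠ 0 ∧ ({(i, j - 1), (i, j)} : Finset (ℕ × ℕ)) ∈ D) := fun hc => by
          have := uniq h hc.2 hd (x := (i, j)) (by simp) hxd
          have h2 : (i, j - 1) ∈ d := by rw [← this]; simp
          rw [e] at h2; simp at h2; omega
        have g2 : ({(i, j), (i, j + 1)} : Finset (ℕ × ℕ)) ∉ D := fun hc => by
          have := uniq h hc hd (x := (i, j)) (by simp) hxd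
          have h2 : (i, j + 1) ∈ d := by rw [← this]; simp
          rw [e] at h2; simp at h2
        have g3 : ({(i, j), (i + 1, j)} : Finset (ℕ × ℕ)) ∉ D := fun hc => by
          have := uniq h hc hd (x := (i, j)) (by simp) hxd
          have h2 : (i + 1, j) ∈ d := by rw [← this]; simp
          rw [e] at h2; simp at h2; omega
        rw [if_neg g1, if_neg g2, if_pos ⟨hi0, e ▸ hd⟩, if_neg g3]; norm_num
      · have g1 : ¬ (j ≠ 0 ∧ ({(i, j - 1), (i, j)} : Finset (ℕ × ℕ)) ∈ D) := fun hc => by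
          have := uniq h hc.2 hd (x := (i, j)) (by simp) hxd
          have h2 : (i, j - 1) ∈ d := by rw [← this]; simp
          rw [e] at h2; simp at h2; omega
        have g2 : ({(i, j), (i, j + 1)} : Finset (ℕ × ℕ)) ∉ D := fun hc => by
          have := uniq h hc hd (x := (i, j)) (by simp) hxd
          have h2 : (i, j + 1) ∈ d := by rw [← this]; simp
          rw [e] at h2; simp at h2
        have g3 : ¬ (i ≠ 0 ∧ ({(i - 1, j), (i, j)} : Finset (ℕ × ℕ)) ∈ D) := fun hc => by
          have := uniq h hc.2 hd (x := (i, j)) (by simp) hxd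
          have h2 : (i - 1, j) ∈ d := by rw [← this]; simp
          rw [e] at h2; simp at h2; omega
        rw [if_neg g1, if_neg g2, if_neg g3, if_pos (e ▸ hd)]; norm_num
  aL := fun i => by unfold av; simp
  aR := fun i => by
    unfold av
    rw [if_neg]
    rintro ⟨_, hc⟩
    obtain ⟨x, hx, y, hy, _, e⟩ := h.domino _ hc
    have : (i, n) ∈ ({x, y} : Finset (ℕ × ℕ)) := by rw [← e]; simp
    rw [mem_insert, mem_singleton] at this
    rcases this with rfl | rfl
    · exact absurd (mem_board.1 hx).2 (by simp)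
    · exact absurd (mem_board.1 hy).2 (by simp)
  bT := fun j => by unfold bv; simp
  bB := fun j => by
    unfold bv
    rw [if_neg]
    rintro ⟨_, hc⟩
    obtain ⟨x, hx, y, hy, _, e⟩ := h.domino _ hc
    have : (m, j) ∈ ({x, y} : Finset (ℕ × ℕ)) := by rw [← e]; simp
    rw [mem_insert, mem_singleton] at this
    rcases this with rfl | rfl
    · exact absurd (mem_board.1 hx).1 (by simp)
    · exact absurd (mem_board.1 hy).1 (by simp)
  hh := fun i j _ _ => by
    unfold ov
    split_ifs with h1 h2 <;> norm_num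
    exact h.isolated _ h1 _ h2 (Or.inl ⟨rfl, Or.inl rfl⟩)
  vv := fun i j _ _ => by
    unfold ov
    split_ifs with h1 h2 <;> norm_num
    exact h.isolated _ h1 _ h2 (Or.inr ⟨rfl, Or.inl rfl⟩)

theorem tot_eq (m n : ℕ) (D : Finset (Finset (ℕ × ℕ))) :
    tot m n (ov m n D) = (holes m n D).card := by
  classical
  unfold tot hr ov
  rw [← sum_product' (f := fun i j => if (i, j) ∈ holes m n D then (1 : ℤ) else 0)]
  rw [sum_boole]
  congr 2
  ext x
  simp only [mem_filter]
  constructor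
  · exact fun hx => hx.2
  · exact fun hx => ⟨(mem_holes.1 hx).1, hx⟩

theorem bound {m n : ℕ} {D : Finset (Finset (ℕ × ℕ))} (h : IsGunport m n D) (hm4 : 4 ≤ m)
    (hn4 : 4 ≤ n) (hm : ¬ 3 ∣ m) (hn : ¬ 3 ∣ n) :
    2 * (m * n : ℤ) + (m * n - 3 * (holes m n D).card) ≤
      (8 * (m * n - 3 * (holes m n D).card) + 18) * (m + n + 10) := by
  have h1 := main2 (cfg h) hm4 hn4 hm hn
  rw [tot_eq] at h1
  exact h1

theorem exists_gunport (m n : ℕ) : ∃ D, IsGunport m n D := by
  classical
  let S : Finset (Finset (Finset (ℕ × ℕ))) := (board m n).powerset.powerset.filter fun D =>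
    (∀ d ∈ D, ∃ x ∈ board m n, ∃ y ∈ board m n, Adj x y ∧ d = {x, y}) ∧
    (∀ d ∈ D, ∀ e ∈ D, d ≠ e → Disjoint d e)
  have hS : S.Nonempty := ⟨∅, by simp [S]⟩
  obtain ⟨D, hD, hmax⟩ := exists_max_image S Finset.card hS
  have hD' := (mem_filter.1 hD)
  refine ⟨D, hD'.2.1, hD'.2.2, ?_⟩
  intro x hx y hy hxy
  have hx1 := mem_holes.1 hx
  have hy1 := mem_holes.1 hy
  have hnot : ({x, y} : Finset (ℕ × ℕ)) ∉ D := fun hc => hx1.2 _ hc (by simp)
  have hin : insert ({x, y} : Finset (ℕ × ℕ)) D ∈ S := by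
    refine mem_filter.2 ⟨?_, ?_, ?_⟩
    · rw [mem_powerset]
      intro d hd
      rcases mem_insert.1 hd with rfl | hd
      · rw [mem_powerset]
        intro z hz
        rcases mem_insert.1 hz with rfl | hz
        · exact hx1.1
        · rw [mem_singleton.1 hz]; exact hy1.1
      · exact (mem_powerset.1 hD'.1) hd
    · intro d hd
      rcases mem_insert.1 hd with rfl | hd
      · exact ⟨x, hx1.1, y, hy1.1, hxy, rfl⟩
      · exact hD'.2.1 d hd
    · intro d hd e he hne
      have aux : ∀ e ∈ D, Disjoint ({x, y} : Finset (ℕ × ℕ)) e := fun e he => by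
        rw [disjoint_left]
        intro z hz
        rcases mem_insert.1 hz with h1 | h1
        · rw [h1]; exact hx1.2 e he
        · rw [mem_singleton.1 h1]; exact hy1.2 e he
      rcases mem_insert.1 hd with rfl | hd
      · rcases mem_insert.1 he with rfl | he
        · exact absurd rfl hne
        · exact aux e he
      · rcases mem_insert.1 he with rfl | he
        · exact (aux d hd).symm
        · exact hD'.2.2 d hd e he hne
  have := hmax _ hin
  rw [card_insert_of_notMem hnot] at this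
  omega

theorem isGreatest_G (m n : ℕ) : IsGreatest (holeCounts m n) (G m n) := by
  have hne : (holeCounts m n).Nonempty := by
    obtain ⟨D, hD⟩ := exists_gunport m n
    exact ⟨_, D, hD, rfl⟩
  have hb : BddAbove (holeCounts m n) := by
    refine ⟨(board m n).card, ?_⟩
    rintro k ⟨D, _, rfl⟩
    exact card_le_card (filter_subset _ _)
  exact ⟨Nat.sSup_mem hne hb, fun k hk => le_csSup hb hk⟩

end Pool.Agent.Run7.h960.Gun
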