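import Pool.Agent.Run7.h960.TabFinal

set_option autoImplicit false

/-!
# Huge four-way tables: fixed-parameter tractable in the layer size and the number of types
-/

namespace Run7.h960.HugeTables

open Pool.Agent.NPC

variable {k l m t : ℕ}

/-- The layer `y` has the line sums `a`, `b`, `c`. -/
def HasLineSums (a : Fin l → Fin m → ℕ) (b : Fin k → Fin m → ℕ) (c : Fin k → Fin l → ℕ)
    (y : Fin k → Fin l → Fin m → ℕ) : Prop :=
  (∀ j h, ∑ i, y i j h = a j h) ∧ (∀ i h, ∑ j, y i j h = b i h) ∧ (∀ i j, ∑ h, y i j h = c i j)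

/-- There is a `k × l × m × N` table, where `N` is the sum of all `n r`, whose first `n 0` layers
have type `0`, the next `n 1` layers have type `1`, and so on (the line sums of type `r` being
`a r`, `b r`, `c r`), and whose vertical line sums are `w`. -/
def TableExists (n : Fin t → ℕ) (a : Fin t → Fin l → Fin m → ℕ) (b : Fin t → Fin k → Fin m → ℕ)
    (c : Fin t → Fin k → Fin l → ℕ) (w : Fin k → Fin l → Fin m → ℕ) : Prop :=
  ∃ x : Fin (∑ r, n r) → Fin k → Fin l → Fin m → ℕ,
    (∀ (r : Fin t) (s : Fin (∑ r, n r)), ∑ q ∈ Finset.Iio r, n q ≤ s → s < ∑ q ∈ Finset.Iic r, n q →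
      HasLineSums (a r) (b r) (c r) (x s)) ∧
    ∀ i j h, ∑ s, x s i j h = w i j h

/-- A matrix as a list of lists. -/
def rows {p q : ℕ} (A : Fin p → Fin q → ℕ) : List (List ℕ) :=
  List.ofFn fun i => List.ofFn fun j => A i j

/-- The input: `k`, `l`, `m`, the list of all types `(n r, a r, b r, c r)`, and `w`. -/
def input (n : Fin t → ℕ) (a : Fin t → Fin l → Fin m → ℕ) (b : Fin t → Fin k → Fin m → ℕ)
    (c : Fin t → Fin k → Fin l → ℕ) (w : Fin k → Fin l → Fin m → ℕ) :
    (ℕ × ℕ × ℕ) × List (ℕ × List (List ℕ) × List (List ℕ) × List (List ℕ)) ×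
      List (List (List ℕ)) :=
  ((k, l, m), (List.ofFn fun r => (n r, rows (a r), rows (b r), rows (c r))),
    List.ofFn fun i => rows (w i))

/-- The total number of binary digits of all numbers in the input, plus one for each of them. -/
def inputLength (n : Fin t → ℕ) (a : Fin t → Fin l → Fin m → ℕ) (b : Fin t → Fin k → Fin m → ℕ)
    (c : Fin t → Fin k → Fin l → ℕ) (w : Fin k → Fin l → Fin m → ℕ) : ℕ :=
  (k.size + 1) + (l.size + 1) + (m.size + 1) +
  ∑ r, (((n r).size + 1) + (∑ j, ∑ h, ((a r j h).size + 1)) + (∑ i, ∑ h, ((b r i h).size + 1)) +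
    ∑ i, ∑ j, ((c r i j).size + 1)) +
  ∑ i, ∑ j, ∑ h, ((w i j h).size + 1)

/-! ### sizes -/

lemma sz_ofFn {α : Type} [TEnc α] {n : ℕ} (f : Fin n → α) :
    sz (List.ofFn f) = ∑ i, (sz (f i) + 1) + 1 := by
  induction n with
  | zero => simp
  | succ n ih => rw [List.ofFn_succ, sz_list_cons, ih, Fin.sum_univ_succ]; omega

lemma sz_ofFn_le {α : Type} [TEnc α] {n C : ℕ} (f : Fin n → α) (g : Fin n → ℕ)
    (h : ∀ i, sz (f i) + 1 ≤ C * g i) : sz (List.ofFn f) ≤ C * ∑ i, g i + 1 := by
  rw [sz_ofFn, Finset.mul_sum]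
  exact Nat.add_le_add_right (Finset.sum_le_sum fun i _ => h i) 1

lemma one_le_sum {p : ℕ} (hp : 0 < p) (g : Fin p → ℕ) (hg : ∀ i, 1 ≤ g i) : 1 ≤ ∑ i, g i :=
  (hg ⟨0, hp⟩).trans (Finset.single_le_sum (f := g) (fun _ _ => Nat.zero_le _)
    (Finset.mem_univ (⟨0, hp⟩ : Fin p)))

lemma sz_rows {p q : ℕ} (hq : 0 < q) (A : Fin p → Fin q → ℕ) :
    sz (rows A) ≤ 7 * ∑ i, ∑ j, ((A i j).size + 1) + 1 := by
  refine sz_ofFn_le _ _ fun i => ?_
  have h1 : sz (List.ofFn fun j => A i j) ≤ 5 * ∑ j, ((A i j).size + 1) + 1 := by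
    refine sz_ofFn_le _ _ fun j => ?_
    have := sz_nat_le (A i j)
    omega
  have h2 : 1 ≤ ∑ j, ((A i j).size + 1) := one_le_sum hq _ fun j => by omega
  omega

lemma bits_le (hl : 0 < l) (hm : 0 < m) (n : Fin t → ℕ)
    (a : Fin t → Fin l → Fin m → ℕ) (b : Fin t → Fin k → Fin m → ℕ)
    (c : Fin t → Fin k → Fin l → ℕ) (w : Fin k → Fin l → Fin m → ℕ) :
    (bits (input n a b c w)).length + 1 ≤ 20 * (inputLength n a b c w + 1) := by
  have h : (bits (input n a b c w)).length = sz (input n a b c w) := rfl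
  have h1 : sz (List.ofFn fun r => (n r, rows (a r), rows (b r), rows (c r))) ≤
      15 * ∑ r, (((n r).size + 1) + (∑ j, ∑ h, ((a r j h).size + 1)) +
        (∑ i, ∑ h, ((b r i h).size + 1)) + ∑ i, ∑ j, ((c r i j).size + 1)) + 1 := by
    refine sz_ofFn_le _ _ fun r => ?_
    have e1 := sz_nat_le (n r)
    have e2 := sz_rows hm (a r)
    have e3 := sz_rows hm (b r)
    have e4 := sz_rows hl (c r)
    rw [sz_pair, sz_pair, sz_pair]
    omega
  have h2 : sz (List.ofFn fun i => rows (w i)) ≤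
      9 * ∑ i, ∑ j, ∑ h, ((w i j h).size + 1) + 1 := by
    refine sz_ofFn_le _ _ fun i => ?_
    have e1 := sz_rows hm (w i)
    have e2 : 1 ≤ ∑ j, ∑ h, ((w i j h).size + 1) :=
      one_le_sum hl _ fun j => one_le_sum hm _ fun h => by omega
    omega
  have e1 := sz_nat_le k
  have e2 := sz_nat_le l
  have e3 := sz_nat_le m
  rw [h, input, sz_pair, sz_pair, sz_pair, sz_pair, inputLength]
  omega

/-! ### the numbering of the layers -/

lemma sigma_val (n : Fin t → ℕ) (u : Σ r : Fin t, Fin (n r)) :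
    ((finSigmaFinEquiv u : Fin (∑ r, n r)) : ℕ) = ∑ q ∈ Finset.Iio u.1, n q + u.2 := by
  rw [finSigmaFinEquiv_apply]
  congr 1
  have e : Finset.Iio u.1 = Finset.univ.image (Fin.castLE u.1.2.le : Fin u.1 → Fin t) := by
    ext q
    simp only [Finset.mem_Iio, Finset.mem_image, Finset.mem_univ, true_and]
    constructor
    · intro h
      exact ⟨⟨q, h⟩, rfl⟩
    · rintro ⟨i, rfl⟩
      exact i.2
  rw [e, Finset.sum_image]
  intro x _ y _ hxy
  exact Fin.castLE_injective _ hxy

lemma sum_Iic (n : Fin t → ℕ) (r : Fin t) :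
    ∑ q ∈ Finset.Iic r, n q = ∑ q ∈ Finset.Iio r, n q + n r := by
  have e : Finset.Iic r = insert r (Finset.Iio r) := by
    ext q
    simp only [Finset.mem_Iic, Finset.mem_insert, Finset.mem_Iio]
    exact le_iff_eq_or_lt
  rw [e, Finset.sum_insert (by simp), add_comm]

lemma layer_iff (n : Fin t → ℕ) (u : Σ r : Fin t, Fin (n r)) (r : Fin t) :
    (∑ q ∈ Finset.Iio r, n q ≤ (finSigmaFinEquiv u : Fin (∑ r, n r)) ∧
      ((finSigmaFinEquiv u : Fin (∑ r, n r)) : ℕ) < ∑ q ∈ Finset.Iic r, n q) ↔ u.1 = r := by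
  rw [sigma_val, sum_Iic]
  have h2 := u.2.2
  have mono : ∀ r r' : Fin t, r < r' →
      ∑ q ∈ Finset.Iio r, n q + n r ≤ ∑ q ∈ Finset.Iio r', n q := by
    intro r r' h
    rw [← sum_Iic]
    refine Finset.sum_le_sum_of_subset fun q hq => ?_
    rw [Finset.mem_Iic] at hq
    rw [Finset.mem_Iio]
    exact lt_of_le_of_lt hq h
  constructor
  · rintro ⟨h3, h4⟩
    rcases lt_trichotomy u.1 r with h | h | h
    · have := mono _ _ h
      omega
    · exact h
    · have := mono _ _ h
      omega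
  · rintro rfl
    omega

lemma tableExists_iff (n : Fin t → ℕ) (a : Fin t → Fin l → Fin m → ℕ)
    (b : Fin t → Fin k → Fin m → ℕ) (c : Fin t → Fin k → Fin l → ℕ)
    (w : Fin k → Fin l → Fin m → ℕ) :
    TableExists n a b c w ↔ Run7.h960.HasTable n a b c w := by
  constructor
  · rintro ⟨x, hx, hw⟩
    refine ⟨fun u => x (finSigmaFinEquiv u), fun u => ?_, fun i j h => ?_⟩
    · have h1 := (layer_iff n u u.1).2 rfl
      exact hx u.1 _ h1.1 h1.2
    · rw [← hw i j h]
      exact Equiv.sum_comp finSigmaFinEquiv fun s => x s i j h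
  · rintro ⟨x, hx, hw⟩
    refine ⟨fun s => x (finSigmaFinEquiv.symm s), fun r s h1 h2 => ?_, fun i j h => ?_⟩
    · have h3 := (layer_iff n (finSigmaFinEquiv.symm s) r).1 (by
        rw [Equiv.apply_symm_apply]
        exact ⟨h1, h2⟩)
      have h4 := hx (finSigmaFinEquiv.symm s)
      rw [h3] at h4
      exact h4
    · rw [← hw i j h]
      exact Equiv.sum_comp finSigmaFinEquiv.symm fun u => x u i j h

/-- There are a single Turing machine, a computable function `f` and a constant `c'` such that the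
machine, given (in binary) an instance of the huge four-way table problem with `t` types, outputs
whether a table exists, within `f (t + k * l * m) * (L + 1) ^ c'` steps, where `L` is the binary
encoding length of the instance. -/
theorem result :
    ∃ (tm : Turing.FinTM2) (e₀ : tm.Γ tm.k₀ ≃ Bool) (e₁ : tm.Γ tm.k₁ ≃ Bool)
      (f : ℕ → ℕ) (c' : ℕ), Computable f ∧
      ∀ (k l m t : ℕ), 0 < k → 0 < l → 0 < m →
        ∀ (n : Fin t → ℕ) (a : Fin t → Fin l → Fin m → ℕ) (b : Fin t → Fin k → Fin m → ℕ)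
          (c : Fin t → Fin k → Fin l → ℕ) (w : Fin k → Fin l → Fin m → ℕ),
          ∃ o : Bool, (o = true ↔ TableExists n a b c w) ∧
            Nonempty (Turing.TM2OutputsInTime tm ((bits (input n a b c w)).map e₀.invFun)
              (some ((bits o).map e₁.invFun))
              (f (t + k * l * m) * (inputLength n a b c w + 1) ^ c')) := by
  classical
  obtain ⟨tm, e₀, e₁, f, c', hf, h⟩ := Run7.h960.tables_fpt
  refine ⟨tm, e₀, e₁, fun t => f t * 20 ^ c', c', ?_, fun k l m t hk hl hm n a b c w => ?_⟩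
  · exact Primrec.nat_mul.to_comp.comp hf (Computable.const _)
  · refine ⟨decide (TableExists n a b c w), by simp, ?_⟩
    obtain ⟨h'⟩ := h k l m t hk hl hm n a b c w (decide (TableExists n a b c w))
      (by rw [← tableExists_iff]; simp)
    refine ⟨⟨h'.toEvalsTo, h'.steps_le_m.trans ?_⟩⟩
    calc f (t + k * l * m) * ((bits (input n a b c w)).length + 1) ^ c'
        ≤ f (t + k * l * m) * (20 * (inputLength n a b c w + 1)) ^ c' :=
          Nat.mul_le_mul_left _ (Nat.pow_le_pow_left (bits_le hl hm n a b c w) c')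
      _ = f (t + k * l * m) * 20 ^ c' * (inputLength n a b c w + 1) ^ c' := by
          rw [mul_pow]; ring

end Run7.h960.HugeTables
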