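import Pool.Agent.Run7.h960.LemAq

set_option autoImplicit false

/-!
# Fat types decompose: the separation argument
-/

namespace Run7.h960

/-- the coefficients of the unit vectors with respect to a basis are bounded -/
theorem coeff_bound {n : ℕ} (X : ℕ) (b : Fin n → Fin n → ℤ)
    (hb : ∀ v : Fin n → ℤ, ∃ c : Fin n → ℤ, v = ∑ i, c i • b i)
    (hbX : ∀ i k, |b i k| ≤ (X : ℤ)) :
    ∃ c : Fin n → Fin n → ℤ, (∀ k, (Pi.single k 1 : Fin n → ℤ) = ∑ i, c k i • b i) ∧
      ∀ k i, |c k i| ≤ (n.factorial * (X + 1) ^ n : ℕ) := by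
  classical
  choose c hc using fun k => hb (Pi.single k 1)
  refine ⟨c, hc, ?_⟩
  let Bm : Matrix (Fin n) (Fin n) ℤ := Matrix.of b
  let Cm : Matrix (Fin n) (Fin n) ℤ := Matrix.of c
  have h1 : Cm * Bm = 1 := by
    ext k j
    have := congrFun (hc k) j
    rw [Finset.sum_apply] at this
    rw [Matrix.mul_apply, Matrix.one_apply]
    simp only [Pi.smul_apply, smul_eq_mul] at this
    rw [Pi.single_apply] at this
    simp only [Cm, Bm, Matrix.of_apply]
    rw [← this]
    simp only [eq_comm]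
  have hdet : Cm.det * Bm.det = 1 := by rw [← Matrix.det_mul, h1, Matrix.det_one]
  have hadj : Cm = Cm.det • Bm.adjugate := by
    have h2 : Cm * (Bm * Bm.adjugate) = Bm.adjugate := by
      rw [← Matrix.mul_assoc, h1, Matrix.one_mul]
    rw [Matrix.mul_adjugate, Matrix.mul_smul, Matrix.mul_one] at h2
    rw [← h2, smul_smul, hdet, one_smul]
  intro k i
  have h3 : c k i = Cm.det * Bm.adjugate k i := by
    have := congrFun (congrFun hadj k) i
    simpa [Cm] using this
  have h4 : |Cm.det| = 1 := by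
    have : IsUnit Cm.det := IsUnit.of_mul_eq_one _ hdet
    exact Int.isUnit_iff_abs_eq.1 this
  rw [h3, abs_mul, h4, one_mul, Matrix.adjugate_apply]
  have h5 := Matrix.det_le (A := Bm.updateRow i (Pi.single k 1)) (abv := AbsoluteValue.abs)
    (x := ((X + 1 : ℕ) : ℤ)) (by
      intro p q
      rw [Matrix.updateRow_apply]
      simp only [AbsoluteValue.abs_apply]
      split_ifs with h
      · rw [Pi.single_apply]
        split_ifs
        · simp
        · simp; positivity
      · have := hbX p q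
        simp only [Bm, Matrix.of_apply]
        push_cast
        omega)
  simp only [AbsoluteValue.abs_apply, Fintype.card_fin, nsmul_eq_mul] at h5
  push_cast at h5 ⊢
  exact h5

theorem R_bounds_aux {n X q cf Z : ℕ} (hZ8 : 8 ≤ Z) (hnX : (n + 1) * (X + 1) ≤ Z) (hq1 : q ≤ Z)
    (hcf : cf ≤ Z ^ n) :
    (n * (n * cf * q) * X + q + 1 + n * X) + (n * cf * q + 1) ≤ Z ^ (2 * n + 6) := by
  have hnX' : (n + 1) * (X + 1) = n * X + n + X + 1 := by ring
  have hn1 : n ≤ Z := by omega
  have h3 : n * X ≤ Z := by omega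
  have h1 : n * cf * q ≤ Z ^ (n + 2) := by
    have e : Z ^ (n + 2) = Z * Z ^ n * Z := by ring
    rw [e]
    exact Nat.mul_le_mul (Nat.mul_le_mul hn1 hcf) hq1
  have h2 : n * (n * cf * q) * X ≤ Z ^ (n + 3) := by
    have e : Z ^ (n + 3) = Z * Z ^ (n + 2) := by ring
    have e2 : n * (n * cf * q) * X = (n * X) * (n * cf * q) := by ring
    rw [e, e2]
    exact Nat.mul_le_mul h3 h1
  have h4 : Z ≤ Z ^ (n + 3) := Nat.le_self_pow (by omega) Z
  have h5 : Z ^ (n + 2) ≤ Z ^ (n + 3) := Nat.pow_le_pow_right (by omega) (by omega)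
  have h6 : 8 * Z ^ (n + 3) ≤ Z ^ (n + 4) := by
    have e : Z ^ (n + 4) = Z * Z ^ (n + 3) := by ring
    rw [e]
    exact Nat.mul_le_mul_right _ hZ8
  have h7 : Z ^ (n + 4) ≤ Z ^ (2 * n + 6) := Nat.pow_le_pow_right (by omega) (by omega)
  omega

theorem R_bounds {n X F C1 R : ℕ}
    (hR : (8 * (n + 1) * (X + 1) * (F + 1) * (C1 + 1)) ^ (2 * n + 6) ≤ R) :
    (n * (n * (n.factorial * (X + 1) ^ n) * ((1 + n * X) * F + n * (F + C1 * X) + 1)) * X +
      ((1 + n * X) * F + n * (F + C1 * X) + 1) + 1 + n * X) +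
      (n * (n.factorial * (X + 1) ^ n) * ((1 + n * X) * F + n * (F + C1 * X) + 1) + 1) ≤ R := by
  have hW1 : 1 ≤ (F + 1) * (C1 + 1) := Nat.one_le_iff_ne_zero.2 (by positivity)
  have hV1 : 1 ≤ (n + 1) * (X + 1) := Nat.one_le_iff_ne_zero.2 (by positivity)
  have e0 : 8 * (n + 1) * (X + 1) * (F + 1) * (C1 + 1) =
    8 * (((n + 1) * (X + 1)) * ((F + 1) * (C1 + 1))) := by ring
  rw [e0] at hR
  have a0 : (n + 1) * (X + 1) ≤ ((n + 1) * (X + 1)) * ((F + 1) * (C1 + 1)) :=
    Nat.le_mul_of_pos_right _ hW1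
  have a1 : (1 + n * X) * F ≤ ((n + 1) * (X + 1)) * ((F + 1) * (C1 + 1)) := by
    refine Nat.mul_le_mul (by nlinarith [Nat.zero_le n, Nat.zero_le X]) ?_
    nlinarith [Nat.zero_le (F * C1), Nat.zero_le C1]
  have a2 : n * (F + C1 * X) ≤ 2 * (((n + 1) * (X + 1)) * ((F + 1) * (C1 + 1))) := by
    have b1 : n * F ≤ ((n + 1) * (X + 1)) * ((F + 1) * (C1 + 1)) :=
      Nat.mul_le_mul (by nlinarith [Nat.zero_le (n * X)]) (by nlinarith [Nat.zero_le (F * C1)])
    have b2 : (n * X) * C1 ≤ ((n + 1) * (X + 1)) * ((F + 1) * (C1 + 1)) :=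
      Nat.mul_le_mul (by nlinarith) (by nlinarith [Nat.zero_le (F * C1)])
    have e : n * (F + C1 * X) = n * F + (n * X) * C1 := by ring
    rw [e]; omega
  have hcf : n.factorial * (X + 1) ^ n ≤
      (8 * (((n + 1) * (X + 1)) * ((F + 1) * (C1 + 1)))) ^ n := by
    have b1 : n.factorial * (X + 1) ^ n ≤ (n + 1) ^ n * (X + 1) ^ n :=
      Nat.mul_le_mul_right _ ((Nat.factorial_le_pow n).trans (Nat.pow_le_pow_left (by omega) n))
    rw [← mul_pow] at b1
    exact b1.trans (Nat.pow_le_pow_left (by omega) n)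
  refine le_trans (R_bounds_aux ?_ ?_ ?_ hcf) hR <;> omega

/-- Lemma A': it is enough that `(N, Y) - C₁ (1, z₀)` is in the relaxed cone given by all
integral test functionals with entries bounded by `R`. -/
theorem lemmaA' {n : ℕ} (S : Set (Fin n → ℤ)) (X : ℕ) (hX : ∀ y ∈ S, ∀ i, |y i| ≤ (X : ℤ))
    (hconv : ∀ x : Fin n → ℤ, (fun i => (x i : ℝ)) ∈
      convexHull ℝ ((fun (x : Fin n → ℤ) (i : Fin n) => (x i : ℝ)) '' S) → x ∈ S)
    (b : Fin n → Fin n → ℤ) (hb : ∀ v : Fin n → ℤ, ∃ c : Fin n → ℤ, v = ∑ i, c i • b i)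
    (hbX : ∀ i k, |b i k| ≤ (X : ℤ))
    (m : Fin n → ℤ) (hm : ∀ i, (n : ℤ) * (n + 1) ≤ m i) (z0 : Fin n → ℤ) (hz0 : z0 ∈ S)
    (hz : ∀ i, z0 + m i • b i ∈ S ∧ z0 - m i • b i ∈ S)
    (C1 F R : ℕ) (hC1 : 2 * n + 4 ≤ C1) (N : ℤ) (Y : Fin n → ℤ) (hN : |N| ≤ (F : ℤ))
    (hYF : ∀ i, |Y i| ≤ (F : ℤ))
    (hR : (8 * (n + 1) * (X + 1) * (F + 1) * (C1 + 1)) ^ (2 * n + 6) ≤ R)
    (hK : ∀ (g0 : ℤ) (g : Fin n → ℤ), |g0| ≤ (R : ℤ) → (∀ i, |g i| ≤ (R : ℤ)) →
      (∀ y ∈ S, 0 ≤ g0 + ∑ i, g i * y i) →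
      0 ≤ g0 * (N - C1) + ∑ i, g i * (Y i - C1 * z0 i)) :
    ∃ L : List (Fin n → ℤ), (∀ y ∈ L, y ∈ S) ∧ (L.length : ℤ) = N ∧ L.sum = Y := by
  classical
  have hRb := R_bounds hR
  set q : ℕ := (1 + n * X) * F + n * (F + C1 * X) + 1 with hq
  set cf : ℕ := n.factorial * (X + 1) ^ n with hcf
  have hR1 : 1 ≤ R := by omega
  have hNC : (C1 : ℤ) ≤ N := by
    have := hK 1 0 (by simpa using hR1) (by simp) (by simp)
    simp only [Pi.zero_apply, zero_mul, Finset.sum_const_zero, one_mul, add_zero] at this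
    omega
  set K : Set (Fin n → ℝ) :=
    convexHull ℝ ((fun (x : Fin n → ℤ) (i : Fin n) => (x i : ℝ)) '' S) with hKdef
  have hmemK : ∀ y ∈ S, (fun i => (y i : ℝ)) ∈ K := fun y hy =>
    subset_convexHull ℝ _ ⟨y, hy, rfl⟩
  have hSfin : S.Finite := by
    refine (Set.finite_Icc (fun _ : Fin n => -(X : ℤ)) (fun _ => (X : ℤ))).subset ?_
    intro y hy
    exact ⟨fun i => (abs_le.1 (hX y hy i)).1, fun i => (abs_le.1 (hX y hy i)).2⟩
  have hKc : IsClosed K := (hSfin.image _).isClosed_convexHull ℝ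
  -- the point
  set Dr : ℝ := (N : ℝ) - C1 + 1 with hDr
  have hNCr : (C1 : ℝ) ≤ N := by exact_mod_cast hNC
  have hDpos : 0 < Dr := by rw [hDr]; linarith
  set w : Fin n → ℝ := fun i => ((Y i : ℝ) - (C1 - 1) * z0 i) / Dr with hw
  have hwi : ∀ i, Dr * w i = (Y i : ℝ) - (C1 - 1) * z0 i := by
    intro i
    rw [hw]
    field_simp
  by_cases hwK : w ∈ K
  · -- apply Lemma A
    have h1 := lemmaA S hconv b hb m hm z0 hz0 hz (C1 - 1) N.toNat (by omega) (by omega) Y
      ⟨w, hwK, fun i => by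
        have e1 : ((N.toNat : ℕ) : ℝ) = N := by
          have : ((N.toNat : ℕ) : ℤ) = N := Int.toNat_of_nonneg (by omega)
          exact_mod_cast this
        have e2 : ((C1 - 1 : ℕ) : ℝ) = C1 - 1 := by
          rw [Nat.cast_sub (by omega)]; simp
        rw [e1, e2, ← hwi i, hDr]
        ring⟩
    obtain ⟨L, hL1, hL2, hL3⟩ := h1
    exact ⟨L, hL1, by rw [hL2]; exact Int.toNat_of_nonneg (by omega), hL3⟩
  · exfalso
    obtain ⟨f, u, hfw, hfk⟩ := geometric_hahn_banach_point_closed (convex_convexHull ℝ _) hKc hwK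
    obtain ⟨c, hc1, hc2⟩ := coeff_bound X b hb hbX
    set γ : ℝ := f (fun i => (z0 i : ℝ)) - u with hγ
    have hγpos : 0 < γ := by
      have := hfk _ (hmemK z0 hz0)
      rw [hγ]; linarith
    have hqpos : (0 : ℝ) < q := by
      have : 0 < q := by omega
      exact_mod_cast this
    set σ : ℝ := q / γ with hσ
    have hσpos : 0 < σ := div_pos hqpos hγpos
    have hσγ : σ * γ = q := by rw [hσ]; field_simp
    set h : Fin n → ℝ := fun i => σ * f (Pi.single i 1) with hh
    set v : ℝ := σ * u with hv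
    have hf : ∀ x : Fin n → ℝ, σ * f x = ∑ i, h i * x i := by
      intro x
      have e1 := LinearMap.pi_apply_eq_sum_univ (f : (Fin n → ℝ) →ₗ[ℝ] ℝ) x
      have e2 : f x = ∑ i, x i • f (fun j => if i = j then 1 else 0) := e1
      rw [e2, Finset.mul_sum]
      refine Finset.sum_congr rfl fun i _ => ?_
      have e3 : (fun j => if i = j then (1 : ℝ) else 0) = Pi.single i 1 := by
        funext j
        rw [Pi.single_apply]
        simp only [eq_comm]
      rw [e3, hh]
      simp only [smul_eq_mul]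
      ring
    have hS : ∀ y ∈ S, 0 < -v + ∑ i, h i * y i := by
      intro y hy
      have e1 := hfk _ (hmemK y hy)
      rw [← hf (fun i => (y i : ℝ)), hv]
      have := mul_lt_mul_of_pos_left e1 hσpos
      linarith
    have hz0Q : -v + ∑ i, h i * z0 i = q := by
      rw [← hf (fun i => (z0 i : ℝ)), hv, ← hσγ, hγ]
      ring
    have hβ : ∀ k, |∑ i, h i * (b k i : ℝ)| ≤ q := by
      intro k
      set β := ∑ i, h i * (b k i : ℝ) with hβd
      have e1 := hS _ (hz k).1
      have e2 := hS _ (hz k).2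
      have e3 : ∑ i, h i * (((z0 + m k • b k) i : ℤ) : ℝ) = ∑ i, h i * z0 i + m k * β := by
        rw [hβd, Finset.mul_sum, ← Finset.sum_add_distrib]
        refine Finset.sum_congr rfl fun i _ => ?_
        simp only [Pi.add_apply, Pi.smul_apply, smul_eq_mul, Int.cast_add, Int.cast_mul]
        ring
      have e4 : ∑ i, h i * (((z0 - m k • b k) i : ℤ) : ℝ) = ∑ i, h i * z0 i - m k * β := by
        rw [hβd, Finset.mul_sum, ← Finset.sum_sub_distrib]
        refine Finset.sum_congr rfl fun i _ => ?_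
        simp only [Pi.sub_apply, Pi.smul_apply, smul_eq_mul, Int.cast_sub, Int.cast_mul]
        ring
      rw [e3] at e1
      rw [e4] at e2
      have hmk : (1 : ℝ) ≤ m k := by
        have h1 := hm k
        have h2 : 1 ≤ (n : ℤ) := by
          have := k.2
          omega
        have h3 : (1 : ℤ) ≤ m k := by nlinarith
        exact_mod_cast h3
      have e5 : (m k : ℝ) * β < q := by linarith
      have e6 : -((m k : ℝ) * β) < q := by linarith
      have e7 : (m k : ℝ) * |β| ≤ q := by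
        rcases abs_cases β with ⟨hb1, _⟩ | ⟨hb1, _⟩
        · rw [hb1]; exact e5.le
        · rw [hb1]; linarith
      nlinarith [abs_nonneg β]
    have hcr : ∀ k i, |(c k i : ℝ)| ≤ cf := by
      intro k i
      have := hc2 k i
      have h2 : ((|c k i| : ℤ) : ℝ) ≤ ((cf : ℕ) : ℤ) := by exact_mod_cast this
      rw [Int.cast_abs] at h2
      simpa using h2
    have hhk : ∀ k, |h k| ≤ n * cf * q := by
      intro k
      have e1 : h k = ∑ i, (c k i : ℝ) * ∑ j, h j * (b i j : ℝ) := by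
        have e2 : h k = ∑ j, h j * (((Pi.single k 1 : Fin n → ℤ) j : ℤ) : ℝ) := by
          rw [Finset.sum_eq_single k]
          · simp
          · intro j _ hj
            rw [Pi.single_apply, if_neg hj]; simp
          · intro h; exact absurd (Finset.mem_univ _) h
        rw [e2]
        simp only [Finset.mul_sum]
        rw [Finset.sum_comm]
        refine Finset.sum_congr rfl fun j _ => ?_
        rw [hc1 k, Finset.sum_apply]
        push_cast
        rw [Finset.mul_sum]
        refine Finset.sum_congr rfl fun i _ => ?_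
        simp only [Pi.smul_apply, smul_eq_mul, Int.cast_mul]
        ring
      rw [e1]
      refine (Finset.abs_sum_le_sum_abs _ _).trans ?_
      have e3 : ∀ i ∈ Finset.univ, |(c k i : ℝ) * ∑ j, h j * (b i j : ℝ)| ≤ cf * q := by
        intro i _
        rw [abs_mul]
        exact mul_le_mul (hcr k i) (hβ i) (abs_nonneg _) (by positivity)
      refine (Finset.sum_le_sum e3).trans ?_
      rw [Finset.sum_const, Finset.card_univ, Fintype.card_fin, nsmul_eq_mul]
      exact le_of_eq (by ring)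
    set g : Fin n → ℤ := fun i => round (h i) with hg
    set g0 : ℤ := ⌈-v⌉ + n * X with hg0
    have hgi : ∀ i, |(g i : ℝ) - h i| ≤ 1 / 2 := by
      intro i
      rw [abs_sub_comm]
      exact abs_sub_round (h i)
    have hg0l : -v + n * X ≤ (g0 : ℝ) := by
      rw [hg0]
      push_cast
      have := Int.le_ceil (-v)
      linarith
    have hg0u : (g0 : ℝ) ≤ -v + 1 + n * X := by
      rw [hg0]
      push_cast
      have := (Int.ceil_lt_add_one (-v)).le
      linarith
    have hXr : ∀ y ∈ S, ∀ i, |(y i : ℝ)| ≤ X := by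
      intro y hy i
      have := hX y hy i
      have h2 : ((|y i| : ℤ) : ℝ) ≤ ((X : ℕ) : ℤ) := by exact_mod_cast this
      rw [Int.cast_abs] at h2
      simpa using h2
    -- error of rounding
    have herr : ∀ (x : Fin n → ℝ) (M : ℝ), (∀ i, |x i| ≤ M) → 0 ≤ M →
        |∑ i, (g i : ℝ) * x i - ∑ i, h i * x i| ≤ n * (M / 2) := by
      intro x M hxM hM
      rw [← Finset.sum_sub_distrib]
      refine (Finset.abs_sum_le_sum_abs _ _).trans ?_
      have e3 : ∀ i ∈ Finset.univ, |(g i : ℝ) * x i - h i * x i| ≤ M / 2 := by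
        intro i _
        rw [← sub_mul, abs_mul]
        have := mul_le_mul (hgi i) (hxM i) (abs_nonneg _) (by norm_num)
        linarith
      refine (Finset.sum_le_sum e3).trans ?_
      rw [Finset.sum_const, Finset.card_univ, Fintype.card_fin, nsmul_eq_mul]
    have hnX : (0 : ℝ) ≤ n * X := by positivity
    have hpos : ∀ y ∈ S, 0 ≤ g0 + ∑ i, g i * y i := by
      intro y hy
      have e1 := herr (fun i => (y i : ℝ)) X (hXr y hy) (by positivity)
      have e2 := (abs_le.1 e1).1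
      have e3 := hS y hy
      have e4 : (0 : ℝ) ≤ g0 + ∑ i, (g i : ℝ) * y i := by nlinarith
      exact_mod_cast e4
    have hv : |v| ≤ n * (n * cf * q) * X + q := by
      have e1 : v = ∑ i, h i * z0 i - q := by linarith
      rw [e1]
      refine (abs_sub _ _).trans ?_
      rw [abs_of_pos hqpos]
      refine add_le_add_left ?_ _
      refine (Finset.abs_sum_le_sum_abs _ _).trans ?_
      have e3 : ∀ i ∈ Finset.univ, |h i * (z0 i : ℝ)| ≤ (n * cf * q) * X := by
        intro i _
        rw [abs_mul]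
        exact mul_le_mul (hhk i) (hXr z0 hz0 i) (abs_nonneg _) (by positivity)
      refine (Finset.sum_le_sum e3).trans ?_
      rw [Finset.sum_const, Finset.card_univ, Fintype.card_fin, nsmul_eq_mul]
      exact le_of_eq (by ring)
    have hRr : ((n : ℝ) * (n * cf * q) * X + q + 1 + n * X) + (n * cf * q + 1) ≤ R := by
      have : ((((n * (n * cf * q) * X + q + 1 + n * X) + (n * cf * q + 1) : ℕ)) : ℝ) ≤ R := by
        exact_mod_cast hRb
      push_cast at this
      linarith
    have hncf : (0 : ℝ) ≤ n * cf * q := by positivity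
    have hbig : (0 : ℝ) ≤ n * (n * cf * q) * X := by positivity
    have hgR : ∀ i, |g i| ≤ (R : ℤ) := by
      intro i
      have e1 : |(g i : ℝ)| ≤ n * cf * q + 1 := by
        have e2 : (g i : ℝ) = h i + (g i - h i) := by ring
        rw [e2]
        refine (abs_add_le _ _).trans ?_
        have := hhk i
        have := hgi i
        linarith
      have e2 : |(g i : ℝ)| ≤ R := by linarith
      have e3 : ((|g i| : ℤ) : ℝ) ≤ ((R : ℤ) : ℝ) := by rw [Int.cast_abs]; simpa using e2
      exact_mod_cast e3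
    have hg0R : |g0| ≤ (R : ℤ) := by
      have h1 := abs_le.1 hv
      have e2 : |(g0 : ℝ)| ≤ R := by
        rw [abs_le]
        constructor <;> linarith [h1.1, h1.2]
      have e3 : ((|g0| : ℤ) : ℝ) ≤ ((R : ℤ) : ℝ) := by rw [Int.cast_abs]; simpa using e2
      exact_mod_cast e3
    have hfin := hK g0 g hg0R hgR hpos
    have hfinr : (0 : ℝ) ≤ g0 * ((N : ℝ) - C1) + ∑ i, (g i : ℝ) * ((Y i : ℝ) - C1 * z0 i) := by
      exact_mod_cast hfin
    have hYr : ∀ i, |(Y i : ℝ) - C1 * z0 i| ≤ F + C1 * X := by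
      intro i
      have h1 : |(Y i : ℝ)| ≤ F := by
        have := hYF i
        have h2 : ((|Y i| : ℤ) : ℝ) ≤ ((F : ℕ) : ℤ) := by exact_mod_cast this
        rw [Int.cast_abs] at h2
        simpa using h2
      refine (abs_sub _ _).trans ?_
      rw [abs_mul, abs_of_nonneg (by positivity : (0 : ℝ) ≤ C1)]
      have := mul_le_mul_of_nonneg_left (hXr z0 hz0 i) (by positivity : (0 : ℝ) ≤ C1)
      linarith
    have e1 := (abs_le.1 (herr (fun i => (Y i : ℝ) - C1 * z0 i) (F + C1 * X) hYr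
      (by positivity))).2
    have e2 : ∑ i, h i * ((Y i : ℝ) - C1 * z0 i) =
        Dr * (∑ i, h i * w i) - ∑ i, h i * z0 i := by
      rw [Finset.mul_sum, ← Finset.sum_sub_distrib]
      refine Finset.sum_congr rfl fun i _ => ?_
      have := hwi i
      linear_combination (-h i) * this
    have e3 : ∑ i, h i * w i < v := by
      rw [← hf w]
      exact mul_lt_mul_of_pos_left hfw hσpos
    have e4 : Dr * (∑ i, h i * w i) < Dr * v := mul_lt_mul_of_pos_left e3 hDpos
    have hNF : (N : ℝ) - C1 ≤ F := by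
      have h1 : N ≤ F := (abs_le.1 hN).2
      have h2 : (N : ℝ) ≤ F := by exact_mod_cast h1
      have : (0 : ℝ) ≤ C1 := by positivity
      linarith
    have hNC0 : (0 : ℝ) ≤ (N : ℝ) - C1 := by linarith
    have e5 : (g0 : ℝ) * ((N : ℝ) - C1) ≤ (-v + 1 + n * X) * ((N : ℝ) - C1) :=
      mul_le_mul_of_nonneg_right hg0u hNC0
    have e6 : (1 + (n : ℝ) * X) * ((N : ℝ) - C1) ≤ (1 + n * X) * F :=
      mul_le_mul_of_nonneg_left hNF (by positivity)
    have hqr : (q : ℝ) = (1 + n * X) * F + n * (F + C1 * X) + 1 := by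
      rw [hq]; push_cast; ring
    have e7 : (0 : ℝ) ≤ n * (F + C1 * X) := by positivity
    have e8 : Dr * v = v * ((N : ℝ) - C1) + v := by rw [hDr]; ring
    have e9 : (-v + 1 + n * X) * ((N : ℝ) - C1) =
      -(v * ((N : ℝ) - C1)) + (1 + n * X) * ((N : ℝ) - C1) := by ring
    linarith

end Run7.h960
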