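import Mathlib

set_option autoImplicit false

/-!
# Fat types decompose: Caratheodory and rounding
-/

namespace Run7.h960

/-- integer vectors as real vectors -/
def rc {n : ℕ} (x : Fin n → ℤ) (i : Fin n) : ℝ := (x i : ℝ)

/-- A cross-polytope around `z₀` lies in the convex hull. -/
theorem fat_ball {n : ℕ} (S : Set (Fin n → ℤ)) (b : Fin n → Fin n → ℤ)
    (m : Fin n → ℤ) (z0 : Fin n → ℤ) (hz0 : z0 ∈ S)
    (hz : ∀ i, z0 + m i • b i ∈ S ∧ z0 - m i • b i ∈ S) (hm : ∀ i, 0 < m i)
    (ε : Fin n → ℝ) (hε : ∑ i, |ε i| / m i ≤ 1) (x : Fin n → ℝ)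
    (hx : ∀ j, x j = z0 j + ∑ i, ε i * b i j) : x ∈ convexHull ℝ (rc '' S) := by
  classical
  have h := (convex_convexHull ℝ (rc '' S)).sum_mem (t := (Finset.univ : Finset (Option (Fin n))))
    (w := fun o => match o with | none => 1 - ∑ i, |ε i| / m i | some i => |ε i| / m i)
    (z := fun o => match o with
      | none => rc z0
      | some i => if 0 ≤ ε i then rc (z0 + m i • b i) else rc (z0 - m i • b i)) ?_ ?_ ?_
  · convert h using 1
    funext j
    rw [Fintype.sum_option, hx j]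
    simp only [Pi.add_apply, Pi.smul_apply, Finset.sum_apply, smul_eq_mul]
    have e : ∀ i, |ε i| / m i * ((if 0 ≤ ε i then rc (z0 + m i • b i) else
        rc (z0 - m i • b i)) j) = |ε i| / m i * z0 j + ε i * b i j := by
      intro i
      have hmi : (m i : ℝ) ≠ 0 := by have := hm i; positivity
      split_ifs with h0
      · rw [abs_of_nonneg h0]
        simp only [rc, Pi.add_apply, Pi.smul_apply, smul_eq_mul, Int.cast_add, Int.cast_mul]
        field_simp
      · rw [abs_of_neg (not_le.1 h0)]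
        simp only [rc, Pi.sub_apply, Pi.smul_apply, smul_eq_mul, Int.cast_sub, Int.cast_mul]
        field_simp
        ring
    rw [Finset.sum_congr rfl fun i _ => e i, Finset.sum_add_distrib, ← Finset.sum_mul]
    simp only [rc]
    ring
  · intro o _
    cases o with
    | none => simp only; linarith
    | some i =>
      simp only
      have hmi : (0 : ℝ) < m i := by exact_mod_cast hm i
      positivity
  · rw [Fintype.sum_option]
    simp
  · intro o _
    cases o with
    | none => exact subset_convexHull ℝ _ ⟨z0, hz0, rfl⟩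
    | some i =>
      simp only
      split_ifs
      · exact subset_convexHull ℝ _ ⟨_, (hz i).1, rfl⟩
      · exact subset_convexHull ℝ _ ⟨_, (hz i).2, rfl⟩

/-- Concatenation of finitely many lists. -/
theorem exists_concat {ι V : Type*} [AddCommMonoid V] (s : Finset ι) (P : ι → List V) :
    ∃ L : List V, (∀ y ∈ L, ∃ k ∈ s, y ∈ P k) ∧ L.length = ∑ k ∈ s, (P k).length ∧
      L.sum = ∑ k ∈ s, (P k).sum := by
  classical
  induction s using Finset.induction_on with
  | empty => exact ⟨[], by simp, by simp, by simp⟩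
  | insert a s ha ih =>
    obtain ⟨L, h1, h2, h3⟩ := ih
    refine ⟨P a ++ L, ?_, ?_, ?_⟩
    · intro y hy
      rcases List.mem_append.1 hy with hy | hy
      · exact ⟨a, by simp, hy⟩
      · obtain ⟨k, hk, hy⟩ := h1 y hy
        exact ⟨k, by simp [hk], hy⟩
    · rw [List.length_append, h2, Finset.sum_insert ha]
    · rw [List.sum_append, h3, Finset.sum_insert ha]

theorem lemmaA_proof {n : ℕ} (S : Set (Fin n → ℤ))
    (hconv : ∀ x : Fin n → ℤ, rc x ∈ convexHull ℝ (rc '' S) → x ∈ S)
    (b : Fin n → Fin n → ℤ) (hb : ∀ v : Fin n → ℤ, ∃ c : Fin n → ℤ, v = ∑ i, c i • b i)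
    (m : Fin n → ℤ) (hm : ∀ i, (n : ℤ) * (n + 1) ≤ m i) (z0 : Fin n → ℤ) (hz0 : z0 ∈ S)
    (hz : ∀ i, z0 + m i • b i ∈ S ∧ z0 - m i • b i ∈ S)
    (C N : ℕ) (hC : 2 * n + 3 ≤ C) (hN : C ≤ N) (Y : Fin n → ℤ)
    (hY : ∃ w ∈ convexHull ℝ (rc '' S), ∀ i, (Y i : ℝ) - C * z0 i = ((N : ℝ) - C) * w i) :
    ∃ L : List (Fin n → ℤ), (∀ y ∈ L, y ∈ S) ∧ L.length = N ∧ L.sum = Y := by
  classical
  obtain ⟨w, hw, hYw⟩ := hY
  obtain ⟨ι, _, z, μ, hzS, haff, hμ, hμ1, hμw⟩ := eq_pos_convex_span_of_mem_convexHull hw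
  have hcard : Fintype.card ι ≤ n + 1 := by
    refine haff.card_le_finrank_succ.trans ?_
    refine Nat.add_le_add_right ((Submodule.finrank_le _).trans ?_) 1
    simp
  have hz' : ∀ k, ∃ v ∈ S, rc v = z k := fun k => hzS ⟨k, rfl⟩
  choose v hvS hvz using hz'
  have hmpos : ∀ i, 0 < m i := by
    intro i
    have h1 := hm i
    have h2 : 1 ≤ (n : ℤ) := by have := i.2; omega
    nlinarith
  -- the multiplicities
  have hNC : (0 : ℝ) ≤ (N : ℝ) - C := by
    have : (C : ℝ) ≤ N := by exact_mod_cast hN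
    linarith
  let lam : ι → ℝ := fun k => ((N : ℝ) - C) * μ k
  have hlam : ∀ k, 0 ≤ lam k := fun k => mul_nonneg hNC (hμ k).le
  let f : ι → ℕ := fun k => ⌊lam k⌋₊
  let r : ι → ℝ := fun k => lam k - f k
  have hr0 : ∀ k, 0 ≤ r k := fun k => sub_nonneg.2 (Nat.floor_le (hlam k))
  have hr1 : ∀ k, r k < 1 := fun k => by
    have := Nat.lt_floor_add_one (lam k)
    simp only [r]
    linarith
  have hlamsum : ∑ k, lam k = (N : ℝ) - C := by
    simp only [lam]
    rw [← Finset.mul_sum, hμ1, mul_one]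
  have hfsum : ∑ k, f k ≤ N - C := by
    have h1 : ((∑ k, f k : ℕ) : ℝ) ≤ (N : ℝ) - C := by
      push_cast
      rw [← hlamsum]
      exact Finset.sum_le_sum fun k _ => Nat.floor_le (hlam k)
    have h2 : ((∑ k, f k : ℕ) : ℝ) ≤ ((N - C : ℕ) : ℝ) := by
      rw [Nat.cast_sub hN]; exact h1
    exact_mod_cast h2
  obtain ⟨R, hR⟩ : ∃ R : ℕ, ∑ k, f k + R = N - C := ⟨N - C - ∑ k, f k, by omega⟩
  have hRr : (∑ k, (f k : ℝ)) + R = (N : ℝ) - C := by
    have : ((∑ k, f k + R : ℕ) : ℝ) = ((N - C : ℕ) : ℝ) := by rw [hR]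
    rw [Nat.cast_sub hN] at this
    push_cast at this
    exact this
  have hrsum : ∑ k, r k = R := by
    simp only [r]
    rw [Finset.sum_sub_distrib, hlamsum]
    linarith
  -- coordinates
  choose c hc using fun k => hb (v k - z0)
  have hcr : ∀ k j, (v k j : ℝ) - z0 j = ∑ i, (c k i : ℝ) * b i j := by
    intro k j
    have := congrFun (hc k) j
    rw [Finset.sum_apply] at this
    simp only [Pi.sub_apply, Pi.smul_apply, smul_eq_mul] at this
    have h2 : ((v k j - z0 j : ℤ) : ℝ) = ((∑ i, c k i * b i j : ℤ) : ℝ) := by rw [this]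
    push_cast at h2
    exact h2
  let rd : ι → Fin n → ℤ := fun k i => round (r k / 2 * c k i)
  have hrd : ∀ k i, |(rd k i : ℝ) - r k / 2 * c k i| ≤ 1 / 2 := by
    intro k i
    rw [abs_sub_comm]
    exact abs_sub_round _
  let u : ι → Fin n → ℤ := fun k => z0 + ∑ i, rd k i • b i
  have hur : ∀ k j, (u k j : ℝ) = z0 j + ∑ i, (rd k i : ℝ) * b i j := by
    intro k j
    simp only [u, Pi.add_apply, Finset.sum_apply, Pi.smul_apply, smul_eq_mul]
    push_cast
    ring
  have hmr : ∀ i, ((n : ℝ)) * (n + 1) ≤ m i := by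
    intro i
    have := hm i
    exact_mod_cast this
  have hmr0 : ∀ i, (0 : ℝ) < m i := fun i => by exact_mod_cast hmpos i
  have hball : ∀ (ε : Fin n → ℝ) (M : ℝ), (∀ i, |ε i| ≤ M) → M ≤ n + 1 →
      ∑ i, |ε i| / m i ≤ 1 := by
    intro ε M h1 h2
    have h3 : ∀ i ∈ Finset.univ, |ε i| / m i ≤ 1 / n := by
      intro i _
      have hn : (0 : ℝ) < n := by
        have : 0 < n := by have := i.2; omega
        exact_mod_cast this
      rw [div_le_div_iff₀ (hmr0 i) hn]
      have h4 := h1 i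
      have h5 := hmr i
      nlinarith [abs_nonneg (ε i)]
    refine (Finset.sum_le_sum h3).trans ?_
    rw [Finset.sum_const, Finset.card_univ, Fintype.card_fin, nsmul_eq_mul]
    rcases Nat.eq_zero_or_pos n with h0 | h0
    · rw [h0]; simp
    · have : (n : ℝ) ≠ 0 := by positivity
      rw [mul_one_div_cancel this]
  have huS : ∀ k, u k ∈ S := by
    intro k
    apply hconv
    have hρ : 0 < 1 - r k / 2 := by have := hr1 k; linarith
    set ε : Fin n → ℝ := fun i => ((rd k i : ℝ) - r k / 2 * c k i) / (1 - r k / 2) with hε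
    have hε1 : ∀ i, |ε i| ≤ 1 := by
      intro i
      rw [hε]
      simp only
      rw [abs_div, abs_of_pos hρ, div_le_one hρ]
      have h1 := hrd k i
      have h2 := hr1 k
      linarith
    have hmem := fat_ball S b m z0 hz0 hz hmpos ε
      (hball ε 1 hε1 (by have : (0 : ℝ) ≤ n := Nat.cast_nonneg n; linarith))
      (fun j => z0 j + ∑ i, ε i * b i j) (fun j => rfl)
    have hmem2 : rc (v k) ∈ convexHull ℝ (rc '' S) := subset_convexHull ℝ _ ⟨v k, hvS k, rfl⟩
    have h3 := (convex_convexHull ℝ (rc '' S)) hmem2 hmem (a := r k / 2) (b := 1 - r k / 2)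
      (by have := hr0 k; linarith) hρ.le (by ring)
    convert h3 using 1
    funext j
    simp only [rc, Pi.add_apply, Pi.smul_apply, smul_eq_mul]
    rw [hur k j]
    have h4 : (1 - r k / 2) * ∑ i, ε i * (b i j : ℝ) =
        ∑ i, (rd k i : ℝ) * b i j - r k / 2 * ∑ i, (c k i : ℝ) * b i j := by
      rw [Finset.mul_sum, Finset.mul_sum, ← Finset.sum_sub_distrib]
      refine Finset.sum_congr rfl fun i _ => ?_
      rw [hε]
      simp only
      rw [← mul_assoc, mul_div_cancel₀ _ hρ.ne']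
      ring
    rw [mul_add, h4, ← hcr k j]
    ring
  -- the correction vector
  have hYr : ∀ j, (Y j : ℝ) = C * z0 j + ∑ k, (f k : ℝ) * v k j + ∑ k, r k * v k j := by
    intro j
    have h1 := hYw j
    have h2 : w j = ∑ k, μ k * v k j := by
      rw [← hμw, Finset.sum_apply]
      refine Finset.sum_congr rfl fun k _ => ?_
      rw [← hvz k]
      rfl
    rw [h2, Finset.mul_sum] at h1
    rw [add_assoc, ← Finset.sum_add_distrib]
    have h3 : ∑ k, ((f k : ℝ) * v k j + r k * v k j) = ∑ k, ((N : ℝ) - C) * (μ k * v k j) := by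
      refine Finset.sum_congr rfl fun k _ => ?_
      simp only [r, lam]
      ring
    rw [h3]
    linarith
  set p := Fintype.card ι with hp
  obtain ⟨q, hq⟩ : ∃ q, C + R = 2 * p + 1 + q := ⟨C + R - (2 * p + 1), by omega⟩
  let last : Fin n → ℤ := fun j => Y j - 2 * ∑ k, u k j - ∑ k, (f k : ℤ) * v k j - q * z0 j
  have hqr : (q : ℝ) = C + R - 2 * p - 1 := by
    have : ((C + R : ℕ) : ℝ) = ((2 * p + 1 + q : ℕ) : ℝ) := by rw [hq]
    push_cast at this
    linarith
  have hlast : last ∈ S := by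
    apply hconv
    refine fat_ball S b m z0 hz0 hz hmpos (fun i => ∑ k, (r k * c k i - 2 * rd k i))
      (hball _ p ?_ ?_) _ ?_
    · intro i
      refine (Finset.abs_sum_le_sum_abs _ _).trans ?_
      have h1 : ∀ k ∈ Finset.univ, |r k * (c k i : ℝ) - 2 * (rd k i : ℝ)| ≤ 1 := by
        intro k _
        have h2 := hrd k i
        have h3 : r k * (c k i : ℝ) - 2 * (rd k i : ℝ) =
          (-2) * ((rd k i : ℝ) - r k / 2 * c k i) := by ring
        rw [h3, abs_mul]
        norm_num
        linarith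
      refine (Finset.sum_le_sum h1).trans ?_
      rw [Finset.sum_const, Finset.card_univ, nsmul_eq_mul, mul_one]
    · exact_mod_cast hcard
    · intro j
      simp only [rc, last]
      push_cast
      rw [hYr j, hqr]
      have h1 : ∑ k, (u k j : ℝ) = p * z0 j + ∑ k, ∑ i, (rd k i : ℝ) * b i j := by
        rw [Finset.sum_congr rfl fun k _ => hur k j, Finset.sum_add_distrib, Finset.sum_const,
          Finset.card_univ, nsmul_eq_mul]
      have h2 : ∑ k, r k * (v k j : ℝ) = R * z0 j + ∑ k, ∑ i, r k * (c k i : ℝ) * b i j := by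
        rw [← hrsum, Finset.sum_mul, ← Finset.sum_add_distrib]
        refine Finset.sum_congr rfl fun k _ => ?_
        have h3 := hcr k j
        have h4 : ∑ i, r k * (c k i : ℝ) * b i j = r k * ∑ i, (c k i : ℝ) * b i j := by
          rw [Finset.mul_sum]
          exact Finset.sum_congr rfl fun i _ => by ring
        rw [h4, ← h3]
        ring
      have h3 : ∑ i, (∑ k, (r k * (c k i : ℝ) - 2 * (rd k i : ℝ))) * (b i j : ℝ) =
          (∑ k, ∑ i, r k * (c k i : ℝ) * b i j) - 2 * ∑ k, ∑ i, (rd k i : ℝ) * b i j := by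
        simp only [Finset.sum_mul]
        rw [Finset.sum_comm, Finset.mul_sum, ← Finset.sum_sub_distrib]
        refine Finset.sum_congr rfl fun k _ => ?_
        rw [Finset.mul_sum, ← Finset.sum_sub_distrib]
        exact Finset.sum_congr rfl fun i _ => by ring
      rw [h1, h2, h3]
      ring
  obtain ⟨L0, hL1, hL2, hL3⟩ := exists_concat (Finset.univ : Finset ι)
    (fun k => List.replicate (f k) (v k) ++ [u k, u k])
  refine ⟨L0 ++ last :: List.replicate q z0, ?_, ?_, ?_⟩
  · intro y hy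
    rcases List.mem_append.1 hy with hy | hy
    · obtain ⟨k, _, hy⟩ := hL1 y hy
      rcases List.mem_append.1 hy with hy | hy
      · rw [List.eq_of_mem_replicate hy]; exact hvS k
      · simp only [List.mem_cons, List.not_mem_nil, or_false, or_self] at hy
        rw [hy]; exact huS k
    · rcases List.mem_cons.1 hy with hy | hy
      · rw [hy]; exact hlast
      · rw [List.eq_of_mem_replicate hy]; exact hz0
  · rw [List.length_append, hL2, List.length_cons, List.length_replicate]
    simp only [List.length_append, List.length_replicate, List.length_cons, List.length_nil]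
    rw [Finset.sum_add_distrib, Finset.sum_const, Finset.card_univ, smul_eq_mul]
    omega
  · rw [List.sum_append, hL3, List.sum_cons, List.sum_replicate]
    funext j
    simp only [List.sum_append, List.sum_replicate, List.sum_cons, List.sum_nil, Pi.add_apply,
      Finset.sum_apply, last, Pi.smul_apply, Pi.zero_apply, add_zero, Finset.sum_add_distrib]
    simp only [nsmul_eq_mul]
    ring

/-- Lemma A: `S` is the set of integral points of its convex hull, `z₀ ± mᵢ bᵢ ∈ S` for a basis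
`(bᵢ)` of the lattice, `Y - C z₀` is in `(N - C) conv S`; then `Y` is a sum of `N` elements
of `S`. -/
theorem lemmaA {n : ℕ} (S : Set (Fin n → ℤ))
    (hconv : ∀ x : Fin n → ℤ, (fun i => (x i : ℝ)) ∈
      convexHull ℝ ((fun (x : Fin n → ℤ) (i : Fin n) => (x i : ℝ)) '' S) → x ∈ S)
    (b : Fin n → Fin n → ℤ) (hb : ∀ v : Fin n → ℤ, ∃ c : Fin n → ℤ, v = ∑ i, c i • b i)
    (m : Fin n → ℤ) (hm : ∀ i, (n : ℤ) * (n + 1) ≤ m i) (z0 : Fin n → ℤ) (hz0 : z0 ∈ S)
    (hz : ∀ i, z0 + m i • b i ∈ S ∧ z0 - m i • b i ∈ S)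
    (C N : ℕ) (hC : 2 * n + 3 ≤ C) (hN : C ≤ N) (Y : Fin n → ℤ)
    (hY : ∃ w ∈ convexHull ℝ ((fun (x : Fin n → ℤ) (i : Fin n) => (x i : ℝ)) '' S),
      ∀ i, (Y i : ℝ) - C * z0 i = ((N : ℝ) - C) * w i) :
    ∃ L : List (Fin n → ℤ), (∀ y ∈ L, y ∈ S) ∧ L.length = N ∧ L.sum = Y :=
  lemmaA_proof S hconv b hb m hm z0 hz0 hz C N hC hN Y hY

end Run7.h960
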