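import Pool.Agent.Run7.h960.NodeF

set_option autoImplicit false

/-!
# Blocks and sums of points
-/

namespace Run7.h960

open Pool.Agent.NPC
open Pool.Agent.H687R2.LLL (dot nrm lllStep cnt fsts gsr)

variable {P d B R R1 H : ℕ} {rows : Rows} {a F : Vec} {N : Node}

theorem toFn_ofFn {n : ℕ} (x : Fin n → ℤ) : toFn n (List.ofFn x) = x := by
  funext i
  unfold toFn
  rw [List.getD_eq_getElem _ _ (by simp)]
  simp

theorem ofFn_toFn {n : ℕ} {v : Vec} (h : v.length = n) : List.ofFn (toFn n v) = v := by
  refine vec_ext (by simp [h]) fun i hi => ?_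
  have hi' : i < n := by simpa using hi
  rw [List.getD_eq_getElem _ _ hi, List.getElem_ofFn]
  rfl

theorem toFn_inj {n : ℕ} {u v : Vec} (hu : u.length = n) (hv : v.length = n)
    (h : toFn n u = toFn n v) : u = v := by
  rw [← ofFn_toFn hu, ← ofFn_toFn hv, h]

/-- the point `z` of a point `y` of a type, as a function -/
def zfn (d : ℕ) (t : Box) (y : Vec) : Fin d → ℤ := toFn d (lin t.1 (bvs t) y)

theorem zfn_apply {t : Box} (hwf : WF d t) (y : Vec) (k : Fin d) :
    zfn d t y k = t.1.getD k 0 + dot y ((bvs t).map fun v => v.getD k 0) := by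
  unfold zfn toFn
  rw [getD_lin (by rw [hwf.1]; exact k.2)]

theorem zfn_mem {t : Box} {y : Vec} (hy : y ∈ Sh rows t) : zfn d t y ∈ toFn d '' Zt rows t :=
  ⟨_, ⟨y, hy, rfl⟩, rfl⟩

/-- `X` is the block of the list `L` of points. -/
def IsBlk (t : Box) (X : Vec) (L : List Vec) : Prop :=
  X.length = t.2.length + 1 ∧ (L.length : ℤ) = X.headD 0 ∧
    ∀ k < t.2.length, X.getD (k + 1) 0 = (L.map fun y => y.getD k 0).sum

theorem getD_tail (X : Vec) (k : ℕ) : X.tail.getD k 0 = X.getD (k + 1) 0 := by
  cases X with
  | nil => simp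
  | cons x X => rw [List.tail_cons, List.getD_cons_succ]

theorem dot_cons_right {X : Vec} (c : ℤ) (cs : Vec) (hX : X ≠ []) :
    dot X (c :: cs) = X.headD 0 * c + dot X.tail cs := by
  cases X with
  | nil => exact absurd rfl hX
  | cons x X => simp

/-- The value of a linear functional on a block. -/
theorem isBlk_dot {t : Box} {X : Vec} {L : List Vec} (h : IsBlk t X L) (c : ℤ) (cs : Vec)
    (hcs : cs.length ≤ t.2.length) :
    dot X (c :: cs) = (L.map fun y => c + dot y cs).sum := by
  obtain ⟨h1, h2, h3⟩ := h
  have hX : X ≠ [] := by rintro rfl; simp at h1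
  rw [dot_cons_right c cs hX, ← h2, dot_eq_sum (N := t.2.length) (Or.inr hcs)]
  have h4 : ∑ i ∈ Finset.range t.2.length, X.tail.getD i 0 * cs.getD i 0 =
      ∑ i ∈ Finset.range t.2.length, (L.map fun y => y.getD i 0 * cs.getD i 0).sum := by
    refine Finset.sum_congr rfl fun i hi => ?_
    rw [getD_tail, h3 i (Finset.mem_range.1 hi), ← List.sum_map_mul_right]
  rw [h4]
  clear h4 h3 h2
  induction L with
  | nil => simp
  | cons y L ih =>
    simp only [List.map_cons, List.sum_cons, List.length_cons, Finset.sum_add_distrib]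
    rw [← ih, dot_eq_sum (u := y) (N := t.2.length) (Or.inr hcs)]
    push_cast
    ring

/-- The `k`-th coordinate of the contribution of a block. -/
theorem isBlk_val {t : Box} {X : Vec} {L : List Vec} (hwf : WF d t) (h : IsBlk t X L)
    (k : Fin d) : dot X (t.1.getD k 0 :: (bvs t).map fun v => v.getD k 0) =
      (L.map (zfn d t)).sum k := by
  rw [isBlk_dot h _ _ (by simp)]
  have : ∀ l : List Vec, (l.map (zfn d t)).sum k = (l.map fun y => zfn d t y k).sum := by
    intro l
    induction l with
    | nil => simp
    | cons y l ih => simp [ih]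
  rw [this]
  congr 1
  refine List.map_congr_left fun y _ => ?_
  rw [zfn_apply hwf]

/-- A list of types is the list of its entries. -/
theorem map_getD_range (bs : List Box) :
    (List.range bs.length).map (fun i => bs.getD i ([], [])) = bs := by
  apply List.ext_getElem
  · simp
  · intro i h1 h2
    simp only [List.getElem_map, List.getElem_range]
    rw [List.getD_eq_getElem _ _ h2]

theorem forall₂_range {β : Type*} (bs : List Box) (f : ℕ → β) (p : Box → β → Prop)
    (h : ∀ i < bs.length, p (bs.getD i ([], [])) (f i)) :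
    List.Forall₂ p bs ((List.range bs.length).map f) := by
  have h1 : List.Forall₂ p ((List.range bs.length).map fun i => bs.getD i ([], []))
      ((List.range bs.length).map f) := by
    rw [List.forall₂_map_left_iff, List.forall₂_map_right_iff, List.forall₂_same]
    exact fun i hi => h i (List.mem_range.1 hi)
  rwa [map_getD_range] at h1

theorem nblk_eq {i : ℕ} (hi : i < N.1.length) (F : Vec) :
    blk F (off (N.1 ++ N.2) i) ((N.1.getD i ([], [])).2.length + 1) = nblk N F i := by
  unfold nblk
  rw [getD_nbs_left hi]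
  rfl

/-- The outcome for a type with vectors. -/
theorem outc_eq {i : ℕ} (hi : i < N.1.length) (h0 : (N.1.getD i ([], [])).2 ≠ []) :
    outc P d B rows R1 N F i = sand P (d + 1) B (zorc P (d + 1) B rows (N.1.getD i ([], [])) R1
      (2 * d + 4) (nblk N F i)) (stdBox (bns (N.1.getD i ([], [])))) := by
  have he : (N.1.getD i ([], [])).2.isEmpty = false := by
    cases hh : (N.1.getD i ([], [])).2.isEmpty
    · rfl
    · exact absurd (List.isEmpty_iff.1 hh) h0
  rw [← nblk_eq hi]
  unfold outc
  simp only [he, cond_false]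

theorem outc_nil {i : ℕ} (h0 : (N.1.getD i ([], [])).2 = []) :
    outc P d B rows R1 N F i = (1, ([], [])) := by
  unfold outc
  simp only [h0, List.isEmpty_nil, cond_true]

end Run7.h960
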