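import Pool.Agent.Run7.h960.NodeB
import Pool.Agent.Run7.h960.ES

set_option autoImplicit false

/-!
# Completeness, part A: solutions as points of the feasible set
-/

namespace Run7.h960

open Pool.Agent.NPC
open Pool.Agent.H687R2.LLL (dot nrm lllStep cnt fsts gsr nrm_nil nrm_cons)

variable {P d B R R1 H : ℕ} {rows : Rows} {a F : Vec} {N : Node}

/-- the block of a list of points -/
def mkBlk (n : ℕ) (L : List Vec) : Vec :=
  (L.length : ℤ) :: (List.range n).map fun k => (L.map fun y => y.getD k 0).sum

theorem mkBlk_isBlk (t : Box) (L : List Vec) : IsBlk t (mkBlk t.2.length L) L := by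
  refine ⟨by simp [mkBlk], by simp [mkBlk], fun k hk => ?_⟩
  unfold mkBlk
  rw [List.getD_cons_succ, getD_map_range, if_pos hk]

/-- The value of a functional on a block. -/
theorem mkBlk_dot {n : ℕ} {g : Vec} (hg : g.length = n + 1) (L : List Vec) :
    dot g (mkBlk n L) = (L.map fun y => dot g (1 :: y)).sum := by
  cases g with
  | nil => simp at hg
  | cons c cs =>
    have hcs : cs.length = n := by simpa using hg
    rw [dot_comm]
    have h := isBlk_dot (t := (([] : Vec), List.replicate n (([] : Vec), 0)))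
      (X := mkBlk n L) (L := L) (by
        have := mkBlk_isBlk (([] : Vec), List.replicate n (([] : Vec), 0)) L
        simpa using this) c cs (by simp [hcs])
    rw [h]
    congr 1
    refine List.map_congr_left fun y _ => ?_
    rw [dot_cons, mul_one, dot_comm y]

/-- Replacing a list of points by one with small support. -/
theorem small_list {t : Box} (hwf : WF d t) (L : List Vec) (hL : ∀ y ∈ L, y ∈ Sh rows t) :
    ∃ L' : List Vec, (∀ y ∈ L', y ∈ Sh rows t) ∧ (L'.map (zfn d t)).sum = (L.map (zfn d t)).sum ∧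
      L'.toFinset.card ≤ 2 ^ t.2.length := by
  set n := t.2.length with hn
  obtain ⟨M, hM1, hM2, hM3, hM4⟩ := small_support (n := n) (toFn n '' Sh rows t)
    (by
      rintro _ ⟨x, hx, rfl⟩ _ ⟨y, hy, rfl⟩ z hz
      refine ⟨List.ofFn z, ⟨by simp [hn], fun r hr => ?_⟩, toFn_ofFn z⟩
      have h1 := hx.2 r hr
      have h2 := hy.2 r hr
      have hrl := yrows_len r hr
      have e : dot r.1 x + dot r.1 y = 2 * dot r.1 (List.ofFn z) := by
        rw [dot_eq_sum (N := n) (Or.inl hrl.le), dot_eq_sum (N := n) (Or.inl hrl.le),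
          dot_eq_sum (N := n) (Or.inl hrl.le), ← Finset.sum_add_distrib, Finset.mul_sum]
        refine Finset.sum_congr rfl fun i hi => ?_
        have h3 := congrFun hz ⟨i, Finset.mem_range.1 hi⟩
        have h4 := congrFun (toFn_ofFn z) ⟨i, Finset.mem_range.1 hi⟩
        simp only [Pi.add_apply, toFn] at h3 h4
        rw [h4, ← mul_add, h3]
        ring
      omega)
    (L.map (toFn n) : List (Fin n → ℤ)) (by
      intro y hy
      rw [Multiset.mem_coe, List.mem_map] at hy
      obtain ⟨x, hx, rfl⟩ := hy
      exact ⟨x, hL x hx, rfl⟩)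
  have hmem : ∀ x ∈ M.toList.map fun x => List.ofFn x, x ∈ Sh rows t := by
    intro x hx
    rw [List.mem_map] at hx
    obtain ⟨v, hv, rfl⟩ := hx
    obtain ⟨y, hy, rfl⟩ := hM1 v (Multiset.mem_toList.1 hv)
    rw [ofFn_toFn hy.1]
    exact hy
  refine ⟨M.toList.map fun x => List.ofFn x, hmem, ?_, ?_⟩
  · -- both lists have the same block
    have hblk : mkBlk n (M.toList.map fun x => List.ofFn x) = mkBlk n L := by
      unfold mkBlk
      have hlen : (M.toList.map fun x => List.ofFn x).length = L.length := by
        rw [List.length_map, Multiset.length_toList, hM2]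
        simp
      rw [hlen]
      congr 1
      refine List.map_congr_left fun k hk => ?_
      have hk' := List.mem_range.1 hk
      have h1 : ∀ l : List (Fin n → ℤ), ((l.map fun x => List.ofFn x).map
          fun y : Vec => y.getD k 0).sum = l.sum ⟨k, hk'⟩ := by
        intro l
        induction l with
        | nil => simp
        | cons x l ih =>
          simp only [List.map_cons, List.sum_cons, Pi.add_apply]
          rw [ih]
          congr 1
          exact congrFun (toFn_ofFn x) ⟨k, hk'⟩
      have h2 : ∀ l : List Vec, (l.map fun y => y.getD k 0).sum =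
          (l.map (toFn n)).sum ⟨k, hk'⟩ := by
        intro l
        induction l with
        | nil => simp
        | cons x l ih =>
          simp only [List.map_cons, List.sum_cons, Pi.add_apply]
          rw [ih]
          rfl
      rw [h1, h2]
      have h3 : M.toList.sum = (L.map (toFn n)).sum := by
        rw [← Multiset.sum_coe, Multiset.coe_toList, hM3, Multiset.sum_coe]
      rw [h3]
    funext k
    have b1 := mkBlk_isBlk t (M.toList.map fun x => List.ofFn x)
    have b2 := mkBlk_isBlk t L
    rw [← isBlk_val hwf b1 k, ← isBlk_val hwf b2 k, ← hn, hblk]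
  · have h1 : (M.toList.map fun x => List.ofFn x).toFinset ⊆
        M.toFinset.image fun x => List.ofFn x := by
      intro x hx
      rw [List.mem_toFinset, List.mem_map] at hx
      obtain ⟨v, hv, rfl⟩ := hx
      exact Finset.mem_image_of_mem _ (Multiset.mem_toFinset.2 (Multiset.mem_toList.1 hv))
    exact (Finset.card_le_card h1).trans (Finset.card_image_le.trans hM4)

/-- Elements of the monoid of a type come from lists with small support. -/
theorem exists_small {t : Box} (hwf : WF d t) {u : Fin d → ℤ}
    (hu : u ∈ AddSubmonoid.closure (toFn d '' Zt rows t)) :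
    ∃ L : List Vec, (∀ y ∈ L, y ∈ Sh rows t) ∧ (L.map (zfn d t)).sum = u ∧
      L.toFinset.card ≤ 2 ^ t.2.length := by
  obtain ⟨l, hl, rfl⟩ := AddSubmonoid.exists_list_of_mem_closure hu
  have h1 : ∀ l : List (Fin d → ℤ), (∀ y ∈ l, y ∈ toFn d '' Zt rows t) →
      ∃ L : List Vec, (∀ y ∈ L, y ∈ Sh rows t) ∧ (L.map (zfn d t)).sum = l.sum := by
    intro l
    induction l with
    | nil => intro _; exact ⟨[], by simp, by simp⟩
    | cons x l ih =>
      intro h
      obtain ⟨L, hL1, hL2⟩ := ih fun y hy => h y (by simp [hy])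
      obtain ⟨_, ⟨y, hy, rfl⟩, hx⟩ := h x (by simp)
      refine ⟨y :: L, ?_, ?_⟩
      · intro y' hy'
        rcases List.mem_cons.1 hy' with rfl | h'
        · exact hy
        · exact hL1 _ h'
      · rw [List.map_cons, List.sum_cons, List.sum_cons, hL2, ← hx]
        rfl
  obtain ⟨L, hL1, hL2⟩ := h1 l hl
  obtain ⟨L', h1, h2, h3⟩ := small_list hwf L hL1
  exact ⟨L', h1, by rw [h2, hL2], h3⟩

/-- All points of `Sh` give nonzero nonnegative vectors: this is the case for `allRows`. -/
def PosRows (d : ℕ) (rows : Rows) : Prop :=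
  (∀ k < d, ∃ r ∈ rows, r = (nneg (unitV d k), (0 : ℤ))) ∧ (List.replicate d (-1), (-1 : ℤ)) ∈ rows

theorem sh_row {t : Box} {y : Vec} (hwf : WF d t) (hy : y ∈ Sh rows t) {r : Vec × ℤ}
    (hr : r ∈ rows) (hlen : r.1.length = d) : dot r.1 (lin t.1 (bvs t) y) ≤ r.2 := by
  have h1 := hy.2 ((bvs t).map fun b => dot r.1 b, r.2 - dot r.1 t.1) (by
    unfold yrows
    exact List.mem_append_left _ (List.mem_map.2 ⟨r, hr, rfl⟩))
  rw [dot_lin (by rw [hlen, hwf.1]) (by intro v hv; rw [hwf.bvs_len v hv, hwf.1]),
    dot_comm y]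
  simp only at h1
  linarith

theorem zfn_nonneg {t : Box} {y : Vec} (hp : PosRows d rows) (hwf : WF d t)
    (hy : y ∈ Sh rows t) (k : Fin d) : 0 ≤ zfn d t y k := by
  obtain ⟨r, hr, rfl⟩ := hp.1 k k.2
  have h1 := sh_row hwf hy hr (by simp)
  simp only [dot_nneg, dot_unitV _ k.2] at h1
  change 0 ≤ (lin t.1 (bvs t) y).getD k 0
  omega

theorem zfn_sum {t : Box} {y : Vec} (hp : PosRows d rows) (hwf : WF d t)
    (hy : y ∈ Sh rows t) : 1 ≤ ∑ k, zfn d t y k := by
  have h1 := sh_row hwf hy hp.2 (by simp)
  simp only at h1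
  rw [dot_eq_sum (N := d) (Or.inl (by simp)), Finset.sum_range] at h1
  have h2 : ∀ k : Fin d, (List.replicate d (-1 : ℤ)).getD k 0 *
      (lin t.1 (bvs t) y).getD k 0 = -(zfn d t y k) := by
    intro k
    rw [List.getD_eq_getElem (List.replicate d (-1 : ℤ)) _ (by simp), List.getElem_replicate]
    simp only [zfn, toFn]
    ring
  rw [Finset.sum_congr rfl fun k _ => h2 k, Finset.sum_neg_distrib] at h1
  omega

theorem list_zfn_nonneg {t : Box} (hp : PosRows d rows) (hwf : WF d t) :
    ∀ L : List Vec, (∀ y ∈ L, y ∈ Sh rows t) → (∀ k, 0 ≤ (L.map (zfn d t)).sum k) ∧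
      (L.length : ℤ) ≤ ∑ k, (L.map (zfn d t)).sum k := by
  intro L
  induction L with
  | nil => intro _; simp
  | cons y L ih =>
    intro h
    obtain ⟨h1, h2⟩ := ih fun y' hy' => h y' (by simp [hy'])
    have h3 := zfn_nonneg hp hwf (h y (by simp))
    have h4 := zfn_sum hp hwf (h y (by simp))
    simp only [List.map_cons, List.sum_cons, Pi.add_apply, List.length_cons,
      Finset.sum_add_distrib]
    refine ⟨fun k => add_nonneg (h3 k) (h1 k), ?_⟩
    push_cast
    omega

/-- Entries of a block. -/
theorem mkBlk_bound {t : Box} {L : List Vec} (hL : ∀ y ∈ L, y ∈ Sh rows t) {A : ℕ}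
    (hA : L.length ≤ A) (hR : (A + 1) * (1 + (bns t).sum) ≤ R) :
    ∀ x ∈ mkBlk t.2.length L, x.natAbs ≤ R := by
  intro x hx
  unfold mkBlk at hx
  rw [List.mem_cons, List.mem_map] at hx
  rcases hx with rfl | ⟨k, hk, rfl⟩
  · rw [Int.natAbs_natCast]
    nlinarith [Nat.zero_le ((bns t).sum)]
  · have hk' := List.mem_range.1 hk
    have h1 : ∀ y ∈ L, (y.getD k 0).natAbs ≤ (bns t).sum := by
      intro y hy
      have h2 := mem_boxRows (fun r hr => (hL y hy).2 r (List.mem_append_right _ hr)) k
        (by rw [length_bns]; exact hk')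
      refine h2.trans ?_
      rw [List.getD_eq_getElem _ _ (by rw [length_bns]; exact hk')]
      exact List.single_le_sum (by simp) _ (List.getElem_mem _)
    have h2 : ∀ l : List Vec, (∀ y ∈ l, (y.getD k 0).natAbs ≤ (bns t).sum) →
        ((l.map fun y : Vec => y.getD k 0).sum : ℤ).natAbs ≤ l.length * (bns t).sum := by
      intro l
      induction l with
      | nil => intro _; simp
      | cons y l ih =>
        intro h
        have e1 := ih fun y' hy' => h y' (by simp [hy'])
        have e2 := h y (by simp)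
        rw [List.map_cons, List.sum_cons, List.length_cons, Nat.succ_mul]
        exact (Int.natAbs_add_le _ _).trans (by omega)
    refine (h2 L h1).trans ?_
    refine le_trans (Nat.mul_le_mul_right _ hA) ?_
    nlinarith [Nat.zero_le ((bns t).sum)]

end Run7.h960
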