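import Pool.Agent.Run7.h960.Orc

set_option autoImplicit false

/-!
# The feasible set of a node
-/

namespace Run7.h960

open Pool.Agent.NPC
open Pool.Agent.H687R2.LLL (dot nrm lllStep cnt fsts gsr)

variable {P d B R R1 H : ℕ} {rows : Rows} {a F : Vec} {N : Node}

/-! ### offsets and blocks -/

theorem off_succ (bs : List Box) (i : ℕ) :
    off bs (i + 1) = off bs i + ((bs.getD i ([], [])).2.length + 1) := by
  simp only [off, List.range_succ, List.map_append, List.sum_append, List.map_cons, List.map_nil,
    List.sum_cons, List.sum_nil, add_zero]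

theorem off_zero (bs : List Box) : off bs 0 = 0 := rfl

theorem off_mono (bs : List Box) : Monotone (off bs) :=
  monotone_nat_of_le_succ fun i => by rw [off_succ]; omega

theorem off_add_lt {bs : List Box} {i j m : ℕ} (hi : i < m)
    (hj : j < (bs.getD i ([], [])).2.length + 1) : off bs i + j < off bs m := by
  have h1 : off bs (i + 1) ≤ off bs m := off_mono bs hi
  rw [off_succ] at h1
  omega

theorem sum_off (bs : List Box) (f : ℕ → ℤ) (m : ℕ) :
    ∑ x ∈ Finset.range (off bs m), f x = ∑ i ∈ Finset.range m,
      ∑ j ∈ Finset.range ((bs.getD i ([], [])).2.length + 1), f (off bs i + j) := by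
  induction m with
  | zero => simp [off_zero]
  | succ m ih => rw [off_succ, Finset.sum_range_add, ih, Finset.sum_range_succ (n := m)]

@[simp] theorem length_blk (F : Vec) (o m : ℕ) : (blk F o m).length = m := by simp [blk]

theorem getD_blk {F : Vec} {o m i : ℕ} (hi : i < m) : (blk F o m).getD i 0 = F.getD (o + i) 0 := by
  rw [blk, getD_map_range, if_pos hi]

@[simp] theorem length_nblk (N : Node) (F : Vec) (i : ℕ) :
    (nblk N F i).length = ((nbs N).getD i ([], [])).2.length + 1 := by simp [nblk]

/-- Concatenation of blocks. -/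
theorem cat_blocks (bs : List Box) (X : ℕ → Vec) (m : ℕ)
    (hX : ∀ i < m, (X i).length = (bs.getD i ([], [])).2.length + 1) :
    ((List.range m).flatMap X).length = off bs m ∧
    ∀ i < m, ∀ j < (bs.getD i ([], [])).2.length + 1,
      ((List.range m).flatMap X).getD (off bs i + j) 0 = (X i).getD j 0 := by
  induction m with
  | zero => exact ⟨by simp [off_zero], fun i hi => absurd hi (by omega)⟩
  | succ m ih =>
    obtain ⟨h1, h2⟩ := ih fun i hi => hX i (by omega)
    have h3 := hX m (by omega)
    rw [List.range_succ, List.flatMap_append]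
    have e : [m].flatMap X = X m := by simp
    rw [e]
    refine ⟨by rw [List.length_append, h1, h3, off_succ], ?_⟩
    intro i hi j hj
    rcases Nat.lt_or_ge i m with him | him
    · have h4 : off bs i + j < ((List.range m).flatMap X).length := by
        rw [h1]; exact off_add_lt him hj
      rw [List.getD_append _ _ _ _ h4]
      exact h2 i him j hj
    · have him' : i = m := by omega
      subst him'
      rw [List.getD_append_right _ _ _ _ (by rw [h1]; omega), h1]
      congr 1
      omega

/-- The vector with given blocks. -/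
theorem exists_blocks (N : Node) (X : ℕ → Vec)
    (hX : ∀ i < (nbs N).length, (X i).length = ((nbs N).getD i ([], [])).2.length + 1) :
    ∃ F : Vec, F.length = ndim N ∧ (∀ i < (nbs N).length, nblk N F i = X i) ∧
      ∀ x ∈ F, ∃ i < (nbs N).length, x ∈ X i := by
  obtain ⟨h1, h2⟩ := cat_blocks (nbs N) X (nbs N).length hX
  refine ⟨(List.range (nbs N).length).flatMap X, h1, ?_, ?_⟩
  · intro i hi
    refine vec_ext (by rw [length_nblk, hX i hi]) fun j hj => ?_
    rw [length_nblk] at hj
    rw [nblk, getD_blk hj]
    exact h2 i hi j hj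
  · intro x hx
    rw [List.mem_flatMap] at hx
    obtain ⟨i, hi, hx⟩ := hx
    exact ⟨i, List.mem_range.1 hi, hx⟩

/-- The dot product with a concatenation of blocks. -/
theorem dot_cat (N : Node) (X : ℕ → Vec)
    (hX : ∀ i < (nbs N).length, (X i).length = ((nbs N).getD i ([], [])).2.length + 1) (F : Vec) :
    dot ((List.range (nbs N).length).flatMap X) F =
      ∑ i ∈ Finset.range (nbs N).length, dot (nblk N F i) (X i) := by
  obtain ⟨h1, h2⟩ := cat_blocks (nbs N) X (nbs N).length hX
  rw [dot_eq_sum (N := off (nbs N) (nbs N).length) (Or.inl h1.le), sum_off]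
  refine Finset.sum_congr rfl fun i hi => ?_
  have hi' := Finset.mem_range.1 hi
  rw [dot_eq_sum (N := ((nbs N).getD i ([], [])).2.length + 1) (Or.inl (by simp))]
  refine Finset.sum_congr rfl fun j hj => ?_
  have hj' := Finset.mem_range.1 hj
  rw [h2 i hi' j hj', nblk, getD_blk hj', mul_comm]

theorem eqRow_eq (bs : List Box) (k : ℕ) : eqRow bs k = (List.range bs.length).flatMap fun i =>
    (bs.getD i ([], [])).1.getD k 0 :: (bvs (bs.getD i ([], []))).map fun v => v.getD k 0 := by
  have key : ∀ (f : Box → Vec), bs.flatMap f =
      (List.range bs.length).flatMap fun i => f (bs.getD i ([], [])) := by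
    intro f
    have : bs = (List.range bs.length).map fun i => bs.getD i ([], []) := by
      apply List.ext_getElem
      · simp
      · intro i h1 h2
        simp only [List.getElem_map, List.getElem_range]
        rw [List.getD_eq_getElem _ _ h1]
    conv_lhs => rw [this]
    rw [List.flatMap_map]
  exact key _

theorem dot_eqRow (N : Node) (F : Vec) (k : ℕ) :
    dot (eqRow (nbs N) k) F = ∑ i ∈ Finset.range (nbs N).length,
      dot (nblk N F i) (((nbs N).getD i ([], [])).1.getD k 0 ::
          (bvs ((nbs N).getD i ([], []))).map fun v => v.getD k 0) := by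
  rw [eqRow_eq]
  exact dot_cat N _ (fun i _ => by simp) F

@[simp] theorem length_place (D o : ℕ) (v : Vec) : (place D o v).length = D := by simp [place]

theorem dot_place {D o : ℕ} {v F : Vec} (ho : o + v.length ≤ D) :
    dot (place D o v) F = dot v (blk F o v.length) := by
  obtain ⟨e, rfl⟩ := Nat.exists_eq_add_of_le ho
  rw [dot_eq_sum (N := o + v.length + e) (Or.inl (by simp)),
    dot_eq_sum (N := v.length) (Or.inl le_rfl), Finset.sum_range_add, Finset.sum_range_add]
  have h1 : ∑ x ∈ Finset.range o, (place (o + v.length + e) o v).getD x 0 * F.getD x 0 = 0 := by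
    refine Finset.sum_eq_zero fun x hx => ?_
    have hx' := Finset.mem_range.1 hx
    rw [place, getD_map_range, if_pos (by omega)]
    have : ¬ o ≤ x := by omega
    simp [this]
  have h2 : ∑ x ∈ Finset.range e, (place (o + v.length + e) o v).getD (o + v.length + x) 0 *
      F.getD (o + v.length + x) 0 = 0 := by
    refine Finset.sum_eq_zero fun x hx => ?_
    have hx' := Finset.mem_range.1 hx
    rw [place, getD_map_range, if_pos (by omega)]
    have h3 : o ≤ o + v.length + x := by omega
    simp only [h3, decide_true, cond_true]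
    rw [List.getD_eq_default _ _ (by omega), zero_mul]
  rw [h1, h2, zero_add, add_zero]
  refine Finset.sum_congr rfl fun j hj => ?_
  have hj' := Finset.mem_range.1 hj
  rw [place, getD_map_range, if_pos (by omega)]
  have h3 : o ≤ o + j := by omega
  simp only [h3, decide_true, cond_true]
  rw [Nat.add_sub_cancel_left, getD_blk hj']

theorem getD_nbs_right {i : ℕ} (hi : i < N.2.length) :
    (nbs N).getD (N.1.length + i) ([], []) = N.2.getD i ([], []) := by
  rw [nbs, List.getD_append_right _ _ _ _ (by omega)]
  congr 1
  omega

theorem getD_nbs_left {i : ℕ} (hi : i < N.1.length) :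
    (nbs N).getD i ([], []) = N.1.getD i ([], []) := by
  rw [nbs, List.getD_append _ _ _ _ hi]

theorem length_nbs (N : Node) : (nbs N).length = N.1.length + N.2.length := by simp [nbs]

theorem off_add_le (N : Node) {i m : ℕ} (hi : i < (nbs N).length)
    (hm : m ≤ ((nbs N).getD i ([], [])).2.length + 1) : off (nbs N) i + m ≤ ndim N := by
  have h1 : off (nbs N) (i + 1) ≤ off (nbs N) (nbs N).length := off_mono _ hi
  rw [off_succ] at h1
  unfold ndim
  omega

theorem fRows_def (rows : Rows) (a : Vec) (R : ℕ) (N : Node) : fRows rows a R N =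
    boxRows (List.replicate (ndim N) R) ++
    ((List.range a.length).flatMap fun i =>
      [(eqRow (nbs N) i, a.getD i 0), (nneg (eqRow (nbs N) i), -(a.getD i 0))]) ++
    (List.range N.2.length).flatMap fun i =>
      [(place (ndim N) (off (nbs N) (N.1.length + i)) [1], (1 : ℤ)),
        (place (ndim N) (off (nbs N) (N.1.length + i)) [-1], (0 : ℤ))] ++
      (yrows rows (N.2.getD i ([], []))).map fun r =>
        (place (ndim N) (off (nbs N) (N.1.length + i)) (-r.2 :: r.1), 0) := rfl

/-- The meaning of the explicit inequalities of a node. -/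
theorem fRows_iff (hwf : ∀ t ∈ nbs N, WF a.length t) (hF : F.length = ndim N) :
    (∀ r ∈ fRows rows a R N, dot r.1 F ≤ r.2) ↔
      (∀ x ∈ F, x.natAbs ≤ R) ∧
      (∀ k < a.length, ∑ i ∈ Finset.range (nbs N).length,
        dot (nblk N F i) (((nbs N).getD i ([], [])).1.getD k 0 ::
          (bvs ((nbs N).getD i ([], []))).map fun v => v.getD k 0) = a.getD k 0) ∧
      ∀ i < N.2.length,
        0 ≤ (nblk N F (N.1.length + i)).headD 0 ∧ (nblk N F (N.1.length + i)).headD 0 ≤ 1 ∧
        ∀ r ∈ yrows rows (N.2.getD i ([], [])),
          dot r.1 (nblk N F (N.1.length + i)).tail ≤ r.2 * (nblk N F (N.1.length + i)).headD 0 := by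
  have hd : ∀ (v : Vec), v.headD 0 = v.getD 0 0 := fun v => by cases v <;> rfl
  have hblk : ∀ (i : ℕ), nblk N F i = (nblk N F i).headD 0 :: (nblk N F i).tail := by
    intro i
    have : nblk N F i ≠ [] := by
      intro h
      have := length_nblk N F i
      rw [h] at this
      simp at this
    cases hh : nblk N F i with
    | nil => exact absurd hh this
    | cons x l => rfl
  have e1 : ∀ i < N.2.length, ∀ c : ℤ,
      dot (place (ndim N) (off (nbs N) (N.1.length + i)) [c]) F =
        c * (nblk N F (N.1.length + i)).headD 0 := by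
    intro i hi c
    have hi' : N.1.length + i < (nbs N).length := by rw [length_nbs]; omega
    rw [dot_place (off_add_le N hi' (by simp)), hd, nblk, getD_blk (by omega)]
    simp [blk]
  have e2 : ∀ i < N.2.length, ∀ r ∈ yrows rows (N.2.getD i ([], [])),
      dot (place (ndim N) (off (nbs N) (N.1.length + i)) (-r.2 :: r.1)) F =
        -(r.2 * (nblk N F (N.1.length + i)).headD 0) +
          dot r.1 (nblk N F (N.1.length + i)).tail := by
    intro i hi r hr
    have hi' : N.1.length + i < (nbs N).length := by rw [length_nbs]; omega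
    have hl : (-r.2 :: r.1).length = ((nbs N).getD (N.1.length + i) ([], [])).2.length + 1 := by
      rw [getD_nbs_right hi, List.length_cons, yrows_len r hr]
    rw [dot_place (off_add_le N hi' hl.le), hl]
    change dot (-r.2 :: r.1) (nblk N F (N.1.length + i)) = _
    conv_lhs => rw [hblk (N.1.length + i)]
    rw [dot_cons]
    ring
  rw [fRows_def]
  constructor
  · intro h
    refine ⟨?_, ?_, ?_⟩
    · exact (replicate_rows hF).1 fun r hr => h r (List.mem_append_left _ (List.mem_append_left _ hr))
    · intro k hk
      rw [← dot_eqRow]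
      have h1 := h (eqRow (nbs N) k, a.getD k 0) (List.mem_append_left _ (List.mem_append_right _
        (List.mem_flatMap.2 ⟨k, List.mem_range.2 hk, by simp⟩)))
      have h2 := h (nneg (eqRow (nbs N) k), -(a.getD k 0)) (List.mem_append_left _
        (List.mem_append_right _ (List.mem_flatMap.2 ⟨k, List.mem_range.2 hk, by simp⟩)))
      simp only [dot_nneg] at h1 h2
      omega
    · intro i hi
      have h1 := h (place (ndim N) (off (nbs N) (N.1.length + i)) [1], (1 : ℤ))
        (List.mem_append_right _ (List.mem_flatMap.2 ⟨i, List.mem_range.2 hi, by simp⟩))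
      have h2 := h (place (ndim N) (off (nbs N) (N.1.length + i)) [-1], (0 : ℤ))
        (List.mem_append_right _ (List.mem_flatMap.2 ⟨i, List.mem_range.2 hi, by simp⟩))
      simp only [e1 i hi] at h1 h2
      refine ⟨by omega, by omega, fun r hr => ?_⟩
      have h3 := h (place (ndim N) (off (nbs N) (N.1.length + i)) (-r.2 :: r.1), 0)
        (List.mem_append_right _ (List.mem_flatMap.2 ⟨i, List.mem_range.2 hi,
          List.mem_append_right _ (List.mem_map.2 ⟨r, hr, rfl⟩)⟩))
      simp only [e2 i hi r hr] at h3
      omega
  · rintro ⟨h1, h2, h3⟩ r hr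
    rw [List.mem_append, List.mem_append] at hr
    rcases hr with (hr | hr) | hr
    · exact (replicate_rows hF).2 h1 r hr
    · rw [List.mem_flatMap] at hr
      obtain ⟨k, hk, hr⟩ := hr
      have hk' := List.mem_range.1 hk
      have h4 := h2 k hk'
      rw [← dot_eqRow] at h4
      simp only [List.mem_cons, List.not_mem_nil, or_false] at hr
      rcases hr with rfl | rfl
      · simp only; omega
      · simp only [dot_nneg]; omega
    · rw [List.mem_flatMap] at hr
      obtain ⟨i, hi, hr⟩ := hr
      have hi' := List.mem_range.1 hi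
      obtain ⟨h4, h5, h6⟩ := h3 i hi'
      rw [List.mem_append, List.mem_map] at hr
      rcases hr with hr | ⟨r', hr', rfl⟩
      · simp only [List.mem_cons, List.not_mem_nil, or_false] at hr
        rcases hr with rfl | rfl
        · simp only [e1 i hi']; omega
        · simp only [e1 i hi']; omega
      · simp only [e2 i hi' r' hr']
        have := h6 r' hr'
        omega

/-- The bounds for a node. -/
structure NodeOK (P d B R1 R : ℕ) (N : Node) : Prop where
  ty : ∀ t ∈ nbs N, TyOK P (d + 1) B R1 t
  wf : ∀ t ∈ nbs N, WF d t
  pad : cw (ndim N) ≤ P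
  bd : ∃ H, ndim N * (2 * (R + 1)) ≤ 2 ^ H ∧ cL (ndim N) * ((ndim N + 1) * (H + 1)) ≤ B

theorem length_eqRow (N : Node) (k : ℕ) : (eqRow (nbs N) k).length = ndim N := by
  rw [eqRow_eq]
  exact (cat_blocks (nbs N) _ _ fun i _ => by simp).1

theorem fRows_len : ∀ r ∈ fRows rows a R N, r.1.length = ndim N := by
  intro r hr
  rw [fRows_def, List.mem_append, List.mem_append] at hr
  rcases hr with (hr | hr) | hr
  · have := boxRows_len r hr
    simpa using this
  · rw [List.mem_flatMap] at hr
    obtain ⟨k, _, hr⟩ := hr
    simp only [List.mem_cons, List.not_mem_nil, or_false] at hr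
    rcases hr with rfl | rfl
    · exact length_eqRow N k
    · simp only [length_nneg]; exact length_eqRow N k
  · rw [List.mem_flatMap] at hr
    obtain ⟨i, _, hr⟩ := hr
    rw [List.mem_append, List.mem_map] at hr
    rcases hr with hr | ⟨r', _, rfl⟩
    · simp only [List.mem_cons, List.not_mem_nil, or_false] at hr
      rcases hr with rfl | rfl <;> simp
    · simp

theorem forc_valid (h : NodeOK P d B R1 R N) (ha : a.length = d) :
    ValidOrc (ndim N) (TF rows a R1 R N) (forc P d B rows a R1 R N) := by
  have hv := viol_valid (rs := fRows rows a R N) (n := ndim N) fRows_len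
  have hty : ∀ i < N.1.length, TyOK P (d + 1) B R1 (N.1.getD i ([], [])) := by
    intro i hi
    refine h.ty _ (List.mem_append_left _ ?_)
    rw [List.getD_eq_getElem _ _ hi]
    exact List.getElem_mem hi
  have hnb : ∀ i < N.1.length, ∀ F : Vec, blk F (off (N.1 ++ N.2) i)
      ((N.1.getD i ([], [])).2.length + 1) = nblk N F i := by
    intro i hi F
    unfold nblk
    rw [getD_nbs_left hi]
    rfl
  have hforc : ∀ F : Vec, forc P d B rows a R1 R N F =
      match viol (fRows rows a R N) F with
      | some h => some h
      | none =>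
        ((List.range N.1.length).flatMap fun i =>
          (glv P (d + 1) B rows (N.1.getD i ([], [])) R1 (blk F (off (N.1 ++ N.2) i)
            ((N.1.getD i ([], [])).2.length + 1))).map fun g =>
            nneg (place (ndim N) (off (nbs N) i) g)).head? := fun F => rfl
  refine ⟨fun F hF => hF.1, ?_, ?_⟩
  · intro F hF hacc
    rw [hforc] at hacc
    cases hvF : viol (fRows rows a R N) F with
    | some w => rw [hvF] at hacc; simp at hacc
    | none =>
      rw [hvF] at hacc
      simp only [List.head?_eq_none_iff, List.flatMap_eq_nil_iff, List.mem_range,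
        List.map_eq_nil_iff] at hacc
      refine ⟨hF, (hv.acc F hF hvF).2, fun i hi => ?_⟩
      rw [← hnb i hi]
      exact (glv_nil (hty i hi) (by simp)).1 (hacc i hi)
  · intro F w hF hrej
    rw [hforc] at hrej
    cases hvF : viol (fRows rows a R N) F with
    | some w' =>
      rw [hvF] at hrej
      simp only [Option.some.injEq] at hrej
      subst hrej
      obtain ⟨h1, h2⟩ := hv.rej F w' hF hvF
      exact ⟨h1, fun F' hF' => h2 F' ⟨hF'.1, hF'.2.1⟩⟩
    | none =>
      rw [hvF] at hrej
      simp only at hrej
      have hmem := List.mem_of_mem_head? hrej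
      rw [List.mem_flatMap] at hmem
      obtain ⟨i, hi, hmem⟩ := hmem
      have hi' := List.mem_range.1 hi
      rw [List.mem_map] at hmem
      obtain ⟨g, hg, rfl⟩ := hmem
      obtain ⟨h1, h2⟩ := glv_mem (hty i hi') (by simp) g hg
      have hil : i < (nbs N).length := by rw [length_nbs]; omega
      have hgl : g.length = ((nbs N).getD i ([], [])).2.length + 1 := by
        rw [getD_nbs_left hi', h1.1]
      have hdp : ∀ F' : Vec, dot (place (ndim N) (off (nbs N) i) g) F' = dot g (nblk N F' i) := by
        intro F'
        rw [dot_place (off_add_le N hil hgl.le), hgl]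
        rfl
      refine ⟨by simp, fun F' hF' => ?_⟩
      rw [dot_nneg, dot_nneg, hdp, hdp]
      have h3 := hF'.2.2 i hi' g h1
      rw [hnb i hi'] at h2
      omega

/-- The central points of the feasible set of a node. -/
theorem flv_spec (h : NodeOK P d B R1 R N) (ha : a.length = d) :
    (flv P d B rows a R1 R N).length ≤ cL (ndim N) ∧
    (∀ F ∈ flv P d B rows a R1 R N, F ∈ TF rows a R1 R N) ∧
    ∀ F ∈ TF rows a R1 R N, ∃ F0 ∈ flv P d B rows a R1 R N,
      Central (ndim N) (ndim N * cM (ndim N)) (TF rows a R1 R N) F0 F := by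
  obtain ⟨H, hH, hB⟩ := h.bd
  have hw : WF (ndim N) (stdBox (List.replicate (ndim N) R)) := by
    have := stdBox_wf (List.replicate (ndim N) R)
    rwa [List.length_replicate] at this
  have he : ext (stdBox (List.replicate (ndim N) R)) ≤ 2 ^ H := by
    rw [ext_stdBox, List.map_replicate, List.sum_replicate, smul_eq_mul]
    exact hH
  obtain ⟨h1, h2, h3⟩ := leaves_spec (P := P) (D := ndim N) (B := B) (H := H)
    (forc_valid (rows := rows) h ha) hw
    (by rw [length_stdBox, List.length_replicate]) h.pad he hB
  refine ⟨h1, h2, fun F hF => h3 F hF ?_⟩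
  refine inBox_stdBox (by rw [hF.1, List.length_replicate]) ?_
  intro k hk
  have hk' : k < F.length := by rw [hF.1]; simpa using hk
  rw [List.getD_eq_getElem _ _ hk', List.getD_eq_getElem _ _ hk, List.getElem_replicate]
  have := mem_boxRows (ns := List.replicate (ndim N) R) (y := F) (fun r hr => hF.2.1 r (by
    rw [fRows_def]; exact List.mem_append_left _ (List.mem_append_left _ hr))) k hk
  rw [List.getD_eq_getElem _ _ hk', List.getD_eq_getElem _ _ hk, List.getElem_replicate] at this
  exact this

end Run7.h960
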