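import Pool.Agent.Run7.h960.Sand
import Pool.Agent.Run7.h960.Norms

set_option autoImplicit false

/-!
# The oracles for types
-/

namespace Run7.h960

open Pool.Agent.NPC
open Pool.Agent.H687R2.LLL (dot nrm lllStep cnt fsts gsr nrm_nil nrm_cons)

variable {P D B R C1 H : ℕ} {rows : Rows} {t : Box} {g F : Vec}

theorem cM_le_cw' (D : ℕ) : cM D ≤ cw D := by
  unfold cw
  have h1 : 1 ≤ cM D := Nat.one_le_two_pow
  nlinarith

theorem yrows_len : ∀ r ∈ yrows rows t, r.1.length = t.2.length := by
  intro r hr
  unfold yrows at hr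
  rw [List.mem_append] at hr
  rcases hr with hr | hr
  · rw [List.mem_map] at hr
    obtain ⟨r', _, rfl⟩ := hr
    simp
  · have := boxRows_len r hr
    simpa using this

theorem dot_headD_tail {y : Vec} (hg : g ≠ []) : dot g (1 :: y) = g.headD 0 + dot g.tail y := by
  cases g with
  | nil => exact absurd rfl hg
  | cons x g => simp

/-- Oracles given by inequalities are valid. -/
theorem viol_valid {rs : Rows} {n : ℕ} (hlen : ∀ r ∈ rs, r.1.length = n) :
    ValidOrc n {y | y.length = n ∧ ∀ r ∈ rs, dot r.1 y ≤ r.2} (viol rs) where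
  len x hx := hx.1
  acc x hx h := ⟨hx, viol_none h⟩
  rej x h hx hv := by
    obtain ⟨c, hc, hlt⟩ := viol_some hv
    exact ⟨hlen _ hc, fun x' hx' => lt_of_le_of_lt (hx'.2 _ hc) hlt⟩

theorem yorc_valid (hg : g.length = t.2.length + 1) :
    ValidOrc t.2.length {y | y ∈ Sh rows t ∧ dot g (1 :: y) ≤ -1} (yorc rows t g) := by
  have hne : g ≠ [] := by rintro rfl; simp at hg
  have h := viol_valid (rs := yrows rows t ++ [(g.tail, -1 - g.headD 0)]) (n := t.2.length) (by
    intro r hr
    rw [List.mem_append, List.mem_singleton] at hr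
    rcases hr with hr | rfl
    · exact yrows_len r hr
    · simp [hg])
  have e : {y : Vec | y ∈ Sh rows t ∧ dot g (1 :: y) ≤ -1} =
      {y | y.length = t.2.length ∧ ∀ r ∈ yrows rows t ++ [(g.tail, -1 - g.headD 0)],
        dot r.1 y ≤ r.2} := by
    ext y
    simp only [Set.mem_setOf_eq, Sh, List.mem_append, List.mem_singleton, dot_headD_tail hne]
    constructor
    · rintro ⟨⟨h1, h2⟩, h3⟩
      refine ⟨h1, ?_⟩
      rintro r (hr | rfl)
      · exact h2 r hr
      · simp only; omega
    · rintro ⟨h1, h2⟩
      refine ⟨⟨h1, fun r hr => h2 r (Or.inl hr)⟩, ?_⟩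
      have := h2 _ (Or.inr rfl)
      simp only at this
      omega
  rw [e]
  exact h

theorem nrm_unitV_le (n k : ℕ) (hk : k < n) : nrm (unitV n k) = 1 := by
  rw [nrm_eq_sum (n := n) (by simp), Finset.sum_eq_single k]
  · rw [getD_unitV, if_pos ⟨hk, rfl⟩]; rfl
  · intro b _ hb
    rw [getD_unitV, if_neg (fun h => hb h.2)]; rfl
  · intro h; exact absurd (Finset.mem_range.2 hk) h

/-- size of a standard box -/
theorem ext_stdBox (ns : List ℕ) : ext (stdBox ns) = (ns.map fun m => 2 * (m + 1)).sum := by
  rw [ext_eq, bns_stdBox]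
  have h1 : nrm (stdBox ns).1 = 0 := by simp only [stdBox]; exact nrm_zv _
  rw [h1, zero_add, length_stdBox]
  have h2 : (ns.map fun m => 2 * (m + 1)).sum =
      ((List.range ns.length).map fun k => 2 * (ns.getD k 0 + 1)).sum := by
    congr 1
    apply List.ext_getElem
    · simp
    · intro i h3 h4
      have h5 : i < ns.length := by simpa using h3
      simp only [List.getElem_map, List.getElem_range]
      rw [List.getD_eq_getElem _ _ h5]
  rw [h2, sum_map_range]
  refine Finset.sum_congr rfl fun k hk => ?_
  have hk' : k < ns.length := Finset.mem_range.1 hk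
  have h3 : (bvs (stdBox ns)).getD k [] = unitV ns.length k := by
    rw [getD_bvs]
    simp only [stdBox]
    rw [getD_map_range, if_pos hk']
  rw [h3, nrm_unitV_le _ _ hk']
  ring

/-- Points of a type are in its box. -/
theorem sh_inBox {y : Vec} (hy : y ∈ Sh rows t) : InBox (stdBox (bns t)) y := by
  refine inBox_stdBox (by rw [hy.1, length_bns]) ?_
  refine mem_boxRows fun r hr => hy.2 r ?_
  unfold yrows
  exact List.mem_append_right _ hr

/-- The points `y` of a type with `g · (1, y) ≤ -1`. -/
theorem ylv_spec (hg : g.length = t.2.length + 1) (hD : t.2.length ≤ D) (hP : cw D ≤ P)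
    (hH : ((bns t).map fun m => 2 * (m + 1)).sum ≤ 2 ^ H)
    (hB : cL D * ((D + 1) * (H + 1)) ≤ B) :
    (∀ y ∈ ylv P D B rows t g, y ∈ Sh rows t ∧ dot g (1 :: y) ≤ -1) ∧
    (ylv P D B rows t g = [] → ∀ y ∈ Sh rows t, 0 ≤ dot g (1 :: y)) := by
  have hw : WF t.2.length (stdBox (bns t)) := by
    have := stdBox_wf (bns t)
    rwa [length_bns] at this
  obtain ⟨_, h2, h3⟩ := leaves_spec (P := P) (D := D) (B := B) (H := H)
    (yorc_valid (rows := rows) hg) hw (by rw [length_stdBox, length_bns]; exact hD) hP
    (by rw [ext_stdBox]; exact hH)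
    (le_trans (Nat.mul_le_mul_left _ (Nat.mul_le_mul_right _ (by omega))) hB)
  refine ⟨h2, fun hnil y hy => ?_⟩
  by_contra hlt
  obtain ⟨x0, hx0, _⟩ := h3 y ⟨hy, by omega⟩ (sh_inBox hy)
  have : x0 ∈ ylv P D B rows t g := hx0
  rw [hnil] at this
  simp at this

/-- The hypotheses on the bounds for a type in dimension at most `D - 1`. -/
structure TyOK (P D B R : ℕ) (t : Box) : Prop where
  dim : t.2.length + 1 ≤ D
  pad : cw D ≤ P
  bd : ∃ H, ((bns t).map fun m => 2 * (m + 1)).sum ≤ 2 ^ H ∧ cL D * ((D + 1) * (H + 1)) ≤ B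
  rd : ∃ H, (t.2.length + 1) * (2 * (R + 1)) ≤ 2 ^ H ∧ cL D * ((D + 1) * (H + 1)) ≤ B

theorem replicate_rows {n R : ℕ} {g : Vec} (hg : g.length = n) :
    (∀ r ∈ boxRows (List.replicate n R), dot r.1 g ≤ r.2) ↔ ∀ x ∈ g, x.natAbs ≤ R := by
  have e : ∀ k < n, (List.replicate n R).getD k 0 = R := by
    intro k hk
    rw [List.getD_eq_getElem _ _ (by simpa using hk), List.getElem_replicate]
  constructor
  · intro h x hx
    have h1 := mem_boxRows h
    obtain ⟨k, hk, rfl⟩ := List.getElem_of_mem hx
    have h2 := h1 k (by simpa [← hg] using hk)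
    rw [e k (by omega), List.getD_eq_getElem _ _ hk] at h2
    exact h2
  · intro h
    refine boxRows_of fun k hk => ?_
    have hk' : k < n := by simpa using hk
    rw [e k hk', List.getD_eq_getElem _ _ (by omega)]
    exact h _ (List.getElem_mem _)

theorem gorc_valid (h : TyOK P D B R t) (hF : F.length = t.2.length + 1) :
    ValidOrc (t.2.length + 1) {g | g ∈ Test rows t R ∧ dot g F ≤ -1}
      (gorc P D B rows t R F) := by
  obtain ⟨H, hH, hB⟩ := h.bd
  have hdim := h.dim
  have hspec := fun (g : Vec) (hg : g.length = t.2.length + 1) =>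
    ylv_spec (P := P) (D := D) (B := B) (H := H) (rows := rows) hg (by omega) h.pad hH hB
  have hlen : ∀ r ∈ boxRows (List.replicate (t.2.length + 1) R) ++ [(F, (-1 : ℤ))],
      r.1.length = t.2.length + 1 := by
    intro r hr
    rw [List.mem_append, List.mem_singleton] at hr
    rcases hr with hr | rfl
    · have := boxRows_len r hr
      simpa using this
    · exact hF
  have hrows : ∀ g : Vec, g ∈ Test rows t R → dot g F ≤ -1 →
      ∀ r ∈ boxRows (List.replicate (t.2.length + 1) R) ++ [(F, (-1 : ℤ))], dot r.1 g ≤ r.2 := by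
    intro g hg hgF r hr
    rw [List.mem_append, List.mem_singleton] at hr
    rcases hr with hr | rfl
    · exact (replicate_rows hg.1).2 hg.2.1 r hr
    · simp only; rw [dot_comm]; exact hgF
  refine ⟨fun g hg => hg.1.1, ?_, ?_⟩
  · intro g hg hacc
    unfold gorc at hacc
    cases hv : viol (boxRows (List.replicate (t.2.length + 1) R) ++ [(F, (-1 : ℤ))]) g with
    | some w => rw [hv] at hacc; simp at hacc
    | none =>
      rw [hv] at hacc
      simp only at hacc
      have h1 := viol_none hv
      cases hy : (ylv P D B rows t g).head? with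
      | some y => rw [hy] at hacc; simp at hacc
      | none =>
        rw [List.head?_eq_none_iff] at hy
        refine ⟨⟨hg, ?_, (hspec g hg).2 hy⟩, ?_⟩
        · exact (replicate_rows hg).1 fun r hr => h1 r (List.mem_append_left _ hr)
        · have := h1 (F, -1) (List.mem_append_right _ (by simp))
          simp only at this
          rwa [dot_comm] at this
  · intro g w hg hrej
    unfold gorc at hrej
    cases hv : viol (boxRows (List.replicate (t.2.length + 1) R) ++ [(F, (-1 : ℤ))]) g with
    | some w' =>
      rw [hv] at hrej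
      simp only [Option.some.injEq] at hrej
      subst hrej
      obtain ⟨c, hc, hlt⟩ := viol_some hv
      exact ⟨hlen _ hc, fun x' hx' => lt_of_le_of_lt (hrows x' hx'.1 hx'.2 _ hc) hlt⟩
    | none =>
      rw [hv] at hrej
      simp only at hrej
      cases hy : (ylv P D B rows t g).head? with
      | none => rw [hy] at hrej; simp at hrej
      | some y =>
        rw [hy] at hrej
        simp only [Option.some.injEq] at hrej
        subst hrej
        obtain ⟨h2, h3⟩ := (hspec g hg).1 y (List.mem_of_mem_head? hy)
        refine ⟨by simp [h2.1], fun g' hg' => ?_⟩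
        rw [dot_nneg, dot_nneg, dot_comm, dot_comm (1 :: y)]
        have h4 := hg'.1.2.2 y h2
        omega

theorem glv_facts (h : TyOK P D B R t) (hF : F.length = t.2.length + 1) :
    (∀ x ∈ glv P D B rows t R F, x ∈ {g | g ∈ Test rows t R ∧ dot g F ≤ -1}) ∧
    ∀ x ∈ {g | g ∈ Test rows t R ∧ dot g F ≤ -1},
      InBox (stdBox (List.replicate (t.2.length + 1) R)) x → ∃ x0 ∈ glv P D B rows t R F,
        Central (t.2.length + 1) (D * cM D) {g | g ∈ Test rows t R ∧ dot g F ≤ -1} x0 x := by
  obtain ⟨H, hH, hB⟩ := h.rd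
  have hdim := h.dim
  have hw : WF (t.2.length + 1) (stdBox (List.replicate (t.2.length + 1) R)) := by
    have := stdBox_wf (List.replicate (t.2.length + 1) R)
    rwa [List.length_replicate] at this
  have he : ext (stdBox (List.replicate (t.2.length + 1) R)) ≤ 2 ^ H := by
    rw [ext_stdBox, List.map_replicate, List.sum_replicate, smul_eq_mul]
    exact hH
  exact (leaves_spec (P := P) (D := D) (B := B) (H := H) (gorc_valid (rows := rows) h hF) hw
    (by rw [length_stdBox, List.length_replicate]; exact hdim) h.pad he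
    (le_trans (Nat.mul_le_mul_left _ (Nat.mul_le_mul_right _ (by omega))) hB)).2

theorem glv_mem (h : TyOK P D B R t) (hF : F.length = t.2.length + 1) :
    ∀ g ∈ glv P D B rows t R F, g ∈ Test rows t R ∧ dot g F ≤ -1 :=
  fun g hg => (glv_facts h hF).1 g hg

theorem glv_nil (h : TyOK P D B R t) (hF : F.length = t.2.length + 1) :
    glv P D B rows t R F = [] ↔ Kt rows t R F := by
  constructor
  · intro hnil g hg
    by_contra hlt
    have h1 : InBox (stdBox (List.replicate (t.2.length + 1) R)) g := by
      refine inBox_stdBox (by rw [hg.1, List.length_replicate]) ?_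
      intro k hk
      have hk' : k < g.length := by rw [hg.1]; simpa using hk
      rw [List.getD_eq_getElem _ _ hk', List.getD_eq_getElem _ _ hk, List.getElem_replicate]
      exact hg.2.1 _ (List.getElem_mem _)
    obtain ⟨x0, hx0, _⟩ := (glv_facts h hF).2 g ⟨hg, by omega⟩ h1
    rw [hnil] at hx0
    simp at hx0
  · intro hK
    rw [List.eq_nil_iff_forall_not_mem]
    intro g hg
    obtain ⟨h1, h2⟩ := glv_mem h hF g hg
    have := hK g h1
    omega

theorem length_vsub_cons {F : Vec} {C1 : ℕ} {y : Vec} (hF : F.length = y.length + 1) :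
    (vsub F ((1 :: y).map fun x => (C1 : ℤ) * x)).length = y.length + 1 := by
  simp [vsub, hF]

theorem getD_vsub_eq {u v : Vec} (h : u.length = v.length) (i : ℕ) :
    (vsub u v).getD i 0 = u.getD i 0 - v.getD i 0 := by
  unfold vsub
  rcases Nat.lt_or_ge i u.length with hi | hi
  · rw [List.getD_eq_getElem _ _ (by simp [← h, hi]), List.getD_eq_getElem _ _ hi,
      List.getD_eq_getElem _ _ (by omega), List.getElem_zipWith]
  · rw [List.getD_eq_default _ _ (by simp [← h, hi]), List.getD_eq_default _ _ hi,
      List.getD_eq_default _ _ (by omega)]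
    simp

theorem dot_vsub {g u v : Vec} (h : u.length = v.length) :
    dot g (vsub u v) = dot g u - dot g v := by
  rw [dot_eq_sum (N := g.length) (Or.inl le_rfl), dot_eq_sum (N := g.length) (Or.inl le_rfl),
    dot_eq_sum (N := g.length) (Or.inl le_rfl), ← Finset.sum_sub_distrib]
  exact Finset.sum_congr rfl fun i _ => by rw [getD_vsub_eq h]; ring

theorem dot_smul {g v : Vec} (c : ℤ) : dot g (v.map fun x => c * x) = c * dot g v := by
  rw [dot_eq_sum (N := g.length) (Or.inl le_rfl), dot_eq_sum (N := g.length) (Or.inl le_rfl),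
    Finset.mul_sum]
  refine Finset.sum_congr rfl fun i _ => ?_
  have : (v.map fun x => c * x).getD i 0 = c * v.getD i 0 := by
    rcases Nat.lt_or_ge i v.length with hi | hi
    · rw [List.getD_eq_getElem _ _ (by simpa using hi), List.getD_eq_getElem _ _ hi,
        List.getElem_map]
    · rw [List.getD_eq_default _ _ (by simpa using hi), List.getD_eq_default _ _ hi]
      simp
  rw [this]
  ring

theorem zorc_valid (h : TyOK P D B R t) (hF : F.length = t.2.length + 1) (hC : 1 ≤ C1) :
    ValidOrc t.2.length (Tp rows t R C1 F) (zorc P D B rows t R C1 F) := by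
  have hv := viol_valid (rs := yrows rows t) (n := t.2.length) yrows_len
  have hFy : ∀ y : Vec, y.length = t.2.length →
      (vsub F ((1 :: y).map fun x => (C1 : ℤ) * x)).length = t.2.length + 1 := by
    intro y hy
    rw [length_vsub_cons (by rw [hF, hy]), hy]
  refine ⟨fun y hy => hy.1.1, ?_, ?_⟩
  · intro y hy hacc
    unfold zorc at hacc
    cases hvy : viol (yrows rows t) y with
    | some w => rw [hvy] at hacc; simp at hacc
    | none =>
      rw [hvy] at hacc
      simp only at hacc
      refine ⟨hv.acc y hy hvy, ?_⟩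
      cases hg : (glv P D B rows t R (vsub F ((1 :: y).map fun x => (C1 : ℤ) * x))).head? with
      | some g => rw [hg] at hacc; simp at hacc
      | none =>
        rw [List.head?_eq_none_iff] at hg
        exact (glv_nil h (hFy y hy)).1 hg
  · intro y w hy hrej
    unfold zorc at hrej
    cases hvy : viol (yrows rows t) y with
    | some w' =>
      rw [hvy] at hrej
      simp only [Option.some.injEq] at hrej
      subst hrej
      obtain ⟨h1, h2⟩ := hv.rej y w' hy hvy
      exact ⟨h1, fun y' hy' => h2 y' hy'.1⟩
    | none =>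
      rw [hvy] at hrej
      simp only at hrej
      cases hg : (glv P D B rows t R (vsub F ((1 :: y).map fun x => (C1 : ℤ) * x))).head? with
      | none => rw [hg] at hrej; simp at hrej
      | some g =>
        rw [hg] at hrej
        simp only [Option.some.injEq] at hrej
        subst hrej
        obtain ⟨h1, h2⟩ := glv_mem h (hFy y hy) g (List.mem_of_mem_head? hg)
        have hgl := h1.1
        have hgne : g ≠ [] := by rintro rfl; simp at hgl
        refine ⟨by rw [List.length_tail, hgl]; rfl, fun y' hy' => ?_⟩
        have h3 := hy'.2 g h1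
        have hl' : F.length = ((1 :: y').map fun x => (C1 : ℤ) * x).length := by
          rw [hF, List.length_map, List.length_cons, hy'.1.1]
        have hl : F.length = ((1 :: y).map fun x => (C1 : ℤ) * x).length := by
          rw [hF, List.length_map, List.length_cons, hy]
        rw [dot_vsub hl', dot_smul, dot_headD_tail hgne] at h3
        rw [dot_vsub hl, dot_smul, dot_headD_tail hgne] at h2
        have hC' : (1 : ℤ) ≤ C1 := by exact_mod_cast hC
        by_contra hlt
        have h4 : dot g.tail y ≤ dot g.tail y' := by omega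
        nlinarith

end Run7.h960
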