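import Pool.Agent.Run7.h960.Defs
import Pool.Agent.H671R2.PolyAuto

set_option autoImplicit false

/-!
# Polynomial time: basic functions
-/

namespace Pool.Agent.NPC.R960

open Run7.h960
open Pool.Agent.H687R2.LLL (dot nrm lllStep cnt fsts gsr)

variable {α β σ : Type} [TEnc α] [TEnc β] [TEnc σ]

theorem iterate_cons_unit (k : ℕ) :
    (fun l : List Unit => () :: l)^[k] [] = List.replicate k () := by
  induction k with
  | zero => rfl
  | succ k ih => rw [Function.iterate_succ_apply', ih]; rfl

theorem upoly_sz {f : α → β} (hf : Poly f) : UPoly (fun a => sz (f a)) := by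
  obtain ⟨q, hq⟩ := hf.sz_le
  have hc : Poly (fun l : List Unit => () :: l) := Poly.cons (Poly.const ()) Poly.id
  have h2 := PC.iterate (ea := (bits : α → List Bool)) (β := List Unit) (tb := toT)
    (n := fun a => toT (f a)) (x := fun _ => ([] : List Unit)) (f := fun l => () :: l) hf
    (Poly.const (α := α) ([] : List Unit)) hc (Polynomial.C 5 * q + Polynomial.C 1) (by
      intro a k hk
      rw [iterate_cons_unit]
      have h1 := hq a
      have h3 : k ≤ sz (f a) := hk
      have h4 := sz_le_length_mul (List.replicate k ()) 4 (fun x _ => by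
        have : sz x ≤ 4 := by cases x; decide
        exact this)
      rw [List.length_replicate] at h4
      simp only [Polynomial.eval_add, Polynomial.eval_mul, Polynomial.eval_C]
      refine h4.trans ?_
      rw [bits_length]
      omega)
  have h3 : Poly (fun a => (fun l : List Unit => () :: l)^[sz (f a)] []) := h2
  exact h3.congr fun a => iterate_cons_unit _

/-- Iteration with a unary number of steps. -/
theorem poly_iterU {n : α → ℕ} {s : α → σ} {F : α → σ → σ} (hn : UPoly n) (hs : Poly s)
    (hF : Poly (fun p : α × σ => F p.1 p.2)) (r : Polynomial ℕ)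
    (hr : ∀ a, ∀ k ≤ n a, sz ((F a)^[k] (s a)) ≤ r.eval (sz a)) :
    Poly (fun a => (F a)^[n a] (s a)) := by
  refine (Poly.iterLen (l := fun a => List.replicate (n a) ()) hn hs hF r ?_).congr fun a => by
    simp
  intro a k hk
  rw [List.length_replicate] at hk
  exact hr a k hk

theorem upoly_le {n : α → ℕ} (hn : UPoly n) : ∃ p : Polynomial ℕ, ∀ a, n a ≤ p.eval (sz a) := by
  obtain ⟨p, hp⟩ := Poly.sz_le hn
  refine ⟨p, fun a => ?_⟩
  have h1 := hp a
  have h2 := length_lt_sz (List.replicate (n a) ())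
  rw [List.length_replicate] at h2
  omega

theorem poly_sz {f : α → β} (hf : Poly f) : Poly (fun a => sz (f a)) := (upoly_sz hf).toPoly

theorem poly_capd {B : α → ℕ} {d x : α → σ} (hB : Poly B) (hd : Poly d) (hx : Poly x) :
    Poly (fun a => capd (B a) (d a) (x a)) :=
  Poly.cond (Poly.decide_le (poly_sz hx) hB) hx hd

theorem sz_capd_le (B : ℕ) (d x : σ) : sz (capd B d x) ≤ B + sz d := by
  unfold capd
  by_cases h : sz x ≤ B
  · simp only [h, decide_true, cond_true]; omega
  · simp only [h, decide_false, cond_false]; omega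

/-- Capped iteration is polynomial-time. -/
theorem poly_iterCap {B n : α → ℕ} {F : α → σ → σ} {d s : α → σ} (hB : UPoly B) (hn : UPoly n)
    (hF : Poly (fun p : α × σ => F p.1 p.2)) (hd : Poly d) (hs : Poly s) :
    Poly (fun a => iterCap (B a) (F a) (d a) (n a) (s a)) := by
  obtain ⟨p1, h1⟩ := upoly_le hB
  obtain ⟨p2, h2⟩ := hd.sz_le
  obtain ⟨p3, h3⟩ := hs.sz_le
  have hG : Poly (fun p : α × σ => capd (B p.1) (d p.1) (F p.1 p.2)) :=
    poly_capd (hB.toPoly.comp (Poly.fst Poly.id)) (hd.comp (Poly.fst Poly.id)) hF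
  refine poly_iterU (F := fun a x => capd (B a) (d a) (F a x)) hn hs hG (p1 + p2 + p3) ?_
  intro a k _
  simp only [Polynomial.eval_add]
  have e1 := h1 a
  have e2 := h2 a
  have e3 := h3 a
  cases k with
  | zero => rw [Function.iterate_zero_apply]; omega
  | succ k =>
    rw [Function.iterate_succ_apply']
    have e4 := sz_capd_le (B a) (d a) (F a ((fun x => capd (B a) (d a) (F a x))^[k] (s a)))
    omega

theorem poly_cc {D : α → ℕ} (hD : UPoly D) : Poly (fun a => cc (D a)) := by
  have h2 : UPoly (fun a => D a + 2) := UPoly.add hD (UPoly.const 2)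
  exact (Poly.npow (Poly.const 2) (UPoly.mul h2 h2)).congr fun a => by unfold cc; rw [sq]

theorem poly_cDel {D : α → ℕ} (hD : UPoly D) : Poly (fun a => cDel (D a)) := by
  have h2 : UPoly (fun a => D a + 3) := UPoly.add hD (UPoly.const 3)
  exact (Poly.npow (Poly.const 2) (UPoly.mul (UPoly.mul h2 h2) h2)).congr fun a => by
    unfold cDel; rw [pow_succ _ 2, sq]

theorem poly_cM {D : α → ℕ} (hD : UPoly D) : Poly (fun a => cM (D a)) := by
  have h2 : UPoly (fun a => D a + 4) := UPoly.add hD (UPoly.const 4)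
  exact (Poly.npow (Poly.const 2) (UPoly.mul (UPoly.mul h2 h2) h2)).congr fun a => by
    unfold cM; rw [pow_succ _ 2, sq]

theorem poly_cw {D : α → ℕ} (hD : UPoly D) : Poly (fun a => cw (D a)) :=
  (Poly.mul (Poly.const 2) (Poly.mul (poly_cM hD) (poly_cM hD))).congr fun a => by
    unfold cw; rw [sq]

theorem poly_dot {u v : α → Vec} (hu : Poly u) (hv : Poly v) :
    Poly (fun a => dot (u a) (v a)) := Poly.dot hu hv

theorem poly_colD {vs : α → List Vec} {i : α → ℕ} (hv : Poly vs) (hi : Poly i) :
    Poly (fun a => (vs a).map fun v => v.getD (i a) 0) :=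
  Poly.map (F := fun a (v : Vec) => v.getD (i a) 0) hv
    (Poly.getD (Poly.snd Poly.id) (hi.comp (Poly.fst Poly.id)) (Poly.const 0))

theorem poly_lin {x0 y : α → Vec} {vs : α → List Vec} (hx : Poly x0) (hv : Poly vs)
    (hy : Poly y) : Poly (fun a => lin (x0 a) (vs a) (y a)) := by
  have h1 : Poly (fun p : α × ℕ => p.1) := Poly.fst Poly.id
  have h2 : Poly (fun p : α × ℕ => p.2) := Poly.snd Poly.id
  exact Poly.map (F := fun a i => (x0 a).getD i 0 + dot (y a) ((vs a).map fun v => v.getD i 0))
    (Poly.range_length hx) (Poly.iadd (Poly.getD (hx.comp h1) h2 (Poly.const 0))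
      (poly_dot (hy.comp h1) (poly_colD (hv.comp h1) h2)))

theorem poly_replicate {n : α → ℕ} {b : α → β} (hn : UPoly n) (hb : Poly b) :
    Poly (fun a => List.replicate (n a) (b a)) :=
  (Poly.map (F := fun a (_ : Unit) => b a) hn (hb.comp (Poly.fst Poly.id))).congr fun a => by
    rw [List.map_replicate]

theorem poly_zv {n : α → ℕ} (hn : UPoly n) : Poly (fun a => zv (n a)) :=
  poly_replicate hn (Poly.const 0)

theorem poly_unitV {n k : α → ℕ} (hn : UPoly n) (hk : Poly k) :
    Poly (fun a => unitV (n a) (k a)) := by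
  have h1 : Poly (fun p : α × ℕ => p.1) := Poly.fst Poly.id
  have h2 : Poly (fun p : α × ℕ => p.2) := Poly.snd Poly.id
  exact Poly.map (F := fun a i => bif decide (i = k a) then (1 : ℤ) else 0) hn.range
    (Poly.cond (Poly.decide_eq h2 (hk.comp h1)) (Poly.const 1) (Poly.const 0))

theorem poly_bump {q : α → Vec} {k : α → ℕ} {s : α → ℤ} (hq : Poly q) (hk : Poly k)
    (hs : Poly s) : Poly (fun a => bump (q a) (k a) (s a)) := by
  have h1 : Poly (fun p : α × ℕ => p.1) := Poly.fst Poly.id
  have h2 : Poly (fun p : α × ℕ => p.2) := Poly.snd Poly.id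
  exact Poly.map (F := fun a i => (q a).getD i 0 + bif decide (i = k a) then s a else 0)
    (Poly.range_length hq) (Poly.iadd (Poly.getD (hq.comp h1) h2 (Poly.const 0))
      (Poly.cond (Poly.decide_eq h2 (hk.comp h1)) (hs.comp h1) (Poly.const 0)))

theorem poly_nneg {v : α → Vec} (hv : Poly v) : Poly (fun a => nneg (v a)) :=
  Poly.map (F := fun _ (x : ℤ) => -x) hv (Poly.ineg (Poly.snd Poly.id))

theorem poly_vsub {u v : α → Vec} (hu : Poly u) (hv : Poly v) :
    Poly (fun a => vsub (u a) (v a)) :=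
  Poly.zipWith (F := fun _ (x y : ℤ) => x - y) hu hv
    (Poly.isub (Poly.fst (Poly.snd Poly.id)) (Poly.snd (Poly.snd Poly.id)))

theorem poly_nrm {v : α → Vec} (hv : Poly v) : Poly (fun a => nrm (v a)) :=
  Poly.sum (Poly.map (F := fun _ (x : ℤ) => x.natAbs) hv (Poly.natAbs (Poly.snd Poly.id)))

theorem size_mul_le (m n : ℕ) : (m * n).size ≤ m.size + n.size := by
  rw [Nat.size_le, pow_add]
  exact Nat.mul_lt_mul'' (Nat.lt_size_self m) (Nat.lt_size_self n)

theorem size_foldl_mul (l : List ℕ) (s : ℕ) :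
    (l.foldl (fun s x => s * x) s).size ≤ s.size + sz l := by
  induction l generalizing s with
  | nil => simp
  | cons x l ih =>
    rw [List.foldl_cons]
    have h1 := ih (s * x)
    have h2 := size_mul_le s x
    have h3 := size_le_sz x
    have h4 : sz (x :: l) = sz x + sz l + 1 := sz_list_cons _ _
    omega

theorem foldl_mul_eq (l : List ℕ) (s : ℕ) : l.foldl (fun s x => s * x) s = s * l.prod := by
  induction l generalizing s with
  | nil => simp
  | cons x l ih => rw [List.foldl_cons, ih, List.prod_cons, mul_assoc]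

theorem poly_prod {l : α → List ℕ} (hl : Poly l) : Poly (fun a => (l a).prod) := by
  obtain ⟨r, hr⟩ := hl.sz_le
  refine (Poly.foldl (s := fun _ => (1 : ℕ)) (F := fun _ s x => s * x) hl (Poly.const 1)
    (Poly.mul (Poly.fst (Poly.snd Poly.id)) (Poly.snd (Poly.snd Poly.id)))
    (Polynomial.C 4 * r + Polynomial.C 5) ?_).congr fun a => by rw [foldl_mul_eq, one_mul]
  intro a k _
  have h1 := size_foldl_mul ((l a).take k) 1
  have h2 := Poly.sz_take_le (l a) k
  have h3 := hr a
  have h4 := sz_nat_le (((l a).take k).foldl (fun s x => s * x) 1)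
  have h5 : (1 : ℕ).size = 1 := by decide
  simp only [Polynomial.eval_add, Polynomial.eval_mul, Polynomial.eval_C]
  omega

theorem bind_pure_int (l : List ℕ) : (do
    let a ← l
    pure (a : ℤ)) = l.map fun (i : ℕ) => (i : ℤ) := by
  simp [List.map_eq_flatMap]

theorem gridStep_eq (M : ℕ) (l : List Vec) : gridStep M l =
    l.flatMap fun v => (List.range (2 * M + 1)).map fun (i : ℕ) => ((i : ℤ) - (M : ℤ)) :: v := by
  unfold gridStep
  rw [bind_pure_int]
  simp only [List.map_map]
  rfl

theorem poly_gridStep {M : α → ℕ} {l : α → List Vec} (hM : UPoly M) (hl : Poly l) :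
    Poly (fun a => gridStep (M a) (l a)) := by
  have h1 : Poly (fun p : (α × Vec) × ℕ => p.1.1) := Poly.fst (Poly.fst Poly.id)
  have h2 : Poly (fun p : (α × Vec) × ℕ => p.1.2) := Poly.snd (Poly.fst Poly.id)
  have h3 : Poly (fun p : (α × Vec) × ℕ => p.2) := Poly.snd Poly.id
  have h4 : UPoly (fun p : α × Vec => 2 * M p.1 + 1) :=
    UPoly.comp (n := fun a => 2 * M a + 1)
      (UPoly.add (UPoly.mul (UPoly.const 2) hM) (UPoly.const 1)) (Poly.fst Poly.id)
  exact (Poly.flatMap (F := fun a (v : Vec) => (List.range (2 * M a + 1)).map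
      fun (i : ℕ) => ((i : ℤ) - (M a : ℤ)) :: v) hl
    (Poly.map (F := fun (p : α × Vec) (i : ℕ) => ((i : ℤ) - (M p.1 : ℤ)) :: p.2) h4.range
      (Poly.cons (Poly.isub (Poly.natCast h3) (Poly.natCast (hM.toPoly.comp h1))) h2))).congr
    fun a => (gridStep_eq _ _).symm

theorem poly_grid {B M n : α → ℕ} (hB : UPoly B) (hM : UPoly M) (hn : UPoly n) :
    Poly (fun a => grid (B a) (M a) (n a)) :=
  poly_iterCap hB hn (F := fun a l => gridStep (M a) l) (d := fun _ => ([] : List Vec))
    (s := fun _ => [([] : Vec)])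
    (poly_gridStep (UPoly.comp hM (Poly.fst Poly.id)) (Poly.snd Poly.id)) (Poly.const _)
    (Poly.const _)

end Pool.Agent.NPC.R960

namespace Run7.h960

export Pool.Agent.NPC.R960 (upoly_sz poly_iterCap poly_cc poly_cDel poly_cM poly_cw poly_lin poly_zv
  poly_unitV poly_bump poly_nneg poly_vsub poly_nrm poly_prod poly_grid)

end Run7.h960
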