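import Pool.Agent.Run7.h960.RebMath

set_option autoImplicit false

/-!
# Lattice reduction for a slab
-/

namespace Run7.h960

open Pool.Agent.NPC
open Pool.Agent.H687R2.LLL (dot nrm lllStep cnt fsts gsr lv sq Zs Pos Inv Lov g gd W)
open scoped InnerProductSpace

theorem rebOK_iff {M Δ : ℕ} {l : List ℕ} {c : Vec} {j : ℕ} : rebOK M Δ l c j = true ↔
    0 < M ∧ 0 < Δ ∧ (∀ m ∈ l, 0 < m) ∧ j < l.length ∧ c.getD j 0 = (M : ℤ) := by
  unfold rebOK
  simp only [Bool.and_eq_true, decide_eq_true_eq, List.all_eq_true, and_assoc]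

theorem prodEx_mul {l : List ℕ} {k : ℕ} (hk : k < l.length) :
    prodEx l k * l.getD k 0 = l.prod := by
  unfold prodEx
  apply Nat.div_mul_cancel
  rw [List.getD_eq_getElem _ _ hk]
  exact List.dvd_prod (List.getElem_mem _)

theorem prod_pos_of {l : List ℕ} (hl : ∀ m ∈ l, 0 < m) : 0 < l.prod :=
  List.prod_pos hl

theorem prodEx_pos {l : List ℕ} (hl : ∀ m ∈ l, 0 < m) {k : ℕ} (hk : k < l.length) :
    0 < prodEx l k := by
  have h1 := prodEx_mul hk
  have h2 := prod_pos_of hl
  rw [← h1] at h2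
  exact Nat.pos_of_mul_pos_right h2

theorem arows_getD {M Δ : ℕ} {l : List ℕ} {c : Vec} {j k : ℕ} (hk : k < l.length) :
    (arows M Δ l c j).getD k [] = arow M Δ l c j k := by
  unfold arows
  rw [getD_map_range, if_pos hk]

@[simp] theorem length_arows (M Δ : ℕ) (l : List ℕ) (c : Vec) (j : ℕ) :
    (arows M Δ l c j).length = l.length := by simp [arows]

@[simp] theorem length_arow (M Δ : ℕ) (l : List ℕ) (c : Vec) (j k : ℕ) :
    (arow M Δ l c j k).length = l.length := by simp [arow]

theorem arows_len (M Δ : ℕ) (l : List ℕ) (c : Vec) (j : ℕ) :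
    ∀ u ∈ arows M Δ l c j, u.length = l.length := by
  intro u hu
  unfold arows at hu
  rw [List.mem_map] at hu
  obtain ⟨k, _, rfl⟩ := hu
  simp

theorem arow_getD {M Δ : ℕ} {l : List ℕ} {c : Vec} {j k i : ℕ} (hi : i < l.length) :
    (arow M Δ l c j k).getD i 0 = if i = j then (Δ : ℤ) * c.getD k 0 * (prodEx l k : ℤ)
      else if i = k then (M : ℤ) * (prodEx l k : ℤ) else 0 := by
  unfold arow
  rw [getD_map_range, if_pos hi]
  by_cases h1 : i = j
  · simp [h1]
  · by_cases h2 : i = k
    · rw [if_neg h1, if_pos h2]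
      subst h2
      simp [h1]
    · simp [h1, h2]

/-- the linear map given by the rows -/
def Rv (M Δ : ℕ) (l : List ℕ) (c : Vec) (j : ℕ) (u : Vec) : Vec :=
  lin (zv l.length) (arows M Δ l c j) u

@[simp] theorem length_Rv (M Δ : ℕ) (l : List ℕ) (c : Vec) (j : ℕ) (u : Vec) :
    (Rv M Δ l c j u).length = l.length := by simp [Rv]

/-- the functional of the slab -/
theorem dot_slab (l : List ℕ) (c u : Vec) :
    dot u ((List.range l.length).map fun k => c.getD k 0 * (prodEx l k : ℤ)) =
      ∑ k ∈ Finset.range l.length, u.getD k 0 * (c.getD k 0 * (prodEx l k : ℤ)) := by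
  rw [dot_eq_sum (N := l.length) (Or.inr (by simp))]
  refine Finset.sum_congr rfl fun k hk => ?_
  rw [getD_map_range, if_pos (Finset.mem_range.1 hk)]

theorem Rv_getD_j {M Δ : ℕ} {l : List ℕ} {c : Vec} {j : ℕ} (hj : j < l.length) (u : Vec) :
    (Rv M Δ l c j u).getD j 0 = (Δ : ℤ) *
      ∑ k ∈ Finset.range l.length, u.getD k 0 * (c.getD k 0 * (prodEx l k : ℤ)) := by
  unfold Rv
  rw [getD_lin_sum (by simpa using hj), getD_zv, zero_add, length_arows, Finset.mul_sum]
  refine Finset.sum_congr rfl fun k hk => ?_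
  rw [arows_getD (Finset.mem_range.1 hk), arow_getD hj, if_pos rfl]
  ring

theorem Rv_getD_ne {M Δ : ℕ} {l : List ℕ} {c : Vec} {j i : ℕ} (hi : i < l.length) (hij : i ≠ j)
    (u : Vec) : (Rv M Δ l c j u).getD i 0 = (M : ℤ) * (prodEx l i : ℤ) * u.getD i 0 := by
  unfold Rv
  rw [getD_lin_sum (by simpa using hi), getD_zv, zero_add, length_arows,
    Finset.sum_eq_single i]
  · rw [arows_getD hi, arow_getD hi, if_neg hij, if_pos rfl]
    ring
  · intro k hk hki
    rw [arows_getD (Finset.mem_range.1 hk), arow_getD hi, if_neg hij, if_neg (Ne.symm hki),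
      mul_zero]
  · intro h
    exact absurd (Finset.mem_range.2 hi) h

/-- Linearity. -/
theorem lin_lin {n m : ℕ} (A vs : List Vec) (a : Vec) (hA : A.length = m) :
    lin (zv n) A (lin (zv m) vs a) = lin (zv n) (vs.map fun v => lin (zv n) A v) a := by
  refine vec_ext (by simp) fun i hi => ?_
  have hi' : i < (zv n).length := by simpa using hi
  rw [getD_lin_sum hi', getD_lin_sum hi', getD_zv, zero_add, zero_add, List.length_map]
  have h1 : ∀ k ∈ Finset.range A.length, (lin (zv m) vs a).getD k 0 * (A.getD k []).getD i 0 =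
      ∑ p ∈ Finset.range vs.length, a.getD p 0 * ((vs.getD p []).getD k 0 *
        (A.getD k []).getD i 0) := by
    intro k hk
    have hk' : k < (zv m).length := by rw [length_zv, ← hA]; exact Finset.mem_range.1 hk
    rw [getD_lin_sum hk', getD_zv, zero_add, Finset.sum_mul]
    exact Finset.sum_congr rfl fun p _ => by ring
  rw [Finset.sum_congr rfl h1, Finset.sum_comm]
  refine Finset.sum_congr rfl fun p hp => ?_
  have hp' : p < vs.length := Finset.mem_range.1 hp
  rw [← Finset.mul_sum]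
  congr 1
  rw [List.getD_eq_getElem (vs.map _) _ (by simpa using hp'), List.getElem_map,
    getD_lin_sum hi', getD_zv, zero_add, List.getD_eq_getElem vs _ hp']

theorem rec0_getD {M : ℕ} {l : List ℕ} {j i : ℕ} {r : Vec} (hi : i < l.length) :
    (rec0 M l j r).getD i 0 = if i = j then 0 else r.getD i 0 / ((M * prodEx l i : ℕ) : ℤ) := by
  unfold rec0
  rw [getD_map_range, if_pos hi]
  by_cases h1 : i = j <;> simp [h1]

@[simp] theorem length_recv (M Δ : ℕ) (l : List ℕ) (c : Vec) (j : ℕ) (r : Vec) :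
    (recv M Δ l c j r).length = l.length := by simp [recv]

/-- The coefficients are recovered. -/
theorem recv_Rv {M Δ : ℕ} {l : List ℕ} {c : Vec} {j : ℕ} (h : rebOK M Δ l c j = true)
    {v : Vec} (hv : v.length = l.length) : recv M Δ l c j (Rv M Δ l c j v) = v := by
  obtain ⟨hM, hΔ, hl, hj, hc⟩ := rebOK_iff.1 h
  refine vec_ext (by simp [hv]) fun i hi => ?_
  have hi' : i < l.length := by simpa using hi
  have hM' : (M : ℤ) ≠ 0 := by exact_mod_cast hM.ne'
  have hΔ' : (Δ : ℤ) ≠ 0 := by exact_mod_cast hΔ.ne'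
  have h0 : ∀ k < l.length, k ≠ j → (rec0 M l j (Rv M Δ l c j v)).getD k 0 = v.getD k 0 := by
    intro k hk hkj
    rw [rec0_getD hk, if_neg hkj, Rv_getD_ne hk hkj]
    have hp : (prodEx l k : ℤ) ≠ 0 := by exact_mod_cast (prodEx_pos hl hk).ne'
    push_cast
    exact Int.mul_ediv_cancel_left _ (mul_ne_zero hM' hp)
  have hj0 : (rec0 M l j (Rv M Δ l c j v)).getD j 0 = 0 := by
    rw [rec0_getD hj, if_pos rfl]
  unfold recv
  rw [getD_map_range, if_pos hi']
  by_cases hij : i = j
  · subst hij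
    simp only [decide_true, cond_true]
    rw [dot_slab, Rv_getD_j hj]
    have h1 : ∑ k ∈ Finset.range l.length, v.getD k 0 * (c.getD k 0 * (prodEx l k : ℤ)) =
        v.getD i 0 * (c.getD i 0 * (prodEx l i : ℤ)) +
        ∑ k ∈ Finset.range l.length, (rec0 M l i (Rv M Δ l c i v)).getD k 0 *
          (c.getD k 0 * (prodEx l k : ℤ)) := by
      rw [← Finset.add_sum_erase _ _ (Finset.mem_range.2 hj),
        ← Finset.add_sum_erase (Finset.range l.length)
          (fun k => (rec0 M l i (Rv M Δ l c i v)).getD k 0 * (c.getD k 0 * (prodEx l k : ℤ)))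
          (Finset.mem_range.2 hj)]
      simp only [hj0, zero_mul, zero_add]
      congr 1
      refine Finset.sum_congr rfl fun k hk => ?_
      rw [Finset.mem_erase, Finset.mem_range] at hk
      rw [h0 k hk.2 hk.1]
    rw [h1, hc]
    have hp : (prodEx l i : ℤ) ≠ 0 := by exact_mod_cast (prodEx_pos hl hj).ne'
    have h2 : (Δ : ℤ) * (v.getD i 0 * ((M : ℤ) * (prodEx l i : ℤ)) +
        ∑ k ∈ Finset.range l.length, (rec0 M l i (Rv M Δ l c i v)).getD k 0 *
          (c.getD k 0 * (prodEx l k : ℤ))) -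
        (Δ : ℤ) * ∑ k ∈ Finset.range l.length, (rec0 M l i (Rv M Δ l c i v)).getD k 0 *
          (c.getD k 0 * (prodEx l k : ℤ)) = ((Δ * M * prodEx l i : ℕ) : ℤ) * v.getD i 0 := by
      push_cast
      ring
    rw [h2]
    apply Int.mul_ediv_cancel_left
    push_cast
    exact mul_ne_zero (mul_ne_zero hΔ' hM') hp
  · simp only [hij, decide_false, cond_false]
    exact h0 i hi' hij

theorem Rv_inj {M Δ : ℕ} {l : List ℕ} {c : Vec} {j : ℕ} (h : rebOK M Δ l c j = true)
    {v w : Vec} (hv : v.length = l.length) (hw : w.length = l.length)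
    (hvw : Rv M Δ l c j v = Rv M Δ l c j w) : v = w := by
  rw [← recv_Rv h hv, hvw, recv_Rv h hw]

theorem sq_arows {M Δ : ℕ} {l : List ℕ} {c : Vec} {j : ℕ} {k : ℕ} (hk : k < l.length)
    (i : Fin l.length) :
    sq l.length (arows M Δ l c j) k i = ((if (i : ℕ) = j then (Δ : ℤ) * c.getD k 0 *
      (prodEx l k : ℤ) else if (i : ℕ) = k then (M : ℤ) * (prodEx l k : ℤ) else 0 : ℤ) : ℝ) := by
  rw [Pool.Agent.H687R2.LLL.sq, Pool.Agent.H687R2.LLL.lv_apply, arows_getD hk, arow_getD i.2]

/-- The rows are linearly independent. -/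
theorem arows_pos {M Δ : ℕ} {l : List ℕ} {c : Vec} {j : ℕ} (h : rebOK M Δ l c j = true) :
    Pos (sq l.length (arows M Δ l c j)) l.length := by
  obtain ⟨hM, hΔ, hl, hj, hc⟩ := rebOK_iff.1 h
  intro m hm
  have hli : LinearIndependent ℝ (fun p : Fin m => sq l.length (arows M Δ l c j) p) := by
    rw [Fintype.linearIndependent_iff]
    intro a ha
    have hco : ∀ i : Fin l.length, ∑ p : Fin m, a p *
        ((if (i : ℕ) = j then (Δ : ℤ) * c.getD p 0 * (prodEx l p : ℤ) else
          if (i : ℕ) = p then (M : ℤ) * (prodEx l p : ℤ) else 0 : ℤ) : ℝ) = 0 := by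
      intro i
      have h1 := congrArg (fun x => x i) ha
      simp only [PiLp.zero_apply] at h1
      rw [← h1, WithLp.ofLp_sum, Finset.sum_apply]
      refine Finset.sum_congr rfl fun p _ => ?_
      have hp : (p : ℕ) < l.length := by omega
      rw [← sq_arows hp i]
      simp
    have hne : ∀ p : Fin m, (p : ℕ) ≠ j → a p = 0 := by
      intro p hp
      have hpl : (p : ℕ) < l.length := by omega
      have h1 := hco ⟨p, hpl⟩
      simp only [hp, if_false] at h1
      rw [Finset.sum_eq_single p] at h1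
      · simp only [if_true] at h1
        have h2 : (M : ℝ) * (prodEx l p : ℝ) ≠ 0 := by
          have := prodEx_pos hl hpl
          positivity
        have h3 : a p * ((M : ℝ) * (prodEx l p : ℝ)) = 0 := by
          rw [← h1]
          push_cast
          ring
        exact (mul_eq_zero.1 h3).resolve_right h2
      · intro q _ hq
        have : (p : ℕ) ≠ q := fun e => hq (Fin.ext e.symm)
        simp [this]
      · intro h; exact absurd (Finset.mem_univ _) h
    intro p
    by_cases hp : (p : ℕ) = j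
    · have h1 := hco ⟨j, hj⟩
      simp only [if_true] at h1
      rw [Finset.sum_eq_single p] at h1
      · have h2 : (Δ : ℝ) * (M : ℝ) * (prodEx l p : ℝ) ≠ 0 := by
          have := prodEx_pos hl (k := p) (by omega)
          positivity
        have h3 : a p * ((Δ : ℝ) * (M : ℝ) * (prodEx l p : ℝ)) = 0 := by
          rw [← h1, hp, hc]
          push_cast
          ring
        exact (mul_eq_zero.1 h3).resolve_right h2
      · intro q _ hq
        rw [hne q (fun e => hq (Fin.ext (e.trans hp.symm)))]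
        simp
      · intro h; exact absurd (Finset.mem_univ _) h
    · exact hne p hp
  have h2 := (Matrix.posDef_gram_of_linearIndependent hli).det_pos
  exact h2

/-- The rows are linearly independent (also needed for the running time). -/
theorem arows_valid {M Δ : ℕ} {l : List ℕ} {c : Vec} {j : ℕ} (h : rebOK M Δ l c j = true) :
    Pool.Agent.H687R2.LLL.Valid (arows M Δ l c j) :=
  ⟨l.length, arows_len M Δ l c j, by rw [length_arows]; exact arows_pos h⟩

/-- Properties of the reduced basis. -/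
structure RedSpec (n : ℕ) (A B : List Vec) : Prop where
  len : B.length = n
  lens : ∀ u ∈ B, u.length = n
  lov : Lov (sq n B) n
  red : ∀ i < n, ∀ k < i, |⟪g (sq n B) k, sq n B i⟫_ℝ| ≤ ‖g (sq n B) k‖ ^ 2 / 2
  span : Zs (sq n B) n = Zs (sq n A) n
  gd : gd (sq n B) n = gd (sq n A) n
  pos : Pos (sq n B) n
  nrm : ∀ X : ℝ, (∀ i < n, ‖sq n A i‖ ^ 2 ≤ X) → ∀ i < n, ‖sq n B i‖ ^ 2 ≤ n * X

theorem redB_spec {n : ℕ} {A : List Vec} (hn : A.length = n) (hA : ∀ u ∈ A, u.length = n)
    (hp : Pos (sq n A) n) : RedSpec n A (redB A) := by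
  have hp' : Pos (sq n A) A.length := by rw [hn]; exact hp
  have h0 := Pool.Agent.H687R2.LLL.Valid.inv hA hp'
  rw [hn] at h0
  have h1 := Pool.Agent.H687R2.LLL.iter_inv h0 (cnt (sz A))
  have h2 := Pool.Agent.H687R2.LLL.fsts_inv h1
  have hk : n ≤ sz A := by
    have := length_lt_sz A
    omega
  have hlov := Pool.Agent.H687R2.LLL.iter_lov h0 (one_le_pow₀ (by norm_num))
    (Pool.Agent.H687R2.LLL.cnt_spec hk)
  refine ⟨h2.len, h2.lens, ?_, Pool.Agent.H687R2.LLL.fsts_red h1, h2.span, ?_, h2.pos, ?_⟩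
  · intro i hi
    unfold redB
    rw [Pool.Agent.H687R2.LLL.fsts_g h1 _ (by omega), Pool.Agent.H687R2.LLL.fsts_g h1 _ (by omega)]
    exact hlov i hi
  · unfold redB
    rw [gd_fsts h1, gd_iter h0]
  · intro X hX i hi
    have h3 : Inv n n X (Zs (sq n A) n) A := ⟨hn, hA, hp, fun i hi =>
      (pow_le_pow_left₀ (norm_nonneg _) (Pool.Agent.H687R2.LLL.norm_g_le _ _) 2).trans (hX i hi),
      rfl⟩
    have h4 := Pool.Agent.H687R2.LLL.iter_inv h3 (cnt (sz A))
    exact Pool.Agent.H687R2.LLL.fsts_norm h4 i hi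

theorem arows_red {M Δ : ℕ} {l : List ℕ} {c : Vec} {j : ℕ} (h : rebOK M Δ l c j = true) :
    RedSpec l.length (arows M Δ l c j) (redB (arows M Δ l c j)) :=
  redB_spec (length_arows _ _ _ _ _) (arows_len _ _ _ _ _) (arows_pos h)

theorem lv_lin (n : ℕ) (vs : List Vec) (a : Vec) :
    lv n (lin (zv n) vs a) = ∑ k ∈ Finset.range vs.length, ((a.getD k 0 : ℤ) : ℝ) • sq n vs k := by
  ext i
  rw [Pool.Agent.H687R2.LLL.lv_apply, getD_lin_sum (by simp), getD_zv, zero_add,
    WithLp.ofLp_sum, Finset.sum_apply]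
  push_cast
  refine Finset.sum_congr rfl fun k _ => ?_
  simp only [PiLp.smul_apply, smul_eq_mul, Pool.Agent.H687R2.LLL.sq, Pool.Agent.H687R2.LLL.lv_apply]

/-- Lattice vectors are combinations. -/
theorem mem_Zs_lin {n : ℕ} {vs : List Vec} (hn : vs.length = n) {r : Vec} (hr : r.length = n)
    (h : lv n r ∈ Zs (sq n vs) n) : ∃ a : Vec, a.length = n ∧ r = lin (zv n) vs a := by
  obtain ⟨c, hc⟩ := exists_coeff n _ h
  refine ⟨(List.range n).map c, by simp, ?_⟩
  apply Pool.Agent.H687R2.LLL.lv_inj hr (by simp)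
  rw [hc, lv_lin, hn]
  refine Finset.sum_congr rfl fun k hk => ?_
  rw [getD_map_range, if_pos (Finset.mem_range.1 hk)]

theorem lin_mem_Zs {n : ℕ} {vs : List Vec} (hn : vs.length = n) (a : Vec) :
    lv n (lin (zv n) vs a) ∈ Zs (sq n vs) n := by
  rw [lv_lin, hn]
  exact sum_mem_Zs (fun k => a.getD k 0) n

theorem lv_mem_of_mem {n : ℕ} {B : List Vec} (hB : B.length = n) {r : Vec} (hr : r ∈ B) :
    lv n r ∈ Zs (sq n B) n := by
  obtain ⟨i, hi, rfl⟩ := List.getElem_of_mem hr
  have : lv n B[i] = sq n B i := by rw [Pool.Agent.H687R2.LLL.sq, List.getD_eq_getElem _ _ hi]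
  rw [this]
  exact Pool.Agent.H687R2.LLL.mem_Zs (by omega)

/-- The vectors of the reduced basis are in the image. -/
theorem red_mem {M Δ : ℕ} {l : List ℕ} {c : Vec} {j : ℕ} (h : rebOK M Δ l c j = true) {r : Vec}
    (hr : r ∈ redB (arows M Δ l c j)) : Rv M Δ l c j (recv M Δ l c j r) = r := by
  have hs := arows_red h
  have h1 := lv_mem_of_mem hs.len hr
  rw [hs.span] at h1
  obtain ⟨a, ha, h2⟩ := mem_Zs_lin (length_arows M Δ l c j) (hs.lens r hr) h1
  have h3 : r = Rv M Δ l c j a := h2
  rw [h3, recv_Rv h ha]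

theorem reb_fst {C M Δ : ℕ} {l : List ℕ} {c : Vec} {j : ℕ} (h : rebOK M Δ l c j = true) :
    (reb C M Δ l c j).map (fun p => p.1) =
      (redB (arows M Δ l c j)).map fun r => recv M Δ l c j r := by
  simp [reb, h]

theorem reb_snd {C M Δ : ℕ} {l : List ℕ} {c : Vec} {j : ℕ} (h : rebOK M Δ l c j = true) :
    (reb C M Δ l c j).map (fun p => p.2) =
      (redB (arows M Δ l c j)).map fun r => C * (M * M) * l.prod / nrm r := by
  simp [reb, h]

/-- Shape of the new basis. -/
theorem reb_len {D M : ℕ} {l : List ℕ} {c : Vec} {j : ℕ}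
    (h : rebOK M (cDel D) l c j = true) :
    (reb (cc D) M (cDel D) l c j).length = l.length ∧
      ∀ p ∈ reb (cc D) M (cDel D) l c j, p.1.length = l.length := by
  have hs := arows_red h
  constructor
  · simp [reb, h, hs.len]
  · intro p hp
    simp only [reb, h, cond_true, List.mem_map] at hp
    obtain ⟨r, _, rfl⟩ := hp
    simp

theorem Rv_lin_reb {C M Δ : ℕ} {l : List ℕ} {c : Vec} {j : ℕ} (h : rebOK M Δ l c j = true)
    (a : Vec) : Rv M Δ l c j (lin (zv l.length) ((reb C M Δ l c j).map fun p => p.1) a) =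
      lin (zv l.length) (redB (arows M Δ l c j)) a := by
  have e : ((redB (arows M Δ l c j)).map fun r => recv M Δ l c j r).map
      (fun v => lin (zv l.length) (arows M Δ l c j) v) = redB (arows M Δ l c j) := by
    rw [List.map_map]
    refine (List.map_congr_left (g := id) ?_).trans (List.map_id _)
    intro r hr
    exact red_mem h hr
  unfold Rv
  rw [lin_lin _ _ _ (length_arows _ _ _ _ _), reb_fst h, e]

/-- The new basis generates all integer vectors. -/
theorem reb_gen {D M : ℕ} {l : List ℕ} {c : Vec} {j : ℕ}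
    (h : rebOK M (cDel D) l c j = true) (u : Vec) (hu : u.length = l.length) :
    ∃ a : Vec, a.length = l.length ∧
      u = lin (zv l.length) ((reb (cc D) M (cDel D) l c j).map fun p => p.1) a := by
  have hs := arows_red h
  have h1 : lv l.length (Rv M (cDel D) l c j u) ∈ Zs (sq l.length (redB (arows M (cDel D) l c j)))
      l.length := by
    rw [hs.span]
    exact lin_mem_Zs (length_arows _ _ _ _ _) u
  obtain ⟨a, ha, h2⟩ := mem_Zs_lin hs.len (length_Rv _ _ _ _ _ _) h1
  refine ⟨a, ha, Rv_inj h hu (by simp) ?_⟩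
  rw [h2, Rv_lin_reb h]

/-! ### bounds -/

theorem red_nrm_pos {n : ℕ} {A B : List Vec} (hs : RedSpec n A B) {r : Vec} (hr : r ∈ B) :
    0 < nrm r := by
  obtain ⟨i, hi, rfl⟩ := List.getElem_of_mem hr
  have hi' : i < n := by rw [← hs.len]; exact hi
  have h1 := hs.pos.g_pos hi'
  have h2 := Pool.Agent.H687R2.LLL.norm_g_le (sq n B) i
  have h3 : sq n B i = lv n B[i] := by
    rw [Pool.Agent.H687R2.LLL.sq, List.getD_eq_getElem _ _ hi]
  rw [h3] at h2
  have h4 := norm_lv_le_nrm B[i] (hs.lens _ hr)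
  by_contra h5
  have h6 : nrm B[i] = 0 := by omega
  rw [h6] at h4
  have h7 : ‖g (sq n B) i‖ = 0 := by
    have := norm_nonneg (g (sq n B) i)
    simp only [Nat.cast_zero] at h4
    linarith
  rw [h7] at h1
  simp at h1

theorem cc_bound {n D : ℕ} (h : n ≤ D) : 3 * n * 4 ^ n ≤ cc D := by
  unfold cc
  have h1 : n ≤ 2 ^ n := Nat.lt_two_pow_self.le
  have h2 : (4 : ℕ) ^ n = 2 ^ (2 * n) := by rw [pow_mul]; norm_num
  calc 3 * n * 4 ^ n ≤ 4 * 2 ^ n * 2 ^ (2 * n) := by
        rw [h2]
        exact Nat.mul_le_mul_right _ (Nat.mul_le_mul (by norm_num) h1)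
    _ = 2 ^ (2 + n + 2 * n) := by rw [pow_add, pow_add]; norm_num
    _ ≤ 2 ^ ((D + 2) ^ 2) := by
        apply Nat.pow_le_pow_right (by norm_num)
        nlinarith

theorem final_bound {α x y w K : ℝ} {n : ℕ} (hα : 0 ≤ α) (hw : 0 ≤ w) (hK : 0 ≤ K)
    (h1 : y ^ 2 ≤ n * w ^ 2) (h2 : α * w ≤ 4 ^ n * x) (h3 : x ^ 2 ≤ n * K ^ 2) :
    α * y ≤ n * 4 ^ n * K := by
  have e1 : (α * y) ^ 2 ≤ (n * 4 ^ n * K) ^ 2 := by
    calc (α * y) ^ 2 = α ^ 2 * y ^ 2 := by ring
      _ ≤ α ^ 2 * (n * w ^ 2) := mul_le_mul_of_nonneg_left h1 (by positivity)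
      _ = n * (α * w) ^ 2 := by ring
      _ ≤ n * (4 ^ n * x) ^ 2 := by
          apply mul_le_mul_of_nonneg_left _ (by positivity)
          exact pow_le_pow_left₀ (by positivity) h2 2
      _ = n * (4 ^ n) ^ 2 * x ^ 2 := by ring
      _ ≤ n * (4 ^ n) ^ 2 * (n * K ^ 2) := mul_le_mul_of_nonneg_left h3 (by positivity)
      _ = (n * 4 ^ n * K) ^ 2 := by ring
  by_contra h'
  push Not at h'
  have : (0 : ℝ) ≤ n * 4 ^ n * K := by positivity
  nlinarith

/-- The slab is in the new box. -/
theorem reb_cover {D M : ℕ} {l : List ℕ} {c : Vec} {j : ℕ}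
    (h : rebOK M (cDel D) l c j = true) (hD : l.length ≤ D) (u a : Vec) (hu : u.length = l.length)
    (ha : a.length = l.length)
    (hua : u = lin (zv l.length) ((reb (cc D) M (cDel D) l c j).map fun p => p.1) a)
    (h1 : ∀ k < l.length, (u.getD k 0).natAbs ≤ (2 * M + 1) * l.getD k 0)
    (h2 : cDel D * (dot u ((List.range l.length).map fun k =>
      c.getD k 0 * (prodEx l k : ℤ))).natAbs ≤ M * M * l.prod) :
    ∀ i < l.length, (a.getD i 0).natAbs ≤
      ((reb (cc D) M (cDel D) l c j).map fun p => p.2).getD i 0 := by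
  intro i hi
  have hK0 : (0 : ℝ) ≤ 3 * (M * M) * l.prod := by positivity
  have hs := arows_red h
  obtain ⟨hM, hΔ, hl, hj, hc⟩ := rebOK_iff.1 h
  have hR : Rv M (cDel D) l c j u = lin (zv l.length) (redB (arows M (cDel D) l c j)) a := by
    conv_lhs => rw [hua]
    exact Rv_lin_reb h a
  -- coordinates
  have hco : ∀ k < l.length, ((Rv M (cDel D) l c j u).getD k 0).natAbs ≤ 3 * (M * M) * l.prod := by
    intro k hk
    by_cases hkj : k = j
    · subst hkj
      rw [Rv_getD_j hk, ← dot_slab, Int.natAbs_mul, Int.natAbs_natCast]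
      refine h2.trans ?_
      nlinarith [Nat.zero_le (M * M * l.prod)]
    · rw [Rv_getD_ne hk hkj, Int.natAbs_mul, Int.natAbs_mul, Int.natAbs_natCast,
        Int.natAbs_natCast]
      calc M * prodEx l k * (u.getD k 0).natAbs ≤ M * prodEx l k * ((2 * M + 1) * l.getD k 0) :=
            Nat.mul_le_mul_left _ (h1 k hk)
        _ = M * (2 * M + 1) * (prodEx l k * l.getD k 0) := by ring
        _ = M * (2 * M + 1) * l.prod := by rw [prodEx_mul hk]
        _ ≤ 3 * (M * M) * l.prod := by
            apply Nat.mul_le_mul_right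
            nlinarith
  have hx : ‖lv l.length (Rv M (cDel D) l c j u)‖ ^ 2 ≤
      l.length * (3 * (M * M) * l.prod : ℝ) ^ 2 := by
    rw [norm_lv_sq]
    calc ∑ k ∈ Finset.range l.length, (((Rv M (cDel D) l c j u).getD k 0 : ℤ) : ℝ) ^ 2
        ≤ ∑ k ∈ Finset.range l.length, (3 * (M * M) * l.prod : ℝ) ^ 2 := by
          apply Finset.sum_le_sum
          intro k hk
          have h3 := hco k (Finset.mem_range.1 hk)
          have h4 : |(((Rv M (cDel D) l c j u).getD k 0 : ℤ) : ℝ)| ≤ 3 * (M * M) * l.prod := by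
            have h5 : ((((Rv M (cDel D) l c j u).getD k 0).natAbs : ℕ) : ℝ) ≤
              ((3 * (M * M) * l.prod : ℕ) : ℝ) := by exact_mod_cast h3
            rw [Nat.cast_natAbs, Int.cast_abs] at h5
            simp only [Nat.cast_mul, Nat.cast_ofNat] at h5
            exact h5
          rw [← sq_abs]
          exact pow_le_pow_left₀ (abs_nonneg _) h4 2
      _ = l.length * (3 * (M * M) * l.prod : ℝ) ^ 2 := by simp
  -- back substitution
  have hb := back_sub hs.lov hs.red (fun k => ((a.getD k 0 : ℤ) : ℝ)) i hi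
  have hsum : ∑ m ∈ Finset.range l.length, ((a.getD m 0 : ℤ) : ℝ) •
      sq l.length (redB (arows M (cDel D) l c j)) m = lv l.length (Rv M (cDel D) l c j u) := by
    rw [hR, lv_lin, hs.len]
  simp only [hsum] at hb
  have hiB : i < (redB (arows M (cDel D) l c j)).length := by rw [hs.len]; exact hi
  set r := (redB (arows M (cDel D) l c j))[i] with hr
  have hrm : r ∈ redB (arows M (cDel D) l c j) := List.getElem_mem _
  have hsq : sq l.length (redB (arows M (cDel D) l c j)) i = lv l.length r := by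
    rw [Pool.Agent.H687R2.LLL.sq, List.getD_eq_getElem _ _ hiB]
  rw [hsq] at hb
  have hn := nrm_sq_le r (hs.lens r hrm)
  have hnpos := red_nrm_pos hs hrm
  -- the final bound
  have hfin : |((a.getD i 0 : ℤ) : ℝ)| * (nrm r : ℝ) ≤
      l.length * 4 ^ l.length * (3 * (M * M) * l.prod) :=
    final_bound (abs_nonneg _) (norm_nonneg _) hK0 hn hb hx
  have hfin2 : (a.getD i 0).natAbs * nrm r ≤ 3 * l.length * 4 ^ l.length * ((M * M) * l.prod) := by
    rw [← Int.cast_abs, ← Nat.cast_natAbs] at hfin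
    have h3 : (a.getD i 0).natAbs * nrm r ≤ l.length * 4 ^ l.length * (3 * (M * M) * l.prod) := by
      exact_mod_cast hfin
    refine h3.trans (le_of_eq ?_)
    ring
  rw [reb_snd h, List.getD_eq_getElem ((redB (arows M (cDel D) l c j)).map _) _
    (by simpa using hiB), List.getElem_map, Nat.le_div_iff_mul_le hnpos]
  refine hfin2.trans ?_
  rw [mul_assoc (cc D)]
  exact Nat.mul_le_mul_right _ (cc_bound hD)

/-- The determinant of the rows. -/
theorem gd_arows {M Δ : ℕ} {l : List ℕ} {c : Vec} {j : ℕ} (h : rebOK M Δ l c j = true) :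
    gd (sq l.length (arows M Δ l c j)) l.length =
      ((Δ : ℝ) * M ^ l.length * ∏ k ∈ Finset.range l.length, (prodEx l k : ℝ)) ^ 2 := by
  obtain ⟨hM, hΔ, hl, hj, hc⟩ := rebOK_iff.1 h
  set X : Matrix (Fin l.length) (Fin l.length) ℝ :=
    Matrix.of fun p i => sq l.length (arows M Δ l c j) p i with hX
  have h1 : gd (sq l.length (arows M Δ l c j)) l.length = X.det ^ 2 := by
    have h2 : (Matrix.of fun p q : Fin l.length => ⟪sq l.length (arows M Δ l c j) p,
        sq l.length (arows M Δ l c j) q⟫_ℝ) = X * X.transpose := by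
      ext p q
      rw [Matrix.mul_apply]
      simp only [Matrix.of_apply, PiLp.inner_apply, Matrix.transpose_apply, hX]
      refine Finset.sum_congr rfl fun i _ => ?_
      simp [mul_comm]
    rw [Pool.Agent.H687R2.LLL.gd, h2, Matrix.det_mul, Matrix.det_transpose]
    ring
  have h3 : X = Matrix.diagonal (fun p : Fin l.length => (prodEx l p : ℝ)) *
      ((M : ℝ) • (1 : Matrix (Fin l.length) (Fin l.length) ℝ)).updateCol ⟨j, hj⟩
        (fun p => (Δ : ℝ) * ((c.getD p 0 : ℤ) : ℝ)) := by
    ext p i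
    rw [Matrix.diagonal_mul, Matrix.updateCol_apply]
    simp only [hX, Matrix.of_apply]
    rw [sq_arows p.2]
    by_cases h4 : i = ⟨j, hj⟩
    · have h5 : (i : ℕ) = j := by rw [h4]
      rw [if_pos h5, if_pos h4]
      push_cast
      ring
    · have h5 : (i : ℕ) ≠ j := fun e => h4 (Fin.ext e)
      rw [if_neg h5, if_neg h4, Matrix.smul_apply, Matrix.one_apply]
      by_cases h6 : p = i
      · subst h6
        simp
        ring
      · have h7 : (i : ℕ) ≠ p := fun e => h6 (Fin.ext e.symm)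
        simp [h6, h7]
  have h4 : X.det = (∏ k ∈ Finset.range l.length, (prodEx l k : ℝ)) * ((Δ : ℝ) * M ^ l.length) := by
    rw [h3, Matrix.det_mul, Matrix.det_diagonal, ← Matrix.cramer_apply,
      Matrix.cramer_eq_adjugate_mulVec, Matrix.adjugate_smul, Matrix.adjugate_one,
      Finset.prod_range]
    congr 1
    rw [Matrix.smul_mulVec, Matrix.one_mulVec, Pi.smul_apply, smul_eq_mul, Fintype.card_fin]
    simp only [hc]
    have h5 : l.length = l.length - 1 + 1 := by omega
    conv_rhs => rw [h5, pow_succ]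
    push_cast
    ring
  rw [h1, h4]
  ring

theorem prod_map_range {M : Type*} [CommMonoid M] (f : ℕ → M) (n : ℕ) :
    ((List.range n).map f).prod = ∏ i ∈ Finset.range n, f i := by
  induction n with
  | zero => simp
  | succ n ih => rw [List.range_succ, List.map_append, List.prod_append, ih,
      Finset.prod_range_succ]; simp

theorem prod_div_mul_prod_le (L : List Vec) (K : ℕ) :
    (L.map fun r => K / nrm r).prod * (L.map nrm).prod ≤ K ^ L.length := by
  induction L with
  | nil => simp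
  | cons r L ih =>
    simp only [List.map_cons, List.prod_cons, List.length_cons]
    calc K / nrm r * (L.map fun r => K / nrm r).prod * (nrm r * (L.map nrm).prod)
        = (K / nrm r * nrm r) * ((L.map fun r => K / nrm r).prod * (L.map nrm).prod) := by ring
      _ ≤ K * K ^ L.length := Nat.mul_le_mul (Nat.div_mul_le_self _ _) ih
      _ = K ^ (L.length + 1) := by ring

theorem list_prod_nrm (L : List Vec) : (L.map nrm).prod =
    ∏ i ∈ Finset.range L.length, nrm (L.getD i []) := by
  rw [← prod_map_range]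
  congr 1
  apply List.ext_getElem
  · simp
  · intro i h1 h2
    have h3 : i < L.length := by simpa using h1
    simp only [List.getElem_map, List.getElem_range]
    rw [List.getD_eq_getElem _ _ h3]

theorem prod_prodEx (l : List ℕ) :
    (∏ k ∈ Finset.range l.length, prodEx l k) * l.prod = l.prod ^ l.length := by
  have h1 : ∏ k ∈ Finset.range l.length, l.getD k 0 = l.prod := by
    rw [← prod_map_range]
    congr 1
    apply List.ext_getElem
    · simp
    · intro i h1 h2
      have h3 : i < l.length := by simpa using h1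
      simp only [List.getElem_map, List.getElem_range]
      rw [List.getD_eq_getElem _ _ h3]
  have h2 : ∏ k ∈ Finset.range l.length, (prodEx l k * l.getD k 0) =
      ∏ k ∈ Finset.range l.length, l.prod :=
    Finset.prod_congr rfl fun k hk => prodEx_mul (Finset.mem_range.1 hk)
  rw [Finset.prod_mul_distrib, h1, Finset.prod_const, Finset.card_range] at h2
  exact h2

theorem cDel_bound {n D : ℕ} (h : n ≤ D) : 2 * cc D ^ n ≤ cDel D := by
  unfold cc cDel
  rw [← pow_mul]
  calc 2 * 2 ^ ((D + 2) ^ 2 * n) = 2 ^ ((D + 2) ^ 2 * n + 1) := by rw [pow_succ]; ring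
    _ ≤ 2 ^ ((D + 3) ^ 3) := by
        apply Nat.pow_le_pow_right (by norm_num)
        have h1 : (D + 2) ^ 2 * n ≤ (D + 2) ^ 2 * D := Nat.mul_le_mul_left _ h
        have h2 : (D + 2) ^ 2 * D + 1 ≤ (D + 3) ^ 3 := by nlinarith
        omega

/-- The volume is halved. -/
theorem reb_half {D M : ℕ} {l : List ℕ} {c : Vec} {j : ℕ}
    (h : rebOK M (cDel D) l c j = true) (hD : l.length ≤ D) :
    2 * ((reb (cc D) M (cDel D) l c j).map fun p => p.2).prod ≤ (l.map fun m => M * m).prod := by
  have h9 : 0 < cc D ^ l.length := by unfold cc; positivity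
  have hs := arows_red h
  obtain ⟨hM, hΔ, hl, hj, hc⟩ := rebOK_iff.1 h
  set B := redB (arows M (cDel D) l c j) with hB
  set Δ := cDel D with hΔd
  have hn := hs.len
  rw [reb_snd h]
  set X := (B.map fun r => cc D * (M * M) * l.prod / nrm r).prod with hX
  set Q := ∏ k ∈ Finset.range l.length, prodEx l k with hQ
  -- volume
  have h1 : Δ * M ^ l.length * Q ≤ (B.map nrm).prod := by
    have h2 := gd_le_prod hs.pos l.length le_rfl
    rw [hs.gd, gd_arows h] at h2
    have h3 : ∏ i ∈ Finset.range l.length, ‖sq l.length B i‖ ^ 2 ≤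
        (((B.map nrm).prod : ℕ) : ℝ) ^ 2 := by
      rw [list_prod_nrm, hn]
      push_cast
      rw [← Finset.prod_pow]
      apply Finset.prod_le_prod
      · intro i _; positivity
      · intro i hi
        have hi' : i < l.length := Finset.mem_range.1 hi
        have hiB : i < B.length := by rw [hn]; exact hi'
        apply pow_le_pow_left₀ (norm_nonneg _)
        rw [Pool.Agent.H687R2.LLL.sq]
        apply norm_lv_le_nrm
        rw [List.getD_eq_getElem _ _ hiB]
        exact hs.lens _ (List.getElem_mem _)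
    have h4 := h2.trans h3
    have h5 : ((Δ : ℝ) * M ^ l.length * ∏ k ∈ Finset.range l.length, (prodEx l k : ℝ)) =
        ((Δ * M ^ l.length * Q : ℕ) : ℝ) := by rw [hQ]; push_cast; ring
    rw [h5] at h4
    have h6 : (Δ * M ^ l.length * Q) ^ 2 ≤ ((B.map nrm).prod) ^ 2 := by exact_mod_cast h4
    exact (Nat.pow_le_pow_iff_left (by norm_num)).1 h6
  have h2 := prod_div_mul_prod_le B (cc D * (M * M) * l.prod)
  rw [hn, ← hX] at h2
  have hl0 : 0 < l.length := by omega
  have h3 := prod_prodEx l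
  rw [← hQ] at h3
  have hprod : 0 < l.prod := prod_pos_of hl
  have hQpos : 0 < Q := by
    rw [hQ]
    exact Finset.prod_pos fun k hk => prodEx_pos hl (Finset.mem_range.1 hk)
  have h4 : X * (Δ * M ^ l.length * Q) ≤ (cc D * (M * M) * l.prod) ^ l.length :=
    (Nat.mul_le_mul_left _ h1).trans h2
  have h5 : (cc D * (M * M) * l.prod) ^ l.length =
      (cc D ^ l.length * M ^ l.length * l.prod) * (M ^ l.length * Q) := by
    rw [mul_pow, mul_pow, mul_pow, ← h3]
    ring
  have h6 : X * Δ ≤ cc D ^ l.length * M ^ l.length * l.prod := by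
    have h7 : 0 < M ^ l.length * Q := Nat.mul_pos (Nat.pow_pos hM) hQpos
    apply Nat.le_of_mul_le_mul_right _ h7
    rw [← h5]
    refine le_trans (le_of_eq ?_) h4
    ring
  have h7 := cDel_bound hD
  rw [← hΔd] at h7
  have h8 : cc D ^ l.length * (2 * X) ≤ cc D ^ l.length * (M ^ l.length * l.prod) := by
    calc cc D ^ l.length * (2 * X) = X * (2 * cc D ^ l.length) := by ring
      _ ≤ X * Δ := Nat.mul_le_mul_left _ h7
      _ ≤ cc D ^ l.length * M ^ l.length * l.prod := h6
      _ = _ := by ring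
  have h10 : 2 * X ≤ M ^ l.length * l.prod := Nat.le_of_mul_le_mul_left h8 h9
  have h11 : (l.map fun m => M * m).prod = M ^ l.length * l.prod := by
    clear * -
    induction l with
    | nil => simp
    | cons x l ih =>
      simp only [List.map_cons, List.prod_cons, List.length_cons]
      rw [ih]
      ring
  rw [h11]
  exact h10

/-- Coefficients are bounded by the norm. -/
theorem coeff_le_nrm {M Δ : ℕ} {l : List ℕ} {c : Vec} {j : ℕ} (h : rebOK M Δ l c j = true)
    (hc : ∀ k < l.length, (c.getD k 0).natAbs ≤ M) (v : Vec) {k : ℕ} (hk : k < l.length) :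
    (v.getD k 0).natAbs * (M * prodEx l k) ≤ nrm (Rv M Δ l c j v) := by
  obtain ⟨hM, hΔ, hl, hj, hcj⟩ := rebOK_iff.1 h
  have hne : ∀ k < l.length, k ≠ j → (v.getD k 0).natAbs * (M * prodEx l k) =
      ((Rv M Δ l c j v).getD k 0).natAbs := by
    intro k hk hkj
    rw [Rv_getD_ne hk hkj, Int.natAbs_mul, Int.natAbs_mul, Int.natAbs_natCast,
      Int.natAbs_natCast]
    ring
  by_cases hkj : k = j
  · subst hkj
    have h1 : (Δ : ℤ) * (v.getD k 0 * ((M : ℤ) * (prodEx l k : ℤ))) =
        (Rv M Δ l c k v).getD k 0 - (Δ : ℤ) * ∑ i ∈ (Finset.range l.length).erase k,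
          v.getD i 0 * (c.getD i 0 * (prodEx l i : ℤ)) := by
      rw [Rv_getD_j hk, ← Finset.add_sum_erase _ _ (Finset.mem_range.2 hk), hcj]
      ring
    have h2 : Δ * ((v.getD k 0).natAbs * (M * prodEx l k)) ≤
        ((Rv M Δ l c k v).getD k 0).natAbs + Δ * ∑ i ∈ (Finset.range l.length).erase k,
          ((Rv M Δ l c k v).getD i 0).natAbs := by
      have h3 := congrArg Int.natAbs h1
      rw [Int.natAbs_mul, Int.natAbs_mul, Int.natAbs_mul, Int.natAbs_natCast,
        Int.natAbs_natCast, Int.natAbs_natCast] at h3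
      rw [h3]
      refine (Int.natAbs_sub_le _ _).trans (Nat.add_le_add_left ?_ _)
      rw [Int.natAbs_mul, Int.natAbs_natCast]
      apply Nat.mul_le_mul_left
      refine (Int.natAbs_sum_le _ _).trans (Finset.sum_le_sum fun i hi => ?_)
      rw [Finset.mem_erase, Finset.mem_range] at hi
      rw [← hne i hi.2 hi.1, Int.natAbs_mul, Int.natAbs_mul, Int.natAbs_natCast]
      exact Nat.mul_le_mul_left _ (Nat.mul_le_mul_right _ (hc i hi.2))
    have h3 : nrm (Rv M Δ l c k v) = ((Rv M Δ l c k v).getD k 0).natAbs +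
        ∑ i ∈ (Finset.range l.length).erase k, ((Rv M Δ l c k v).getD i 0).natAbs := by
      rw [nrm_eq_sum (n := l.length) (by simp), ← Finset.add_sum_erase _ _ (Finset.mem_range.2 hk)]
    apply Nat.le_of_mul_le_mul_left _ hΔ
    rw [h3, mul_add]
    refine h2.trans (Nat.add_le_add_right ?_ _)
    exact Nat.le_mul_of_pos_left _ hΔ
  · rw [hne k hk hkj]
    exact natAbs_getD_le_nrm _ _

theorem nrm_arow_le {M Δ : ℕ} {l : List ℕ} {c : Vec} {j : ℕ} (h : rebOK M Δ l c j = true)
    (hc : ∀ k < l.length, (c.getD k 0).natAbs ≤ M) {k : ℕ} (hk : k < l.length) :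
    nrm (arow M Δ l c j k) ≤ 2 * (Δ * M * l.prod) := by
  obtain ⟨hM, hΔ, hl, hj, hcj⟩ := rebOK_iff.1 h
  have h1 : prodEx l k ≤ l.prod := by
    have h2 := prodEx_mul hk
    have h3 : 0 < l.getD k 0 := by
      rw [List.getD_eq_getElem _ _ hk]
      exact hl _ (List.getElem_mem _)
    rw [← h2]
    exact Nat.le_mul_of_pos_right _ h3
  rw [nrm_eq_sum (n := l.length) (by simp)]
  have h4 : ∀ i ∈ Finset.range l.length, ((arow M Δ l c j k).getD i 0).natAbs ≤
      (if i = j then Δ * M * l.prod else 0) + (if i = k then Δ * M * l.prod else 0) := by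
    intro i hi
    rw [arow_getD (Finset.mem_range.1 hi)]
    by_cases h5 : i = j
    · rw [if_pos h5, if_pos h5, Int.natAbs_mul, Int.natAbs_mul, Int.natAbs_natCast,
        Int.natAbs_natCast]
      exact (Nat.mul_le_mul (Nat.mul_le_mul_left _ (hc k hk)) h1).trans (Nat.le_add_right _ _)
    · rw [if_neg h5, if_neg h5]
      by_cases h6 : i = k
      · rw [if_pos h6, if_pos h6, Int.natAbs_mul, Int.natAbs_natCast, Int.natAbs_natCast, zero_add]
        refine Nat.mul_le_mul ?_ h1
        exact Nat.le_mul_of_pos_left _ hΔ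
      · rw [if_neg h6, if_neg h6]
        simp
  refine (Finset.sum_le_sum h4).trans ?_
  rw [Finset.sum_add_distrib, Finset.sum_ite_eq', Finset.sum_ite_eq']
  rw [if_pos (Finset.mem_range.2 hj), if_pos (Finset.mem_range.2 hk)]
  omega

/-- Bounds for the new basis and half widths. -/
theorem reb_bd {D : ℕ} {l : List ℕ} {c : Vec} {j : ℕ}
    (h : rebOK (cM D) (cDel D) l c j = true) (hD : l.length ≤ D)
    (hc : ∀ k < l.length, (c.getD k 0).natAbs ≤ cM D) :
    ∀ p ∈ reb (cc D) (cM D) (cDel D) l c j, p.2 ≤ cc D * (cM D * l.sum) ∧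
      ∀ k < l.length, (p.2 + 1) * (p.1.getD k 0).natAbs ≤
        2 ^ ((D + 3) ^ 2) * (cM D * l.getD k 0) := by
  intro p hp
  have hs := arows_red h
  obtain ⟨hM, hΔ, hl, hj, hcj⟩ := rebOK_iff.1 h
  set M := cM D with hMd
  set Δ := cDel D with hΔd
  simp only [reb, h, cond_true, List.mem_map] at hp
  obtain ⟨r, hr, rfl⟩ := hp
  simp only
  have hRv := red_mem h hr
  set v := recv M Δ l c j r with hv
  have hnpos := red_nrm_pos hs hr
  have hcn : ∀ k < l.length, (v.getD k 0).natAbs * (M * prodEx l k) ≤ nrm r := by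
    intro k hk
    have := coeff_le_nrm h hc v hk
    rwa [hRv] at this
  -- upper bound for the norm
  have hup : nrm r ≤ l.length * (2 * (Δ * M * l.prod)) := by
    have h1 := hs.nrm ((2 * (Δ * M * l.prod) : ℕ) ^ 2) (by
      intro i hi
      apply pow_le_pow_left₀ (norm_nonneg _)
      rw [Pool.Agent.H687R2.LLL.sq, arows_getD hi]
      refine (norm_lv_le_nrm _ (by simp)).trans ?_
      exact_mod_cast nrm_arow_le h hc hi)
    obtain ⟨i, hi, hir⟩ := List.getElem_of_mem hr
    have hi' : i < l.length := by rw [← hs.len]; exact hi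
    have h2 := h1 i hi'
    rw [Pool.Agent.H687R2.LLL.sq, List.getD_eq_getElem _ _ hi, hir] at h2
    have h3 := nrm_sq_le r (hs.lens r hr)
    have h4 : (nrm r : ℝ) ^ 2 ≤ ((l.length * (2 * (Δ * M * l.prod)) : ℕ) : ℝ) ^ 2 := by
      refine h3.trans ((mul_le_mul_of_nonneg_left h2 (by positivity)).trans (le_of_eq ?_))
      push_cast
      ring
    have h5 : (nrm r) ^ 2 ≤ (l.length * (2 * (Δ * M * l.prod))) ^ 2 := by exact_mod_cast h4
    exact (Nat.pow_le_pow_iff_left (by norm_num)).1 h5
  have hpk : ∀ k < l.length, 0 < M * prodEx l k := fun k hk =>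
    Nat.mul_pos hM (prodEx_pos hl hk)
  have hv1 : ∀ k < l.length, (v.getD k 0).natAbs ≤ 2 * l.length * Δ * l.getD k 0 := by
    intro k hk
    apply Nat.le_of_mul_le_mul_right _ (hpk k hk)
    refine ((hcn k hk).trans hup).trans (le_of_eq ?_)
    rw [← prodEx_mul hk]
    ring
  have hv2 : ∀ k < l.length, cc D * (M * M) * l.prod / nrm r * (v.getD k 0).natAbs ≤
      cc D * (M * l.getD k 0) := by
    intro k hk
    apply Nat.le_of_mul_le_mul_right _ (hpk k hk)
    calc cc D * (M * M) * l.prod / nrm r * (v.getD k 0).natAbs * (M * prodEx l k)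
        = cc D * (M * M) * l.prod / nrm r * ((v.getD k 0).natAbs * (M * prodEx l k)) := by ring
      _ ≤ cc D * (M * M) * l.prod / nrm r * nrm r := Nat.mul_le_mul_left _ (hcn k hk)
      _ ≤ cc D * (M * M) * l.prod := Nat.div_mul_le_self _ _
      _ = cc D * (M * l.getD k 0) * (M * prodEx l k) := by
          rw [← prodEx_mul hk]
          ring
  constructor
  · have hex : ∃ k < l.length, (v.getD k 0) ≠ 0 := by
      by_contra hno
      push Not at hno
      have h1 : nrm r = 0 := by
        rw [← hRv, nrm_eq_sum (n := l.length) (by simp)]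
        refine Finset.sum_eq_zero fun k hk => ?_
        have hk' := Finset.mem_range.1 hk
        by_cases hkj : k = j
        · subst hkj
          rw [Rv_getD_j hk', Finset.sum_eq_zero, mul_zero]
          · rfl
          · intro i hi
            rw [hno i (Finset.mem_range.1 hi), zero_mul]
        · rw [Rv_getD_ne hk' hkj, hno k hk', mul_zero]
          rfl
      omega
    obtain ⟨k, hk, hvk⟩ := hex
    have h1 : 1 ≤ (v.getD k 0).natAbs := Int.natAbs_pos.2 hvk
    have h2 := hv2 k hk
    have h3 : l.getD k 0 ≤ l.sum := by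
      rw [List.getD_eq_getElem _ _ hk]
      exact List.single_le_sum (by simp) _ (List.getElem_mem _)
    calc cc D * (M * M) * l.prod / nrm r ≤
          cc D * (M * M) * l.prod / nrm r * (v.getD k 0).natAbs := Nat.le_mul_of_pos_right _ h1
      _ ≤ cc D * (M * l.getD k 0) := h2
      _ ≤ cc D * (M * l.sum) := Nat.mul_le_mul_left _ (Nat.mul_le_mul_left _ h3)
  · intro k hk
    have h1 := hv1 k hk
    have h2 := hv2 k hk
    have hΔM : Δ ≤ M := by
      rw [hMd, hΔd]
      unfold cDel cM
      apply Nat.pow_le_pow_right (by norm_num)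
      exact (Nat.pow_le_pow_left (by omega) 3)
    have h3 : cc D + 2 * D ≤ 2 ^ ((D + 3) ^ 2) := by
      unfold cc
      have e1 : D ≤ 2 ^ D := Nat.lt_two_pow_self.le
      have e2 : 2 ^ D ≤ 2 ^ ((D + 2) ^ 2) := Nat.pow_le_pow_right (by norm_num) (by nlinarith)
      calc 2 ^ ((D + 2) ^ 2) + 2 * D ≤ 2 ^ ((D + 2) ^ 2) + 2 * 2 ^ ((D + 2) ^ 2) := by omega
        _ ≤ 4 * 2 ^ ((D + 2) ^ 2) := by omega
        _ = 2 ^ ((D + 2) ^ 2 + 2) := by rw [pow_add]; ring
        _ ≤ 2 ^ ((D + 3) ^ 2) := Nat.pow_le_pow_right (by norm_num) (by nlinarith)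
    calc (cc D * (M * M) * l.prod / nrm r + 1) * (v.getD k 0).natAbs
        = cc D * (M * M) * l.prod / nrm r * (v.getD k 0).natAbs + (v.getD k 0).natAbs := by ring
      _ ≤ cc D * (M * l.getD k 0) + 2 * l.length * Δ * l.getD k 0 := Nat.add_le_add h2 h1
      _ ≤ cc D * (M * l.getD k 0) + 2 * D * M * l.getD k 0 := by
          apply Nat.add_le_add_left
          apply Nat.mul_le_mul_right
          exact Nat.mul_le_mul (Nat.mul_le_mul_left _ hD) hΔM
      _ = (cc D + 2 * D) * (M * l.getD k 0) := by ring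
      _ ≤ 2 ^ ((D + 3) ^ 2) * (M * l.getD k 0) := Nat.mul_le_mul_right _ h3

end Run7.h960
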