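import Pool.Agent.Run7.h960.PolyA
import Pool.Agent.Run7.h960.Reb

set_option autoImplicit false

/-!
# Polynomial time: the shrinking step
-/

namespace Pool.Agent.NPC.R960

open Run7.h960
open Pool.Agent.H687R2.LLL (dot nrm lllStep cnt fsts gsr)

variable {α β γ σ : Type} [TEnc α] [TEnc β] [TEnc γ] [TEnc σ]

/-! ### contexts -/

theorem c1 : Poly (fun p : α × β => p.1) := Poly.fst Poly.id
theorem c2 : Poly (fun p : α × β => p.2) := Poly.snd Poly.id
theorem c11 : Poly (fun p : (α × β) × γ => p.1.1) := Poly.fst (Poly.fst Poly.id)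
theorem c12 : Poly (fun p : (α × β) × γ => p.1.2) := Poly.snd (Poly.fst Poly.id)

/-- weakening of an oracle -/
theorem orc_wk {δ ε : Type} [TEnc δ] [TEnc ε] {orc : α → Vec → Option δ}
    (ho : Poly (fun p : α × Vec => orc p.1 p.2)) {f : ε → α} (hf : Poly f) :
    Poly (fun p : ε × Vec => orc (f p.1) p.2) :=
  ho.comp (f := fun p : ε × Vec => (f p.1, p.2)) (Poly.pair (hf.comp c1) c2)

theorem orc_app {δ : Type} [TEnc δ] {orc : α → Vec → Option δ}
    (ho : Poly (fun p : α × Vec => orc p.1 p.2)) {x : α → Vec} (hx : Poly x) :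
    Poly (fun a => orc a (x a)) :=
  ho.comp (f := fun a => (a, x a)) (Poly.pair Poly.id hx)

/-- A conditional whose first branch is polynomial-time where it is taken. -/
theorem cond_sub {b : α → Bool} {f g : α → β} (hb : Poly b)
    (hf : Poly (fun a : {a // b a = true} => f a.1)) (hg : Poly g) :
    Poly (fun a => bif b a then f a else g a) := by
  have e1 : ∀ a, toT (b a) ≠ T.nil ↔ b a = true := by
    intro a; cases b a <;> simp
  have hf' : PC (fun a : {a : α // toT (b a) ≠ T.nil} => bits a.1) (bits : β → List Bool)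
      (fun a => f a.1) := by
    obtain ⟨c, q, h⟩ := hf
    exact ⟨c, q, fun a => h ⟨a.1, (e1 a.1).1 a.2⟩⟩
  have hg' : PC (fun a : {a : α // toT (b a) = T.nil} => bits a.1) (bits : β → List Bool)
      (fun a => g a.1) := PC.restrict hg _
  have h3 := PC.dite (f := fun a => toT (b a)) hb hg' hf'
  refine PC.congr h3 fun a => ?_
  by_cases h : b a = true
  · have e3 : toT (b a) ≠ T.nil := (e1 a).2 h
    have e4 : (bif b a then f a else g a) = f a := by rw [h, cond_true]
    rw [e4]
    exact dif_neg e3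
  · have h' : b a = false := by simpa using h
    have e3 : toT (b a) = T.nil := by rw [h']; rfl
    have e4 : (bif b a then f a else g a) = g a := by rw [h', cond_false]
    rw [e4]
    exact dif_pos e3

/-! ### lattice reduction -/

theorem poly_redB : Poly (fun A : {A : List Vec // Pool.Agent.H687R2.LLL.Valid A} => redB A.1) := by
  have h1 : Poly (fun A : {A : List Vec // Pool.Agent.H687R2.LLL.Valid A} => A.1) :=
    Poly.val Poly.id
  have hinv : ∀ A : {A : List Vec // Pool.Agent.H687R2.LLL.Valid A},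
      ∃ N Z, Pool.Agent.H687R2.LLL.Inv N A.1.length (4 ^ sz A.1) Z A.1 := by
    rintro ⟨A, N, e1, e2⟩
    exact ⟨N, _, Pool.Agent.H687R2.LLL.Valid.inv e1 e2⟩
  have h2 := Poly.lllRun h1 (upoly_sz h1) hinv (fun A => (length_lt_sz A.1).le)
  have h3 : Poly (fun A : {A : List Vec // Pool.Agent.H687R2.LLL.Valid A} =>
      gsr (lllStep^[cnt (sz A.1)] A.1)) := Poly.compSub Poly.gsr h2 fun A => by
    obtain ⟨N, Z, h⟩ := hinv A
    exact Pool.Agent.H687R2.LLL.Valid.of_inv (Pool.Agent.H687R2.LLL.iter_inv h _)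
  exact Poly.fsts h3

theorem poly_prodEx {l : α → List ℕ} {k : α → ℕ} (hl : Poly l) (hk : Poly k) :
    Poly (fun a => prodEx (l a) (k a)) :=
  Poly.div (poly_prod hl) (Poly.getD hl hk (Poly.const 0))

theorem poly_arow {M Δ j k : α → ℕ} {l : α → List ℕ} {c : α → Vec} (hM : Poly M) (hΔ : Poly Δ)
    (hl : Poly l) (hc : Poly c) (hj : Poly j) (hk : Poly k) :
    Poly (fun a => arow (M a) (Δ a) (l a) (c a) (j a) (k a)) :=
  Poly.map (F := fun a (i : ℕ) => bif decide (i = j a) then
      (Δ a : ℤ) * (c a).getD (k a) 0 * (prodEx (l a) (k a) : ℤ)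
    else bif decide (i = k a) then (M a : ℤ) * (prodEx (l a) (k a) : ℤ) else 0)
    (Poly.range_length hl)
    (Poly.cond (Poly.decide_eq c2 (hj.comp c1))
      (Poly.imul (Poly.imul (Poly.natCast (hΔ.comp c1))
        (Poly.getD (hc.comp c1) (hk.comp c1) (Poly.const 0)))
        (Poly.natCast (poly_prodEx (hl.comp c1) (hk.comp c1))))
      (Poly.cond (Poly.decide_eq c2 (hk.comp c1))
        (Poly.imul (Poly.natCast (hM.comp c1))
          (Poly.natCast (poly_prodEx (hl.comp c1) (hk.comp c1)))) (Poly.const 0)))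

theorem poly_arows {M Δ j : α → ℕ} {l : α → List ℕ} {c : α → Vec} (hM : Poly M) (hΔ : Poly Δ)
    (hl : Poly l) (hc : Poly c) (hj : Poly j) :
    Poly (fun a => arows (M a) (Δ a) (l a) (c a) (j a)) :=
  Poly.map (F := fun a (k : ℕ) => arow (M a) (Δ a) (l a) (c a) (j a) k) (Poly.range_length hl)
    (poly_arow (hM.comp c1) (hΔ.comp c1) (hl.comp c1) (hc.comp c1) (hj.comp c1) c2)

theorem poly_rec0 {M j : α → ℕ} {l : α → List ℕ} {r : α → Vec} (hM : Poly M)
    (hl : Poly l) (hj : Poly j) (hr : Poly r) :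
    Poly (fun a => rec0 (M a) (l a) (j a) (r a)) :=
  Poly.map (F := fun a (i : ℕ) => bif decide (i = j a) then 0 else
    (r a).getD i 0 / ((M a * prodEx (l a) i : ℕ) : ℤ)) (Poly.range_length hl)
    (Poly.cond (Poly.decide_eq c2 (hj.comp c1)) (Poly.const 0)
      (Poly.idiv (Poly.getD (hr.comp c1) c2 (Poly.const 0))
        (Poly.mul (hM.comp c1) (poly_prodEx (hl.comp c1) c2))))

theorem poly_cex {l : α → List ℕ} {c : α → Vec} (hl : Poly l) (hc : Poly c) :
    Poly (fun a => (List.range (l a).length).map fun k =>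
      (c a).getD k 0 * (prodEx (l a) k : ℤ)) :=
  Poly.map (F := fun a (k : ℕ) => (c a).getD k 0 * (prodEx (l a) k : ℤ)) (Poly.range_length hl)
    (Poly.imul (Poly.getD (hc.comp c1) c2 (Poly.const 0))
      (Poly.natCast (poly_prodEx (hl.comp c1) c2)))

theorem poly_recv {M Δ j : α → ℕ} {l : α → List ℕ} {c r : α → Vec} (hM : Poly M) (hΔ : Poly Δ)
    (hl : Poly l) (hc : Poly c) (hj : Poly j) (hr : Poly r) :
    Poly (fun a => recv (M a) (Δ a) (l a) (c a) (j a) (r a)) :=
  Poly.map (F := fun a (i : ℕ) => bif decide (i = j a) then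
    ((r a).getD (j a) 0 - (Δ a : ℤ) * dot (rec0 (M a) (l a) (j a) (r a))
      ((List.range (l a).length).map fun k => (c a).getD k 0 * (prodEx (l a) k : ℤ))) /
      ((Δ a * M a * prodEx (l a) (j a) : ℕ) : ℤ)
    else (rec0 (M a) (l a) (j a) (r a)).getD i 0) (Poly.range_length hl)
    (Poly.cond (Poly.decide_eq c2 (hj.comp c1))
      (Poly.idiv (Poly.isub (Poly.getD (hr.comp c1) (hj.comp c1) (Poly.const 0))
        (Poly.imul (Poly.natCast (hΔ.comp c1))
          (poly_dot ((poly_rec0 hM hl hj hr).comp c1) ((poly_cex hl hc).comp c1))))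
        (Poly.mul (Poly.mul (hΔ.comp c1) (hM.comp c1))
          (poly_prodEx (hl.comp c1) (hj.comp c1))))
      (Poly.getD ((poly_rec0 hM hl hj hr).comp c1) c2 (Poly.const 0)))

theorem poly_rebOK {M Δ j : α → ℕ} {l : α → List ℕ} {c : α → Vec} (hM : Poly M) (hΔ : Poly Δ)
    (hl : Poly l) (hc : Poly c) (hj : Poly j) :
    Poly (fun a => rebOK (M a) (Δ a) (l a) (c a) (j a)) :=
  Poly.and (Poly.and (Poly.and (Poly.and (Poly.decide_lt (Poly.const 0) hM)
    (Poly.decide_lt (Poly.const 0) hΔ))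
    (Poly.all (p := fun _ (m : ℕ) => decide (0 < m)) hl (Poly.decide_lt (Poly.const 0) c2)))
    (Poly.decide_lt hj (Poly.length hl)))
    (Poly.decide_eq (Poly.getD hc hj (Poly.const 0)) (Poly.natCast hM))

/-- The reduction of the rows is polynomial-time (the validity of the rows is `arows_valid`). -/
theorem poly_reb {C M Δ j : α → ℕ} {l : α → List ℕ} {c : α → Vec} (hC : Poly C) (hM : Poly M)
    (hΔ : Poly Δ) (hl : Poly l) (hc : Poly c) (hj : Poly j) :
    Poly (fun a => reb (C a) (M a) (Δ a) (l a) (c a) (j a)) := by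
  refine cond_sub (f := fun a => (redB (arows (M a) (Δ a) (l a) (c a) (j a))).map fun r =>
      (recv (M a) (Δ a) (l a) (c a) (j a) r, C a * (M a * M a) * (l a).prod / nrm r))
    (g := fun _ => ([] : List (Vec × ℕ))) (poly_rebOK hM hΔ hl hc hj) ?_ (Poly.const _)
  have hv : Poly (fun a : {a // rebOK (M a) (Δ a) (l a) (c a) (j a) = true} => a.1) :=
    Poly.val Poly.id
  have h1 : Poly (fun a : {a // rebOK (M a) (Δ a) (l a) (c a) (j a) = true} =>
      redB (arows (M a.1) (Δ a.1) (l a.1) (c a.1) (j a.1))) :=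
    Poly.compSub poly_redB ((poly_arows hM hΔ hl hc hj).comp hv) fun a => arows_valid a.2
  have hv2 : Poly (fun p : {a // rebOK (M a) (Δ a) (l a) (c a) (j a) = true} × Vec => p.1.1) :=
    hv.comp c1
  exact Poly.map (F := fun (a : {a // rebOK (M a) (Δ a) (l a) (c a) (j a) = true}) (r : Vec) =>
      (recv (M a.1) (Δ a.1) (l a.1) (c a.1) (j a.1) r,
        C a.1 * (M a.1 * M a.1) * (l a.1).prod / nrm r)) h1
    (Poly.pair (poly_recv (hM.comp hv2) (hΔ.comp hv2) (hl.comp hv2) (hc.comp hv2) (hj.comp hv2) c2)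
      (Poly.div (Poly.mul (Poly.mul (hC.comp hv2) (Poly.mul (hM.comp hv2) (hM.comp hv2)))
        (poly_prod (hl.comp hv2))) (poly_nrm c2)))

/-! ### boxes -/

theorem poly_bvs {s : α → Box} (hs : Poly s) : Poly (fun a => bvs (s a)) :=
  Poly.map (F := fun _ (p : Vec × ℕ) => p.1) (Poly.snd hs) (Poly.fst c2)

theorem poly_bns {s : α → Box} (hs : Poly s) : Poly (fun a => bns (s a)) :=
  Poly.map (F := fun _ (p : Vec × ℕ) => p.2) (Poly.snd hs) (Poly.snd c2)

theorem poly_zmul {p : α → Vec} {l : α → List ℕ} (hp : Poly p) (hl : Poly l) :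
    Poly (fun a => List.zipWith (fun (x : ℤ) (m : ℕ) => x * (m : ℤ)) (p a) (l a)) :=
  Poly.zipWith (F := fun _ (x : ℤ) (m : ℕ) => x * (m : ℤ)) hp hl
    (Poly.imul (Poly.fst c2) (Poly.natCast (Poly.snd c2)))

theorem poly_ptS {s : α → Box} {l : α → List ℕ} {p : α → Vec} (hs : Poly s) (hl : Poly l)
    (hp : Poly p) : Poly (fun a => ptS (s a) (l a) (p a)) :=
  poly_lin (Poly.fst hs) (poly_bvs hs) (poly_zmul hp hl)

theorem poly_eta {s : α → Box} {l : α → List ℕ} {h : α → Vec} (hs : Poly s) (hl : Poly l)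
    (hh : Poly h) : Poly (fun a => eta (s a) (l a) (h a)) :=
  Poly.zipWith (F := fun a (b : Vec) (m : ℕ) => (m : ℤ) * dot (h a) b) (poly_bvs hs) hl
    (Poly.imul (Poly.natCast (Poly.snd c2)) (poly_dot (hh.comp c1) (Poly.fst c2)))

theorem poly_four {q : α → Vec} (hq : Poly q) : Poly (fun a => four (q a)) :=
  Poly.map (F := fun _ (x : ℤ) => 4 * x) hq (Poly.imul (Poly.const 4) c2)

theorem poly_isNone {o : α → Option β} (ho : Poly o) : Poly (fun a => (o a).isNone) :=
  (Poly.optElim (g := fun _ => true) (h := fun _ (_ : β) => false) ho (Poly.const true)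
    (Poly.const false)).congr fun a => by cases o a <;> rfl

theorem poly_accQ {orc : α → Vec → Option Vec} {s : α → Box} {l : α → List ℕ} {q : α → Vec}
    (ho : Poly (fun p : α × Vec => orc p.1 p.2)) (hs : Poly s) (hl : Poly l) (hq : Poly q) :
    Poly (fun a => accQ (orc a) (s a) (l a) (q a)) :=
  poly_isNone (orc_app ho (poly_ptS hs hl (poly_four hq)))

theorem poly_fatQ {orc : α → Vec → Option Vec} {s : α → Box} {l : α → List ℕ} {q : α → Vec}
    (ho : Poly (fun p : α × Vec => orc p.1 p.2)) (hs : Poly s) (hl : Poly l) (hq : Poly q) :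
    Poly (fun a => fatQ (orc a) (s a) (l a) (q a)) := by
  have h1 : ∀ t : ℤ, Poly (fun p : α × ℕ => accQ (orc p.1) (s p.1) (l p.1) (bump (q p.1) p.2 t)) :=
    fun t => poly_accQ (orc := fun p : α × ℕ => orc p.1) (orc_wk ho c1) (hs.comp c1) (hl.comp c1)
      (poly_bump (hq.comp c1) c2 (Poly.const t))
  exact Poly.and (poly_accQ ho hs hl hq)
    (Poly.all (p := fun a (k : ℕ) => accQ (orc a) (s a) (l a) (bump (q a) k 1) &&
      accQ (orc a) (s a) (l a) (bump (q a) k (-1))) (Poly.range_length hq)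
      (Poly.and (h1 1) (h1 (-1))))

theorem poly_cutQ {orc : α → Vec → Option Vec} {s : α → Box} {l : α → List ℕ} {q : α → Vec}
    (ho : Poly (fun p : α × Vec => orc p.1 p.2)) (hs : Poly s) (hl : Poly l) (hq : Poly q) :
    Poly (fun a => cutQ (orc a) (s a) (l a) (q a)) := by
  refine (Poly.optElim (o := fun a => orc a (ptS (s a) (l a) (four (q a))))
    (g := fun _ => ([] : List (Vec × Vec)))
    (h := fun a h => [(four (q a), eta (s a) (l a) h)])
    (orc_app ho (poly_ptS hs hl (poly_four hq))) (Poly.const _)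
    (Poly.cons (Poly.pair (poly_four (hq.comp c1)) (poly_eta (hs.comp c1) (hl.comp c1) c2))
      (Poly.const _))).congr fun a => ?_
  unfold cutQ
  cases orc a (ptS (s a) (l a) (four (q a))) <;> rfl

theorem poly_fineS {B M n : α → ℕ} {cuts : α → List (Vec × Vec)} (hB : UPoly B) (hM : UPoly M)
    (hn : UPoly n) (hc : Poly cuts) : Poly (fun a => fineS (B a) (M a) (n a) (cuts a)) :=
  Poly.filter (p := fun a (p : Vec) => (cuts a).all fun c =>
      decide (dot c.2 (vsub p c.1) < (nrm c.2 : ℤ))) (poly_grid hB hM hn)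
    (Poly.all (p := fun (x : α × Vec) (c : Vec × Vec) =>
      decide (dot c.2 (vsub x.2 c.1) < (nrm c.2 : ℤ))) (hc.comp c1)
      (Poly.ilt (poly_dot (Poly.snd c2) (poly_vsub c12 (Poly.fst c2)))
        (Poly.natCast (poly_nrm (Poly.snd c2)))))

theorem poly_flatDir {B M Δ n : α → ℕ} {S : α → List Vec} {p0 : α → Vec} (hB : UPoly B)
    (hM : UPoly M) (hΔ : Poly Δ) (hn : UPoly n) (hS : Poly S) (hp : Poly p0) :
    Poly (fun a => flatDir (B a) (M a) (Δ a) (n a) (S a) (p0 a)) := by
  have h1 : Poly (fun a => (grid (B a) (M a) (n a)).flatMap fun c =>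
      (List.range (n a)).map fun j => (c, j)) :=
    Poly.flatMap (F := fun a (c : Vec) => (List.range (n a)).map fun j => (c, j))
      (poly_grid hB hM hn)
      (Poly.map (F := fun (x : α × Vec) (j : ℕ) => (x.2, j)) (hn.range.comp c1)
        (Poly.pair c12 c2))
  exact Poly.filter (p := fun a (cj : Vec × ℕ) => decide (cj.1.getD cj.2 0 = (M a : ℤ)) &&
      (S a).all fun p => decide (2 * Δ a * (dot cj.1 (vsub p (p0 a))).natAbs ≤ M a * M a)) h1
    (Poly.and (Poly.decide_eq (Poly.getD (Poly.fst c2) (Poly.snd c2) (Poly.const 0))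
        (Poly.natCast (hM.toPoly.comp c1)))
      (Poly.all (p := fun (x : α × Vec × ℕ) (p : Vec) =>
        decide (2 * Δ x.1 * (dot x.2.1 (vsub p (p0 x.1))).natAbs ≤ M x.1 * M x.1)) (hS.comp c1)
        (Poly.decide_le (Poly.mul (Poly.mul (Poly.const 2) (hΔ.comp c11))
          (Poly.natAbs (poly_dot (Poly.fst c12) (poly_vsub c2 (hp.comp c11)))))
          (Poly.mul (hM.toPoly.comp c11) (hM.toPoly.comp c11)))))

theorem poly_compo {t s : α → Box} (ht : Poly t) (hs : Poly s) :
    Poly (fun a => compo (t a) (s a)) := by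
  have h1 : UPoly (fun p : α × Vec × ℕ => (t p.1).1.length) :=
    UPoly.length (Poly.fst (ht.comp c1))
  exact Poly.pair (poly_lin (Poly.fst ht) (poly_bvs ht) (Poly.fst hs))
    (Poly.map (F := fun a (p : Vec × ℕ) => (lin (zv (t a).1.length) (bvs (t a)) p.1, p.2))
      (Poly.snd hs)
      (Poly.pair (poly_lin (poly_zv h1) (poly_bvs (ht.comp c1)) (Poly.fst c2)) (Poly.snd c2)))

theorem upoly_minP {P m : α → ℕ} (hP : UPoly P) (hm : Poly m) : UPoly (fun a => min (P a) (m a)) :=
  UPoly.of_le (Poly.min hP.toPoly hm) hP fun _ => min_le_left _ _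

/-- the shrinking step with explicit parameters -/
def shr (C M Δ B n : ℕ) (l : List ℕ) (orc : Vec → Option Vec) (s : Box) : ℕ × Box :=
  ((grid B (M / 4 - 1) n).filter (fatQ orc s l)).head?.elim
    ((fineS B M n ((grid B (M / 4) n).flatMap (cutQ orc s l))).head?.elim (2, s) fun p0 =>
      (flatDir B M Δ n (fineS B M n ((grid B (M / 4) n).flatMap (cutQ orc s l))) p0).head?.elim
        (2, s) fun cj => (0, compo s (List.zipWith (fun (x : ℤ) (m : ℕ) => x * (m : ℤ)) p0 l,
          reb C M Δ l cj.1 cj.2)))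
    fun q => (1, (ptS s l (four q), s.2))

theorem shrink_eq (P D B : ℕ) (orc : Vec → Option Vec) (s : Box) :
    shrink P D B orc s = shr (cc D) (min P (cM D)) (cDel D) B s.2.length
      ((bns s).map fun m => m / min P (cM D)) orc s := by
  unfold shrink shr
  simp only
  generalize ((bns s).map fun m => m / min P (cM D)) = l
  generalize min P (cM D) = M
  cases ((grid B (M / 4 - 1) s.2.length).filter (fatQ orc s l)).head? with
  | some q => rfl
  | none =>
    simp only [Option.elim_none]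
    generalize fineS B M s.2.length ((grid B (M / 4) s.2.length).flatMap (cutQ orc s l)) = S
    cases S.head? with
    | none => rfl
    | some p0 =>
      simp only [Option.elim_some]
      cases (flatDir B M (cDel D) s.2.length S p0).head? with
      | none => rfl
      | some cj => rfl

theorem poly_cuts {M B n : α → ℕ} {l : α → List ℕ} {orc : α → Vec → Option Vec}
    {s : α → Box} (hM : UPoly M) (hB : UPoly B) (hn : UPoly n)
    (hl : Poly l) (ho : Poly (fun p : α × Vec => orc p.1 p.2)) (hs : Poly s) :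
    Poly (fun a => fineS (B a) (M a) (n a)
      ((grid (B a) (M a / 4) (n a)).flatMap (cutQ (orc a) (s a) (l a)))) := by
  have h4 : UPoly (fun a => M a / 4) :=
    UPoly.of_le (Poly.div hM.toPoly (Poly.const 4)) hM fun a => Nat.div_le_self _ _
  exact poly_fineS hB hM hn (Poly.flatMap (F := fun a (q : Vec) => cutQ (orc a) (s a) (l a) q)
    (poly_grid hB h4 hn)
    (poly_cutQ (orc := fun p : α × Vec => orc p.1) (orc_wk ho c1) (hs.comp c1) (hl.comp c1) c2))

theorem poly_fat {M B n : α → ℕ} {l : α → List ℕ} {orc : α → Vec → Option Vec}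
    {s : α → Box} (hM : UPoly M) (hB : UPoly B) (hn : UPoly n)
    (hl : Poly l) (ho : Poly (fun p : α × Vec => orc p.1 p.2)) (hs : Poly s) :
    Poly (fun a => ((grid (B a) (M a / 4 - 1) (n a)).filter (fatQ (orc a) (s a) (l a))).head?) := by
  have h4 : UPoly (fun a => M a / 4 - 1) :=
    UPoly.of_le (Poly.sub (Poly.div hM.toPoly (Poly.const 4)) (Poly.const 1)) hM
      fun a => (Nat.sub_le _ _).trans (Nat.div_le_self _ _)
  exact Poly.head? (Poly.filter (p := fun a (q : Vec) => fatQ (orc a) (s a) (l a) q)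
    (poly_grid hB h4 hn)
    (poly_fatQ (orc := fun p : α × Vec => orc p.1) (orc_wk ho c1) (hs.comp c1) (hl.comp c1) c2))

theorem poly_shr {C M Δ B n : α → ℕ} {l : α → List ℕ} {orc : α → Vec → Option Vec}
    {s : α → Box} (hC : Poly C) (hM : UPoly M) (hΔ : Poly Δ) (hB : UPoly B) (hn : UPoly n)
    (hl : Poly l) (ho : Poly (fun p : α × Vec => orc p.1 p.2)) (hs : Poly s) :
    Poly (fun a => shr (C a) (M a) (Δ a) (B a) (n a) (l a) (orc a) (s a)) := by
  have hS := poly_cuts hM hB hn hl ho hs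
  have hin : Poly (fun p : α × Vec => (flatDir (B p.1) (M p.1) (Δ p.1) (n p.1)
      (fineS (B p.1) (M p.1) (n p.1)
        ((grid (B p.1) (M p.1 / 4) (n p.1)).flatMap (cutQ (orc p.1) (s p.1) (l p.1))))
        p.2).head?) :=
    Poly.head? (poly_flatDir (UPoly.comp hB c1) (UPoly.comp hM c1) (hΔ.comp c1)
      (UPoly.comp hn c1) (hS.comp c1) c2)
  have h3 : Poly (fun r : (α × Vec) × (Vec × ℕ) => ((0 : ℕ), compo (s r.1.1)
      (List.zipWith (fun (x : ℤ) (m : ℕ) => x * (m : ℤ)) r.1.2 (l r.1.1),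
        reb (C r.1.1) (M r.1.1) (Δ r.1.1) (l r.1.1) r.2.1 r.2.2))) :=
    Poly.pair (Poly.const 0) (poly_compo (hs.comp c11) (Poly.pair (poly_zmul c12 (hl.comp c11))
      (poly_reb (hC.comp c11) (hM.toPoly.comp c11) (hΔ.comp c11) (hl.comp c11) (Poly.fst c2)
        (Poly.snd c2))))
  have h2 : Poly (fun p : α × Vec => (flatDir (B p.1) (M p.1) (Δ p.1) (n p.1)
      (fineS (B p.1) (M p.1) (n p.1)
        ((grid (B p.1) (M p.1 / 4) (n p.1)).flatMap (cutQ (orc p.1) (s p.1) (l p.1))))
        p.2).head?.elim (2, s p.1) fun cj => ((0 : ℕ), compo (s p.1)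
      (List.zipWith (fun (x : ℤ) (m : ℕ) => x * (m : ℤ)) p.2 (l p.1),
        reb (C p.1) (M p.1) (Δ p.1) (l p.1) cj.1 cj.2))) :=
    Poly.optElim (g := fun p : α × Vec => ((2 : ℕ), s p.1))
      (h := fun (p : α × Vec) (cj : Vec × ℕ) => ((0 : ℕ), compo (s p.1)
        (List.zipWith (fun (x : ℤ) (m : ℕ) => x * (m : ℤ)) p.2 (l p.1),
        reb (C p.1) (M p.1) (Δ p.1) (l p.1) cj.1 cj.2))) hin
      (Poly.pair (Poly.const 2) (hs.comp c1)) h3
  have h1 : Poly (fun a => (fineS (B a) (M a) (n a)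
      ((grid (B a) (M a / 4) (n a)).flatMap (cutQ (orc a) (s a) (l a)))).head?.elim (2, s a)
      fun p0 => (flatDir (B a) (M a) (Δ a) (n a) (fineS (B a) (M a) (n a)
      ((grid (B a) (M a / 4) (n a)).flatMap (cutQ (orc a) (s a) (l a)))) p0).head?.elim
        (2, s a) fun cj => ((0 : ℕ), compo (s a)
          (List.zipWith (fun (x : ℤ) (m : ℕ) => x * (m : ℤ)) p0 (l a),
          reb (C a) (M a) (Δ a) (l a) cj.1 cj.2))) :=
    Poly.optElim (g := fun a => ((2 : ℕ), s a))
      (h := fun a (p0 : Vec) => (flatDir (B a) (M a) (Δ a) (n a) (fineS (B a) (M a) (n a)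
      ((grid (B a) (M a / 4) (n a)).flatMap (cutQ (orc a) (s a) (l a)))) p0).head?.elim
        (2, s a) fun cj => ((0 : ℕ), compo (s a)
          (List.zipWith (fun (x : ℤ) (m : ℕ) => x * (m : ℤ)) p0 (l a),
          reb (C a) (M a) (Δ a) (l a) cj.1 cj.2))) (Poly.head? hS)
      (Poly.pair (Poly.const 2) hs) h2
  exact Poly.optElim (h := fun a (q : Vec) => ((1 : ℕ), (ptS (s a) (l a) (four q), (s a).2)))
    (poly_fat hM hB hn hl ho hs) h1
    (Poly.pair (Poly.const 1) (Poly.pair (poly_ptS (hs.comp c1) (hl.comp c1) (poly_four c2))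
      (Poly.snd (hs.comp c1))))

/-- The shrinking step is polynomial-time. -/
theorem poly_shrink {P D B : α → ℕ} {orc : α → Vec → Option Vec} {s : α → Box} (hP : UPoly P)
    (hD : UPoly D) (hB : UPoly B) (ho : Poly (fun p : α × Vec => orc p.1 p.2)) (hs : Poly s) :
    Poly (fun a => shrink (P a) (D a) (B a) (orc a) (s a)) := by
  have hM := upoly_minP hP (poly_cM hD)
  refine (poly_shr (C := fun a => cc (D a)) (M := fun a => min (P a) (cM (D a)))
    (Δ := fun a => cDel (D a)) (B := B) (n := fun a => (s a).2.length)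
    (l := fun a => (bns (s a)).map fun m => m / min (P a) (cM (D a))) (orc := orc) (s := s)
    (poly_cc hD) hM (poly_cDel hD) hB (UPoly.length (Poly.snd hs)) ?_ ho hs).congr
      fun a => (shrink_eq _ _ _ _ _).symm
  exact Poly.map (F := fun a (m : ℕ) => m / min (P a) (cM (D a))) (poly_bns hs)
    (Poly.div c2 (hM.toPoly.comp c1))

end Pool.Agent.NPC.R960

namespace Run7.h960

export Pool.Agent.NPC.R960 (poly_reb poly_compo poly_shrink)

end Run7.h960
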