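import Pool.Agent.Run7.h960.PolyB

set_option autoImplicit false

/-!
# Polynomial time: sand, leaves, oracles
-/

namespace Pool.Agent.NPC.R960

open Run7.h960
open Pool.Agent.H687R2.LLL (dot nrm lllStep cnt fsts gsr)

variable {α β γ σ : Type} [TEnc α] [TEnc β] [TEnc γ] [TEnc σ]

/-! ### sand -/

theorem poly_stepS {P D B : α → ℕ} {orc : α → Vec → Option Vec} {t : α → ℕ × Box} (hP : UPoly P)
    (hD : UPoly D) (hB : UPoly B) (ho : Poly (fun p : α × Vec => orc p.1 p.2)) (ht : Poly t) :
    Poly (fun a => stepS (P a) (D a) (B a) (orc a) (t a)) :=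
  Poly.cond (Poly.and (Poly.decide_eq (Poly.fst ht) (Poly.const 0))
    (Poly.and (Poly.not (Poly.isEmpty (Poly.snd (Poly.snd ht))))
      (Poly.not (Poly.any (p := fun a (p : Vec × ℕ) => decide (p.2 < cw (D a)))
        (Poly.snd (Poly.snd ht)) (Poly.decide_lt (Poly.snd c2) ((poly_cw hD).comp c1))))))
    (poly_shrink hP hD hB ho (Poly.snd ht)) ht

theorem poly_sand {P D B : α → ℕ} {orc : α → Vec → Option Vec} {s : α → Box} (hP : UPoly P)
    (hD : UPoly D) (hB : UPoly B) (ho : Poly (fun p : α × Vec => orc p.1 p.2)) (hs : Poly s) :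
    Poly (fun a => sand (P a) (D a) (B a) (orc a) (s a)) :=
  poly_iterCap (F := fun a t => stepS (P a) (D a) (B a) (orc a) t)
    (d := fun _ => ((2 : ℕ), (([] : Vec), ([] : List (Vec × ℕ))))) (s := fun a => ((0 : ℕ), s a))
    hB hB (poly_stepS (P := fun p : α × ℕ × Box => P p.1) (D := fun p => D p.1)
      (B := fun p => B p.1) (orc := fun p => orc p.1) (t := fun p => p.2) (UPoly.comp hP c1)
      (UPoly.comp hD c1) (UPoly.comp hB c1) (orc_wk ho c1) c2)
    (Poly.const _) (Poly.pair (Poly.const 0) hs)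

theorem poly_delAt {l : α → List (Vec × ℕ)} {k : α → ℕ} (hl : Poly l) (hk : Poly k) :
    Poly (fun a => delAt (l a) (k a)) :=
  Poly.map (F := fun a (i : ℕ) => (l a).getD i ([], 0))
    (Poly.filter (p := fun a (i : ℕ) => !(decide (i = k a))) (Poly.range_length hl)
      (Poly.not (Poly.decide_eq c2 (hk.comp c1))))
    (Poly.getD (hl.comp c1) c2 (Poly.const _))

theorem poly_slices {P D : α → ℕ} {s : α → Box} (hP : UPoly P) (hD : UPoly D) (hs : Poly s) :
    Poly (fun a => slices (P a) (D a) (s a)) := by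
  have h1 : Poly (fun a => ((List.range (s a).2.length).filter
      fun k => decide (((s a).2.getD k ([], 0)).2 < cw (D a))).head?) :=
    Poly.head? (Poly.filter (p := fun a (k : ℕ) => decide (((s a).2.getD k ([], 0)).2 < cw (D a)))
      (Poly.range_length (Poly.snd hs))
      (Poly.decide_lt (Poly.snd (Poly.getD (Poly.snd (hs.comp c1)) c2 (Poly.const _)))
        ((poly_cw hD).comp c1)))
  have h2 : Poly (fun p : α × ℕ => (s p.1).2.getD p.2 ([], 0)) :=
    Poly.getD (Poly.snd (hs.comp c1)) c2 (Poly.const _)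
  have h3 : UPoly (fun p : α × ℕ => 2 * min (P p.1) ((s p.1).2.getD p.2 ([], 0)).2 + 1) :=
    UPoly.add (UPoly.mul (UPoly.const 2) (upoly_minP (UPoly.comp hP c1) (Poly.snd h2)))
      (UPoly.const 1)
  have h4 : Poly (fun r : (α × ℕ) × ℕ => (lin (s r.1.1).1 [((s r.1.1).2.getD r.1.2 ([], 0)).1]
      [(r.2 : ℤ) - (((s r.1.1).2.getD r.1.2 ([], 0)).2 : ℤ)], delAt (s r.1.1).2 r.1.2)) :=
    Poly.pair (poly_lin (Poly.fst (hs.comp c11)) (Poly.cons (Poly.fst (h2.comp c1)) (Poly.const _))
      (Poly.cons (Poly.isub (Poly.natCast c2) (Poly.natCast (Poly.snd (h2.comp c1))))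
        (Poly.const _))) (poly_delAt (Poly.snd (hs.comp c11)) c12)
  refine (Poly.optElim (g := fun _ => ([] : List Box))
    (h := fun a (k : ℕ) => (List.range (2 * min (P a) ((s a).2.getD k ([], 0)).2 + 1)).map
      fun (i : ℕ) => (lin (s a).1 [((s a).2.getD k ([], 0)).1]
        [(i : ℤ) - (((s a).2.getD k ([], 0)).2 : ℤ)], delAt (s a).2 k)) h1 (Poly.const _)
    (Poly.map (F := fun (p : α × ℕ) (i : ℕ) => (lin (s p.1).1 [((s p.1).2.getD p.2 ([], 0)).1]
        [(i : ℤ) - (((s p.1).2.getD p.2 ([], 0)).2 : ℤ)], delAt (s p.1).2 p.2))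
      h3.range h4)).congr fun a => ?_
  unfold slices
  cases ((List.range (s a).2.length).filter
      fun k => decide (((s a).2.getD k ([], 0)).2 < cw (D a))).head? with
  | none => rfl
  | some k =>
    simp only [Option.elim_some]
    first
      | rfl
      | (rw [bind_pure_int, List.map_map]; rfl)

/-! ### leaves -/

theorem poly_lvl1 {P D B : α → ℕ} {orc : α → Vec → Option Vec} {s : α → Box} (hP : UPoly P)
    (hD : UPoly D) (hB : UPoly B) (ho : Poly (fun p : α × Vec => orc p.1 p.2)) (hs : Poly s) :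
    Poly (fun a => lvl1 (P a) (D a) (B a) (orc a) (s a)) := by
  have h1 := poly_sand hP hD hB ho hs
  exact Poly.cond (Poly.isEmpty (Poly.snd hs)) (Poly.cons hs (Poly.const _))
    (Poly.cond (Poly.decide_eq (Poly.fst h1) (Poly.const 0)) (poly_slices hP hD (Poly.snd h1))
      (Poly.cond (Poly.decide_eq (Poly.fst h1) (Poly.const 1))
        (Poly.cons (Poly.pair (Poly.fst (Poly.snd h1)) (Poly.const _)) (Poly.const _))
        (Poly.const _)))

theorem poly_leaves {P D B : α → ℕ} {orc : α → Vec → Option Vec} {s : α → Box} (hP : UPoly P)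
    (hD : UPoly D) (hB : UPoly B) (ho : Poly (fun p : α × Vec => orc p.1 p.2)) (hs : Poly s) :
    Poly (fun a => leaves (P a) (D a) (B a) (orc a) (s a)) := by
  have h0 : Poly (fun p : (α × List Box) × Box => lvl1 (P p.1.1) (D p.1.1) (B p.1.1)
      (orc p.1.1) p.2) :=
    poly_lvl1 (orc := fun p : (α × List Box) × Box => orc p.1.1) (UPoly.comp hP c11)
      (UPoly.comp hD c11) (UPoly.comp hB c11) (orc_wk ho c11) c2
  have h1 : Poly (fun a => iterCap (B a) (fun L => L.flatMap (lvl1 (P a) (D a) (B a) (orc a)))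
      [] (s a).2.length [s a]) :=
    poly_iterCap (F := fun a (L : List Box) => L.flatMap (lvl1 (P a) (D a) (B a) (orc a)))
      (d := fun _ => ([] : List Box)) (s := fun a => [s a]) hB (UPoly.length (Poly.snd hs))
      (Poly.flatMap (F := fun (p : α × List Box) (b : Box) =>
        lvl1 (P p.1) (D p.1) (B p.1) (orc p.1) b) c2 h0)
      (Poly.const _) (Poly.cons hs (Poly.const _))
  have h2 : Poly (fun p : α × Box => (orc p.1 p.2.1).isNone) :=
    poly_isNone (orc_app (orc := fun p : α × Box => orc p.1) (orc_wk ho c1) (Poly.fst c2))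
  exact Poly.map (F := fun _ (t : Box) => t.1)
    (Poly.filter (p := fun a (t : Box) => t.2.isEmpty && (orc a t.1).isNone) h1
      (Poly.and (Poly.isEmpty (Poly.snd c2)) h2)) (Poly.fst c2)

/-! ### oracles -/

theorem poly_viol {rows : α → Rows} {x : α → Vec} (hr : Poly rows) (hx : Poly x) :
    Poly (fun a => viol (rows a) (x a)) :=
  Poly.head? (Poly.map (F := fun _ (r : Vec × ℤ) => r.1)
    (Poly.filter (p := fun a (r : Vec × ℤ) => decide (r.2 < dot r.1 (x a))) hr
      (Poly.ilt (Poly.snd c2) (poly_dot (Poly.fst c2) (hx.comp c1)))) (Poly.fst c2))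

theorem poly_stdBox {ns : α → List ℕ} (hn : Poly ns) : Poly (fun a => stdBox (ns a)) :=
  Poly.pair (poly_zv (UPoly.length hn))
    (Poly.map (F := fun a (k : ℕ) => (unitV (ns a).length k, (ns a).getD k 0))
      (Poly.range_length hn)
      (Poly.pair (poly_unitV (UPoly.length (hn.comp c1)) c2)
        (Poly.getD (hn.comp c1) c2 (Poly.const 0))))

theorem poly_boxRows {ns : α → List ℕ} (hn : Poly ns) : Poly (fun a => boxRows (ns a)) := by
  have h1 : Poly (fun p : α × ℕ => unitV (ns p.1).length p.2) :=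
    poly_unitV (UPoly.length (hn.comp c1)) c2
  have h2 : Poly (fun p : α × ℕ => (((ns p.1).getD p.2 0 : ℕ) : ℤ)) :=
    Poly.natCast (Poly.getD (hn.comp c1) c2 (Poly.const 0))
  exact Poly.flatMap (F := fun a (k : ℕ) => [(unitV (ns a).length k, ((ns a).getD k 0 : ℤ)),
      (nneg (unitV (ns a).length k), ((ns a).getD k 0 : ℤ))]) (Poly.range_length hn)
    (Poly.cons (Poly.pair h1 h2) (Poly.cons (Poly.pair (poly_nneg h1) h2) (Poly.const _)))

theorem poly_yrows {rows : α → Rows} {t : α → Box} (hr : Poly rows) (ht : Poly t) :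
    Poly (fun a => yrows (rows a) (t a)) :=
  Poly.append (Poly.map (F := fun a (r : Vec × ℤ) => ((bvs (t a)).map fun b => dot r.1 b,
      r.2 - dot r.1 (t a).1)) hr
    (Poly.pair (Poly.map (F := fun (p : α × Vec × ℤ) (b : Vec) => dot p.2.1 b)
      (poly_bvs (ht.comp c1)) (poly_dot (Poly.fst c12) c2))
      (Poly.isub (Poly.snd c2) (poly_dot (Poly.fst c2) (Poly.fst (ht.comp c1))))))
    (poly_boxRows (poly_bns ht))

theorem poly_headD {l : α → List β} {d : α → β} (hl : Poly l) (hd : Poly d) :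
    Poly (fun a => (l a).headD (d a)) :=
  (Poly.optGetD (Poly.head? hl) hd).congr fun a => by cases l a <;> rfl

theorem poly_yorc {rows : α → Rows} {t : α → Box} {g x : α → Vec} (hr : Poly rows) (ht : Poly t)
    (hg : Poly g) (hx : Poly x) : Poly (fun a => yorc (rows a) (t a) (g a) (x a)) :=
  poly_viol (Poly.append (poly_yrows hr ht) (Poly.cons (Poly.pair (Poly.tail hg)
    (Poly.isub (Poly.const (-1)) (poly_headD hg (Poly.const 0)))) (Poly.const _))) hx

theorem poly_ylv {P D B : α → ℕ} {rows : α → Rows} {t : α → Box} {g : α → Vec} (hP : UPoly P)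
    (hD : UPoly D) (hB : UPoly B) (hr : Poly rows) (ht : Poly t) (hg : Poly g) :
    Poly (fun a => ylv (P a) (D a) (B a) (rows a) (t a) (g a)) :=
  poly_leaves (orc := fun a => yorc (rows a) (t a) (g a)) hP hD hB
    (poly_yorc (hr.comp c1) (ht.comp c1) (hg.comp c1) c2) (poly_stdBox (poly_bns ht))

theorem poly_gorc {P D B R : α → ℕ} {rows : α → Rows} {t : α → Box} {F g : α → Vec}
    (hP : UPoly P) (hD : UPoly D) (hB : UPoly B) (hr : Poly rows) (ht : Poly t) (hR : Poly R)
    (hF : Poly F) (hg : Poly g) :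
    Poly (fun a => gorc (P a) (D a) (B a) (rows a) (t a) (R a) (F a) (g a)) := by
  have h1 : Poly (fun a => viol (boxRows (List.replicate ((t a).2.length + 1) (R a)) ++
      [(F a, -1)]) (g a)) :=
    poly_viol (Poly.append (poly_boxRows (poly_replicate
      (UPoly.add (UPoly.length (Poly.snd ht)) (UPoly.const 1)) hR))
      (Poly.cons (Poly.pair hF (Poly.const _)) (Poly.const _))) hg
  have h2 : Poly (fun a => (ylv (P a) (D a) (B a) (rows a) (t a) (g a)).head?.elim
      (none : Option Vec) fun y => some (nneg (1 :: y))) :=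
    Poly.optElim (g := fun _ => (none : Option Vec))
      (h := fun _ (y : Vec) => some (nneg (1 :: y)))
      (Poly.head? (poly_ylv hP hD hB hr ht hg)) (Poly.const _)
      (Poly.some (poly_nneg (Poly.cons (Poly.const 1) c2)))
  refine (Poly.optElim (h := fun _ (h : Vec) => some h) h1 h2 (Poly.some c2)).congr fun a => ?_
  unfold gorc
  cases viol (boxRows (List.replicate ((t a).2.length + 1) (R a)) ++ [(F a, -1)]) (g a) with
  | some h => rfl
  | none =>
    simp only [Option.elim_none]
    cases (ylv (P a) (D a) (B a) (rows a) (t a) (g a)).head? <;> rfl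

theorem poly_glv {P D B R : α → ℕ} {rows : α → Rows} {t : α → Box} {F : α → Vec} (hP : UPoly P)
    (hD : UPoly D) (hB : UPoly B) (hr : Poly rows) (ht : Poly t) (hR : Poly R) (hF : Poly F) :
    Poly (fun a => glv (P a) (D a) (B a) (rows a) (t a) (R a) (F a)) :=
  poly_leaves (orc := fun a => gorc (P a) (D a) (B a) (rows a) (t a) (R a) (F a)) hP hD hB
    (poly_gorc (UPoly.comp hP c1) (UPoly.comp hD c1) (UPoly.comp hB c1) (hr.comp c1) (ht.comp c1)
      (hR.comp c1) (hF.comp c1) c2)
    (poly_stdBox (poly_replicate (UPoly.add (UPoly.length (Poly.snd ht)) (UPoly.const 1)) hR))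

theorem poly_zorc {P D B R C1 : α → ℕ} {rows : α → Rows} {t : α → Box} {F y : α → Vec}
    (hP : UPoly P) (hD : UPoly D) (hB : UPoly B) (hr : Poly rows) (ht : Poly t) (hR : Poly R)
    (hC : Poly C1) (hF : Poly F) (hy : Poly y) :
    Poly (fun a => zorc (P a) (D a) (B a) (rows a) (t a) (R a) (C1 a) (F a) (y a)) := by
  have h0 : Poly (fun a => (1 :: y a).map fun x => (C1 a : ℤ) * x) :=
    Poly.map (F := fun a (x : ℤ) => (C1 a : ℤ) * x) (Poly.cons (Poly.const 1) hy)
      (Poly.imul (Poly.natCast (hC.comp c1)) c2)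
  have h1 : Poly (fun a => viol (yrows (rows a) (t a)) (y a)) := poly_viol (poly_yrows hr ht) hy
  have h2 : Poly (fun a => (glv (P a) (D a) (B a) (rows a) (t a) (R a)
      (vsub (F a) ((1 :: y a).map fun x => (C1 a : ℤ) * x))).head?.elim
      (none : Option Vec) fun g => some g.tail) :=
    Poly.optElim (g := fun _ => (none : Option Vec)) (h := fun _ (g : Vec) => some g.tail)
      (Poly.head? (poly_glv hP hD hB hr ht hR (poly_vsub hF h0))) (Poly.const _)
      (Poly.some (Poly.tail c2))
  refine (Poly.optElim (h := fun _ (h : Vec) => some h) h1 h2 (Poly.some c2)).congr fun a => ?_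
  unfold zorc
  cases viol (yrows (rows a) (t a)) (y a) with
  | some h => rfl
  | none =>
    simp only [Option.elim_none]
    cases (glv (P a) (D a) (B a) (rows a) (t a) (R a)
      (vsub (F a) ((1 :: y a).map fun x => (C1 a : ℤ) * x))).head? <;> rfl

end Pool.Agent.NPC.R960

namespace Run7.h960

export Pool.Agent.NPC.R960 (poly_sand poly_slices poly_leaves poly_glv poly_zorc)

end Run7.h960
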