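import Pool.Agent.Run7.h960.Norms

set_option autoImplicit false

/-!
# Reduced bases: back substitution and volume
-/

namespace Run7.h960

open Pool.Agent.NPC
open Pool.Agent.H687R2.LLL
open scoped InnerProductSpace

section Abs

variable {E : Type*} [NormedAddCommGroup E] [InnerProductSpace ℝ E] [FiniteDimensional ℝ E]
  {b : ℕ → E} {k : ℕ}

/-- The vectors of a reduced basis are not much longer than the Gram-Schmidt vectors. -/
theorem norm_le_g (hlov : Lov b k) (hμ : ∀ j < k, ∀ l < j, |⟪g b l, b j⟫_ℝ| ≤ ‖g b l‖ ^ 2 / 2)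
    {i : ℕ} (hi : i < k) : ‖b i‖ ≤ 2 ^ i * ‖g b i‖ := by
  have h1 := norm_sq_le_of_reduced (hμ i hi) (A := 2 ^ i * ‖g b i‖ ^ 2) (fun l hl => by
    have h2 := g_chain hlov hi (i - l) l (by omega)
    refine h2.trans (mul_le_mul_of_nonneg_right ?_ (by positivity))
    exact pow_le_pow_right₀ (by norm_num) (by omega))
  have h3 : ((i : ℝ) + 1) ≤ 2 ^ i := by
    have : i + 1 ≤ 2 ^ i := Nat.lt_two_pow_self
    exact_mod_cast this
  have h4 : ‖b i‖ ^ 2 ≤ (2 ^ i * ‖g b i‖) ^ 2 := by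
    calc ‖b i‖ ^ 2 ≤ (i + 1) * (2 ^ i * ‖g b i‖ ^ 2) := h1
      _ ≤ 2 ^ i * (2 ^ i * ‖g b i‖ ^ 2) := mul_le_mul_of_nonneg_right h3 (by positivity)
      _ = (2 ^ i * ‖g b i‖) ^ 2 := by ring
  exact le_of_sq_le_sq₀ h4 (by positivity)
  where
  le_of_sq_le_sq₀ {x y : ℝ} (h : x ^ 2 ≤ y ^ 2) (hy : 0 ≤ y) : x ≤ y := by
    by_contra h'
    push Not at h'
    nlinarith

/-- Back substitution. -/
theorem back_sub (hlov : Lov b k) (hμ : ∀ j < k, ∀ l < j, |⟪g b l, b j⟫_ℝ| ≤ ‖g b l‖ ^ 2 / 2)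
    (a : ℕ → ℝ) : ∀ i < k, |a i| * ‖b i‖ ≤ 4 ^ k * ‖∑ m ∈ Finset.range k, a m • b m‖ := by
  set x := ∑ m ∈ Finset.range k, a m • b m with hx
  -- the basic inequality
  have h1 : ∀ i < k, |a i| * ‖g b i‖ ≤ ‖x‖ +
      1 / 2 * ∑ m ∈ Finset.Ico (i + 1) k, 2 ^ (m - i) * (|a m| * ‖g b m‖) := by
    intro i hi
    have hsum0 : 0 ≤ ∑ m ∈ Finset.Ico (i + 1) k, 2 ^ (m - i) * (|a m| * ‖g b m‖) :=
      Finset.sum_nonneg fun m _ => by positivity
    rcases (norm_nonneg (g b i)).eq_or_lt with h0 | h0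
    · rw [← h0, mul_zero]
      have := norm_nonneg x
      linarith
    have h2 : ⟪g b i, x⟫_ℝ = a i * ‖g b i‖ ^ 2 +
        ∑ m ∈ Finset.Ico (i + 1) k, a m * ⟪g b i, b m⟫_ℝ := by
      rw [hx, inner_sum]
      rw [← Finset.sum_range_add_sum_Ico _ (show i + 1 ≤ k from hi)]
      rw [Finset.sum_range_succ]
      have h3 : ∑ m ∈ Finset.range i, ⟪g b i, a m • b m⟫_ℝ = 0 := by
        refine Finset.sum_eq_zero fun m hm => ?_
        rw [inner_smul_right, g, inner_P_mem (mem_W (Finset.mem_range.1 hm)), mul_zero]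
      rw [h3, zero_add, inner_smul_right, inner_g_b]
      congr 1
      exact Finset.sum_congr rfl fun m _ => by rw [inner_smul_right]
    have h4 : |a i| * ‖g b i‖ ^ 2 ≤ ‖g b i‖ * ‖x‖ +
        ∑ m ∈ Finset.Ico (i + 1) k, |a m| * (‖g b i‖ ^ 2 / 2) := by
      have h5 : |a i * ‖g b i‖ ^ 2| ≤ |⟪g b i, x⟫_ℝ| +
          |∑ m ∈ Finset.Ico (i + 1) k, a m * ⟪g b i, b m⟫_ℝ| := by
        have : a i * ‖g b i‖ ^ 2 = ⟪g b i, x⟫_ℝ -
          ∑ m ∈ Finset.Ico (i + 1) k, a m * ⟪g b i, b m⟫_ℝ := by rw [h2]; ring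
        rw [this]
        exact abs_sub _ _
      rw [abs_mul, abs_of_nonneg (show (0 : ℝ) ≤ ‖g b i‖ ^ 2 by positivity)] at h5
      refine h5.trans (add_le_add (abs_real_inner_le_norm _ _) ?_)
      refine (Finset.abs_sum_le_sum_abs _ _).trans (Finset.sum_le_sum fun m hm => ?_)
      rw [Finset.mem_Ico] at hm
      rw [abs_mul]
      exact mul_le_mul_of_nonneg_left (hμ m hm.2 i (by omega)) (abs_nonneg _)
    have h6 : |a i| * ‖g b i‖ ≤ ‖x‖ + ∑ m ∈ Finset.Ico (i + 1) k, |a m| * (‖g b i‖ / 2) := by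
      have h7 : ∑ m ∈ Finset.Ico (i + 1) k, |a m| * (‖g b i‖ ^ 2 / 2) =
          ‖g b i‖ * ∑ m ∈ Finset.Ico (i + 1) k, |a m| * (‖g b i‖ / 2) := by
        rw [Finset.mul_sum]
        exact Finset.sum_congr rfl fun m _ => by ring
      rw [h7, ← mul_add] at h4
      have h8 : |a i| * ‖g b i‖ ^ 2 = ‖g b i‖ * (|a i| * ‖g b i‖) := by ring
      rw [h8] at h4
      exact le_of_mul_le_mul_left h4 h0
    refine h6.trans (add_le_add_right ?_ _)
    rw [Finset.mul_sum]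
    refine Finset.sum_le_sum fun m hm => ?_
    rw [Finset.mem_Ico] at hm
    have h9 : ‖g b i‖ ≤ 2 ^ (m - i) * ‖g b m‖ := by
      have h10 := g_chain hlov hm.2 (m - i) i (by omega)
      have h11 : ‖g b i‖ ^ 2 ≤ (2 ^ (m - i) * ‖g b m‖) ^ 2 := by
        refine h10.trans ?_
        rw [mul_pow]
        refine mul_le_mul_of_nonneg_right ?_ (by positivity)
        have : (1 : ℝ) ≤ 2 ^ (m - i) := one_le_pow₀ (by norm_num)
        nlinarith
      by_contra h'
      push Not at h'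
      have : 0 ≤ 2 ^ (m - i) * ‖g b m‖ := by positivity
      nlinarith
    have := abs_nonneg (a m)
    nlinarith
  -- summation
  have h2 : ∀ d i, i + d = k → ∑ m ∈ Finset.Ico i k, 2 ^ m * (|a m| * ‖g b m‖) ≤
      4 ^ d * (2 ^ i * ‖x‖) := by
    intro d
    induction d with
    | zero =>
      intro i hi
      have : i = k := by omega
      subst this
      simp
    | succ d ih =>
      intro i hi
      have h3 := ih (i + 1) (by omega)
      have h4 := h1 i (by omega)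
      rw [Finset.sum_eq_sum_Ico_succ_bot (by omega)]
      have h5 : ∑ m ∈ Finset.Ico (i + 1) k, 2 ^ m * (|a m| * ‖g b m‖) =
          2 ^ i * ∑ m ∈ Finset.Ico (i + 1) k, 2 ^ (m - i) * (|a m| * ‖g b m‖) := by
        rw [Finset.mul_sum]
        refine Finset.sum_congr rfl fun m hm => ?_
        rw [Finset.mem_Ico] at hm
        have h12 : (2 : ℝ) ^ m = 2 ^ i * 2 ^ (m - i) := by
          rw [← pow_add]
          congr 1
          omega
        rw [h12]
        ring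
      have h6 : (2 : ℝ) ^ i * (|a i| * ‖g b i‖) ≤ 2 ^ i * ‖x‖ +
          1 / 2 * ∑ m ∈ Finset.Ico (i + 1) k, 2 ^ m * (|a m| * ‖g b m‖) := by
        rw [h5]
        have h7 : (0 : ℝ) < 2 ^ i := by positivity
        nlinarith
      have h7 : (1 : ℝ) ≤ 4 ^ d := one_le_pow₀ (by norm_num)
      have h8 : 0 ≤ (2 : ℝ) ^ i * ‖x‖ := by positivity
      calc (2 : ℝ) ^ i * (|a i| * ‖g b i‖) + ∑ m ∈ Finset.Ico (i + 1) k, 2 ^ m * (|a m| * ‖g b m‖)
          ≤ 2 ^ i * ‖x‖ + 3 / 2 * ∑ m ∈ Finset.Ico (i + 1) k, 2 ^ m * (|a m| * ‖g b m‖) := by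
            linarith
        _ ≤ 2 ^ i * ‖x‖ + 3 / 2 * (4 ^ d * (2 ^ (i + 1) * ‖x‖)) := by linarith
        _ = 2 ^ i * ‖x‖ + 3 * 4 ^ d * (2 ^ i * ‖x‖) := by ring
        _ ≤ 4 ^ (d + 1) * (2 ^ i * ‖x‖) := by
            rw [pow_succ]
            nlinarith
  intro i hi
  have h3 := h2 (k - i) i (by omega)
  rw [Finset.sum_eq_sum_Ico_succ_bot hi] at h3
  have h4 : 0 ≤ ∑ m ∈ Finset.Ico (i + 1) k, 2 ^ m * (|a m| * ‖g b m‖) :=
    Finset.sum_nonneg fun m _ => by positivity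
  have h5 := norm_le_g hlov hμ hi
  have h6 : (2 : ℝ) ^ i ≤ 4 ^ i := pow_le_pow_left₀ (by norm_num) (by norm_num) _
  calc |a i| * ‖b i‖ ≤ |a i| * (2 ^ i * ‖g b i‖) :=
        mul_le_mul_of_nonneg_left h5 (abs_nonneg _)
    _ = 2 ^ i * (|a i| * ‖g b i‖) := by ring
    _ ≤ 4 ^ (k - i) * (2 ^ i * ‖x‖) := by linarith
    _ ≤ 4 ^ (k - i) * (4 ^ i * ‖x‖) := by
        refine mul_le_mul_of_nonneg_left ?_ (by positivity)
        exact mul_le_mul_of_nonneg_right h6 (norm_nonneg _)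
    _ = 4 ^ k * ‖x‖ := by
        rw [← mul_assoc, ← pow_add]
        congr 2
        omega

/-- Hadamard's inequality. -/
theorem gd_le_prod (hp : Pos b k) : ∀ m ≤ k, gd b m ≤ ∏ i ∈ Finset.range m, ‖b i‖ ^ 2 := by
  intro m
  induction m with
  | zero => intro _; simp [gd_zero]
  | succ m ih =>
    intro hm
    have h1 := hp m (by omega)
    rw [gd_succ h1.ne', Finset.prod_range_succ]
    have h2 : ‖g b m‖ ^ 2 ≤ ‖b m‖ ^ 2 := pow_le_pow_left₀ (norm_nonneg _) (norm_P_le _) 2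
    exact mul_le_mul (ih (by omega)) h2 (by positivity) (h1.le.trans (ih (by omega)))

/-- Elements of the lattice generated by the first vectors. -/
theorem exists_coeff : ∀ n, ∀ x ∈ Zs b n, ∃ c : ℕ → ℤ,
    x = ∑ j ∈ Finset.range n, (c j : ℝ) • b j := by
  intro n
  induction n with
  | zero =>
    intro x hx
    refine ⟨fun _ => 0, ?_⟩
    simpa [Zs] using hx
  | succ n ih =>
    intro x hx
    rw [Zs_succ, Submodule.mem_sup] at hx
    obtain ⟨y, hy, z, hz, rfl⟩ := hx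
    obtain ⟨c, rfl⟩ := ih y hy
    obtain ⟨d, rfl⟩ := Submodule.mem_span_singleton.1 hz
    refine ⟨fun j => if j = n then d else c j, ?_⟩
    rw [Finset.sum_range_succ]
    simp only [if_true]
    rw [← Int.cast_smul_eq_zsmul ℝ]
    congr 1
    refine Finset.sum_congr rfl fun j hj => ?_
    have : j ≠ n := by simp at hj; omega
    simp [this]

theorem sum_mem_Zs (c : ℕ → ℤ) (n : ℕ) :
    ∑ j ∈ Finset.range n, (c j : ℝ) • b j ∈ Zs b n := by
  refine Submodule.sum_mem _ fun j hj => ?_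
  rw [Int.cast_smul_eq_zsmul]
  exact Submodule.smul_mem _ _ (mem_Zs (Finset.mem_range.1 hj))

end Abs

section Iter

variable {N k : ℕ} {A : ℝ} {Z : Submodule ℤ (EuclideanSpace ℝ (Fin N))} {B : List (List ℤ)}

theorem gd_fsts (h : Inv N k A Z B) : gd (sq N (fsts (gsr B))) k = gd (sq N B) k :=
  gd_eq_of_sub_mem (fsts_sub_W h) h.pos k le_rfl

theorem gd_lllStep (h : Inv N k A Z B) : gd (sq N (lllStep B)) k = gd (sq N B) k := by
  unfold lllStep
  cases hs : swapIdx (gsr B) with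
  | none => exact gd_fsts h
  | some i =>
    obtain ⟨h1, _⟩ := swapIdx_some h hs
    simp only
    rw [sq_swapL (N := N) _ (by rw [(fsts_inv h).len]; exact h1), gd_sw_of_ge (by omega)]
    exact gd_fsts h

theorem gd_iter (h : Inv N k A Z B) (t : ℕ) : gd (sq N (lllStep^[t] B)) k = gd (sq N B) k := by
  induction t with
  | zero => rfl
  | succ t ih => rw [Function.iterate_succ_apply', gd_lllStep (iter_inv h t), ih]

end Iter

/-! ### norms of lists -/

theorem sum_sq_le_sq_sum {ι : Type*} (s : Finset ι) (f : ι → ℝ) (hf : ∀ i ∈ s, 0 ≤ f i) :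
    ∑ i ∈ s, f i ^ 2 ≤ (∑ i ∈ s, f i) ^ 2 := by
  classical
  induction s using Finset.induction_on with
  | empty => simp
  | insert a s ha ih =>
    rw [Finset.sum_insert ha, Finset.sum_insert ha]
    have h1 := ih fun i hi => hf i (by simp [hi])
    have h2 : 0 ≤ ∑ i ∈ s, f i := Finset.sum_nonneg fun i hi => hf i (by simp [hi])
    have h3 := hf a (by simp)
    nlinarith

theorem norm_lv_sq (N : ℕ) (u : Vec) :
    ‖lv N u‖ ^ 2 = ∑ i ∈ Finset.range N, ((u.getD i 0 : ℤ) : ℝ) ^ 2 := by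
  rw [EuclideanSpace.norm_sq_eq, Finset.sum_range]
  refine Finset.sum_congr rfl fun i _ => ?_
  rw [lv_apply, Real.norm_eq_abs, sq_abs]

theorem norm_lv_le_nrm {N : ℕ} (u : Vec) (hu : u.length = N) : ‖lv N u‖ ≤ nrm u := by
  have h1 : ‖lv N u‖ ^ 2 ≤ (nrm u : ℝ) ^ 2 := by
    rw [norm_lv_sq N u, nrm_eq_sum hu.le]
    push_cast
    have h2 : ∀ i, ((u.getD i 0 : ℤ) : ℝ) ^ 2 = |((u.getD i 0 : ℤ) : ℝ)| ^ 2 := fun i => by
      rw [sq_abs]
    simp only [h2, Nat.cast_natAbs, Int.cast_abs]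
    exact sum_sq_le_sq_sum _ _ fun i _ => abs_nonneg _
  by_contra h'
  push Not at h'
  have : (0 : ℝ) ≤ nrm u := by positivity
  nlinarith

theorem nrm_sq_le {N : ℕ} (u : Vec) (hu : u.length = N) : (nrm u : ℝ) ^ 2 ≤ N * ‖lv N u‖ ^ 2 := by
  rw [norm_lv_sq N u, nrm_eq_sum hu.le]
  push_cast
  have h1 := sq_sum_le_card_mul_sum_sq (s := Finset.range N)
    (f := fun i => |((u.getD i 0 : ℤ) : ℝ)|)
  simp only [Finset.card_range, sq_abs] at h1
  simpa only [Nat.cast_natAbs, Int.cast_abs] using h1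

end Run7.h960
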