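import Pool.Agent.Run7.h960.Shrink
import Pool.Agent.Run7.h960.Norms

set_option autoImplicit false

/-!
# Specification of `sand` and `leaves`
-/

namespace Run7.h960

open Pool.Agent.NPC
open Pool.Agent.H687R2.LLL (dot nrm lllStep cnt fsts gsr sz_of_nrm sz_nat_of_lt natAbs_le_nrm)

variable {P D B n H : ℕ} {T : Set Vec} {orc : Vec → Option Vec} {s : Box}

theorem cM_le_cw'' (D : ℕ) : cM D ≤ cw D := by
  unfold cw
  have h1 : 1 ≤ cM D := Nat.one_le_two_pow
  nlinarith

theorem sz_box_le (hwf : WF n s) (hD : s.2.length ≤ D) (hH : ext s ≤ 2 ^ H) :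
    sz s ≤ (D + 1) * (n + 1) * (4 * H + 20) + 1 := by
  obtain ⟨x0, ps⟩ := s
  obtain ⟨h1, h2⟩ := hwf
  simp only at h1 h2 hD
  have hx : sz x0 ≤ n * (4 * H + 10) + 1 := by
    have h3 : nrm x0 < 2 ^ (H + 1) := by
      have := nrm_le_ext (x0, ps)
      simp only at this
      have h4 : 2 ^ H < 2 ^ (H + 1) := Nat.pow_lt_pow_right (by norm_num) (by omega)
      omega
    have h5 := sz_of_nrm h3
    rw [h1] at h5
    have e : 4 * (H + 1) + 6 = 4 * H + 10 := by ring
    rwa [e] at h5
  have hps : sz ps ≤ ps.length * ((n + 1) * (4 * H + 10) + 1) + 1 := by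
    refine sz_le_length_mul ps _ fun p hp => ?_
    have h3 : nrm p.1 < 2 ^ H := lt_of_lt_of_le (bvs_lt_ext (s := (x0, ps)) hp) hH
    have h4 : p.2 < 2 ^ H := lt_of_lt_of_le (bns_lt_ext (s := (x0, ps)) hp) hH
    have h5 := sz_of_nrm h3
    rw [h2 p hp] at h5
    have h6 := sz_nat_of_lt h4
    obtain ⟨v, m⟩ := p
    rw [sz_pair]
    simp only at h5 h6
    nlinarith
  rw [sz_pair]
  have h3 : ps.length * ((n + 1) * (4 * H + 10) + 1) ≤ D * ((n + 1) * (4 * H + 10) + 1) :=
    Nat.mul_le_mul_right _ hD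
  have h4 : (D + 1) * (n + 1) * (4 * H + 20) = D * ((n + 1) * (4 * H + 10) + (n + 1) * 10) +
    (n + 1) * (4 * H + 20) := by ring
  have h5 : D * ((n + 1) * (4 * H + 10) + 1) ≤ D * ((n + 1) * (4 * H + 10) + (n + 1) * 10) :=
    Nat.mul_le_mul_left _ (by omega)
  have h6 : n * (4 * H + 10) ≤ n * (4 * H + 20) := Nat.mul_le_mul_left _ (by omega)
  have h7 : (n + 1) * (4 * H + 20) = n * (4 * H + 20) + (4 * H + 20) := by ring
  omega

/-! ### arithmetic -/

theorem pow_le_two_pow_mul (x k : ℕ) : x ^ k ≤ 2 ^ (x * k) := by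
  rw [pow_mul]
  exact Nat.pow_le_pow_left (Nat.lt_two_pow_self).le _

theorem cG_bound {D n H : ℕ} {X : ℕ}
    (hX : X ≤ 10 + ((D + 1) * (n + 1) * (4 * (cS D * (H + 1)) + 20) + 1)) :
    X ≤ cG D * ((n + 1) * (H + 1)) := by
  have h1 : (D + 1) * (n + 1) * (4 * (cS D * (H + 1)) + 20) + 11 ≤
      ((D + 1) * (4 * cS D + 20) + 11) * ((n + 1) * (H + 1)) := by
    have e : ((D + 1) * (4 * cS D + 20) + 11) * ((n + 1) * (H + 1)) =
        (D + 1) * (n + 1) * (4 * (cS D * (H + 1)) + 20) + (D + 1) * (n + 1) * (20 * H) +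
          11 * ((n + 1) * (H + 1)) := by ring
    rw [e]
    have : 1 ≤ (n + 1) * (H + 1) := Nat.one_le_iff_ne_zero.2 (by positivity)
    omega
  have h2 : (D + 1) * (4 * cS D + 20) + 11 ≤ cG D := by
    have h3 : (D + 1) * (4 * cS D + 20) + 11 ≤ (D + 6) ^ 8 := by
      unfold cS
      have a1 : (D + 4) ^ 5 ≤ (D + 6) ^ 5 := Nat.pow_le_pow_left (by omega) _
      have a2 : 36 ≤ (D + 6) ^ 2 := by nlinarith
      have a3 : 36 * (D + 6) ^ 5 ≤ (D + 6) ^ 7 := by
        calc 36 * (D + 6) ^ 5 ≤ (D + 6) ^ 2 * (D + 6) ^ 5 := Nat.mul_le_mul_right _ a2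
          _ = (D + 6) ^ 7 := by ring
      have a4 : 1 ≤ (D + 6) ^ 5 := Nat.one_le_pow _ _ (by omega)
      calc (D + 1) * (4 * (D + 4) ^ 5 + 20) + 11 ≤ (D + 1) * (36 * (D + 6) ^ 5) + 11 :=
            Nat.add_le_add_right (Nat.mul_le_mul_left _ (by omega)) _
        _ ≤ (D + 1) * (D + 6) ^ 7 + 5 * (D + 6) ^ 7 := by
            have : (D + 1) * (36 * (D + 6) ^ 5) ≤ (D + 1) * (D + 6) ^ 7 :=
              Nat.mul_le_mul_left _ a3
            omega
        _ = (D + 6) ^ 8 := by ring
    refine h3.trans ((pow_le_two_pow_mul _ _).trans ?_)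
    unfold cG
    refine Nat.pow_le_pow_right (by norm_num) ?_
    have : 8 ≤ (D + 6) ^ 3 := by
      calc 8 ≤ 6 ^ 3 := by norm_num
        _ ≤ (D + 6) ^ 3 := Nat.pow_le_pow_left (by omega) _
    calc (D + 6) * 8 ≤ (D + 6) * (D + 6) ^ 3 := Nat.mul_le_mul_left _ this
      _ = (D + 6) ^ 4 := by ring
  have h3 := Nat.mul_le_mul_right ((n + 1) * (H + 1)) h2
  omega

theorem ext_exp {D H j : ℕ} (hj : j ≤ H * D + 1) : 1 + cE D * j + H ≤ cS D * (H + 1) := by
  unfold cE cS
  have h1 : (D + 4) ^ 3 * j ≤ (D + 4) ^ 3 * (H * D + 1) := Nat.mul_le_mul_left _ hj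
  have h2 : (D + 4) ^ 3 * (H * D + 1) ≤ (D + 4) ^ 3 * (H * D + D + 1) :=
    Nat.mul_le_mul_left _ (by omega)
  have h3 : 1 + H ≤ (D + 4) ^ 3 * (H + 1) := by
    have : 1 ≤ (D + 4) ^ 3 := Nat.one_le_pow _ _ (by omega)
    nlinarith
  have h4 : (D + 4) ^ 3 * (H * D + D + 1) + (D + 4) ^ 3 * (H + 1) ≤
      (D + 4) ^ 3 * ((D + 4) ^ 2 * (H + 1)) := by
    rw [← Nat.mul_add]
    refine Nat.mul_le_mul_left _ ?_
    nlinarith [Nat.zero_le (D * D * H), Nat.zero_le (D * H), Nat.zero_le (D * D)]
  have h5 : (D + 4) ^ 3 * ((D + 4) ^ 2 * (H + 1)) = (D + 4) ^ 5 * (H + 1) := by ring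
  omega

/-- the product of the half widths is bounded by the extent -/
theorem prod_bns_le {s : Box} {H : ℕ} (h : ext s ≤ 2 ^ H) (hD : s.2.length ≤ D) :
    (bns s).prod ≤ 2 ^ (H * D) := by
  have h1 : (bns s).prod ≤ (2 ^ H) ^ (bns s).length := by
    refine List.prod_le_pow_card _ _ fun x hx => ?_
    simp only [bns, List.mem_map] at hx
    obtain ⟨p, hp, rfl⟩ := hx
    have := bns_lt_ext hp
    omega
  refine h1.trans ?_
  rw [← pow_mul]
  refine Nat.pow_le_pow_right (by norm_num) ?_
  rw [length_bns]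
  exact Nat.mul_le_mul_left _ hD

theorem shrink_two (h : (shrink P D B orc s).1 = 2) : (shrink P D B orc s).2 = s := by
  unfold shrink at h ⊢
  dsimp only at h ⊢
  split at h
  · exact absurd h (by norm_num)
  · split at h
    · rfl
    · split at h
      · rfl
      · exact absurd h (by norm_num)

theorem Lat_congr {s t : Box} (h1 : t.2 = s.2) (h2 : t.1.length = s.1.length) {v : Vec}
    (h : Lat s v) : Lat t v := by
  obtain ⟨y, hy1, hy2⟩ := h
  refine ⟨y, by rw [h1]; exact hy1, ?_⟩
  have : bvs t = bvs s := by unfold bvs; rw [h1]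
  rw [h2, this]
  exact hy2

/-- flat boxes -/
def Flat (D : ℕ) (s : Box) : Prop := ∃ p ∈ s.2, p.2 < cw D

/-- the invariant of `sand` -/
structure SInv (D n H : ℕ) (T : Set Vec) (s : Box) (k : ℕ) (t : ℕ × Box) : Prop where
  tag : t.1 ≤ 2
  wf : WF n t.2
  len : t.2.2.length = s.2.length
  zero : t.1 = 0 → (∀ x ∈ T, InBox s x → InBox t.2 x) ∧ (∀ v, Lat s v → Lat t.2 v) ∧
    ∃ j ≤ H * D + 1, ext t.2 ≤ 2 ^ (cE D * j) * ext s ∧ 2 ^ j * (bns t.2).prod ≤ (bns s).prod ∧
      (Flat D t.2 ∨ j = k)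
  one : t.1 = 1 → (∀ v, Lat s v → Lat t.2 v) ∧ Fat D T t.2 ∧
      ∀ x ∈ T, InBox s x → Central n (D * cM D) T t.2.1 x
  two : t.1 = 2 → ∀ x ∈ T, ¬ InBox s x
  ext : ext t.2 ≤ 2 ^ (cS D * (H + 1))

theorem sinv_step (hv : ValidOrc n T orc) (h1 : s.2 ≠ [])
    (hD : s.2.length ≤ D) (hP : cM D ≤ P) (hH : ext s ≤ 2 ^ H)
    (hB : cG D ≤ B) {k : ℕ} {t : ℕ × Box} (h : SInv D n H T s k t) :
    SInv D n H T s (k + 1) (stepS P D B orc t) := by
  obtain ⟨g, t⟩ := t
  obtain ⟨htag, hwf, hlen, hzero, hone, htwo, hext⟩ := h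
  simp only at htag hwf hlen hzero hone htwo hext
  have hne : t.2 ≠ [] := by
    intro h0
    rw [h0] at hlen
    exact h1 (List.length_eq_zero_iff.1 hlen.symm)
  unfold stepS
  by_cases hg : g = 0
  · subst hg
    obtain ⟨z1, z2, j, hj, z3, z4, z5⟩ := hzero rfl
    by_cases hfl : Flat D t
    · have hc : (decide ((0, t).1 = 0) && (!((0, t).2.2.isEmpty) &&
          !((0, t).2.2.any fun p => decide (p.2 < cw D)))) = false := by
        have : (t.2.any fun p => decide (p.2 < cw D)) = true := by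
          rw [List.any_eq_true]
          obtain ⟨p, hp, hp2⟩ := hfl
          exact ⟨p, hp, by simpa using hp2⟩
        simp [this]
      rw [hc]
      simp only [cond_false]
      exact ⟨htag, hwf, hlen, fun _ => ⟨z1, z2, j, hj, z3, z4, Or.inl hfl⟩, hone, htwo, hext⟩
    · have hc : (decide ((0, t).1 = 0) && (!((0, t).2.2.isEmpty) &&
          !((0, t).2.2.any fun p => decide (p.2 < cw D)))) = true := by
        have h2 : (t.2.any fun p => decide (p.2 < cw D)) = false := by
          rw [List.any_eq_false]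
          intro p hp
          simp only [decide_eq_true_eq]
          exact fun h => hfl ⟨p, hp, h⟩
        have h3 : t.2.isEmpty = false := by
          cases h4 : t.2 with
          | nil => exact absurd h4 hne
          | cons a l => rfl
        simp [h2, h3]
      rw [hc]
      simp only [cond_true]
      have hjk : j = k := z5.resolve_left hfl
      have hw : ∀ p ∈ t.2, cw D ≤ p.2 := by
        intro p hp
        by_contra h
        exact hfl ⟨p, hp, not_le.1 h⟩
      have hpos : 1 ≤ (bns t).prod := by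
        refine Nat.one_le_iff_ne_zero.2 ?_
        intro h0
        rw [List.prod_eq_zero_iff] at h0
        simp only [bns, List.mem_map] at h0
        obtain ⟨p, hp, hp0⟩ := h0
        have := hw p hp
        have h2 : 0 < cw D := by unfold cw cM; positivity
        omega
      have hjH : j ≤ H * D := by
        by_contra hcon
        have h2 := prod_bns_le hH hD
        have h3 : 2 ^ (H * D + 1) ≤ 2 ^ j := Nat.pow_le_pow_right (by norm_num) (by omega)
        have h4 : 2 ^ j * 1 ≤ 2 ^ j * (bns t).prod := Nat.mul_le_mul_left _ hpos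
        have h5 : 2 ^ (H * D) < 2 ^ (H * D + 1) := Nat.pow_lt_pow_right (by norm_num) (by omega)
        omega
      obtain ⟨s1, s2, s3, s4⟩ := shrink_spec hv hwf hne (by rw [hlen]; exact hD) hw hP hB
      have hexp : ∀ i ≤ H * D + 1, 2 * (2 ^ (cE D * i) * ext s) ≤ 2 ^ (cS D * (H + 1)) := by
        intro i hi
        have e1 := ext_exp hi
        calc 2 * (2 ^ (cE D * i) * ext s) ≤ 2 * (2 ^ (cE D * i) * 2 ^ H) := by
              exact Nat.mul_le_mul_left _ (Nat.mul_le_mul_left _ hH)
          _ = 2 ^ (1 + cE D * i + H) := by rw [pow_add, pow_add, pow_one]; ring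
          _ ≤ _ := Nat.pow_le_pow_right (by norm_num) e1
      rcases (by omega : (shrink P D B orc t).1 = 0 ∨ (shrink P D B orc t).1 = 1 ∨
        (shrink P D B orc t).1 = 2) with h0 | h0 | h0
      · obtain ⟨a1, a2, a3, a4, a5, a6⟩ := s2 h0
        have hext2 : Run7.h960.ext (shrink P D B orc t).2 ≤ 2 ^ (cE D * (j + 1)) * Run7.h960.ext s := by
          calc Run7.h960.ext (shrink P D B orc t).2 ≤ 2 ^ cE D * Run7.h960.ext t := a6
            _ ≤ 2 ^ cE D * (2 ^ (cE D * j) * Run7.h960.ext s) := Nat.mul_le_mul_left _ z3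
            _ = 2 ^ (cE D * (j + 1)) * Run7.h960.ext s := by rw [Nat.mul_add, pow_add, mul_one]; ring
        refine ⟨by omega, a1, a2.trans hlen, fun _ => ⟨fun x hx hi => a3 x hx (z1 x hx hi),
          fun v hv => a4 v (z2 v hv), j + 1, by omega, hext2, ?_, Or.inr (by omega)⟩,
          fun h => absurd h (by omega), fun h => absurd h (by omega), ?_⟩
        · calc 2 ^ (j + 1) * (bns (shrink P D B orc t).2).prod
              = 2 ^ j * (2 * (bns (shrink P D B orc t).2).prod) := by rw [pow_succ]; ring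
            _ ≤ 2 ^ j * (bns t).prod := Nat.mul_le_mul_left _ a5
            _ ≤ _ := z4
        · have := hexp (j + 1) (by omega)
          omega
      · obtain ⟨a1, a2, a3, a4, a5⟩ := s3 h0
        refine ⟨by omega, a1, by rw [a2, hlen],
          fun h => absurd h (by omega), fun _ => ⟨fun v hv => ?_, a4,
          fun x hx hi => a5 x hx (z1 x hx hi)⟩, fun h => absurd h (by omega), ?_⟩
        · exact Lat_congr a2 (by rw [a1.1, hwf.1]) (z2 v hv)
        · have e1 : Run7.h960.ext (shrink P D B orc t).2 ≤ 2 * Run7.h960.ext t := by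
            have e2 : Run7.h960.ext t = nrm t.1 + (t.2.map fun p => (p.2 + 1) * (nrm p.1 + 1)).sum := rfl
            have e3 : Run7.h960.ext (shrink P D B orc t).2 = nrm (shrink P D B orc t).2.1 +
              (t.2.map fun p => (p.2 + 1) * (nrm p.1 + 1)).sum := by
              unfold Run7.h960.ext
              rw [a2]
            omega
          have := hexp j (by omega)
          omega
      · have e1 := shrink_two h0
        refine ⟨by omega, by rw [e1]; exact hwf, by rw [e1]; exact hlen,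
          fun h => absurd h (by omega), fun h => absurd h (by omega),
          fun _ x hx hi => s4 h0 x hx (z1 x hx hi), by rw [e1]; exact hext⟩
  · have hc : (decide ((g, t).1 = 0) && (!((g, t).2.2.isEmpty) &&
        !((g, t).2.2.any fun p => decide (p.2 < cw D)))) = false := by simp [hg]
    rw [hc]
    simp only [cond_false]
    exact ⟨htag, hwf, hlen, fun h => absurd h hg, hone, htwo, hext⟩

theorem sz_tag_le {g : ℕ} (h : g ≤ 2) : sz g ≤ 9 :=
  (sz_nat_of_lt (x := g) (M := 2) (by omega)).trans (by norm_num)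

theorem sinv_sz (hD : s.2.length ≤ D) {k : ℕ} {t : ℕ × Box} (h : SInv D n H T s k t)
    (hB : cG D * ((n + 1) * (H + 1)) ≤ B) : sz t ≤ B := by
  have h1 := sz_box_le h.wf (h.len.trans_le hD) h.ext
  have h2 := sz_tag_le h.tag
  obtain ⟨g, t⟩ := t
  rw [sz_pair]
  refine le_trans (cG_bound (X := sz g + sz t + 1) ?_) hB
  simp only at h1 h2
  omega

theorem sand_inv (hv : ValidOrc n T orc) (hwf : WF n s) (h1 : s.2 ≠ [])
    (hD : s.2.length ≤ D) (hP : cM D ≤ P) (hH : ext s ≤ 2 ^ H)
    (hB : cG D * ((n + 1) * (H + 1)) ≤ B) : SInv D n H T s B (sand P D B orc s) := by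
  have hB' : cG D ≤ B := by
    refine le_trans ?_ hB
    have : 1 ≤ (n + 1) * (H + 1) := Nat.one_le_iff_ne_zero.2 (by positivity)
    nlinarith
  unfold sand
  refine iterCap_inv (SInv D n H T s) ?_ ?_
  · refine ⟨by simp, hwf, rfl, fun _ => ⟨fun x _ h => h, fun v h => h, 0, by omega, by simp, by simp,
      Or.inr rfl⟩, fun h => absurd h (by simp), fun h => absurd h (by simp), ?_⟩
    simp only
    refine hH.trans (Nat.pow_le_pow_right (by norm_num) ?_)
    have := ext_exp (D := D) (H := H) (j := 0) (by omega)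
    omega
  · intro k _ x hx
    have h2 := sinv_step hv h1 hD hP hH hB' hx
    exact ⟨h2, sinv_sz hD h2 hB⟩

/-- The three outcomes of `sand`. -/
theorem sand_spec (hv : ValidOrc n T orc) (hwf : WF n s) (h1 : s.2 ≠ [])
    (hD : s.2.length ≤ D) (hP : cM D ≤ P) (hH : ext s ≤ 2 ^ H)
    (hB : cG D * ((n + 1) * (H + 1)) ≤ B) :
    (sand P D B orc s).1 ≤ 2 ∧
    ((sand P D B orc s).1 = 0 →
      WF n (sand P D B orc s).2 ∧ (sand P D B orc s).2.2.length = s.2.length ∧
      (∀ x ∈ T, InBox s x → InBox (sand P D B orc s).2 x) ∧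
      (∃ p ∈ (sand P D B orc s).2.2, p.2 < cw D) ∧
      ext (sand P D B orc s).2 ≤ 2 ^ (cS D * (H + 1))) ∧
    ((sand P D B orc s).1 = 1 →
      WF n (sand P D B orc s).2 ∧ (sand P D B orc s).2.2.length = s.2.length ∧
      (∀ v, Lat s v → Lat (sand P D B orc s).2 v) ∧
      ext (sand P D B orc s).2 ≤ 2 ^ (cS D * (H + 1)) ∧
      Fat D T (sand P D B orc s).2 ∧
      ∀ x ∈ T, InBox s x → Central n (D * cM D) T (sand P D B orc s).2.1 x) ∧
    ((sand P D B orc s).1 = 2 → ∀ x ∈ T, ¬ InBox s x) := by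
  have h := sand_inv hv hwf h1 hD hP hH hB
  refine ⟨h.tag, fun h0 => ?_, fun h0 => ?_, h.two⟩
  · obtain ⟨z1, z2, j, hj, z3, z4, z5⟩ := h.zero h0
    refine ⟨h.wf, h.len, z1, ?_, h.ext⟩
    rcases z5 with z5 | z5
    · exact z5
    · exfalso
      have h2 : H * D + 1 < B := by
        refine lt_of_lt_of_le ?_ hB
        have e1 : D + 2 ≤ cG D := by
          unfold cG
          refine le_trans (by omega : D + 2 ≤ D + 6) (Nat.lt_two_pow_self.le.trans ?_)
          refine Nat.pow_le_pow_right (by norm_num) ?_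
          exact Nat.le_self_pow (by norm_num) _
        have e2 : 1 * (H + 1) ≤ (n + 1) * (H + 1) := Nat.mul_le_mul_right _ (by omega)
        have e3 : (D + 2) * (1 * (H + 1)) ≤ cG D * ((n + 1) * (H + 1)) := Nat.mul_le_mul e1 e2
        nlinarith
      omega
  · obtain ⟨o1, o2, o3⟩ := h.one h0
    exact ⟨h.wf, h.len, o1, h.ext, o2, o3⟩

/-! ### slices -/

theorem map_filter_range_left (l1 l2 : List (Vec × ℕ)) :
    ((List.range l1.length).filter fun i => !(decide (i = l1.length))).map
      (fun i => (l1 ++ l2).getD i ([], 0)) = l1 := by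
  have h1 : (List.range l1.length).filter (fun i => !decide (i = l1.length)) =
      List.range l1.length := by
    rw [List.filter_eq_self]
    intro i hi
    have := List.mem_range.1 hi
    simp only [Bool.not_eq_true', decide_eq_false_iff_not]
    omega
  rw [h1]
  apply List.ext_getElem
  · simp
  · intro i h2 h3
    simp only [List.getElem_map, List.getElem_range]
    rw [List.getD_eq_getElem _ _ (by simp; omega), List.getElem_append_left h3]

theorem delAt_append (l1 l2 : List (Vec × ℕ)) (p : Vec × ℕ) :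
    delAt (l1 ++ p :: l2) l1.length = l1 ++ l2 := by
  unfold delAt
  have e : (l1 ++ p :: l2).length = l1.length + (1 + l2.length) := by simp; omega
  rw [e, List.range_add, List.filter_append, List.map_append, map_filter_range_left]
  congr 1
  rw [List.range_add, List.map_append, List.filter_append, List.map_append]
  have h1 : ((List.range 1).map fun x => l1.length + x).filter
      (fun i => !decide (i = l1.length)) = [] := by
    simp
  rw [h1, List.map_nil, List.nil_append, List.map_map]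
  have h2 : ((List.range l2.length).map ((fun x => l1.length + x) ∘ fun x => 1 + x)).filter
      (fun i => !decide (i = l1.length)) =
      (List.range l2.length).map ((fun x => l1.length + x) ∘ fun x => 1 + x) := by
    rw [List.filter_eq_self]
    intro i hi
    rw [List.mem_map] at hi
    obtain ⟨j, _, rfl⟩ := hi
    simp only [Function.comp, Bool.not_eq_true', decide_eq_false_iff_not]
    omega
  rw [h2, List.map_map]
  apply List.ext_getElem
  · simp
  · intro i h3 h4
    simp only [List.getElem_map, List.getElem_range, Function.comp]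
    rw [List.getD_append_right _ _ _ _ (by omega)]
    have e2 : l1.length + (1 + i) - l1.length = i + 1 := by omega
    rw [e2, List.getD_cons_succ, List.getD_eq_getElem _ _ h4]

theorem exists_split {α : Type*} {l : List α} {k : ℕ} (h : k < l.length) :
    ∃ l1 l2 p, l = l1 ++ p :: l2 ∧ l1.length = k :=
  ⟨l.take k, l.drop (k + 1), l[k], by
    rw [← List.drop_eq_getElem_cons h, List.take_append_drop], by simp; omega⟩

theorem slices_eq (hf : ∃ p ∈ s.2, p.2 < cw D) : ∃ l1 l2 p, s.2 = l1 ++ p :: l2 ∧ p.2 < cw D ∧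
    slices P D s = (List.range (2 * min P p.2 + 1)).map
      fun i : ℕ => (lin s.1 [p.1] [(i : ℤ) - (p.2 : ℤ)], l1 ++ l2) := by
  unfold slices
  split
  · rename_i h
    exfalso
    rw [List.head?_eq_none_iff, List.filter_eq_nil_iff] at h
    obtain ⟨p, hp, hp2⟩ := hf
    obtain ⟨k, hk, rfl⟩ := List.mem_iff_getElem.1 hp
    have := h k (List.mem_range.2 hk)
    rw [List.getD_eq_getElem _ _ hk] at this
    simp only [decide_eq_true_eq] at this
    exact this hp2
  · rename_i k h
    have h1 := List.mem_of_mem_head? h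
    rw [List.mem_filter, List.mem_range] at h1
    obtain ⟨hk, h2⟩ := h1
    obtain ⟨l1, l2, p, hl, hlk⟩ := exists_split hk
    have e1 : s.2.getD k ([], 0) = p := by
      rw [hl, List.getD_append_right _ _ _ _ (by omega), hlk, Nat.sub_self]
      rfl
    rw [e1] at h2 ⊢
    refine ⟨l1, l2, p, hl, by simpa using h2, ?_⟩
    have e2 : delAt s.2 k = l1 ++ l2 := by rw [hl, ← hlk, delAt_append]
    rw [e2]
    simp [List.map_eq_flatMap, List.flatMap_assoc]

theorem dot_append {u1 u2 v1 v2 : Vec} (h : u1.length = v1.length) :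
    dot (u1 ++ u2) (v1 ++ v2) = dot u1 v1 + dot u2 v2 := by
  induction u1 generalizing v1 with
  | nil =>
    cases v1 with
    | nil => simp
    | cons y v1 => simp at h
  | cons x u1 ih =>
    cases v1 with
    | nil => simp at h
    | cons y v1 =>
      rw [List.cons_append, List.cons_append, dot_cons, dot_cons, ih (by simpa using h), add_assoc]

/-- The slices of a flat box cover it. -/
theorem slices_spec (hwf : WF n s) (hP : cw D ≤ P) (hf : ∃ p ∈ s.2, p.2 < cw D) :
    (slices P D s).length ≤ 2 * cw D ∧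
    (∀ t ∈ slices P D s, WF n t ∧ t.2.length + 1 = s.2.length ∧ ext t ≤ ext s) ∧
    ∀ x, InBox s x → ∃ t ∈ slices P D s, InBox t x := by
  obtain ⟨l1, l2, p, hl, hp, he⟩ := slices_eq (P := P) hf
  have hmin : min P p.2 = p.2 := min_eq_right (by omega)
  rw [he, hmin]
  refine ⟨by simp; omega, ?_, ?_⟩
  · intro t ht
    rw [List.mem_map] at ht
    obtain ⟨i, hi, rfl⟩ := ht
    have hi' := List.mem_range.1 hi
    refine ⟨⟨by simp only [length_lin]; exact hwf.1, ?_⟩, ?_, ?_⟩
    · intro q hq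
      refine hwf.2 q ?_
      rw [hl]
      simp only [List.mem_append, List.mem_cons] at hq ⊢
      tauto
    · rw [hl]
      simp; omega
    · unfold ext
      simp only
      have h1 := nrm_lin_le s.1 [p.1] [(i : ℤ) - (p.2 : ℤ)]
      have h2 : ∑ k ∈ Finset.range [p.1].length, ([(i : ℤ) - (p.2 : ℤ)].getD k 0).natAbs *
          nrm ([p.1].getD k []) = ((i : ℤ) - (p.2 : ℤ)).natAbs * nrm p.1 := by
        simp
      rw [h2] at h1
      have h3 : ((i : ℤ) - (p.2 : ℤ)).natAbs ≤ p.2 := by omega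
      have h4 : ((i : ℤ) - (p.2 : ℤ)).natAbs * nrm p.1 ≤ p.2 * nrm p.1 := Nat.mul_le_mul_right _ h3
      rw [hl]
      simp only [List.map_append, List.sum_append, List.map_cons, List.sum_cons]
      have h5 : (p.2 + 1) * (nrm p.1 + 1) = p.2 * nrm p.1 + p.2 + nrm p.1 + 1 := by ring
      omega
  · rintro x ⟨y, hy, hyb, rfl⟩
    have hk : l1.length < y.length := by rw [hy, hl]; simp
    obtain ⟨y1, y2, c, rfl, hy1⟩ := exists_split hk
    have hc : c.natAbs ≤ p.2 := by
      have h1 := hyb l1.length (by rw [← hy]; exact hk)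
      rw [getD_bns, hl, List.getD_append_right _ _ _ _ (by omega),
        List.getD_append_right _ _ _ _ (by omega), hy1, Nat.sub_self] at h1
      simpa using h1
    refine ⟨(lin s.1 [p.1] [c], l1 ++ l2), ?_, ?_⟩
    · rw [List.mem_map]
      refine ⟨(c + p.2).toNat, List.mem_range.2 (by omega), ?_⟩
      have : (((c + p.2).toNat : ℕ) : ℤ) - (p.2 : ℤ) = c := by
        rw [Int.toNat_of_nonneg (by omega)]; ring
      rw [this]
    · have hly : y2.length = l2.length := by
        rw [hl] at hy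
        simp only [List.length_append, List.length_cons] at hy
        omega
      refine ⟨y1 ++ y2, by simp only [List.length_append]; omega, ?_, ?_⟩
      · intro k hk
        rw [getD_bns]
        simp only at hk ⊢
        rw [List.length_append] at hk
        rcases Nat.lt_or_ge k l1.length with h | h
        · have h1 := hyb k (by rw [hl]; simp; omega)
          rw [getD_bns, hl, List.getD_append _ _ _ _ h,
            List.getD_append _ _ _ _ (by omega)] at h1
          rw [List.getD_append _ _ _ _ h, List.getD_append _ _ _ _ (by omega)]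
          exact h1
        · have h1 := hyb (k + 1) (by rw [hl]; simp; omega)
          rw [getD_bns, hl, List.getD_append_right _ _ _ _ (by omega),
            List.getD_append_right _ _ _ _ (by omega), hy1] at h1
          have e : k + 1 - l1.length = (k - l1.length) + 1 := by omega
          rw [e, List.getD_cons_succ, List.getD_cons_succ] at h1
          rw [List.getD_append_right _ _ _ _ (by omega),
            List.getD_append_right _ _ _ _ (by omega), hy1]
          exact h1
      · refine vec_ext (by simp) fun i hi => ?_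
        have hi' : i < s.1.length := by simpa using hi
        rw [getD_lin hi', getD_lin (by simpa using hi'), getD_lin hi']
        have e1 : bvs s = bvs (s.1, l1) ++ p.1 :: bvs (s.1, l2) := by
          unfold bvs; rw [hl]; simp
        have e2 : bvs (lin s.1 [p.1] [c], l1 ++ l2) = bvs (s.1, l1) ++ bvs (s.1, l2) := by
          unfold bvs; simp
        have e3 : y1.length = ((bvs (s.1, l1)).map fun v => v.getD i 0).length := by simp [hy1]
        rw [e1, e2, List.map_append, List.map_append, dot_append e3, dot_append e3, List.map_cons,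
          dot_cons]
        simp only [List.map_cons, List.map_nil, dot_cons, dot_nil_left]
        ring

/-! ### leaves -/

/-- the exponent of the extent at level `k` -/
def lH (D H k : ℕ) : ℕ := (cS D + 1) ^ k * (H + 1) - 1

theorem lH_succ (D H k : ℕ) : lH D H k + 1 = (cS D + 1) ^ k * (H + 1) := by
  unfold lH
  have : 1 ≤ (cS D + 1) ^ k * (H + 1) := Nat.one_le_iff_ne_zero.2 (by positivity)
  omega

theorem lH_step (D H k : ℕ) : cS D * (lH D H k + 1) ≤ lH D H (k + 1) := by
  have h1 := lH_succ D H k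
  have h2 := lH_succ D H (k + 1)
  have h3 : (cS D + 1) ^ (k + 1) * (H + 1) = cS D * (lH D H k + 1) + (lH D H k + 1) := by
    rw [h1, pow_succ]; ring
  omega

theorem lH_mono (D H k : ℕ) : lH D H k ≤ lH D H (k + 1) := by
  have h1 := lH_step D H k
  have h2 : 1 ≤ cS D := by unfold cS; exact Nat.one_le_pow _ _ (by omega)
  nlinarith

theorem lH_le {D H k : ℕ} (hk : k ≤ D) : lH D H k + 1 ≤ 2 ^ (5 * D * (D + 5)) * (H + 1) := by
  rw [lH_succ]
  refine Nat.mul_le_mul_right _ ?_
  have h1 : cS D + 1 ≤ (D + 5) ^ 5 := by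
    unfold cS
    have : (D + 5) ^ 5 = (D + 4) ^ 5 + (5 * (D + 4) ^ 4 + 10 * (D + 4) ^ 3 + 10 * (D + 4) ^ 2 +
      5 * (D + 4) + 1) := by ring
    omega
  calc (cS D + 1) ^ k ≤ (cS D + 1) ^ D := Nat.pow_le_pow_right (by omega) hk
    _ ≤ ((D + 5) ^ 5) ^ D := Nat.pow_le_pow_left h1 _
    _ = (D + 5) ^ (5 * D) := by rw [← pow_mul]
    _ ≤ 2 ^ ((D + 5) * (5 * D)) := pow_le_two_pow_mul _ _
    _ = 2 ^ (5 * D * (D + 5)) := by congr 1; ring

/-- the invariant of `leaves` -/
structure LInv (D n H : ℕ) (T : Set Vec) (s : Box) (k : ℕ) (L : List Box) : Prop where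
  card : L.length ≤ (2 * cw D) ^ k
  box : ∀ t ∈ L, WF n t ∧ t.2.length ≤ s.2.length - k ∧ ext t ≤ 2 ^ lH D H k
  cov : ∀ x ∈ T, InBox s x → ∃ t ∈ L, InBox t x ∨
    (t.2 = [] ∧ t.1 ∈ T ∧ Central n (D * cM D) T t.1 x)

theorem lvl1_step (hv : ValidOrc n T orc) (hD : s.2.length ≤ D) (hP : cw D ≤ P) {k : ℕ}
    (hk : k < s.2.length) (hB : cG D * ((n + 1) * (lH D H k + 1)) ≤ B) {L : List Box}
    (h : LInv D n H T s k L) : LInv D n H T s (k + 1) (L.flatMap (lvl1 P D B orc)) := by
  have key : ∀ t ∈ L, (lvl1 P D B orc t).length ≤ 2 * cw D ∧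
      (∀ u ∈ lvl1 P D B orc t, WF n u ∧ u.2.length ≤ s.2.length - (k + 1) ∧
        ext u ≤ 2 ^ lH D H (k + 1)) ∧
      ∀ x ∈ T, (InBox t x ∨ (t.2 = [] ∧ t.1 ∈ T ∧ Central n (D * cM D) T t.1 x)) →
        ∃ u ∈ lvl1 P D B orc t, InBox u x ∨
          (u.2 = [] ∧ u.1 ∈ T ∧ Central n (D * cM D) T u.1 x) := by
    intro t ht
    obtain ⟨b1, b2, b3⟩ := h.box t ht
    have hcw : 1 ≤ cw D := by unfold cw cM; exact Nat.one_le_iff_ne_zero.2 (by positivity)
    unfold lvl1
    by_cases he : t.2 = []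
    · have e1 : t.2.isEmpty = true := by rw [he]; rfl
      rw [e1, cond_true]
      refine ⟨by simp; omega, ?_, ?_⟩
      · intro u hu
        rw [List.mem_singleton] at hu
        subst hu
        exact ⟨b1, by rw [he]; simp, b3.trans (Nat.pow_le_pow_right (by norm_num) (lH_mono _ _ _))⟩
      · intro x _ hx
        exact ⟨t, by simp, hx⟩
    · have e1 : t.2.isEmpty = false := by
        cases h4 : t.2 with
        | nil => exact absurd h4 he
        | cons a l => rfl
      rw [e1, cond_false]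
      dsimp only
      obtain ⟨s1, s2, s3, s4⟩ := sand_spec hv b1 he (b2.trans ((Nat.sub_le _ _).trans hD))
        ((cM_le_cw'' D).trans hP) b3 hB
      have e0 : 2 ^ (cS D * (lH D H k + 1)) ≤ 2 ^ lH D H (k + 1) :=
        Nat.pow_le_pow_right (by norm_num) (lH_step _ _ _)
      rcases (by omega : (sand P D B orc t).1 = 0 ∨ (sand P D B orc t).1 = 1 ∨
        (sand P D B orc t).1 = 2) with h0 | h0 | h0
      · obtain ⟨a1, a2, a3, a4, a5⟩ := s2 h0
        obtain ⟨c1, c2, c3⟩ := slices_spec a1 hP a4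
        simp only [h0, decide_true, cond_true]
        refine ⟨c1, ?_, ?_⟩
        · intro u hu
          obtain ⟨d1, d2, d3⟩ := c2 u hu
          exact ⟨d1, by omega, (d3.trans a5).trans e0⟩
        · intro x hx hh
          rcases hh with hh | hh
          · obtain ⟨u, hu, hux⟩ := c3 x (a3 x hx hh)
            exact ⟨u, hu, Or.inl hux⟩
          · exact absurd hh.1 he
      · obtain ⟨a1, a2, a3, a4, a5, a6⟩ := s3 h0
        have e2 : (decide ((sand P D B orc t).1 = 0)) = false := by simp [h0]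
        have e3 : (decide ((sand P D B orc t).1 = 1)) = true := by simp [h0]
        rw [e2, e3, cond_false, cond_true]
        refine ⟨by simp; omega, ?_, ?_⟩
        · intro u hu
          rw [List.mem_singleton] at hu
          subst hu
          refine ⟨⟨a1.1, by simp⟩, by simp, ?_⟩
          refine le_trans ?_ (a4.trans e0)
          have := nrm_le_ext (sand P D B orc t).2
          unfold ext at this ⊢
          simpa using this
        · intro x hx hh
          rcases hh with hh | hh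
          · exact ⟨_, List.mem_singleton_self _, Or.inr ⟨rfl, a5.1, a6 x hx hh⟩⟩
          · exact absurd hh.1 he
      · have e2 : (decide ((sand P D B orc t).1 = 0)) = false := by simp [h0]
        have e3 : (decide ((sand P D B orc t).1 = 1)) = false := by simp [h0]
        rw [e2, e3, cond_false, cond_false]
        refine ⟨by simp, by simp, ?_⟩
        intro x hx hh
        rcases hh with hh | hh
        · exact absurd hh (s4 h0 x hx)
        · exact absurd hh.1 he
  refine ⟨?_, ?_, ?_⟩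
  · rw [List.length_flatMap]
    have h1 : (L.map fun t => (lvl1 P D B orc t).length).sum ≤ L.length * (2 * cw D) := by
      have := List.sum_le_card_nsmul (L.map fun t => (lvl1 P D B orc t).length) (2 * cw D) (by
        intro x hx
        rw [List.mem_map] at hx
        obtain ⟨t, ht, rfl⟩ := hx
        exact (key t ht).1)
      simpa using this
    refine h1.trans ?_
    rw [pow_succ]
    exact Nat.mul_le_mul_right _ h.card
  · intro u hu
    rw [List.mem_flatMap] at hu
    obtain ⟨t, ht, hu⟩ := hu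
    exact (key t ht).2.1 u hu
  · intro x hx hi
    obtain ⟨t, ht, hh⟩ := h.cov x hx hi
    obtain ⟨u, hu, hh2⟩ := (key t ht).2.2 x hx hh
    exact ⟨u, List.mem_flatMap.2 ⟨t, ht, hu⟩, hh2⟩

theorem two_cw (D : ℕ) : 2 * cw D = 2 ^ (2 * (D + 4) ^ 3 + 2) := by
  unfold cw cM
  rw [← pow_mul, pow_add, mul_comm ((D + 4) ^ 3) 2]
  ring

theorem cw_exp {D k : ℕ} (hk : k ≤ D) : (2 * (D + 4) ^ 3 + 2) * k ≤ 3 * (D + 7) ^ 4 := by
  have h1 : (D + 4) ^ 3 ≤ (D + 7) ^ 3 := Nat.pow_le_pow_left (by omega) _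
  have h2 : 2 ≤ (D + 7) ^ 3 := le_trans (by norm_num : 2 ≤ 7 ^ 3) (Nat.pow_le_pow_left (by omega) _)
  calc (2 * (D + 4) ^ 3 + 2) * k ≤ (3 * (D + 7) ^ 3) * (D + 7) :=
        Nat.mul_le_mul (by omega) (by omega)
    _ = 3 * (D + 7) ^ 4 := by ring

theorem cw_pow {D k : ℕ} (hk : k ≤ D) : (2 * cw D) ^ k ≤ cL D := by
  rw [two_cw, ← pow_mul]
  unfold cL
  refine Nat.pow_le_pow_right (by norm_num) ((cw_exp hk).trans ?_)
  calc 3 * (D + 7) ^ 4 ≤ (D + 7) * (D + 7) ^ 4 := Nat.mul_le_mul_right _ (by omega)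
    _ = (D + 7) ^ 5 := by ring

theorem cG_lH {D n H k : ℕ} (hk : k ≤ D) :
    cG D * ((n + 1) * (lH D H k + 1)) ≤ cL D * ((n + 1) * (H + 1)) := by
  have h1 := lH_le (H := H) hk
  calc cG D * ((n + 1) * (lH D H k + 1))
      ≤ cG D * ((n + 1) * (2 ^ (5 * D * (D + 5)) * (H + 1))) :=
        Nat.mul_le_mul_left _ (Nat.mul_le_mul_left _ h1)
    _ = (2 ^ ((D + 6) ^ 4) * 2 ^ (5 * D * (D + 5))) * ((n + 1) * (H + 1)) := by unfold cG; ring
    _ ≤ cL D * ((n + 1) * (H + 1)) := by
      refine Nat.mul_le_mul_right _ ?_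
      rw [← pow_add]
      unfold cL
      refine Nat.pow_le_pow_right (by norm_num) ?_
      have h2 : (D + 6) ^ 4 ≤ (D + 7) ^ 4 := Nat.pow_le_pow_left (by omega) _
      have h3 : 5 * D * (D + 5) ≤ (D + 7) ^ 4 := by
        calc 5 * D * (D + 5) ≤ ((D + 7) * (D + 7)) * ((D + 7) * (D + 7)) := by
              rw [mul_assoc]
              refine Nat.mul_le_mul (by nlinarith) (Nat.mul_le_mul (by omega) (by omega))
          _ = (D + 7) ^ 4 := by ring
      calc (D + 6) ^ 4 + 5 * D * (D + 5) ≤ 2 * (D + 7) ^ 4 := by omega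
        _ ≤ (D + 7) * (D + 7) ^ 4 := Nat.mul_le_mul_right _ (by omega)
        _ = (D + 7) ^ 5 := by ring

theorem cL_bound {D n H k X : ℕ} (hk : k ≤ D)
    (hX : X ≤ (2 * cw D) ^ k * ((D + 1) * (n + 1) * (4 * lH D H k + 20) + 1 + 1) + 1) :
    X ≤ cL D * ((n + 1) * (H + 1)) := by
  have h1 := lH_le (H := H) hk
  set E := 2 ^ (5 * D * (D + 5)) with hE
  have hE1 : 1 ≤ E := Nat.one_le_two_pow
  have hnH : 1 ≤ (n + 1) * (H + 1) := Nat.one_le_iff_ne_zero.2 (by positivity)
  have h2 : (D + 1) * (n + 1) * (4 * lH D H k + 20) + 1 + 1 ≤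
      22 * (D + 1) * E * ((n + 1) * (H + 1)) := by
    have h3 : 4 * lH D H k + 20 ≤ 20 * (E * (H + 1)) := by omega
    have h4 : (D + 1) * (n + 1) * (4 * lH D H k + 20) ≤ (D + 1) * (n + 1) * (20 * (E * (H + 1))) :=
      Nat.mul_le_mul_left _ h3
    have h5 : 2 ≤ 2 * (D + 1) * E * ((n + 1) * (H + 1)) := by
      have : 1 * 1 * 1 ≤ (D + 1) * E * ((n + 1) * (H + 1)) :=
        Nat.mul_le_mul (Nat.mul_le_mul (by omega) hE1) hnH
      have e : 2 * (D + 1) * E * ((n + 1) * (H + 1)) = 2 * ((D + 1) * E * ((n + 1) * (H + 1))) := by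
        ring
      rw [e]; omega
    have e : 22 * (D + 1) * E * ((n + 1) * (H + 1)) = (D + 1) * (n + 1) * (20 * (E * (H + 1))) +
      2 * (D + 1) * E * ((n + 1) * (H + 1)) := by ring
    omega
  set C := (2 * cw D) ^ k with hC
  have hC1 : 1 ≤ C := Nat.one_le_iff_ne_zero.2 (by
    have : 0 < cw D := by unfold cw cM; positivity
    positivity)
  have h3 : X ≤ 23 * (D + 1) * C * E * ((n + 1) * (H + 1)) := by
    have h4 := Nat.mul_le_mul_left C h2
    have h5 : 1 ≤ (D + 1) * C * E * ((n + 1) * (H + 1)) := by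
      have : 1 * 1 * 1 * 1 ≤ (D + 1) * C * E * ((n + 1) * (H + 1)) :=
        Nat.mul_le_mul (Nat.mul_le_mul (Nat.mul_le_mul (by omega) hC1) hE1) hnH
      omega
    have e : 23 * (D + 1) * C * E * ((n + 1) * (H + 1)) =
      C * (22 * (D + 1) * E * ((n + 1) * (H + 1))) + (D + 1) * C * E * ((n + 1) * (H + 1)) := by
      ring
    omega
  refine h3.trans (Nat.mul_le_mul_right _ ?_)
  have h4 : 23 * (D + 1) ≤ 2 ^ (D + 5) := by
    have : D + 1 ≤ 2 ^ D := Nat.lt_two_pow_self
    rw [pow_add]; omega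
  have h5 : C = 2 ^ ((2 * (D + 4) ^ 3 + 2) * k) := by rw [hC, two_cw, ← pow_mul]
  calc 23 * (D + 1) * C * E ≤ 2 ^ (D + 5) * C * E :=
        Nat.mul_le_mul_right _ (Nat.mul_le_mul_right _ h4)
    _ = 2 ^ (D + 5 + (2 * (D + 4) ^ 3 + 2) * k + 5 * D * (D + 5)) := by
        rw [h5, hE, ← pow_add, ← pow_add]
    _ ≤ cL D := by
      unfold cL
      refine Nat.pow_le_pow_right (by norm_num) ?_
      have h6 := cw_exp hk
      have h7 : 5 * D * (D + 5) ≤ (D + 7) ^ 4 := by
        calc 5 * D * (D + 5) ≤ ((D + 7) * (D + 7)) * ((D + 7) * (D + 7)) := by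
              rw [mul_assoc]
              refine Nat.mul_le_mul (by nlinarith) (Nat.mul_le_mul (by omega) (by omega))
          _ = (D + 7) ^ 4 := by ring
      have h8 : D + 5 ≤ (D + 7) ^ 4 := le_trans (by omega) (Nat.le_self_pow (by norm_num) _)
      calc D + 5 + (2 * (D + 4) ^ 3 + 2) * k + 5 * D * (D + 5) ≤ 5 * (D + 7) ^ 4 := by omega
        _ ≤ (D + 7) * (D + 7) ^ 4 := Nat.mul_le_mul_right _ (by omega)
        _ = (D + 7) ^ 5 := by ring

theorem linv_sz (hD : s.2.length ≤ D) {k : ℕ} (hk : k ≤ D) {L : List Box}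
    (h : LInv D n H T s k L) (hB : cL D * ((n + 1) * (H + 1)) ≤ B) : sz L ≤ B := by
  have h1 := sz_le_length_mul L ((D + 1) * (n + 1) * (4 * lH D H k + 20) + 1) fun t ht => by
    obtain ⟨b1, b2, b3⟩ := h.box t ht
    exact sz_box_le b1 (b2.trans ((Nat.sub_le _ _).trans hD)) b3
  refine le_trans (cL_bound hk (h1.trans ?_)) hB
  have := Nat.mul_le_mul_right ((D + 1) * (n + 1) * (4 * lH D H k + 20) + 1 + 1) h.card
  omega

theorem leaves_inv (hv : ValidOrc n T orc) (hwf : WF n s)
    (hD : s.2.length ≤ D) (hP : cw D ≤ P) (hH : ext s ≤ 2 ^ H)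
    (hB : cL D * ((n + 1) * (H + 1)) ≤ B) :
    LInv D n H T s s.2.length
      (iterCap B (fun L => L.flatMap (lvl1 P D B orc)) [] s.2.length [s]) := by
  refine iterCap_inv (LInv D n H T s) ?_ ?_
  · refine ⟨by simp, ?_, ?_⟩
    · intro t ht
      rw [List.mem_singleton] at ht
      subst ht
      refine ⟨hwf, by simp, ?_⟩
      simpa [lH] using hH
    · intro x _ hx
      exact ⟨s, by simp, Or.inl hx⟩
  · intro k hk L hL
    have h1 := lvl1_step hv hD hP hk ((cG_lH (n := n) (H := H) (by omega)).trans hB) hL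
    exact ⟨h1, linv_sz hD (by omega) h1 hB⟩

/-- Specification of the leaves. -/
theorem leaves_spec (hv : ValidOrc n T orc) (hwf : WF n s)
    (hD : s.2.length ≤ D) (hP : cw D ≤ P) (hH : ext s ≤ 2 ^ H)
    (hB : cL D * ((n + 1) * (H + 1)) ≤ B) :
    (leaves P D B orc s).length ≤ cL D ∧
    (∀ x ∈ leaves P D B orc s, x ∈ T) ∧
    ∀ x ∈ T, InBox s x → ∃ x0 ∈ leaves P D B orc s, Central n (D * cM D) T x0 x := by
  have h := leaves_inv hv hwf hD hP hH hB
  unfold leaves
  refine ⟨?_, ?_, ?_⟩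
  · rw [List.length_map]
    exact (List.length_filter_le _ _).trans (h.card.trans (cw_pow hD))
  · intro x hx
    rw [List.mem_map] at hx
    obtain ⟨t, ht, rfl⟩ := hx
    rw [List.mem_filter, Bool.and_eq_true] at ht
    obtain ⟨ht, ht1, ht2⟩ := ht
    exact hv.acc _ (h.box t ht).1.1 (by simpa using ht2)
  · intro x hx hi
    obtain ⟨t, ht, hh⟩ := h.cov x hx hi
    have ht0 : t.2 = [] := by
      have := (h.box t ht).2.1
      rw [Nat.sub_self] at this
      exact List.length_eq_zero_iff.1 (Nat.le_zero.1 this)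
    have hc : t.1 ∈ T ∧ Central n (D * cM D) T t.1 x := by
      rcases hh with hh | hh
      · obtain ⟨y, hy, _, hxy⟩ := hh
        have hxt : x = t.1 := by
          rw [hxy]
          refine vec_ext (by simp) fun i hi => ?_
          rw [getD_lin (by simpa using hi)]
          simp [bvs, ht0]
        rw [← hxt]
        refine ⟨hx, ?_⟩
        intro g c _ hgc
        have h1 := hgc x hx
        have h2 : (0 : ℤ) ≤ ((D * cM D : ℕ) : ℤ) := by positivity
        nlinarith
      · exact hh.2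
    refine ⟨t.1, ?_, hc.2⟩
    rw [List.mem_map]
    refine ⟨t, ?_, rfl⟩
    rw [List.mem_filter, Bool.and_eq_true]
    refine ⟨ht, by rw [ht0]; rfl, ?_⟩
    cases ho : orc t.1 with
    | none => rfl
    | some g =>
      exfalso
      have := (hv.rej t.1 g (hv.len _ hc.1) ho).2 t.1 hc.1
      exact lt_irrefl _ this

end Run7.h960
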