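import Pool.Agent.Run7.h960.Defs

set_option autoImplicit false

/-!
# Semantic notions for the correctness proof
-/

namespace Run7.h960

open Pool.Agent.NPC
open Pool.Agent.H687R2.LLL (dot nrm lllStep cnt fsts gsr)

/-- well-formed boxes in dimension `n` -/
def WF (n : ℕ) (s : Box) : Prop := s.1.length = n ∧ ∀ p ∈ s.2, p.1.length = n

/-- the points of a box -/
def InBox (s : Box) (x : Vec) : Prop :=
  ∃ y : Vec, y.length = s.2.length ∧ (∀ k < s.2.length, (y.getD k 0).natAbs ≤ (bns s).getD k 0) ∧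
    x = lin s.1 (bvs s) y

/-- the lattice of a box (without translation) -/
def Lat (s : Box) (v : Vec) : Prop :=
  ∃ y : Vec, y.length = s.2.length ∧ v = lin (zv s.1.length) (bvs s) y

/-- the size measure of a box -/
def ext (s : Box) : ℕ := nrm s.1 + (s.2.map fun p => (p.2 + 1) * (nrm p.1 + 1)).sum

/-- correctness of an oracle for a set `T` of vectors of length `n` -/
structure ValidOrc (n : ℕ) (T : Set Vec) (orc : Vec → Option Vec) : Prop where
  len : ∀ x ∈ T, x.length = n
  acc : ∀ x, x.length = n → orc x = none → x ∈ T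
  rej : ∀ x h, x.length = n → orc x = some h → h.length = n ∧ ∀ x' ∈ T, dot h x' < dot h x

/-- `x₀` is `κ`-central for `x` in `T` -/
def Central (n κ : ℕ) (T : Set Vec) (x0 x : Vec) : Prop :=
  ∀ (g : Vec) (t : ℤ), g.length = n → (∀ x' ∈ T, t ≤ dot g x') →
    dot g x - t ≤ ((κ : ℤ) + 1) * (dot g x0 - t)

/-- all points `x₀ ± m bₖ` are in `T`, with `m ≥ 8 M` -/
def Fat (D : ℕ) (T : Set Vec) (s : Box) : Prop :=
  s.1 ∈ T ∧ ∀ b ∈ bvs s, ∃ m : ℕ, 8 * cM D ≤ m ∧ lin s.1 [b] [(m : ℤ)] ∈ T ∧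
    lin s.1 [b] [-(m : ℤ)] ∈ T

/-! ### bounds -/

/-- growth exponent of `ext` in one shrinking step -/
def cE (D : ℕ) : ℕ := (D + 4) ^ 3
/-- growth factor of `log ext` in `sand` -/
def cS (D : ℕ) : ℕ := (D + 4) ^ 5
/-- factor for the size of all states in `sand` -/
def cG (D : ℕ) : ℕ := 2 ^ ((D + 6) ^ 4)
/-- factor for the size of all states in `leaves` -/
def cL (D : ℕ) : ℕ := 2 ^ ((D + 7) ^ 5)

/-! ### types -/

/-- the points `y` of a type -/
def Sh (rows : Rows) (t : Box) : Set Vec :=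
  {y | y.length = t.2.length ∧ ∀ r ∈ yrows rows t, dot r.1 y ≤ r.2}

/-- the points `z` of a type -/
def Zt (rows : Rows) (t : Box) : Set Vec := {z | ∃ y ∈ Sh rows t, z = lin t.1 (bvs t) y}

/-- the test functionals of a type -/
def Test (rows : Rows) (t : Box) (R : ℕ) : Set Vec :=
  {g | g.length = t.2.length + 1 ∧ (∀ x ∈ g, x.natAbs ≤ R) ∧ ∀ y ∈ Sh rows t, 0 ≤ dot g (1 :: y)}

/-- the relaxed cone of a type -/
def Kt (rows : Rows) (t : Box) (R : ℕ) (F : Vec) : Prop :=
  ∀ g ∈ Test rows t R, 0 ≤ dot g F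

/-- the points of a type that can be subtracted `C₁` times -/
def Tp (rows : Rows) (t : Box) (R C1 : ℕ) (F : Vec) : Set Vec :=
  {y | y ∈ Sh rows t ∧ Kt rows t R (vsub F ((1 :: y).map fun x => (C1 : ℤ) * x))}

/-! ### nodes -/

/-- all types of a node -/
def nbs (N : Node) : List Box := N.1 ++ N.2

/-- the number of coordinates of a node -/
def ndim (N : Node) : ℕ := off (nbs N) (nbs N).length

/-- the block of the `i`-th type (free or single) of a node -/
def nblk (N : Node) (F : Vec) (i : ℕ) : Vec :=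
  blk F (off (nbs N) i) (((nbs N).getD i ([], [])).2.length + 1)

/-- the feasible set of a node -/
def TF (rows : Rows) (a : Vec) (R1 R : ℕ) (N : Node) : Set Vec :=
  {F | F.length = ndim N ∧ (∀ r ∈ fRows rows a R N, dot r.1 F ≤ r.2) ∧
    ∀ i < N.1.length, Kt rows (N.1.getD i ([], [])) R1 (nblk N F i)}

/-- the function given by a vector -/
def toFn (d : ℕ) (v : Vec) : Fin d → ℤ := fun i => v.getD i 0

/-- `a` is a sum of an element of the monoid of each free type and at most one element of each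
single type -/
def NodeSol (d : ℕ) (rows : Rows) (a : Vec) (N : Node) : Prop :=
  ∃ us ts : List (Fin d → ℤ),
    List.Forall₂ (fun t u => u ∈ AddSubmonoid.closure (toFn d '' Zt rows t)) N.1 us ∧
    List.Forall₂ (fun t u => u = 0 ∨ u ∈ toFn d '' Zt rows t) N.2 ts ∧
    us.sum + ts.sum = toFn d a

end Run7.h960
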