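import Pool.Agent.Run7.h960.Shrink0

set_option autoImplicit false

/-!
# Specification of a shrinking step
-/

namespace Run7.h960

open Pool.Agent.NPC
open Pool.Agent.H687R2.LLL (dot nrm lllStep cnt fsts gsr)

/-! ### the fine set -/

theorem mem_cutQ {orc : Vec → Option Vec} {s : Box} {l : List ℕ} {q : Vec} {c : Vec × Vec} :
    c ∈ cutQ orc s l q ↔ ∃ h, orc (ptS s l (four q)) = some h ∧ c = (four q, eta s l h) := by
  unfold cutQ
  cases ho : orc (ptS s l (four q)) with
  | none => simp
  | some h => simp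

theorem mem_fine {D B M G n : ℕ} (hn : n ≤ D) (hM : M ≤ cM D) (hG : G ≤ cM D) (hB : cG D ≤ B)
    {orc : Vec → Option Vec} {s : Box} {l : List ℕ} {p : Vec} :
    p ∈ fineS B M n ((grid B G n).flatMap (cutQ orc s l)) ↔
      (p.length = n ∧ ∀ x ∈ p, x.natAbs ≤ M) ∧ ∀ q : Vec, q.length = n → (∀ x ∈ q, x.natAbs ≤ G) →
        ∀ h, orc (ptS s l (four q)) = some h →
          dot (eta s l h) (vsub p (four q)) < (nrm (eta s l h) : ℤ) := by
  unfold fineS
  rw [List.mem_filter, mem_grid hn hM hB, List.all_eq_true]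
  apply and_congr_right
  intro _
  constructor
  · intro h1 q hq1 hq2 h ho
    have := h1 (four q, eta s l h) (by
      rw [List.mem_flatMap]
      exact ⟨q, (mem_grid hn hG hB q).2 ⟨hq1, hq2⟩, mem_cutQ.2 ⟨h, ho, rfl⟩⟩)
    simpa using this
  · intro h1 c hc
    rw [List.mem_flatMap] at hc
    obtain ⟨q, hq, hc⟩ := hc
    obtain ⟨h, ho, rfl⟩ := mem_cutQ.1 hc
    rw [mem_grid hn hG hB] at hq
    simpa using h1 q hq.1 hq.2 h ho

theorem getD_ofFn {n : ℕ} (f : Fin n → ℤ) {i : ℕ} (hi : i < n) :
    (List.ofFn f).getD i 0 = f ⟨i, hi⟩ := by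
  rw [List.getD_eq_getElem _ _ (by simpa using hi)]
  simp

theorem ofFn_getD {n : ℕ} {p : Vec} (hp : p.length = n) :
    List.ofFn (fun i : Fin n => p.getD i 0) = p := by
  refine vec_ext (by simp [hp]) fun i hi => ?_
  rw [getD_ofFn _ (by simpa using hi)]

theorem forall_ofFn {n M : ℕ} {f : Fin n → ℤ} :
    (∀ x ∈ List.ofFn f, x.natAbs ≤ M) ↔ ∀ i, |f i| ≤ (M : ℤ) := by
  constructor
  · intro h i
    have := h (f i) (by simp [List.mem_ofFn])
    rw [Int.abs_eq_natAbs]
    exact_mod_cast this
  · intro h x hx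
    rw [List.mem_ofFn] at hx
    obtain ⟨i, rfl⟩ := hx
    have := h i
    rw [Int.abs_eq_natAbs] at this
    exact_mod_cast this

/-- The flat direction exists if there is no fat point. -/
theorem exists_flat {M G Δ : ℕ} {orc : Vec → Option Vec} {s : Box} {l : List ℕ}
    (hld : LD M s l) (h0 : 0 < s.2.length) (hG : M = 4 * G) (hΔ : 1 ≤ Δ)
    (h28 : 28 * Δ * s.2.length ^ 2 * (s.2.length + 1) ≤ M) {S : List Vec}
    (hS : ∀ p, p ∈ S ↔ (p.length = s.2.length ∧ ∀ x ∈ p, x.natAbs ≤ M) ∧
      ∀ q : Vec, q.length = s.2.length → (∀ x ∈ q, x.natAbs ≤ G) →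
        ∀ h, orc (ptS s l (four q)) = some h →
          dot (eta s l h) (vsub p (four q)) < (nrm (eta s l h) : ℤ))
    (hno : ∀ q : Vec, q.length = s.2.length → (∀ x ∈ q, x.natAbs ≤ G - 1) →
      fatQ orc s l q = false)
    {p0 : Vec} (hp0 : p0 ∈ S) :
    ∃ c : Vec, c.length = s.2.length ∧ (∀ x ∈ c, x.natAbs ≤ M) ∧
      (∃ j < s.2.length, c.getD j 0 = (M : ℤ)) ∧
      ∀ p ∈ S, 2 * Δ * (dot c (vsub p p0)).natAbs ≤ M * M := by
  have hl := hld.len
  set n := s.2.length with hn
  have hGpos : 1 ≤ G := by have := hld.pos; omega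
  obtain ⟨hp0l, hp0M⟩ := ((hS p0).1 hp0).1
  have hdotv : ∀ (c p : Vec), c.length = n → p.length = n →
      dot c (vsub p p0) = ∑ i : Fin n, c.getD i 0 * (p.getD i 0 - p0.getD i 0) := by
    intro c p hc hp
    rw [dot_eq_sum (N := n) (Or.inl hc.le), Finset.sum_range]
    refine Finset.sum_congr rfl fun i _ => ?_
    rw [getD_vsub (by omega) (by omega)]
  obtain ⟨c, hc1, ⟨j, hj⟩, hc2⟩ := slab (n := n) h0 G M Δ hG hΔ h28
    (fun q => ∃ h, orc (ptS s l (four (List.ofFn q))) = some h)
    (fun q i => (orc (ptS s l (four (List.ofFn q)))).elim 0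
      (fun h => (l.getD i 0 : ℤ) * dot h ((bvs s).getD i [])))
    {p | List.ofFn p ∈ S} (by
      intro p
      rw [Set.mem_ofPred_eq, hS]
      constructor
      · rintro ⟨⟨_, h1⟩, h2⟩
        refine ⟨forall_ofFn.1 h1, ?_⟩
        rintro q hq ⟨h, ho⟩
        have h3 := h2 (List.ofFn q) (by simp) (forall_ofFn.2 hq) h ho
        rw [dot_eta hl (by simp [hn]) (by simp [hn]), nrm_eta hl, Finset.sum_range,
          Finset.sum_range] at h3
        simp only [ho, Option.elim_some]
        refine lt_of_le_of_lt (le_of_eq ?_) h3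
        refine Finset.sum_congr rfl fun i _ => ?_
        rw [getD_ofFn _ i.2, getD_ofFn _ i.2]
      · rintro ⟨h1, h2⟩
        refine ⟨⟨by simp, forall_ofFn.2 h1⟩, ?_⟩
        intro q hq1 hq2 h ho
        have e : List.ofFn (fun i : Fin n => q.getD i 0) = q := ofFn_getD hq1
        have h3 := h2 (fun i => q.getD i 0) (by
          rw [← e] at hq2
          exact forall_ofFn.1 hq2) ⟨h, by rw [e]; exact ho⟩
        simp only [e, ho, Option.elim_some] at h3
        rw [dot_eta hl (by simp [hn]) hq1, nrm_eta hl, Finset.sum_range, Finset.sum_range]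
        refine lt_of_le_of_lt (le_of_eq ?_) h3
        refine Finset.sum_congr rfl fun i _ => ?_
        rw [getD_ofFn _ i.2])
    (fun i => p0.getD i 0) (by
      rw [Set.mem_ofPred_eq, ofFn_getD hp0l]
      exact hp0) (by
      intro q hq
      have h1 := hno (List.ofFn q) (by simp) (by
        rw [forall_ofFn]
        intro i
        have := hq i
        omega)
      unfold fatQ at h1
      rw [Bool.and_eq_false_iff] at h1
      have hacc : ∀ u : Vec, accQ orc s l u = false → ∃ h, orc (ptS s l (four u)) = some h := by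
        intro u hu
        unfold accQ at hu
        rw [Option.isNone_eq_false_iff] at hu
        exact Option.isSome_iff_exists.1 hu
      have hbump : ∀ (k : ℕ) (hk : k < n) (e : ℤ), bump (List.ofFn q) k e =
          List.ofFn (fun i => q i + if i = ⟨k, hk⟩ then e else 0) := by
        intro k hk e
        refine vec_ext (by simp) fun i hi => ?_
        have hi' : i < n := by simpa using hi
        rw [getD_bump (by simpa using hi'), getD_ofFn _ hi', getD_ofFn _ hi']
        simp [Fin.ext_iff]
      rcases h1 with h1 | h1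
      · exact ⟨q, hacc _ h1, Or.inl rfl⟩
      · rw [List.all_eq_false] at h1
        obtain ⟨k, hk, h1⟩ := h1
        rw [List.mem_range, List.length_ofFn] at hk
        rw [Bool.not_eq_true, Bool.and_eq_false_iff] at h1
        rcases h1 with h1 | h1
        · refine ⟨q + Pi.single ⟨k, hk⟩ 1, ?_, Or.inr ⟨⟨k, hk⟩, Or.inl rfl⟩⟩
          have h2 := hacc _ h1
          rw [hbump k hk] at h2
          have e : (fun i => q i + if i = ⟨k, hk⟩ then (1 : ℤ) else 0) =
              q + Pi.single ⟨k, hk⟩ 1 := by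
            funext i
            simp [Pi.single_apply]
          rw [e] at h2
          exact h2
        · refine ⟨q - Pi.single ⟨k, hk⟩ 1, ?_, Or.inr ⟨⟨k, hk⟩, Or.inr rfl⟩⟩
          have h2 := hacc _ h1
          rw [hbump k hk] at h2
          have e : (fun i => q i + if i = ⟨k, hk⟩ then (-1 : ℤ) else 0) =
              q - Pi.single ⟨k, hk⟩ 1 := by
            funext i
            simp only [Pi.sub_apply, Pi.single_apply]
            split_ifs <;> ring
          rw [e] at h2
          exact h2)
  refine ⟨List.ofFn c, by simp, forall_ofFn.2 hc1, ⟨j, j.2, by rw [getD_ofFn _ j.2]; exact hj⟩, ?_⟩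
  intro p hp
  have hpl := ((hS p).1 hp).1.1
  have h1 := hc2 (fun i => p.getD i 0) (by
    rw [Set.mem_ofPred_eq, ofFn_getD hpl]
    exact hp)
  rw [hdotv _ p (by simp) hpl]
  have h2 : ∑ i : Fin n, (List.ofFn c).getD i 0 * (p.getD i 0 - p0.getD i 0) =
      ∑ i : Fin n, c i * (p.getD i 0 - p0.getD i 0) :=
    Finset.sum_congr rfl fun i _ => by rw [getD_ofFn _ i.2]
  rw [h2]
  rw [Int.abs_eq_natAbs] at h1
  exact_mod_cast h1

/-! ### constants -/

theorem cM_eq (D : ℕ) : cM D = 4 * (cM D / 4) := by
  have h : 4 ∣ cM D := by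
    unfold cM
    have : (4 : ℕ) = 2 ^ 2 := by norm_num
    rw [this]
    apply pow_dvd_pow
    nlinarith [Nat.zero_le (D ^ 3), Nat.zero_le (D ^ 2)]
  omega

theorem cM_pos (D : ℕ) : 0 < cM D := by unfold cM; positivity

theorem cDel_pos (D : ℕ) : 0 < cDel D := by unfold cDel; positivity

theorem cM_big {n D : ℕ} (h : n ≤ D) : 28 * cDel D * n ^ 2 * (n + 1) ≤ cM D := by
  unfold cDel cM
  have e1 : D ≤ 2 ^ D := Nat.lt_two_pow_self.le
  have e2 : D + 1 ≤ 2 ^ D := Nat.lt_two_pow_self
  calc 28 * 2 ^ ((D + 3) ^ 3) * n ^ 2 * (n + 1)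
      ≤ 32 * 2 ^ ((D + 3) ^ 3) * (2 ^ D) ^ 2 * 2 ^ D := by
        refine Nat.mul_le_mul (Nat.mul_le_mul (Nat.mul_le_mul_right _ (by norm_num)) ?_) ?_
        · exact Nat.pow_le_pow_left (h.trans e1) 2
        · omega
    _ = 2 ^ (5 + (D + 3) ^ 3 + D * 2 + D) := by
        rw [pow_add, pow_add, pow_add, ← pow_mul]; norm_num
    _ ≤ 2 ^ ((D + 4) ^ 3) := by
        apply Nat.pow_le_pow_right (by norm_num)
        nlinarith [Nat.zero_le (D ^ 3), Nat.zero_le (D ^ 2)]

/-! ### the new box -/

/-- The new box covers. -/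
theorem reb_cover' {D : ℕ} {s : Box} {l : List ℕ} {c p0 y : Vec} {j : ℕ}
    (hld : LD (cM D) s l) (hD : s.2.length ≤ D)
    (hOK : rebOK (cM D) (cDel D) l c j = true)
    (hc : ∀ k < s.2.length, (c.getD k 0).natAbs ≤ cM D)
    (hp0 : p0.length = s.2.length) (hp0M : ∀ k < s.2.length, (p0.getD k 0).natAbs ≤ cM D)
    (hy : y.length = s.2.length)
    (hy2 : ∀ k < s.2.length, (y.getD k 0).natAbs ≤ (bns s).getD k 0)
    (hflat : 2 * cDel D * (dot c (vsub (rdv s.2.length y l) p0)).natAbs ≤ cM D * cM D)
    (hcl : c.length = s.2.length) :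
    ∃ a : Vec, a.length = s.2.length ∧
      (∀ i < s.2.length, (a.getD i 0).natAbs ≤
        ((reb (cc D) (cM D) (cDel D) l c j).map fun p => p.2).getD i 0) ∧
      y = lin (sc p0 l) ((reb (cc D) (cM D) (cDel D) l c j).map fun p => p.1) a := by
  have hl := hld.len
  set n := s.2.length with hn
  set M := cM D with hM
  set Δ := cDel D with hΔ
  set u : Vec := vsub y (sc p0 l) with hu
  have hscl : (sc p0 l).length = n := by rw [length_sc (by omega), hl]
  have hul : u.length = l.length := by rw [hu, length_vsub, hy, hscl, hl, min_self]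
  have hug : ∀ k < n, u.getD k 0 = y.getD k 0 - p0.getD k 0 * (l.getD k 0 : ℤ) := by
    intro k hk
    rw [hu, getD_vsub (by omega) (by omega), getD_sc (by omega) (by omega)]
  obtain ⟨a, ha, hua⟩ := reb_gen hOK u hul
  have hcov := reb_cover hOK (by omega) u a hul ha hua (by
    intro k hk
    have hk' : k < n := by omega
    rw [hug k hk']
    have e1 := (hy2 k hk').trans (hld.hi k hk').le
    have e2 : (p0.getD k 0 * (l.getD k 0 : ℤ)).natAbs ≤ M * l.getD k 0 := by
      rw [Int.natAbs_mul, Int.natAbs_natCast]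
      exact Nat.mul_le_mul_right _ (hp0M k hk')
    refine (Int.natAbs_sub_le _ _).trans ((Nat.add_le_add e1 e2).trans (le_of_eq ?_))
    ring) (by
    rw [dot_slab, hl]
    set Q : ℕ → ℤ := fun k => (prodEx l k : ℤ)
    have e1 : ∀ k ∈ Finset.range n, u.getD k 0 * (c.getD k 0 * (prodEx l k : ℤ)) =
        (l.prod : ℤ) * (c.getD k 0 * ((rdv n y l).getD k 0 - p0.getD k 0)) +
        c.getD k 0 * (prodEx l k : ℤ) * (y.getD k 0 - (rdv n y l).getD k 0 * (l.getD k 0 : ℤ)) := by
      intro k hk
      have hk' := Finset.mem_range.1 hk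
      rw [hug k hk', ← prodEx_mul (l := l) (k := k) (by omega)]
      push_cast
      ring
    rw [Finset.sum_congr rfl e1, Finset.sum_add_distrib, ← Finset.mul_sum]
    have e2 : ∑ k ∈ Finset.range n, c.getD k 0 * ((rdv n y l).getD k 0 - p0.getD k 0) =
        dot c (vsub (rdv n y l) p0) := by
      rw [dot_eq_sum (N := n) (Or.inl (by omega))]
      refine Finset.sum_congr rfl fun k hk => ?_
      have hk' := Finset.mem_range.1 hk
      rw [getD_vsub (by simpa using hk') (by omega)]
    rw [e2]
    have e3 : (∑ k ∈ Finset.range n, c.getD k 0 * (prodEx l k : ℤ) *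
        (y.getD k 0 - (rdv n y l).getD k 0 * (l.getD k 0 : ℤ))).natAbs ≤ n * (M * l.prod) := by
      refine (Int.natAbs_sum_le _ _).trans ?_
      calc ∑ k ∈ Finset.range n, (c.getD k 0 * (prodEx l k : ℤ) *
            (y.getD k 0 - (rdv n y l).getD k 0 * (l.getD k 0 : ℤ))).natAbs
          ≤ ∑ k ∈ Finset.range n, M * l.prod := by
            apply Finset.sum_le_sum
            intro k hk
            have hk' := Finset.mem_range.1 hk
            rw [Int.natAbs_mul, Int.natAbs_mul, Int.natAbs_natCast]
            have e4 := sub_rdv_lt hld y hk'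
            rw [Int.abs_eq_natAbs] at e4
            have e5 : (y.getD k 0 - (rdv n y l).getD k 0 * (l.getD k 0 : ℤ)).natAbs ≤
              l.getD k 0 := by
              have := e4.le
              exact_mod_cast this
            calc (c.getD k 0).natAbs * prodEx l k *
                  (y.getD k 0 - (rdv n y l).getD k 0 * (l.getD k 0 : ℤ)).natAbs
                ≤ M * prodEx l k * l.getD k 0 :=
                  Nat.mul_le_mul (Nat.mul_le_mul_right _ (hc k hk')) e5
              _ = M * l.prod := by rw [mul_assoc, prodEx_mul (by omega)]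
        _ = n * (M * l.prod) := by simp
    have e6 : 2 * (Δ * n) ≤ M := by
      have e7 := cM_big hD
      have e8 : Δ * n ≤ Δ * n ^ 2 * (n + 1) := by
        rcases Nat.eq_zero_or_pos n with h0 | h0
        · rw [h0]; simp
        · have : n ≤ n ^ 2 * (n + 1) := by nlinarith
          calc Δ * n ≤ Δ * (n ^ 2 * (n + 1)) := Nat.mul_le_mul_left _ this
            _ = _ := by ring
      have e9 : 28 * Δ * n ^ 2 * (n + 1) = 28 * (Δ * n ^ 2 * (n + 1)) := by ring
      rw [← hΔ, ← hM] at e7
      rw [e9] at e7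
      omega
    set δ := (dot c (vsub (rdv n y l) p0)).natAbs with hδ
    have e10 : 2 * (Δ * (((l.prod : ℤ) * dot c (vsub (rdv n y l) p0) +
        ∑ k ∈ Finset.range n, c.getD k 0 * (prodEx l k : ℤ) *
          (y.getD k 0 - (rdv n y l).getD k 0 * (l.getD k 0 : ℤ))).natAbs)) ≤
        2 * (M * M * l.prod) := by
      have e11 := Int.natAbs_add_le ((l.prod : ℤ) * dot c (vsub (rdv n y l) p0))
        (∑ k ∈ Finset.range n, c.getD k 0 * (prodEx l k : ℤ) *
          (y.getD k 0 - (rdv n y l).getD k 0 * (l.getD k 0 : ℤ)))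
      rw [Int.natAbs_mul, Int.natAbs_natCast, ← hδ] at e11
      calc 2 * (Δ * (((l.prod : ℤ) * dot c (vsub (rdv n y l) p0) +
          ∑ k ∈ Finset.range n, c.getD k 0 * (prodEx l k : ℤ) *
          (y.getD k 0 - (rdv n y l).getD k 0 * (l.getD k 0 : ℤ))).natAbs))
          ≤ 2 * (Δ * (l.prod * δ + n * (M * l.prod))) :=
            Nat.mul_le_mul_left _ (Nat.mul_le_mul_left _ (e11.trans (Nat.add_le_add_left e3 _)))
        _ = l.prod * (2 * Δ * δ) + 2 * (Δ * n) * (M * l.prod) := by ring
        _ ≤ l.prod * (M * M) + M * (M * l.prod) :=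
            Nat.add_le_add (Nat.mul_le_mul_left _ hflat) (Nat.mul_le_mul_right _ e6)
        _ = 2 * (M * M * l.prod) := by ring
    exact Nat.le_of_mul_le_mul_left e10 (by norm_num))
  refine ⟨a, by omega, fun i hi => hcov i (by omega), ?_⟩
  refine vec_ext (by rw [hy, length_lin, hscl]) fun i hi => ?_
  have hi' : i < n := by omega
  have e1 := congrArg (fun v => v.getD i 0) hua
  rw [hug i hi', getD_lin_sum (by simp; omega), getD_zv, zero_add] at e1
  rw [getD_lin_sum (by omega), getD_sc (by omega) (by omega), ← e1]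
  ring

/-- The size of the new box. -/
theorem reb_ext {D n : ℕ} {s : Box} {l : List ℕ} {c p0 : Vec} {j : ℕ} (hwf : WF n s)
    (hld : LD (cM D) s l) (h0 : 0 < s.2.length) (hD : s.2.length ≤ D)
    (hOK : rebOK (cM D) (cDel D) l c j = true)
    (hc : ∀ k < s.2.length, (c.getD k 0).natAbs ≤ cM D)
    (hp0 : p0.length = s.2.length) (hp0M : ∀ k < s.2.length, (p0.getD k 0).natAbs ≤ cM D) :
    ext (compo s (sc p0 l, reb (cc D) (cM D) (cDel D) l c j)) ≤ 2 ^ cE D * ext s := by
  have hl := hld.len
  obtain ⟨hlen, hlen2⟩ := reb_len hOK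
  have hbd := reb_bd hOK (by omega) (fun k hk => hc k (by omega))
  set L := reb (cc D) (cM D) (cDel D) l c j with hL
  have hLn : L.length = s.2.length := by rw [hlen, hl]
  -- the sum over the old box
  set X := ∑ k ∈ Finset.range s.2.length, (bns s).getD k 0 * nrm ((bvs s).getD k []) with hX
  have hXe : nrm s.1 + X ≤ ext s := sum_le_ext s
  have h1e : 1 ≤ ext s := by
    have := bns_lt_ext (s := s) (List.getElem_mem (h := h0))
    omega
  have hNe : ∑ k ∈ Finset.range s.2.length, (bns s).getD k 0 ≤ ext s := by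
    rw [ext_eq]
    refine le_trans ?_ (Nat.le_add_left _ _)
    refine Finset.sum_le_sum fun k _ => ?_
    calc (bns s).getD k 0 ≤ ((bns s).getD k 0 + 1) * 1 := by omega
      _ ≤ _ := Nat.mul_le_mul_left _ (by omega)
  have hlsum : cM D * l.sum ≤ ext s := by
    have e1 : l.sum = ∑ k ∈ Finset.range s.2.length, l.getD k 0 := by
      rw [← sum_map_range, ← hl]
      congr 1
      apply List.ext_getElem
      · simp
      · intro i h1 h2
        simp only [List.getElem_map, List.getElem_range]
        rw [List.getD_eq_getElem _ _ h1]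
    rw [e1, Finset.mul_sum]
    exact (Finset.sum_le_sum fun k hk => hld.lo k (Finset.mem_range.1 hk)).trans hNe
  -- the first part
  have hfst : nrm (compo s (sc p0 l, L)).1 ≤ ext s := by
    have e1 : (compo s (sc p0 l, L)).1 = ptS s l p0 := rfl
    rw [e1]
    exact (nrm_ptS_le hld hp0 hp0M).trans hXe
  -- the vectors
  have hsnd : ∀ p ∈ L, (p.2 + 1) * (nrm (lin (zv s.1.length) (bvs s) p.1) + 1) ≤
      (2 ^ ((D + 3) ^ 2) + cc D + 1) * ext s := by
    intro p hp
    obtain ⟨e1, e2⟩ := hbd p hp
    have e3 := nrm_lin_le (zv s.1.length) (bvs s) p.1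
    rw [nrm_zv, zero_add, length_bvs] at e3
    have e4 : (p.2 + 1) * nrm (lin (zv s.1.length) (bvs s) p.1) ≤ 2 ^ ((D + 3) ^ 2) * X := by
      calc (p.2 + 1) * nrm (lin (zv s.1.length) (bvs s) p.1)
          ≤ (p.2 + 1) * ∑ k ∈ Finset.range s.2.length,
              (p.1.getD k 0).natAbs * nrm ((bvs s).getD k []) := Nat.mul_le_mul_left _ e3
        _ = ∑ k ∈ Finset.range s.2.length,
              (p.2 + 1) * (p.1.getD k 0).natAbs * nrm ((bvs s).getD k []) := by
            rw [Finset.mul_sum]
            exact Finset.sum_congr rfl fun k _ => by ring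
        _ ≤ ∑ k ∈ Finset.range s.2.length,
              2 ^ ((D + 3) ^ 2) * ((bns s).getD k 0 * nrm ((bvs s).getD k [])) := by
            apply Finset.sum_le_sum
            intro k hk
            have hk' := Finset.mem_range.1 hk
            calc (p.2 + 1) * (p.1.getD k 0).natAbs * nrm ((bvs s).getD k [])
                ≤ 2 ^ ((D + 3) ^ 2) * (cM D * l.getD k 0) * nrm ((bvs s).getD k []) :=
                  Nat.mul_le_mul_right _ (e2 k (by omega))
              _ ≤ 2 ^ ((D + 3) ^ 2) * (bns s).getD k 0 * nrm ((bvs s).getD k []) :=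
                  Nat.mul_le_mul_right _ (Nat.mul_le_mul_left _ (hld.lo k hk'))
              _ = _ := by ring
        _ = 2 ^ ((D + 3) ^ 2) * X := by rw [hX, Finset.mul_sum]
    have e5 : p.2 ≤ cc D * ext s := e1.trans (Nat.mul_le_mul_left _ hlsum)
    have e6 : 2 ^ ((D + 3) ^ 2) * X ≤ 2 ^ ((D + 3) ^ 2) * ext s :=
      Nat.mul_le_mul_left _ (by omega)
    calc (p.2 + 1) * (nrm (lin (zv s.1.length) (bvs s) p.1) + 1)
        = (p.2 + 1) * nrm (lin (zv s.1.length) (bvs s) p.1) + p.2 + 1 := by ring
      _ ≤ 2 ^ ((D + 3) ^ 2) * ext s + cc D * ext s + ext s := by omega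
      _ = _ := by ring
  have hsum : ((compo s (sc p0 l, L)).2.map fun p => (p.2 + 1) * (nrm p.1 + 1)).sum ≤
      L.length * ((2 ^ ((D + 3) ^ 2) + cc D + 1) * ext s) := by
    simp only [compo, List.map_map]
    clear_value L
    clear hlen hlen2 hbd hLn hfst hL
    induction L with
    | nil => simp
    | cons a L ih =>
      simp only [List.map_cons, List.sum_cons, List.length_cons, Function.comp]
      have e1 := hsnd a (by simp)
      have e2 := ih (fun p hp => hsnd p (by simp [hp]))
      simp only [Function.comp_def] at e2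
      have e3 : (L.length + 1) * ((2 ^ ((D + 3) ^ 2) + cc D + 1) * ext s) =
          (2 ^ ((D + 3) ^ 2) + cc D + 1) * ext s +
            L.length * ((2 ^ ((D + 3) ^ 2) + cc D + 1) * ext s) := by ring
      rw [e3]
      exact Nat.add_le_add e1 e2
  have hcst : 1 + D * (2 ^ ((D + 3) ^ 2) + cc D + 1) ≤ 2 ^ cE D := by
    unfold cc cE
    have e1 : D + 1 ≤ 2 ^ D := Nat.lt_two_pow_self
    have e2 : 2 ^ ((D + 2) ^ 2) ≤ 2 ^ ((D + 3) ^ 2) := Nat.pow_le_pow_right (by norm_num) (by
      nlinarith)
    have e3 : 1 ≤ 2 ^ ((D + 3) ^ 2) := Nat.one_le_two_pow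
    calc 1 + D * (2 ^ ((D + 3) ^ 2) + 2 ^ ((D + 2) ^ 2) + 1)
        ≤ 4 * 2 ^ ((D + 3) ^ 2) + D * (4 * 2 ^ ((D + 3) ^ 2)) :=
          Nat.add_le_add (by omega) (Nat.mul_le_mul_left _ (by omega))
      _ = (D + 1) * (4 * 2 ^ ((D + 3) ^ 2)) := by ring
      _ ≤ 2 ^ D * (4 * 2 ^ ((D + 3) ^ 2)) := Nat.mul_le_mul_right _ e1
      _ = 2 ^ (D + 2 + (D + 3) ^ 2) := by rw [pow_add, pow_add]; ring
      _ ≤ 2 ^ ((D + 4) ^ 3) := by
          apply Nat.pow_le_pow_right (by norm_num)
          nlinarith [Nat.zero_le (D ^ 3), Nat.zero_le (D ^ 2)]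
  unfold ext at *
  calc nrm (compo s (sc p0 l, L)).1 +
        ((compo s (sc p0 l, L)).2.map fun p => (p.2 + 1) * (nrm p.1 + 1)).sum
      ≤ (nrm s.1 + (s.2.map fun p => (p.2 + 1) * (nrm p.1 + 1)).sum) +
        L.length * ((2 ^ ((D + 3) ^ 2) + cc D + 1) *
          (nrm s.1 + (s.2.map fun p => (p.2 + 1) * (nrm p.1 + 1)).sum)) :=
        Nat.add_le_add hfst hsum
    _ ≤ (nrm s.1 + (s.2.map fun p => (p.2 + 1) * (nrm p.1 + 1)).sum) +
        D * ((2 ^ ((D + 3) ^ 2) + cc D + 1) *
          (nrm s.1 + (s.2.map fun p => (p.2 + 1) * (nrm p.1 + 1)).sum)) :=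
        Nat.add_le_add_left (Nat.mul_le_mul_right _ (by omega)) _
    _ = (1 + D * (2 ^ ((D + 3) ^ 2) + cc D + 1)) *
          (nrm s.1 + (s.2.map fun p => (p.2 + 1) * (nrm p.1 + 1)).sum) := by ring
    _ ≤ _ := Nat.mul_le_mul_right _ hcst

variable {P D B n : ℕ} {T : Set Vec} {orc : Vec → Option Vec} {s : Box}

/-- The three outcomes of a shrinking step. -/
theorem shrink_spec (hv : ValidOrc n T orc) (hwf : WF n s) (h1 : s.2 ≠ [])
    (hD : s.2.length ≤ D) (hw : ∀ p ∈ s.2, cw D ≤ p.2) (hP : cM D ≤ P) (hB : cG D ≤ B) :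
    (shrink P D B orc s).1 ≤ 2 ∧
    ((shrink P D B orc s).1 = 0 →
      WF n (shrink P D B orc s).2 ∧ (shrink P D B orc s).2.2.length = s.2.length ∧
      (∀ x ∈ T, InBox s x → InBox (shrink P D B orc s).2 x) ∧
      (∀ v, Lat s v → Lat (shrink P D B orc s).2 v) ∧
      2 * (bns (shrink P D B orc s).2).prod ≤ (bns s).prod ∧
      ext (shrink P D B orc s).2 ≤ 2 ^ cE D * ext s) ∧
    ((shrink P D B orc s).1 = 1 →
      WF n (shrink P D B orc s).2 ∧ (shrink P D B orc s).2.2 = s.2 ∧
      nrm (shrink P D B orc s).2.1 ≤ ext s ∧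
      Fat D T (shrink P D B orc s).2 ∧
      ∀ x ∈ T, InBox s x → Central n (D * cM D) T (shrink P D B orc s).2.1 x) ∧
    ((shrink P D B orc s).1 = 2 → ∀ x ∈ T, ¬ InBox s x) := by
  have h0 : 0 < s.2.length := List.length_pos_iff.2 h1
  have hMP : min P (cM D) = cM D := min_eq_right hP
  have hM4 := cM_eq D
  have hG1 : 1 ≤ cM D / 4 := by have := cM_pos D; omega
  have hld : LD (cM D) s ((bns s).map fun m => m / cM D) := ld_of (cM_pos D) (fun p hp => hw p hp)
  set l := (bns s).map fun m => m / cM D with hl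
  have hll := hld.len
  have hGM : cM D / 4 ≤ cM D := Nat.div_le_self _ _
  have hGM1 : cM D / 4 - 1 ≤ cM D := (Nat.sub_le _ _).trans hGM
  have hunf : shrink P D B orc s =
      match ((grid B (cM D / 4 - 1) s.2.length).filter (fatQ orc s l)).head? with
      | some q => (1, (ptS s l (four q), s.2))
      | none =>
        let S := fineS B (cM D) s.2.length
          ((grid B (cM D / 4) s.2.length).flatMap (cutQ orc s l))
        match S.head? with
        | none => (2, s)
        | some p0 =>
          match (flatDir B (cM D) (cDel D) s.2.length S p0).head? with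
          | none => (2, s)
          | some cj => (0, compo s (sc p0 l, reb (cc D) (cM D) (cDel D) l cj.1 cj.2)) := by
    unfold shrink sc
    rw [hMP]
    rfl
  -- the rounding of a point of `T` is in `S`
  set S := fineS B (cM D) s.2.length
    ((grid B (cM D / 4) s.2.length).flatMap (cutQ orc s l)) with hS
  have hmemS : ∀ p, p ∈ S ↔ _ := fun p => mem_fine hD le_rfl hGM hB (p := p)
  have hround : ∀ y : Vec, y.length = s.2.length →
      (∀ k < s.2.length, (y.getD k 0).natAbs ≤ (bns s).getD k 0) →
      lin s.1 (bvs s) y ∈ T → rdv s.2.length y l ∈ S := by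
    intro y hy1 hy2 hyT
    rw [hmemS]
    refine ⟨⟨by simp, ?_⟩, ?_⟩
    · intro x hx
      obtain ⟨k, hk, rfl⟩ := List.getElem_of_mem hx
      have hk' : k < s.2.length := by simpa using hk
      have := rdv_le hld hy2 hk'
      rwa [List.getD_eq_getElem _ _ hk] at this
    · intro q hq1 _ h ho
      exact rdv_cut hv hwf hld hyT hq1 ho
  have hno_of : ((grid B (cM D / 4 - 1) s.2.length).filter (fatQ orc s l)).head? = none →
      ∀ q : Vec, q.length = s.2.length → (∀ x ∈ q, x.natAbs ≤ cM D / 4 - 1) →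
      fatQ orc s l q = false := by
    intro hn q hq1 hq2
    rw [List.head?_eq_none_iff, List.filter_eq_nil_iff] at hn
    have := hn q ((mem_grid hD hGM1 hB q).2 ⟨hq1, hq2⟩)
    simpa using this
  rw [hunf]
  cases hfat : ((grid B (cM D / 4 - 1) s.2.length).filter (fatQ orc s l)).head? with
  | some q =>
    simp only
    refine ⟨by norm_num, by norm_num, ?_, by norm_num⟩
    intro _
    have hq := List.mem_of_mem_head? hfat
    rw [List.mem_filter, mem_grid hD hGM1 hB] at hq
    obtain ⟨⟨hq1, hq2⟩, hq3⟩ := hq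
    have hq4 : ∀ k < s.2.length, (q.getD k 0).natAbs ≤ cM D / 4 - 1 := by
      intro k hk
      exact getD_mem_or (P := fun x => x.natAbs ≤ cM D / 4 - 1) hq2 (by omega)
    have hfM : ∀ k < s.2.length, ((four q).getD k 0).natAbs ≤ cM D := by
      intro k hk
      rw [getD_four, Int.natAbs_mul]
      have := hq4 k hk
      have e : Int.natAbs 4 = 4 := rfl
      rw [e]
      omega
    unfold fatQ at hq3
    rw [Bool.and_eq_true, List.all_eq_true] at hq3
    obtain ⟨hc, hc2⟩ := hq3
    have hacc : ∀ u : Vec, accQ orc s l u = true → ptS s l (four u) ∈ T := by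
      intro u hu
      unfold accQ at hu
      exact hv.acc _ (by rw [length_ptS, hwf.1]) (Option.isNone_iff_eq_none.1 hu)
    have hbump : ∀ k < s.2.length, ∀ e : ℤ, four (bump q k e) = bump (four q) k (4 * e) := by
      intro k hk e
      refine vec_ext (by simp) fun i hi => ?_
      have hi' : i < q.length := by simpa using hi
      rw [getD_four, getD_bump hi', getD_bump (by simpa using hi'), getD_four]
      split_ifs <;> ring
    have hT : ∀ k < s.2.length, ∀ e : ℤ, (e = 4 ∨ e = -4) → ptS s l (bump (four q) k e) ∈ T := by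
      intro k hk e he
      have h2 := hc2 k (by rw [List.mem_range]; omega)
      rw [Bool.and_eq_true] at h2
      rcases he with rfl | rfl
      · have := hacc _ h2.1
        rw [hbump k hk] at this
        simpa using this
      · have := hacc _ h2.2
        rw [hbump k hk] at this
        simpa using this
    refine ⟨⟨by simp [hwf.1], hwf.2⟩, trivial, ?_, ⟨hacc _ hc, ?_⟩, ?_⟩
    · exact (nrm_ptS_le hld (by simpa using hq1) hfM).trans (sum_le_ext s)
    · intro b hb
      have hb' : b ∈ bvs s := hb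
      obtain ⟨k, hk, rfl⟩ := List.getElem_of_mem hb'
      have hk' : k < s.2.length := by simpa using hk
      refine ⟨4 * l.getD k 0, by have := hld.big k hk'; omega, ?_, ?_⟩
      · have := hT k hk' 4 (Or.inl rfl)
        rw [← lin_ptS hld (by simpa using hq1) hk', List.getD_eq_getElem _ _ hk] at this
        push_cast
        exact this
      · have := hT k hk' (-4) (Or.inr rfl)
        rw [← lin_ptS hld (by simpa using hq1) hk', List.getD_eq_getElem _ _ hk] at this
        push_cast
        have e : -(4 * (l.getD k 0 : ℤ)) = -4 * (l.getD k 0 : ℤ) := by ring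
        rw [e]
        exact this
    · intro x _ hx
      exact fat_central hld hwf h0 hD (by simpa using hq1) hfM hT hx
  | none =>
    have hno := hno_of hfat
    simp only
    cases hSh : S.head? with
    | none =>
      simp only
      refine ⟨le_rfl, by norm_num, by norm_num, ?_⟩
      intro _ x hx hbox
      obtain ⟨y, hy1, hy2, rfl⟩ := hbox
      have := hround y hy1 hy2 hx
      rw [List.head?_eq_none_iff] at hSh
      rw [hSh] at this
      simp at this
    | some p0 =>
      simp only
      have hp0 := List.mem_of_mem_head? hSh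
      have hp0' := ((hmemS p0).1 hp0).1
      obtain ⟨c, hc1, hc2, ⟨j, hj, hcj⟩, hc3⟩ := exists_flat (Δ := cDel D) hld h0 hM4
        (cDel_pos D) (cM_big hD) hmemS hno hp0
      cases hfl : (flatDir B (cM D) (cDel D) s.2.length S p0).head? with
      | none =>
        exfalso
        rw [List.head?_eq_none_iff] at hfl
        have hmem : (c, j) ∈ flatDir B (cM D) (cDel D) s.2.length S p0 := by
          unfold flatDir
          rw [List.mem_filter]
          refine ⟨?_, ?_⟩
          · rw [List.mem_flatMap]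
            exact ⟨c, (mem_grid hD le_rfl hB c).2 ⟨hc1, hc2⟩, by simpa using hj⟩
          · rw [Bool.and_eq_true, List.all_eq_true]
            refine ⟨by simpa using hcj, ?_⟩
            intro p hp
            simpa using hc3 p hp
        rw [hfl] at hmem
        simp at hmem
      | some cj =>
        simp only
        have hcm := List.mem_of_mem_head? hfl
        unfold flatDir at hcm
        rw [List.mem_filter, List.mem_flatMap, Bool.and_eq_true, List.all_eq_true] at hcm
        obtain ⟨⟨c', hc'1, hc'2⟩, hc'3, hc'4⟩ := hcm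
        rw [List.mem_map] at hc'2
        obtain ⟨j', hj', rfl⟩ := hc'2
        rw [mem_grid hD le_rfl hB] at hc'1
        rw [List.mem_range] at hj'
        simp only [decide_eq_true_eq] at hc'3 hc'4
        have hOK : rebOK (cM D) (cDel D) l c' j' = true := by
          rw [rebOK_iff]
          refine ⟨cM_pos D, cDel_pos D, ?_, by omega, hc'3⟩
          intro m hm
          obtain ⟨k, hk, rfl⟩ := List.getElem_of_mem hm
          have := hld.l_pos (k := k) (by omega)
          rwa [List.getD_eq_getElem _ _ hk] at this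
        have hcM : ∀ k < s.2.length, (c'.getD k 0).natAbs ≤ cM D := by
          intro k hk
          exact getD_mem_or (P := fun x => x.natAbs ≤ cM D) hc'1.2 (by omega)
        have hp0M : ∀ k < s.2.length, (p0.getD k 0).natAbs ≤ cM D := by
          intro k hk
          exact getD_mem_or (P := fun x => x.natAbs ≤ cM D) hp0'.2 (by omega)
        obtain ⟨hrl, hrl2⟩ := reb_len hOK
        have hscl : (sc p0 l).length = s.2.length := by rw [length_sc (by omega), hll]
        have hwf2 : WF s.2.length (sc p0 l, reb (cc D) (cM D) (cDel D) l c' j') :=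
          ⟨hscl, fun p hp => by rw [hrl2 p hp, hll]⟩
        refine ⟨by norm_num, ?_, by norm_num, by norm_num⟩
        intro _
        refine ⟨compo_wf hwf hwf2, by rw [compo_len]; simp only; omega, ?_, ?_, ?_, ?_⟩
        · intro x hx hbox
          obtain ⟨y, hy1, hy2, rfl⟩ := hbox
          obtain ⟨a, ha1, ha2, ha3⟩ := reb_cover' hld hD hOK hcM hp0'.1 hp0M hy1 hy2
            (hc'4 _ (hround y hy1 hy2 hx)) hc'1.1
          refine ⟨a, by rw [compo_len]; simp only; omega, ?_, ?_⟩
          · intro k hk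
            rw [bns_compo]
            rw [compo_len] at hk
            simp only at hk
            exact ha2 k (by omega)
          · rw [lin_compo hwf2 le_rfl, ha3]
            rfl
        · rintro v ⟨y, hy1, rfl⟩
          obtain ⟨a, ha1, ha2⟩ := reb_gen hOK y (by omega)
          refine ⟨a, by rw [compo_len]; simp only; omega, ?_⟩
          have e1 : (compo s (sc p0 l, reb (cc D) (cM D) (cDel D) l c' j')).1.length =
            s.1.length := by simp [compo]
          rw [e1, bvs_compo]
          have e2 : bvs (sc p0 l, reb (cc D) (cM D) (cDel D) l c' j') =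
            (reb (cc D) (cM D) (cDel D) l c' j').map fun p => p.1 := rfl
          rw [e2, ← lin_lin (m := l.length) _ _ _ (by rw [length_bvs, hll]), ← ha2]
        · rw [bns_compo]
          have e1 : bns (sc p0 l, reb (cc D) (cM D) (cDel D) l c' j') =
            (reb (cc D) (cM D) (cDel D) l c' j').map fun p => p.2 := rfl
          rw [e1]
          refine (reb_half hOK (by omega)).trans ?_
          rw [hl, List.map_map]
          generalize bns s = L
          induction L with
          | nil => simp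
          | cons x L ih =>
            simp only [List.map_cons, List.prod_cons, Function.comp]
            exact Nat.mul_le_mul (Nat.mul_div_le _ _) ih
        · exact reb_ext hwf hld h0 hD hOK hcM hp0'.1 hp0M

end Run7.h960
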