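import Mathlib

set_option autoImplicit false

/-!
# The slab lemma
-/

namespace Run7.h960

open Matrix

/-- A simplex of maximal volume. -/
private theorem max_simplex {n : ℕ} (S : Set (Fin n → ℤ)) (hfin : S.Finite) (p0 : Fin n → ℤ)
    (h : ∀ k, p0 + Pi.single k 1 ∈ S) :
    ∃ A : Matrix (Fin n) (Fin n) ℤ, (∀ i, p0 + A i ∈ S) ∧ A.det ≠ 0 ∧
      ∀ p ∈ S, ∀ j, |(A.updateRow j (p - p0)).det| ≤ |A.det| := by
  classical
  have hfin2 : {v : Fin n → ℤ | p0 + v ∈ S}.Finite := by
    have : {v : Fin n → ℤ | p0 + v ∈ S} = (fun v => p0 + v) ⁻¹' S := rfl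
    rw [this]
    exact hfin.preimage (fun a _ b _ hab => add_left_cancel hab)
  have hfin3 : {A : Matrix (Fin n) (Fin n) ℤ | ∀ i, p0 + A i ∈ S}.Finite := by
    have h1 := Set.Finite.pi' (ι := Fin n) (t := fun _ => {v : Fin n → ℤ | p0 + v ∈ S})
      (fun _ => hfin2)
    exact h1
  have hone : (1 : Matrix (Fin n) (Fin n) ℤ) ∈
      {A : Matrix (Fin n) (Fin n) ℤ | ∀ i, p0 + A i ∈ S} := by
    intro i
    have : (1 : Matrix (Fin n) (Fin n) ℤ) i = Pi.single i 1 := by
      funext j
      rw [Matrix.one_apply, Pi.single_apply]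
      simp [eq_comm]
    rw [this]
    exact h i
  obtain ⟨A, hA, hmax⟩ := Set.exists_max_image _ (fun A : Matrix (Fin n) (Fin n) ℤ => |A.det|)
    hfin3 ⟨1, hone⟩
  refine ⟨A, hA, ?_, ?_⟩
  · have h1 := hmax 1 hone
    simp only [Matrix.det_one, abs_one] at h1
    intro h0
    rw [h0] at h1
    simp at h1
  · intro p hp j
    apply hmax
    intro i
    by_cases hij : i = j
    · subst hij
      rw [Matrix.updateRow_self]
      simpa using hp
    · rw [Matrix.updateRow_ne hij]
      exact hA i

/-- barycentric coordinates: facts -/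
private theorem bary {n : ℕ} (B : Matrix (Fin n) (Fin n) ℚ) (hB : B.det ≠ 0) :
    (∀ w : Fin n → ℚ, (w ᵥ* B⁻¹) ᵥ* B = w) ∧
    (∀ i, B i ᵥ* B⁻¹ = Pi.single i 1) ∧
    (∀ (w : Fin n → ℚ) (j : Fin n), (w ᵥ* B⁻¹) j * B.det = (B.updateRow j w).det) := by
  classical
  have hu : IsUnit B.det := isUnit_iff_ne_zero.2 hB
  have h1 : ∀ w : Fin n → ℚ, (w ᵥ* B⁻¹) ᵥ* B = w := by
    intro w
    rw [Matrix.vecMul_vecMul, Matrix.nonsing_inv_mul B hu, Matrix.vecMul_one]
  refine ⟨h1, ?_, ?_⟩
  · intro i
    have h2 : B * B⁻¹ = 1 := Matrix.mul_nonsing_inv B hu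
    funext j
    have h3 : (B i ᵥ* B⁻¹) j = (B * B⁻¹) i j := by
      simp [Matrix.vecMul, Matrix.mul_apply, dotProduct]
    rw [h3, h2, Matrix.one_apply, Pi.single_apply]
    simp [eq_comm]
  · intro w j
    have h4 : w = ∑ k, (w ᵥ* B⁻¹) k • B k := by
      conv_lhs => rw [← h1 w]
      rw [Matrix.vecMul_eq_sum]
    have h5 := Matrix.det_updateRow_sum B j (w ᵥ* B⁻¹)
    rw [← h4] at h5
    rw [h5]
    simp

/-- If no coarse point is accepted together with all its neighbours, the fine points respecting all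
cuts lie in a thin slab. -/
theorem slab {n : ℕ} (hn : 1 ≤ n) (G M Δ : ℕ) (hG : M = 4 * G) (hΔ : 1 ≤ Δ)
    (hM : 28 * Δ * n ^ 2 * (n + 1) ≤ M)
    (rej : (Fin n → ℤ) → Prop) (η : (Fin n → ℤ) → Fin n → ℤ) (S : Set (Fin n → ℤ))
    (hS : ∀ p, p ∈ S ↔ (∀ i, |p i| ≤ (M : ℤ)) ∧ ∀ q, (∀ i, |q i| ≤ (G : ℤ)) → rej q →
      ∑ i, η q i * (p i - 4 * q i) < ∑ i, |η q i|)
    (p0 : Fin n → ℤ) (hp0 : p0 ∈ S)
    (hfat : ∀ q, (∀ i, |q i| ≤ (G : ℤ) - 1) → ∃ q', rej q' ∧ (q' = q ∨
      ∃ i, q' = q + Pi.single i 1 ∨ q' = q - Pi.single i 1)) :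
    ∃ c : Fin n → ℤ, (∀ i, |c i| ≤ (M : ℤ)) ∧ (∃ j, c j = (M : ℤ)) ∧
      ∀ p ∈ S, 2 * (Δ : ℤ) * |∑ i, c i * (p i - p0 i)| ≤ (M : ℤ) * M := by
  classical
  -- numerical facts
  have hnQ : (1 : ℚ) ≤ n := by exact_mod_cast hn
  have hΔQ : (1 : ℚ) ≤ Δ := by exact_mod_cast hΔ
  have hMQ : 28 * (Δ : ℚ) * n ^ 2 * (n + 1) ≤ M := by exact_mod_cast hM
  have hn2 : (1 : ℚ) ≤ (n : ℚ) ^ 2 := by nlinarith
  have hM4 : 28 * (Δ : ℚ) * n ≤ M := by
    have : 28 * (Δ : ℚ) * n ≤ 28 * (Δ : ℚ) * n ^ 2 * (n + 1) := by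
      have h1 : (n : ℚ) ≤ n ^ 2 * (n + 1) := by nlinarith
      nlinarith
    linarith
  have hM28 : 28 * (Δ : ℚ) ≤ M := by nlinarith
  have hMpos : (0 : ℚ) < M := by linarith
  have hbd : ∀ p ∈ S, ∀ i, |p i| ≤ (M : ℤ) := fun p hp => ((hS p).1 hp).1
  have hbdQ : ∀ p ∈ S, ∀ i, |(p i : ℚ)| ≤ (M : ℚ) := by
    intro p hp i
    have := hbd p hp i
    exact_mod_cast this
  -- finiteness
  have hSfin : S.Finite := by
    apply (Set.finite_Icc (fun _ : Fin n => -(M : ℤ)) (fun _ => (M : ℤ))).subset
    intro p hp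
    rw [Set.mem_Icc]
    exact ⟨fun i => (abs_le.1 (hbd p hp i)).1, fun i => (abs_le.1 (hbd p hp i)).2⟩
  obtain ⟨A, hA, hdet, hmax⟩ := max_simplex (S ∪ Set.range fun k => p0 + Pi.single k 1)
    (hSfin.union (Set.finite_range _)) p0 (fun k => Or.inr ⟨k, rfl⟩)
  set B : Matrix (Fin n) (Fin n) ℚ := A.map (Int.cast : ℤ → ℚ) with hBdef
  have hBdet : B.det = (A.det : ℚ) := (Int.cast_det A).symm
  have hBdet0 : B.det ≠ 0 := by rw [hBdet]; exact_mod_cast hdet
  obtain ⟨hb1, hb2, hb3⟩ := bary B hBdet0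
  set Γ : Matrix (Fin n) (Fin n) ℚ := B⁻¹ with hΓ
  have hβ : ∀ (w : Fin n → ℚ) j, (w ᵥ* Γ) j = ∑ k, w k * Γ k j := by
    intro w j
    simp [Matrix.vecMul, dotProduct]
  -- barycentric coordinates of points of S are at most 1
  have hβ1 : ∀ p ∈ S, ∀ j, |((fun k => (p k : ℚ) - p0 k) ᵥ* Γ) j| ≤ 1 := by
    intro p hp j
    have h1 := hb3 (fun k => (p k : ℚ) - p0 k) j
    have h2 := hmax p (Or.inl hp) j
    have h3 : (B.updateRow j (fun k => (p k : ℚ) - p0 k)) =
        (A.updateRow j (p - p0)).map (Int.cast : ℤ → ℚ) := by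
      ext i k
      by_cases hij : i = j
      · subst hij
        simp [Matrix.updateRow_self]
      · simp [Matrix.updateRow_ne hij, hBdef]
    rw [h3, hBdet, ← Int.cast_det] at h1
    have h4 : |((A.updateRow j (p - p0)).det : ℚ)| ≤ |(A.det : ℚ)| := by exact_mod_cast h2
    rw [← h1, abs_mul] at h4
    have h5 : 0 < |(A.det : ℚ)| := abs_pos.2 (by exact_mod_cast hdet)
    by_contra h6
    push Not at h6
    nlinarith
  by_cases hcase : ∃ j k, 4 * (Δ : ℚ) ≤ M * |Γ k j|
  · -- Case A
    obtain ⟨j, k1, hk1⟩ := hcase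
    obtain ⟨k0, -, hk0⟩ := Finset.exists_max_image Finset.univ (fun k => |Γ k j|)
      ⟨k1, Finset.mem_univ _⟩
    have hk0' : 4 * (Δ : ℚ) ≤ M * |Γ k0 j| :=
      hk1.trans (mul_le_mul_of_nonneg_left (hk0 k1 (Finset.mem_univ _)) hMpos.le)
    have hμ : 0 < |Γ k0 j| := by
      by_contra h
      have : |Γ k0 j| = 0 := le_antisymm (not_lt.1 h) (abs_nonneg _)
      rw [this] at hk0'
      linarith
    have hμ0 : Γ k0 j ≠ 0 := abs_pos.1 hμ
    have hratio : ∀ k, |(M : ℚ) * Γ k j / Γ k0 j| ≤ M := by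
      intro k
      rw [abs_div, abs_mul, div_le_iff₀ hμ, abs_of_pos hMpos]
      exact mul_le_mul_of_nonneg_left (hk0 k (Finset.mem_univ _)) hMpos.le
    have hround : ∀ k, |(M : ℚ) * Γ k j / Γ k0 j - round ((M : ℚ) * Γ k j / Γ k0 j)| ≤ 1 / 2 :=
      fun k => abs_sub_round _
    refine ⟨fun k => round ((M : ℚ) * Γ k j / Γ k0 j), ?_, ⟨k0, ?_⟩, ?_⟩
    · intro k
      have h1 := hratio k
      have h2 := hround k
      have h3 : |((round ((M : ℚ) * Γ k j / Γ k0 j) : ℤ) : ℚ)| < (M : ℚ) + 1 := by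
        have := abs_sub_abs_le_abs_sub ((round ((M : ℚ) * Γ k j / Γ k0 j) : ℤ) : ℚ)
          ((M : ℚ) * Γ k j / Γ k0 j)
        rw [abs_sub_comm] at this
        linarith
      have h4 : |round ((M : ℚ) * Γ k j / Γ k0 j)| < (M : ℤ) + 1 := by exact_mod_cast h3
      show |round ((M : ℚ) * Γ k j / Γ k0 j)| ≤ (M : ℤ)
      omega
    · have h1 : (M : ℚ) * Γ k0 j / Γ k0 j = ((M : ℤ) : ℚ) := by
        rw [mul_div_assoc, div_self hμ0, mul_one]
        simp
      show round ((M : ℚ) * Γ k0 j / Γ k0 j) = M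
      rw [h1, round_intCast]
    · intro p hp
      have h1 : ∑ i, (M : ℚ) * Γ i j / Γ k0 j * ((p i : ℚ) - p0 i) =
          M / Γ k0 j * ((fun k => (p k : ℚ) - p0 k) ᵥ* Γ) j := by
        rw [hβ, Finset.mul_sum]
        refine Finset.sum_congr rfl fun i _ => ?_
        ring
      have h2 : |∑ i, (M : ℚ) * Γ i j / Γ k0 j * ((p i : ℚ) - p0 i)| ≤ M / |Γ k0 j| := by
        rw [h1, abs_mul, abs_div, abs_of_pos hMpos]
        have := hβ1 p hp j
        have h3 : 0 < (M : ℚ) / |Γ k0 j| := by positivity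
        nlinarith
      have h3 : |∑ i, ((round ((M : ℚ) * Γ i j / Γ k0 j) : ℤ) - (M : ℚ) * Γ i j / Γ k0 j) *
          ((p i : ℚ) - p0 i)| ≤ n * M := by
        calc _ ≤ ∑ i, |((round ((M : ℚ) * Γ i j / Γ k0 j) : ℤ) - (M : ℚ) * Γ i j / Γ k0 j) *
              ((p i : ℚ) - p0 i)| := Finset.abs_sum_le_sum_abs _ _
          _ ≤ ∑ i : Fin n, (M : ℚ) := by
              apply Finset.sum_le_sum
              intro i _
              rw [abs_mul, abs_sub_comm]
              have h4 := hround i
              have h5 : |(p i : ℚ) - p0 i| ≤ 2 * M := by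
                have h6 := hbdQ p hp i
                have h7 := hbdQ p0 hp0 i
                rw [abs_le] at h6 h7 ⊢
                constructor <;> linarith
              have h8 := abs_nonneg ((p i : ℚ) - p0 i)
              nlinarith [abs_nonneg ((M : ℚ) * Γ i j / Γ k0 j -
                (round ((M : ℚ) * Γ i j / Γ k0 j) : ℤ))]
          _ = n * M := by simp
      have h4 : |∑ i, ((round ((M : ℚ) * Γ i j / Γ k0 j) : ℤ) : ℚ) * ((p i : ℚ) - p0 i)| ≤
          M / |Γ k0 j| + n * M := by
        have e : ∑ i, ((round ((M : ℚ) * Γ i j / Γ k0 j) : ℤ) : ℚ) * ((p i : ℚ) - p0 i) =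
            ∑ i, (M : ℚ) * Γ i j / Γ k0 j * ((p i : ℚ) - p0 i) +
            ∑ i, ((round ((M : ℚ) * Γ i j / Γ k0 j) : ℤ) - (M : ℚ) * Γ i j / Γ k0 j) *
              ((p i : ℚ) - p0 i) := by
          rw [← Finset.sum_add_distrib]
          exact Finset.sum_congr rfl fun i _ => by ring
        rw [e]
        exact (abs_add_le _ _).trans (add_le_add h2 h3)
      have h5 : 4 * (Δ : ℚ) * (M / |Γ k0 j|) ≤ M * M := by
        have : 4 * (Δ : ℚ) * (M / |Γ k0 j|) = (4 * Δ / |Γ k0 j|) * M := by ring
        rw [this]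
        apply mul_le_mul_of_nonneg_right _ hMpos.le
        rw [div_le_iff₀ hμ]
        exact hk0'
      have h6 : 2 * (Δ : ℚ) * |∑ i, ((round ((M : ℚ) * Γ i j / Γ k0 j) : ℤ) : ℚ) *
          ((p i : ℚ) - p0 i)| ≤ M * M := by
        have h7 : 2 * (Δ : ℚ) * |∑ i, ((round ((M : ℚ) * Γ i j / Γ k0 j) : ℤ) : ℚ) *
          ((p i : ℚ) - p0 i)| ≤ 2 * (Δ : ℚ) * (M / |Γ k0 j| + n * M) :=
          mul_le_mul_of_nonneg_left h4 (by positivity)
        have h8 : 4 * (Δ : ℚ) * (n * M) ≤ M * M := by
          have : 4 * (Δ : ℚ) * n ≤ M := by nlinarith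
          nlinarith
        nlinarith
      exact_mod_cast h6
  · -- Case B
    exfalso
    push Not at hcase
    -- all vertices are in S
    have htS : ∀ i, p0 + A i ∈ S := by
      intro i
      rcases hA i with h | ⟨k, hk⟩
      · exact h
      · exfalso
        have h1 : A i = Pi.single k 1 := (add_left_cancel hk).symm
        have h2 : (B i ᵥ* Γ) i = 1 := by rw [hb2 i]; simp
        have h3 : (B i ᵥ* Γ) i = Γ k i := by
          rw [hβ]
          rw [Finset.sum_eq_single k]
          · simp [hBdef, h1]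
          · intro b _ hb
            simp [hBdef, h1, hb]
          · intro h; exact absurd (Finset.mem_univ _) h
        have h4 := hcase i k
        rw [← h3, h2, abs_one, mul_one] at h4
        linarith
    set z : Fin n → ℚ := fun k => p0 k + (∑ i, B i k) / (n + 1) with hz
    have hn1 : (0 : ℚ) < n + 1 := by linarith
    -- a cube around z
    have hcube : ∀ v : Fin n → ℚ, (∀ k, |v k - z k| ≤ 7) →
        (∀ j, 0 ≤ ((fun k => v k - p0 k) ᵥ* Γ) j) ∧
          ∑ j, ((fun k => v k - p0 k) ᵥ* Γ) j ≤ 1 := by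
      intro v hv
      have hz0 : ∀ j, ((fun k => z k - p0 k) ᵥ* Γ) j = 1 / (n + 1) := by
        intro j
        rw [hβ]
        have e1 : ∀ k, (z k - p0 k) * Γ k j = 1 / (n + 1) * ∑ i, B i k * Γ k j := by
          intro k
          simp only [hz]
          rw [← Finset.sum_mul]
          ring
        have e2 : ∀ i, ∑ k, B i k * Γ k j = if i = j then 1 else 0 := by
          intro i
          rw [← hβ, hb2 i, Pi.single_apply]
          simp [eq_comm]
        rw [Finset.sum_congr rfl (fun k _ => e1 k), ← Finset.mul_sum, Finset.sum_comm,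
          Finset.sum_congr rfl (fun i _ => e2 i)]
        simp
      have hsplit : ∀ j, ((fun k => v k - p0 k) ᵥ* Γ) j = 1 / (n + 1) +
          ((fun k => v k - z k) ᵥ* Γ) j := by
        intro j
        rw [← hz0 j, ← Pi.add_apply, ← Matrix.add_vecMul]
        congr 2
        funext k
        simp
      have herr : ∀ j, |((fun k => v k - z k) ᵥ* Γ) j| ≤ 1 / (n * (n + 1)) := by
        intro j
        rw [hβ]
        calc |∑ k, (v k - z k) * Γ k j| ≤ ∑ k, |(v k - z k) * Γ k j| :=
              Finset.abs_sum_le_sum_abs _ _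
          _ ≤ ∑ k : Fin n, (7 * (4 * (Δ : ℚ) / M) : ℚ) := by
              apply Finset.sum_le_sum
              intro k _
              rw [abs_mul]
              apply mul_le_mul (hv k) _ (abs_nonneg _) (by norm_num)
              rw [le_div_iff₀ hMpos]
              have := hcase j k
              linarith
          _ = n * (28 * Δ / M) := by
              rw [Finset.sum_const, Finset.card_univ, Fintype.card_fin, nsmul_eq_mul]
              ring
          _ ≤ 1 / (n * (n + 1)) := by
              rw [le_div_iff₀ (by positivity)]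
              have : n * (28 * (Δ : ℚ) / M) * (n * (n + 1)) = (28 * Δ * n ^ 2 * (n + 1)) / M := by
                ring
              rw [this, div_le_one hMpos]
              exact hMQ
      have hle : (1 : ℚ) / (n * (n + 1)) ≤ 1 / (n + 1) := by
        apply div_le_div_of_nonneg_left (by norm_num) hn1
        nlinarith
      constructor
      · intro j
        rw [hsplit]
        have := herr j
        rw [abs_le] at this
        linarith [this.1]
      · calc ∑ j, ((fun k => v k - p0 k) ᵥ* Γ) j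
            ≤ ∑ j : Fin n, (1 / ((n : ℚ) + 1) + 1 / (n * (n + 1))) := by
              apply Finset.sum_le_sum
              intro j _
              rw [hsplit]
              have := herr j
              rw [abs_le] at this
              linarith [this.2]
          _ = 1 := by
              simp only [Finset.sum_const, Finset.card_univ, Fintype.card_fin, nsmul_eq_mul]
              field_simp
              try ring
    -- inequalities valid on S are valid on the cube
    have hconv : ∀ (g : Fin n → ℚ) (b : ℚ), (∀ s ∈ S, ∑ k, g k * (s k : ℚ) ≤ b) →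
        ∀ v : Fin n → ℚ, (∀ k, |v k - z k| ≤ 7) → ∑ k, g k * v k ≤ b := by
      intro g b hg v hv
      obtain ⟨h1, h2⟩ := hcube v hv
      set β := (fun k => v k - p0 k) ᵥ* Γ with hβd
      have h3 : ∀ k, v k = p0 k + ∑ j, β j * B j k := by
        intro k
        have := congrFun (hb1 (fun k => v k - p0 k)) k
        rw [← hβd] at this
        simp only [Matrix.vecMul, dotProduct] at this
        linarith
      have h4 : ∑ k, g k * v k = (1 - ∑ j, β j) * (∑ k, g k * (p0 k : ℚ)) +
          ∑ j, β j * ∑ k, g k * (((p0 + A j) k : ℤ) : ℚ) := by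
        have e1 : ∑ k, g k * v k = ∑ k, g k * (p0 k : ℚ) + ∑ j, β j * ∑ k, g k * B j k := by
          calc ∑ k, g k * v k = ∑ k, (g k * (p0 k : ℚ) + ∑ j, β j * (g k * B j k)) := by
                refine Finset.sum_congr rfl fun k _ => ?_
                rw [h3 k, mul_add, Finset.mul_sum]
                congr 1
                exact Finset.sum_congr rfl fun j _ => by ring
            _ = _ := by
                rw [Finset.sum_add_distrib, Finset.sum_comm]
                congr 1
                exact Finset.sum_congr rfl fun j _ => by rw [Finset.mul_sum]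
        have e2 : ∀ j, ∑ k, g k * (((p0 + A j) k : ℤ) : ℚ) =
            ∑ k, g k * (p0 k : ℚ) + ∑ k, g k * B j k := by
          intro j
          rw [← Finset.sum_add_distrib]
          refine Finset.sum_congr rfl fun k _ => ?_
          simp [hBdef]
          ring
        rw [e1]
        simp only [e2, mul_add, Finset.sum_add_distrib]
        rw [← Finset.sum_mul]
        ring
      rw [h4]
      have h5 := hg p0 hp0
      have h6 : ∑ j, β j * ∑ k, g k * (((p0 + A j) k : ℤ) : ℚ) ≤ ∑ j, β j * b :=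
        Finset.sum_le_sum fun j _ => mul_le_mul_of_nonneg_left (hg _ (htS j)) (h1 j)
      rw [← Finset.sum_mul] at h6
      nlinarith
    -- bounds for z
    have hzb : ∀ k, |z k| + 7 ≤ M := by
      intro k
      have h1 : z k + 7 ≤ M := by
        have := hconv (Pi.single k 1) M (by
          intro s hs
          simp only [Pi.single_apply, ite_mul, one_mul, zero_mul, Finset.sum_ite_eq',
            Finset.mem_univ, if_true]
          exact (abs_le.1 (hbdQ s hs k)).2) (fun i => z i + if i = k then 7 else 0) (by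
          intro i
          by_cases h : i = k
          · simp [h]
          · simp [h])
        simpa [Pi.single_apply] using this
      have h2 : -z k + 7 ≤ M := by
        have := hconv (-Pi.single k 1) M (by
          intro s hs
          simp only [Pi.neg_apply, Pi.single_apply, neg_mul, ite_mul, one_mul, zero_mul,
            Finset.sum_neg_distrib, Finset.sum_ite_eq', Finset.mem_univ, if_true]
          have := (abs_le.1 (hbdQ s hs k)).1
          linarith) (fun i => z i - if i = k then 7 else 0) (by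
          intro i
          by_cases h : i = k
          · simp [h]
          · simp [h])
        simp only [Pi.neg_apply, Pi.single_apply, neg_mul, ite_mul, one_mul, zero_mul,
            Finset.sum_neg_distrib, Finset.sum_ite_eq', Finset.mem_univ, if_true] at this
        linarith
      rcases abs_cases (z k) with ⟨h, _⟩ | ⟨h, _⟩ <;> rw [h] <;> linarith
    -- the coarse point
    have hq1 : ∀ k, |z k - 4 * (round (z k / 4) : ℤ)| ≤ 2 := by
      intro k
      have := abs_sub_round (z k / 4)
      have e : z k - 4 * (round (z k / 4) : ℤ) = 4 * (z k / 4 - (round (z k / 4) : ℤ)) := by ring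
      rw [e, abs_mul]
      norm_num
      linarith
    have hGQ : (M : ℚ) = 4 * G := by rw [hG]; push_cast; ring
    obtain ⟨q', hrej, hq'⟩ := hfat (fun k => round (z k / 4)) (by
      intro k
      have h1 := hq1 k
      have h2 := hzb k
      have h3 : |(4 * (round (z k / 4) : ℤ) : ℚ)| ≤ M - 5 := by
        have := abs_sub_abs_le_abs_sub (4 * (round (z k / 4) : ℤ) : ℚ) (z k)
        rw [abs_sub_comm] at this
        linarith
      rw [hGQ, abs_mul] at h3
      norm_num at h3
      have h4 : |((round (z k / 4) : ℤ) : ℚ)| ≤ G - 1 := by linarith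
      have h5 : |(round (z k / 4) : ℤ)| ≤ (G : ℤ) - 1 := by exact_mod_cast h4
      exact h5)
    have hq'2 : ∀ k, |q' k - round (z k / 4)| ≤ 1 := by
      intro k
      rcases hq' with rfl | ⟨i, rfl | rfl⟩
      · simp
      · simp only [Pi.add_apply, Pi.single_apply, add_sub_cancel_left]
        split_ifs <;> simp
      · simp only [Pi.sub_apply, Pi.single_apply]
        split_ifs <;> simp
    have hq'G : ∀ k, |q' k| ≤ (G : ℤ) := by
      intro k
      have h1 := hq'2 k
      have h2 := hq1 k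
      have h3 := hzb k
      have h4 : |((q' k : ℤ) : ℚ) - (round (z k / 4) : ℤ)| ≤ 1 := by exact_mod_cast h1
      have h5 : |((q' k : ℤ) : ℚ)| ≤ G := by
        rw [abs_le] at h2 h4 ⊢
        have h6 := abs_le.1 (show |z k| ≤ M - 7 by linarith)
        constructor <;> linarith [h2.1, h2.2, h4.1, h4.2, h6.1, h6.2]
      exact_mod_cast h5
    -- the contradiction
    have hfin := hconv (fun k => (η q' k : ℚ)) (∑ k, |(η q' k : ℚ)| - 1 +
        ∑ k, (η q' k : ℚ) * (4 * q' k)) (by
      intro s hs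
      have h1 := ((hS s).1 hs).2 q' hq'G hrej
      have h2 : ∑ i, η q' i * (s i - 4 * q' i) + 1 ≤ ∑ i, |η q' i| := h1
      have h3 : ∑ i, (η q' i : ℚ) * ((s i : ℚ) - 4 * q' i) + 1 ≤ ∑ i, |(η q' i : ℚ)| := by
        exact_mod_cast h2
      have h4 : ∑ i, (η q' i : ℚ) * ((s i : ℚ) - 4 * q' i) =
          ∑ i, (η q' i : ℚ) * (s i : ℚ) - ∑ k, (η q' k : ℚ) * (4 * q' k) := by
        rw [← Finset.sum_sub_distrib]
        exact Finset.sum_congr rfl fun i _ => by ring
      rw [h4] at h3
      linarith) (fun k => 4 * q' k + SignType.sign (η q' k)) (by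
      intro k
      have h1 := hq'2 k
      have h2 := hq1 k
      have h4 : |((q' k : ℤ) : ℚ) - (round (z k / 4) : ℤ)| ≤ 1 := by exact_mod_cast h1
      have h5 : |((SignType.sign (η q' k) : ℤ) : ℚ)| ≤ 1 := by
        rcases lt_trichotomy (η q' k) 0 with h | h | h
        · simp [sign_neg h]
        · simp [h]
        · simp [sign_pos h]
      have e : ((4 * q' k + SignType.sign (η q' k) : ℤ) : ℚ) =
          4 * (q' k : ℚ) + ((SignType.sign (η q' k) : ℤ) : ℚ) := by push_cast; ring
      rw [abs_le] at h2 h4 h5 ⊢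
      constructor
      · have := h2.1; have := h2.2; have := h4.1; have := h4.2; have := h5.1; have := h5.2
        push_cast at *
        linarith
      · have := h2.1; have := h2.2; have := h4.1; have := h4.2; have := h5.1; have := h5.2
        push_cast at *
        linarith)
    have hfin2 : ∑ k, (η q' k : ℚ) * (4 * (q' k : ℚ) + ((SignType.sign (η q' k) : ℤ) : ℚ)) =
        ∑ k, |(η q' k : ℚ)| + ∑ k, (η q' k : ℚ) * (4 * q' k) := by
      rw [← Finset.sum_add_distrib]
      refine Finset.sum_congr rfl fun k _ => ?_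
      rcases lt_trichotomy (η q' k) 0 with h | h | h
      · rw [sign_neg h]
        have : ((η q' k : ℤ) : ℚ) < 0 := by exact_mod_cast h
        rw [abs_of_neg this]
        simp
        ring
      · simp [h]
      · rw [sign_pos h]
        have : (0 : ℚ) < ((η q' k : ℤ) : ℚ) := by exact_mod_cast h
        rw [abs_of_pos this]
        simp
        ring
    push_cast at hfin hfin2
    linarith

end Run7.h960
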