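import Pool.Agent.Run7.h960.Grid
import Pool.Agent.Run7.h960.Slab
import Pool.Agent.Run7.h960.Reb

set_option autoImplicit false

/-!
# Preparations for the specification of a shrinking step
-/

namespace Run7.h960

open Pool.Agent.NPC
open Pool.Agent.H687R2.LLL (dot nrm lllStep cnt fsts gsr)

theorem getD_zipWith' {α β γ : Type*} (f : α → β → γ) {u : List α} {v : List β} {k : ℕ}
    (hu : k < u.length) (hv : k < v.length) (d1 : α) (d2 : β) (d3 : γ) :
    (List.zipWith f u v).getD k d3 = f (u.getD k d1) (v.getD k d2) := by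
  rw [List.getD_eq_getElem _ _ (by simp [hu, hv]), List.getD_eq_getElem _ _ hu,
    List.getD_eq_getElem _ _ hv, List.getElem_zipWith]

/-- coordinatewise product -/
def sc (p : Vec) (l : List ℕ) : Vec := List.zipWith (fun (x : ℤ) (m : ℕ) => x * (m : ℤ)) p l

theorem length_sc {p : Vec} {l : List ℕ} (h : p.length = l.length) : (sc p l).length = l.length := by
  simp [sc, h]

theorem getD_sc {p : Vec} {l : List ℕ} {k : ℕ} (hp : k < p.length) (hl : k < l.length) :
    (sc p l).getD k 0 = p.getD k 0 * (l.getD k 0 : ℤ) :=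
  getD_zipWith' _ hp hl 0 0 0

theorem dot_lin_sum {g x0 : Vec} {vs : List Vec} {y : Vec} (hg : g.length = x0.length)
    (hvs : ∀ v ∈ vs, v.length = x0.length) :
    dot g (lin x0 vs y) = dot g x0 +
      ∑ k ∈ Finset.range vs.length, y.getD k 0 * dot g (vs.getD k []) := by
  rw [dot_lin hg hvs, dot_eq_sum (u := y) (N := vs.length) (Or.inr (by simp))]
  congr 1
  refine Finset.sum_congr rfl fun k hk => ?_
  have hk' : k < vs.length := Finset.mem_range.1 hk
  rw [List.getD_eq_getElem (vs.map _) _ (by simpa using hk'), List.getElem_map,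
    List.getD_eq_getElem vs _ hk']

/-- Relations between the half widths and the step lengths. -/
structure LD (M : ℕ) (s : Box) (l : List ℕ) : Prop where
  pos : 0 < M
  len : l.length = s.2.length
  lo : ∀ k < s.2.length, M * l.getD k 0 ≤ (bns s).getD k 0
  hi : ∀ k < s.2.length, (bns s).getD k 0 < (M + 1) * l.getD k 0
  big : ∀ k < s.2.length, 2 * M ≤ l.getD k 0

theorem ld_of {M : ℕ} {s : Box} (hM : 0 < M) (hw : ∀ p ∈ s.2, 2 * M ^ 2 ≤ p.2) :
    LD M s ((bns s).map fun m => m / M) := by
  have e : ∀ k < s.2.length, ((bns s).map fun m => m / M).getD k 0 = (bns s).getD k 0 / M := by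
    intro k hk
    rw [List.getD_eq_getElem _ _ (by simpa using hk), List.getElem_map,
      List.getD_eq_getElem _ _ (by simpa using hk)]
  have hbig : ∀ k < s.2.length, 2 * M ^ 2 ≤ (bns s).getD k 0 := by
    intro k hk
    rw [getD_bns, List.getD_eq_getElem _ _ hk]
    exact hw _ (List.getElem_mem _)
  have hb : ∀ k < s.2.length, 2 * M ≤ (bns s).getD k 0 / M := by
    intro k hk
    rw [Nat.le_div_iff_mul_le hM]
    refine le_trans (le_of_eq ?_) (hbig k hk)
    ring
  refine ⟨hM, by simp, ?_, ?_, ?_⟩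
  · intro k hk
    rw [e k hk]
    exact Nat.mul_div_le _ _
  · intro k hk
    rw [e k hk]
    have h1 := Nat.lt_div_mul_add hM (a := (bns s).getD k 0)
    have h2 := hb k hk
    nlinarith
  · intro k hk
    rw [e k hk]
    exact hb k hk

theorem LD.l_pos {M : ℕ} {s : Box} {l : List ℕ} (h : LD M s l) {k : ℕ} (hk : k < s.2.length) :
    0 < l.getD k 0 := by
  have := h.big k hk
  have := h.pos
  omega

@[simp] theorem length_ptS (s : Box) (l : List ℕ) (p : Vec) : (ptS s l p).length = s.1.length := by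
  simp [ptS]

theorem dot_ptS {n : ℕ} {s : Box} {l : List ℕ} {p g : Vec} (hwf : WF n s) (hl : l.length = s.2.length)
    (hp : p.length = s.2.length) (hg : g.length = n) :
    dot g (ptS s l p) = dot g s.1 + ∑ k ∈ Finset.range s.2.length,
      p.getD k 0 * (l.getD k 0 : ℤ) * dot g ((bvs s).getD k []) := by
  unfold ptS
  rw [dot_lin_sum (by rw [hg, hwf.1]) (fun v hv => by rw [hwf.bvs_len v hv, hwf.1]), length_bvs]
  congr 1
  refine Finset.sum_congr rfl fun k hk => ?_
  have hk' := Finset.mem_range.1 hk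
  congr 1
  exact getD_sc (by omega) (by omega)

theorem nrm_ptS_le {M : ℕ} {s : Box} {l : List ℕ} {p : Vec} (h : LD M s l)
    (hp : p.length = s.2.length) (hpM : ∀ k < s.2.length, (p.getD k 0).natAbs ≤ M) :
    nrm (ptS s l p) ≤ nrm s.1 + ∑ k ∈ Finset.range s.2.length,
      (bns s).getD k 0 * nrm ((bvs s).getD k []) := by
  unfold ptS
  refine (nrm_lin_le _ _ _).trans (Nat.add_le_add_left ?_ _)
  rw [length_bvs]
  refine Finset.sum_le_sum fun k hk => ?_
  have hk' := Finset.mem_range.1 hk
  apply Nat.mul_le_mul_right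
  have e : (List.zipWith (fun (x : ℤ) (m : ℕ) => x * (m : ℤ)) p l).getD k 0 =
      p.getD k 0 * (l.getD k 0 : ℤ) := getD_sc (by omega) (by rw [h.len]; exact hk')
  rw [e, Int.natAbs_mul, Int.natAbs_natCast]
  exact (Nat.mul_le_mul_right _ (hpM k hk')).trans (h.lo k hk')

/-- A bound for the centre in terms of `ext`. -/
theorem sum_le_ext (s : Box) : nrm s.1 + ∑ k ∈ Finset.range s.2.length,
      (bns s).getD k 0 * nrm ((bvs s).getD k []) ≤ ext s := by
  rw [ext_eq]
  refine Nat.add_le_add_left (Finset.sum_le_sum fun k _ => ?_) _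
  exact Nat.mul_le_mul (Nat.le_succ _) (Nat.le_succ _)

/-- `four` -/
theorem getD_four (q : Vec) (k : ℕ) : (four q).getD k 0 = 4 * q.getD k 0 := by
  unfold four
  rcases Nat.lt_or_ge k q.length with h | h
  · rw [List.getD_eq_getElem _ _ (by simpa using h), List.getD_eq_getElem _ _ h]; simp
  · rw [List.getD_eq_default _ _ (by simpa using h), List.getD_eq_default _ _ h]; simp

@[simp] theorem length_four (q : Vec) : (four q).length = q.length := by simp [four]

@[simp] theorem length_bump (q : Vec) (k : ℕ) (s : ℤ) : (bump q k s).length = q.length := by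
  simp [bump]

theorem getD_bump {q : Vec} {k i : ℕ} {s : ℤ} (hi : i < q.length) :
    (bump q k s).getD i 0 = q.getD i 0 + if i = k then s else 0 := by
  unfold bump
  rw [getD_map_range, if_pos hi]
  by_cases h : i = k <;> simp [h]

theorem getD_mem_or {v : Vec} {P : ℤ → Prop} (h : ∀ x ∈ v, P x) {k : ℕ} (hk : k < v.length) :
    P (v.getD k 0) := by
  rw [List.getD_eq_getElem _ _ hk]
  exact h _ (List.getElem_mem _)

/-! ### the fat case -/

/-- A fat centre is central. -/
theorem fat_central {M n D : ℕ} {T : Set Vec} {s : Box} {l : List ℕ} (h : LD M s l)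
    (hwf : WF n s) (h0 : 0 < s.2.length) (hD : s.2.length ≤ D) {p : Vec}
    (hp : p.length = s.2.length) (hpM : ∀ k < s.2.length, (p.getD k 0).natAbs ≤ M)
    (h1 : ∀ k < s.2.length, ∀ e : ℤ, (e = 4 ∨ e = -4) → ptS s l (bump p k e) ∈ T)
    {x : Vec} (hx : InBox s x) : Central n (D * M) T (ptS s l p) x := by
  intro g t hg ht
  obtain ⟨y, hy1, hy2, rfl⟩ := hx
  have hl := h.len
  set A := dot g (ptS s l p) - t with hA
  -- the functional on the basis vectors
  have hb : ∀ k < s.2.length, 4 * (l.getD k 0 : ℤ) * |dot g ((bvs s).getD k [])| ≤ A := by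
    intro k hk
    have key : ∀ e : ℤ, dot g (ptS s l (bump p k e)) =
        dot g (ptS s l p) + e * ((l.getD k 0 : ℤ) * dot g ((bvs s).getD k [])) := by
      intro e
      rw [dot_ptS hwf hl (by simpa using hp) hg, dot_ptS hwf hl hp hg, add_assoc]
      congr 1
      have : ∀ i ∈ Finset.range s.2.length, (bump p k e).getD i 0 * (l.getD i 0 : ℤ) *
          dot g ((bvs s).getD i []) = p.getD i 0 * (l.getD i 0 : ℤ) * dot g ((bvs s).getD i []) +
          if i = k then e * ((l.getD i 0 : ℤ) * dot g ((bvs s).getD i [])) else 0 := by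
        intro i hi
        rw [getD_bump (by rw [hp]; exact Finset.mem_range.1 hi)]
        split_ifs <;> ring
      rw [Finset.sum_congr rfl this, Finset.sum_add_distrib, Finset.sum_ite_eq',
        if_pos (Finset.mem_range.2 hk)]
    have h2 := ht _ (h1 k hk 4 (Or.inl rfl))
    have h3 := ht _ (h1 k hk (-4) (Or.inr rfl))
    rw [key] at h2 h3
    have hlk : (0 : ℤ) < (l.getD k 0 : ℤ) := by exact_mod_cast h.l_pos hk
    rcases abs_cases (dot g ((bvs s).getD k [])) with ⟨h4, _⟩ | ⟨h4, _⟩
    · rw [h4, hA]; nlinarith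
    · rw [h4, hA]; nlinarith
  -- the difference
  have h2 : dot g (lin s.1 (bvs s) y) - dot g (ptS s l p) =
      ∑ k ∈ Finset.range s.2.length, (y.getD k 0 - p.getD k 0 * (l.getD k 0 : ℤ)) *
        dot g ((bvs s).getD k []) := by
    rw [dot_ptS hwf hl hp hg, dot_lin_sum (by rw [hg, hwf.1])
      (fun v hv => by rw [hwf.bvs_len v hv, hwf.1]), length_bvs, add_sub_add_left_eq_sub,
      ← Finset.sum_sub_distrib]
    exact Finset.sum_congr rfl fun k _ => by ring
  have h3 : ∀ k ∈ Finset.range s.2.length, 4 * ((y.getD k 0 - p.getD k 0 * (l.getD k 0 : ℤ)) *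
        dot g ((bvs s).getD k [])) ≤ (2 * M + 1) * A := by
    intro k hk
    have hk' := Finset.mem_range.1 hk
    have e1 : |y.getD k 0 - p.getD k 0 * (l.getD k 0 : ℤ)| ≤ (2 * M + 1) * (l.getD k 0 : ℤ) := by
      have e2 := hy2 k hk'
      have e3 := hpM k hk'
      have e4 := h.hi k hk'
      have e5 : |y.getD k 0| ≤ (M + 1) * (l.getD k 0 : ℤ) := by
        rw [Int.abs_eq_natAbs]
        have : (y.getD k 0).natAbs ≤ (M + 1) * l.getD k 0 := e2.trans e4.le
        exact_mod_cast this
      have e6 : |p.getD k 0 * (l.getD k 0 : ℤ)| ≤ M * (l.getD k 0 : ℤ) := by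
        rw [abs_mul, Nat.abs_cast]
        apply mul_le_mul_of_nonneg_right _ (by positivity)
        rw [Int.abs_eq_natAbs]
        exact_mod_cast e3
      calc |y.getD k 0 - p.getD k 0 * (l.getD k 0 : ℤ)| ≤ |y.getD k 0| +
            |p.getD k 0 * (l.getD k 0 : ℤ)| := abs_sub _ _
        _ ≤ (M + 1) * (l.getD k 0 : ℤ) + M * (l.getD k 0 : ℤ) := add_le_add e5 e6
        _ = (2 * M + 1) * (l.getD k 0 : ℤ) := by ring
    calc 4 * ((y.getD k 0 - p.getD k 0 * (l.getD k 0 : ℤ)) * dot g ((bvs s).getD k []))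
        ≤ 4 * |(y.getD k 0 - p.getD k 0 * (l.getD k 0 : ℤ)) * dot g ((bvs s).getD k [])| := by
          have := le_abs_self ((y.getD k 0 - p.getD k 0 * (l.getD k 0 : ℤ)) *
            dot g ((bvs s).getD k []))
          linarith
      _ = 4 * (|y.getD k 0 - p.getD k 0 * (l.getD k 0 : ℤ)| * |dot g ((bvs s).getD k [])|) := by
          rw [abs_mul]
      _ ≤ 4 * ((2 * M + 1) * (l.getD k 0 : ℤ) * |dot g ((bvs s).getD k [])|) := by
          have := mul_le_mul_of_nonneg_right e1 (abs_nonneg (dot g ((bvs s).getD k [])))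
          linarith
      _ = (2 * M + 1) * (4 * (l.getD k 0 : ℤ) * |dot g ((bvs s).getD k [])|) := by ring
      _ ≤ (2 * M + 1) * A := mul_le_mul_of_nonneg_left (hb k hk') (by positivity)
  have h4 : 4 * (dot g (lin s.1 (bvs s) y) - dot g (ptS s l p)) ≤
      s.2.length * ((2 * M + 1) * A) := by
    rw [h2, Finset.mul_sum]
    refine (Finset.sum_le_sum h3).trans (le_of_eq ?_)
    simp
  have hA1 : 0 ≤ A := by
    have h5 := hb 0 h0
    have : 0 ≤ 4 * (l.getD 0 0 : ℤ) * |dot g ((bvs s).getD 0 [])| := by positivity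
    linarith
  have h6 : (s.2.length : ℤ) * ((2 * M + 1) * A) ≤ 4 * (((D * M : ℕ) : ℤ) * A) := by
    have h7 : (s.2.length : ℤ) * (2 * M + 1) ≤ 4 * (D * M) := by
      have e1 : s.2.length * (2 * M + 1) ≤ D * (4 * M) :=
        Nat.mul_le_mul hD (by have := h.pos; omega)
      have e2 : ((s.2.length * (2 * M + 1) : ℕ) : ℤ) ≤ ((D * (4 * M) : ℕ) : ℤ) := by
        exact_mod_cast e1
      push_cast at e2
      linarith
    push_cast
    nlinarith
  have h8 : dot g (lin s.1 (bvs s) y) - t = (dot g (lin s.1 (bvs s) y) - dot g (ptS s l p)) + A := by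
    rw [hA]; ring
  rw [h8]
  linarith

/-- The translates of the centre. -/
theorem lin_ptS {M : ℕ} {s : Box} {l : List ℕ} (h : LD M s l) {p : Vec}
    (hp : p.length = s.2.length) {k : ℕ} (hk : k < s.2.length) (e : ℤ) :
    lin (ptS s l p) [(bvs s).getD k []] [e * (l.getD k 0 : ℤ)] = ptS s l (bump p k e) := by
  refine vec_ext (by simp) fun i hi => ?_
  have hi' : i < s.1.length := by simpa using hi
  rw [getD_lin_sum (by simpa using hi')]
  unfold ptS
  rw [getD_lin_sum hi', getD_lin_sum hi', length_bvs, add_assoc]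
  congr 1
  simp only [List.length_singleton, Finset.range_one, Finset.sum_singleton, List.getD_cons_zero]
  have hz : ∀ (u : Vec), u.length = s.2.length → ∀ m ∈ Finset.range s.2.length,
      (List.zipWith (fun (x : ℤ) (m : ℕ) => x * (m : ℤ)) u l).getD m 0 =
        u.getD m 0 * (l.getD m 0 : ℤ) := by
    intro u hu m hm
    have hm' := Finset.mem_range.1 hm
    exact getD_sc (by omega) (by rw [h.len]; exact hm')
  have h1 : ∀ m ∈ Finset.range s.2.length,
      (List.zipWith (fun (x : ℤ) (m : ℕ) => x * (m : ℤ)) (bump p k e) l).getD m 0 *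
        ((bvs s).getD m []).getD i 0 =
      (List.zipWith (fun (x : ℤ) (m : ℕ) => x * (m : ℤ)) p l).getD m 0 *
        ((bvs s).getD m []).getD i 0 +
        if m = k then e * (l.getD m 0 : ℤ) * ((bvs s).getD m []).getD i 0 else 0 := by
    intro m hm
    rw [hz _ (by simpa using hp) m hm, hz p hp m hm,
      getD_bump (by rw [hp]; exact Finset.mem_range.1 hm)]
    split_ifs <;> ring
  rw [Finset.sum_congr rfl h1, Finset.sum_add_distrib, Finset.sum_ite_eq',
    if_pos (Finset.mem_range.2 hk)]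

/-! ### rounding -/

/-- coordinatewise quotient, rounded towards zero -/
def rdv (n : ℕ) (y : Vec) (l : List ℕ) : Vec :=
  (List.range n).map fun k => (y.getD k 0).tdiv (l.getD k 0 : ℤ)

@[simp] theorem length_rdv (n : ℕ) (y : Vec) (l : List ℕ) : (rdv n y l).length = n := by
  simp [rdv]

theorem getD_rdv {n k : ℕ} {y : Vec} {l : List ℕ} (hk : k < n) :
    (rdv n y l).getD k 0 = (y.getD k 0).tdiv (l.getD k 0 : ℤ) := by
  rw [rdv, getD_map_range, if_pos hk]

theorem rdv_le {M : ℕ} {s : Box} {l : List ℕ} (h : LD M s l) {y : Vec}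
    (hy : ∀ k < s.2.length, (y.getD k 0).natAbs ≤ (bns s).getD k 0) {k : ℕ}
    (hk : k < s.2.length) : ((rdv s.2.length y l).getD k 0).natAbs ≤ M := by
  rw [getD_rdv hk, Int.natAbs_tdiv, Int.natAbs_natCast]
  have h1 := (hy k hk).trans_lt (h.hi k hk)
  have h2 : (y.getD k 0).natAbs / l.getD k 0 < M + 1 := Nat.div_lt_of_lt_mul (by
    rw [mul_comm]; exact h1)
  show (y.getD k 0).natAbs / l.getD k 0 ≤ M
  omega

theorem sub_rdv_lt {M : ℕ} {s : Box} {l : List ℕ} (h : LD M s l) (y : Vec) {k : ℕ}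
    (hk : k < s.2.length) :
    |y.getD k 0 - (rdv s.2.length y l).getD k 0 * (l.getD k 0 : ℤ)| < (l.getD k 0 : ℤ) := by
  rw [getD_rdv hk]
  have h1 := Int.tmod_add_tdiv_mul (y.getD k 0) (l.getD k 0 : ℤ)
  have h2 : y.getD k 0 - (y.getD k 0).tdiv (l.getD k 0 : ℤ) * (l.getD k 0 : ℤ) =
      (y.getD k 0).tmod (l.getD k 0 : ℤ) := by linarith
  rw [h2, Int.abs_eq_natAbs, Int.natAbs_tmod, Int.natAbs_natCast]
  have h3 := Nat.mod_lt (y.getD k 0).natAbs (h.l_pos hk)
  exact_mod_cast h3

/-! ### the cuts -/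

theorem getD_eta {s : Box} {l : List ℕ} {h : Vec} {k : ℕ} (hk : k < s.2.length)
    (hl : l.length = s.2.length) :
    (eta s l h).getD k 0 = (l.getD k 0 : ℤ) * dot h ((bvs s).getD k []) := by
  unfold eta
  exact getD_zipWith' _ (by simpa using hk) (by omega) [] 0 0

theorem length_eta {s : Box} {l : List ℕ} {h : Vec} (hl : l.length = s.2.length) :
    (eta s l h).length = s.2.length := by
  simp [eta, hl]

theorem getD_vsub {u v : Vec} {k : ℕ} (hu : k < u.length) (hv : k < v.length) :
    (vsub u v).getD k 0 = u.getD k 0 - v.getD k 0 := by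
  unfold vsub
  exact getD_zipWith' _ hu hv 0 0 0

@[simp] theorem length_vsub (u v : Vec) : (vsub u v).length = min u.length v.length := by
  simp [vsub]

theorem dot_eta {s : Box} {l : List ℕ} {h p q : Vec} (hl : l.length = s.2.length)
    (hp : p.length = s.2.length) (hq : q.length = s.2.length) :
    dot (eta s l h) (vsub p (four q)) = ∑ k ∈ Finset.range s.2.length,
      (l.getD k 0 : ℤ) * dot h ((bvs s).getD k []) * (p.getD k 0 - 4 * q.getD k 0) := by
  rw [dot_eq_sum (N := s.2.length) (Or.inl (length_eta hl).le)]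
  refine Finset.sum_congr rfl fun k hk => ?_
  have hk' := Finset.mem_range.1 hk
  rw [getD_eta hk' hl, getD_vsub (by omega) (by simp; omega), getD_four]

theorem nrm_eta {s : Box} {l : List ℕ} {h : Vec} (hl : l.length = s.2.length) :
    ((nrm (eta s l h) : ℕ) : ℤ) = ∑ k ∈ Finset.range s.2.length,
      |(l.getD k 0 : ℤ) * dot h ((bvs s).getD k [])| := by
  rw [nrm_eq_sum (n := s.2.length) (length_eta hl).le]
  push_cast
  refine Finset.sum_congr rfl fun k hk => ?_
  rw [getD_eta (Finset.mem_range.1 hk) hl]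

/-- The rounding of a point of `T` respects all cuts. -/
theorem rdv_cut {M n : ℕ} {T : Set Vec} {orc : Vec → Option Vec} {s : Box} {l : List ℕ}
    (hv : ValidOrc n T orc) (hwf : WF n s) (hld : LD M s l) {y q h : Vec}
    (hx : lin s.1 (bvs s) y ∈ T) (hq : q.length = s.2.length)
    (ho : orc (ptS s l (four q)) = some h) :
    dot (eta s l h) (vsub (rdv s.2.length y l) (four q)) < (nrm (eta s l h) : ℤ) := by
  obtain ⟨hh, hlt⟩ := hv.rej _ h (by rw [length_ptS, hwf.1]) ho
  have h1 := hlt _ hx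
  have hl := hld.len
  rw [dot_ptS hwf hl (by simpa using hq) hh, dot_lin_sum (by rw [hh, hwf.1])
      (fun v hv => by rw [hwf.bvs_len v hv, hwf.1]), length_bvs] at h1
  rw [dot_eta hl (by simp) hq, nrm_eta hl]
  have h2 : ∑ k ∈ Finset.range s.2.length, y.getD k 0 * dot h ((bvs s).getD k []) <
      ∑ k ∈ Finset.range s.2.length, (four q).getD k 0 * (l.getD k 0 : ℤ) *
        dot h ((bvs s).getD k []) := by linarith
  have h3 : ∀ k ∈ Finset.range s.2.length,
      (l.getD k 0 : ℤ) * dot h ((bvs s).getD k []) *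
        ((rdv s.2.length y l).getD k 0 - 4 * q.getD k 0) ≤
      |(l.getD k 0 : ℤ) * dot h ((bvs s).getD k [])| +
        (y.getD k 0 * dot h ((bvs s).getD k []) -
          (four q).getD k 0 * (l.getD k 0 : ℤ) * dot h ((bvs s).getD k [])) := by
    intro k hk
    have hk' := Finset.mem_range.1 hk
    have e1 := sub_rdv_lt hld y hk'
    rw [getD_four]
    set w := dot h ((bvs s).getD k []) with hw
    set r := (rdv s.2.length y l).getD k 0
    set L : ℤ := (l.getD k 0 : ℤ)
    have e2 : (r * L - y.getD k 0) * w ≤ |L * w| := by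
      calc (r * L - y.getD k 0) * w ≤ |(r * L - y.getD k 0) * w| := le_abs_self _
        _ = |y.getD k 0 - r * L| * |w| := by rw [abs_mul, abs_sub_comm]
        _ ≤ L * |w| := mul_le_mul_of_nonneg_right e1.le (abs_nonneg _)
        _ = |L * w| := by
            rw [abs_mul, abs_of_nonneg (show 0 ≤ L by positivity)]
    nlinarith
  have h4 := Finset.sum_le_sum h3
  rw [Finset.sum_add_distrib, Finset.sum_sub_distrib] at h4
  linarith

end Run7.h960
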