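import Pool.Agent.Run7.h960.Defs

set_option autoImplicit false

/-!
# Huge four-way tables: reduction to the monoid decomposition problem (definitions)
-/

namespace Run7.h960

open Pool.Agent.NPC

/-- data of a layer type: `n_r` and the line sums `a^r`, `b^r`, `c^r` -/
abbrev TTyp : Type := ℕ × List (List ℕ) × List (List ℕ) × List (List ℕ)

/-- inputs: `(k, l, m)`, the list of all types, and the vertical line sums `w` -/
abbrev TInst : Type := (ℕ × ℕ × ℕ) × List TTyp × List (List (List ℕ))

/-- `k` -/
def dk (I : TInst) : ℕ := I.2.2.length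
/-- `l` -/
def dl (I : TInst) : ℕ := (I.2.2.headD []).length
/-- `m` -/
def dm (I : TInst) : ℕ := ((I.2.2.headD []).headD []).length
/-- `t` -/
def dt (I : TInst) : ℕ := I.2.1.length

/-- entries of a matrix -/
def at2 (A : List (List ℕ)) (i j : ℕ) : ℕ := (A.getD i []).getD j 0

/-- `∑ y - ∑ z_r f_r`, the first sum being over all coordinates in `g` -/
def rowT (I : TInst) (f : TTyp → ℕ) (g : ℕ → Bool) : Vec :=
  (I.2.1.map fun τ => -((f τ : ℕ) : ℤ)) ++
    (List.range (dk I * dl I * dm I)).map fun p => bif g p then 1 else 0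

/-- the equations of the line sums -/
def eqsT (I : TInst) : List Vec :=
  ((List.range (dl I)).flatMap fun j => (List.range (dm I)).map fun h =>
    rowT I (fun τ => at2 τ.2.1 j h)
      (fun p => decide (p / dm I % dl I = j) && decide (p % dm I = h))) ++
  ((List.range (dk I)).flatMap fun i => (List.range (dm I)).map fun h =>
    rowT I (fun τ => at2 τ.2.2.1 i h)
      (fun p => decide (p / dm I / dl I = i) && decide (p % dm I = h))) ++
  ((List.range (dk I)).flatMap fun i => (List.range (dl I)).map fun j =>
    rowT I (fun τ => at2 τ.2.2.2 i j)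
      (fun p => decide (p / dm I / dl I = i) && decide (p / dm I % dl I = j)))

/-- `∑ z_r` -/
def onesT (I : TInst) : Vec :=
  (I.2.1.map fun _ => (1 : ℤ)) ++ List.replicate (dk I * dl I * dm I) 0

/-- the instance of the monoid decomposition problem -/
def redT (I : TInst) : Inst :=
  ([(onesT I, (1 : ℤ)), (nneg (onesT I), (-1 : ℤ))] ++
    (eqsT I).flatMap fun v => [(v, (0 : ℤ)), (nneg v, (0 : ℤ))],
  (I.2.1.map fun τ => (τ.1 : ℤ)) ++
    (List.range (dk I * dl I * dm I)).map fun p : ℕ =>
      ((at2 (I.2.2.getD (p / dm I / dl I) []) (p / dm I % dl I) (p % dm I) : ℕ) : ℤ))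

end Run7.h960
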