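import Pool.Agent.Run7.h960.TabDefs
import Pool.Agent.Run7.h960.Basic

set_option autoImplicit false

/-!
# Huge four-way tables: correctness of the reduction
-/

namespace Run7.h960

open Pool.Agent.NPC

/-- a matrix as a list of lists -/
def mat {p q : ℕ} (A : Fin p → Fin q → ℕ) : List (List ℕ) :=
  List.ofFn fun i => List.ofFn fun j => A i j

/-- the input given by the numbers `n_r` and the arrays of line sums -/
def tabInput {k l m t : ℕ} (n : Fin t → ℕ) (a : Fin t → Fin l → Fin m → ℕ)
    (b : Fin t → Fin k → Fin m → ℕ) (c : Fin t → Fin k → Fin l → ℕ)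
    (w : Fin k → Fin l → Fin m → ℕ) : TInst :=
  ((k, l, m), (List.ofFn fun r => (n r, mat (a r), mat (b r), mat (c r))),
    List.ofFn fun i => mat (w i))

/-- existence of a table: the layers are indexed by pairs `(r, s)`, `s < n_r`, and the layer `(r, s)`
has type `r` -/
def HasTable {k l m t : ℕ} (n : Fin t → ℕ) (a : Fin t → Fin l → Fin m → ℕ)
    (b : Fin t → Fin k → Fin m → ℕ) (c : Fin t → Fin k → Fin l → ℕ)
    (w : Fin k → Fin l → Fin m → ℕ) : Prop :=
  ∃ x : (Σ r : Fin t, Fin (n r)) → Fin k → Fin l → Fin m → ℕ,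
    (∀ s, (∀ j h, ∑ i, x s i j h = a s.1 j h) ∧ (∀ i h, ∑ j, x s i j h = b s.1 i h) ∧
      (∀ i j, ∑ h, x s i j h = c s.1 i j)) ∧
    ∀ i j h, ∑ s, x s i j h = w i j h

/-! ### sums -/

theorem sum_range_mul' (G : ℕ → ℤ) (a b : ℕ) : ∑ q ∈ Finset.range (a * b), G q =
    ∑ i ∈ Finset.range a, ∑ j ∈ Finset.range b, G (i * b + j) := by
  induction a with
  | zero => simp
  | succ a ih => rw [Nat.succ_mul, Finset.sum_range_add, ih, Finset.sum_range_succ]

theorem sum3 (F : ℕ → ℕ → ℕ → ℤ) (k l m : ℕ) :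
    ∑ q ∈ Finset.range (k * l * m), F (q / m / l) (q / m % l) (q % m) =
      ∑ i ∈ Finset.range k, ∑ j ∈ Finset.range l, ∑ h ∈ Finset.range m, F i j h := by
  rw [sum_range_mul']
  have h1 : ∀ u ∈ Finset.range (k * l), ∑ h ∈ Finset.range m,
      F ((u * m + h) / m / l) ((u * m + h) / m % l) ((u * m + h) % m) =
      (fun u => ∑ h ∈ Finset.range m, F (u / l) (u % l) h) u := by
    intro u _
    refine Finset.sum_congr rfl fun h hh => ?_
    have hh' := Finset.mem_range.1 hh
    have e1 : (u * m + h) / m = u := by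
      rw [Nat.mul_comm, Nat.mul_add_div (by omega), Nat.div_eq_of_lt hh', Nat.add_zero]
    have e2 : (u * m + h) % m = h := by
      rw [Nat.mul_comm, Nat.mul_add_mod, Nat.mod_eq_of_lt hh']
    rw [e1, e2]
  rw [Finset.sum_congr rfl h1, sum_range_mul']
  refine Finset.sum_congr rfl fun i _ => Finset.sum_congr rfl fun j hj => ?_
  have hj' := Finset.mem_range.1 hj
  have e1 : (i * l + j) / l = i := by
    rw [Nat.mul_comm, Nat.mul_add_div (by omega), Nat.div_eq_of_lt hj', Nat.add_zero]
  have e2 : (i * l + j) % l = j := by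
    rw [Nat.mul_comm, Nat.mul_add_mod, Nat.mod_eq_of_lt hj']
  simp only [e1, e2]

theorem idx_eq {l m q : ℕ} : (q / m / l * l + q / m % l) * m + q % m = q := by
  rw [Nat.div_add_mod' (q / m) l, Nat.div_add_mod' q m]

/-! ### entries -/

theorem tab_getD_ofFn {α : Type} {n : ℕ} (f : Fin n → α) (i : ℕ) (d : α) :
    (List.ofFn f).getD i d = if h : i < n then f ⟨i, h⟩ else d := by
  split_ifs with h
  · rw [List.getD_eq_getElem _ _ (by simpa using h)]
    simp
  · rw [List.getD_eq_default _ _ (by simpa using h)]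

theorem at2_mat {p q : ℕ} (A : Fin p → Fin q → ℕ) (i : Fin p) (j : Fin q) :
    at2 (mat A) i j = A i j := by
  unfold at2 mat
  rw [tab_getD_ofFn, dif_pos i.2, tab_getD_ofFn, dif_pos j.2]

section Red

variable {k l m t : ℕ} {n : Fin t → ℕ} {a : Fin t → Fin l → Fin m → ℕ}
  {b : Fin t → Fin k → Fin m → ℕ} {c : Fin t → Fin k → Fin l → ℕ}
  {w : Fin k → Fin l → Fin m → ℕ}

theorem dk_tab : dk (tabInput n a b c w) = k := by simp [dk, tabInput]

theorem dl_tab (hk : 0 < k) : dl (tabInput n a b c w) = l := by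
  obtain ⟨k, rfl⟩ : ∃ k', k = k' + 1 := ⟨k - 1, by omega⟩
  simp [dl, tabInput, mat, List.ofFn_succ]

theorem dm_tab (hk : 0 < k) (hl : 0 < l) : dm (tabInput n a b c w) = m := by
  obtain ⟨k, rfl⟩ : ∃ k', k = k' + 1 := ⟨k - 1, by omega⟩
  obtain ⟨l, rfl⟩ : ∃ l', l = l' + 1 := ⟨l - 1, by omega⟩
  simp [dm, tabInput, mat, List.ofFn_succ]

theorem dt_tab : dt (tabInput n a b c w) = t := by simp [dt, tabInput]


theorem getD_types (r : Fin t) : (tabInput n a b c w).2.1.getD r (0, [], [], []) =
    (n r, mat (a r), mat (b r), mat (c r)) := by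
  unfold tabInput
  simp only
  rw [tab_getD_ofFn, dif_pos r.2]

end Red

/-! ### rows -/

/-- the value of a row on a function -/
def rval (D : ℕ) (v : Vec) (Z : ℕ → ℤ) : ℤ := ∑ i : Fin D, v.getD i 0 * Z i

theorem rval_nneg (D : ℕ) (v : Vec) (Z : ℕ → ℤ) : rval D (nneg v) Z = -rval D v Z := by
  unfold rval
  rw [← Finset.sum_neg_distrib]
  exact Finset.sum_congr rfl fun i _ => by rw [getD_nneg]; ring

theorem rval_eq (D : ℕ) (v : Vec) (Z : ℕ → ℤ) :
    rval D v Z = ∑ p ∈ Finset.range D, v.getD p 0 * Z p := by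
  unfold rval
  rw [Finset.sum_range]

theorem getD_rowT_left (I : TInst) (f : TTyp → ℕ) (g : ℕ → Bool) {p : ℕ} (h : p < dt I) :
    (rowT I f g).getD p 0 = -((f (I.2.1.getD p (0, [], [], [])) : ℕ) : ℤ) := by
  unfold rowT
  have h' : p < I.2.1.length := h
  rw [List.getD_append _ _ _ _ (by simpa using h'), List.getD_eq_getElem _ _ (by simpa using h'),
    List.getElem_map, List.getD_eq_getElem _ _ h']

theorem getD_rowT_right (I : TInst) (f : TTyp → ℕ) (g : ℕ → Bool) {q : ℕ}
    (h : q < dk I * dl I * dm I) :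
    (rowT I f g).getD (dt I + q) 0 = bif g q then 1 else 0 := by
  unfold rowT
  have e : (I.2.1.map fun τ => -((f τ : ℕ) : ℤ)).length = dt I := by simp [dt]
  rw [List.getD_append_right _ _ _ _ (by rw [e]; omega), e, Nat.add_sub_cancel_left,
    getD_map_range, if_pos h]

theorem rval_rowT (I : TInst) (f : TTyp → ℕ) (g : ℕ → Bool) (Z : ℕ → ℤ) :
    rval (dt I + dk I * dl I * dm I) (rowT I f g) Z =
      -(∑ r ∈ Finset.range (dt I), (f (I.2.1.getD r (0, [], [], [])) : ℤ) * Z r) +
      ∑ q ∈ Finset.range (dk I * dl I * dm I), (bif g q then 1 else 0) * Z (dt I + q) := by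
  rw [rval_eq, Finset.sum_range_add, ← Finset.sum_neg_distrib]
  congr 1
  · refine Finset.sum_congr rfl fun r hr => ?_
    rw [getD_rowT_left _ _ _ (Finset.mem_range.1 hr)]; ring
  · refine Finset.sum_congr rfl fun q hq => ?_
    rw [getD_rowT_right _ _ _ (Finset.mem_range.1 hq)]

theorem rval_onesT (I : TInst) (Z : ℕ → ℤ) :
    rval (dt I + dk I * dl I * dm I) (onesT I) Z = ∑ r ∈ Finset.range (dt I), Z r := by
  rw [rval_eq, Finset.sum_range_add]
  have e : (I.2.1.map fun _ => (1 : ℤ)).length = dt I := by simp [dt]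
  have h1 : ∑ q ∈ Finset.range (dk I * dl I * dm I),
      (onesT I).getD (dt I + q) 0 * Z (dt I + q) = 0 := by
    refine Finset.sum_eq_zero fun q hq => ?_
    unfold onesT
    rw [List.getD_append_right _ _ _ _ (by rw [e]; omega), e, Nat.add_sub_cancel_left,
      List.getD_replicate]
    · ring
    · exact Finset.mem_range.1 hq
  rw [h1, add_zero]
  refine Finset.sum_congr rfl fun r hr => ?_
  have hr' : r < I.2.1.length := Finset.mem_range.1 hr
  unfold onesT
  rw [List.getD_append _ _ _ _ (by simpa using hr'), List.getD_eq_getElem _ _ (by simpa using hr'),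
    List.getElem_map, one_mul]

theorem sum_box (k l m : ℕ) (g : ℕ → ℕ → ℕ → Bool) (o : ℕ) (Z : ℕ → ℤ) :
    ∑ q ∈ Finset.range (k * l * m), (bif g (q / m / l) (q / m % l) (q % m) then 1 else 0) *
      Z (o + q) = ∑ i ∈ Finset.range k, ∑ j ∈ Finset.range l, ∑ h ∈ Finset.range m,
        (bif g i j h then 1 else 0) * Z (o + ((i * l + j) * m + h)) := by
  rw [← sum3 (fun i j h => (bif g i j h then 1 else 0) * Z (o + ((i * l + j) * m + h)))]
  refine Finset.sum_congr rfl fun q _ => ?_
  rw [idx_eq]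

/-- the linear system of a layer with multiplicities `Z r` of the types -/
structure LSys {k l m t : ℕ} (a : Fin t → Fin l → Fin m → ℕ)
    (b : Fin t → Fin k → Fin m → ℕ) (c : Fin t → Fin k → Fin l → ℕ) (Z : ℕ → ℤ) : Prop where
  one : ∑ r : Fin t, Z r = 1
  a : ∀ (j : Fin l) (h : Fin m), ∑ i : Fin k, Z (t + ((i * l + j) * m + h)) =
    ∑ r : Fin t, (a r j h : ℤ) * Z r
  b : ∀ (i : Fin k) (h : Fin m), ∑ j : Fin l, Z (t + ((i * l + j) * m + h)) =
    ∑ r : Fin t, (b r i h : ℤ) * Z r
  c : ∀ (i : Fin k) (j : Fin l), ∑ h : Fin m, Z (t + ((i * l + j) * m + h)) =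
    ∑ r : Fin t, (c r i j : ℤ) * Z r

section Sys

variable {k l m t : ℕ} {n : Fin t → ℕ} {a : Fin t → Fin l → Fin m → ℕ}
  {b : Fin t → Fin k → Fin m → ℕ} {c : Fin t → Fin k → Fin l → ℕ}
  {w : Fin k → Fin l → Fin m → ℕ}

theorem eqs_a (hk : 0 < k) (hl : 0 < l) (Z : ℕ → ℤ) (j : Fin l) (h : Fin m) :
    rval (t + k * l * m) (rowT (tabInput n a b c w) (fun τ => at2 τ.2.1 j h)
      (fun p => decide (p / m % l = j) && decide (p % m = h))) Z =
      -(∑ r : Fin t, (a r j h : ℤ) * Z r) + ∑ i : Fin k, Z (t + ((i * l + j) * m + h)) := by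
  have h1 := rval_rowT (tabInput n a b c w) (fun τ => at2 τ.2.1 j h)
      (fun p => decide (p / m % l = j) && decide (p % m = h)) Z
  rw [dt_tab, dk_tab, dl_tab hk, dm_tab hk hl] at h1
  rw [h1, sum_box k l m (fun _ j' h' => decide (j' = j) && decide (h' = h)), Finset.sum_range,
    Finset.sum_range]
  congr 1
  · congr 1
    refine Finset.sum_congr rfl fun r _ => ?_
    rw [getD_types]
    simp only [at2_mat]
  · refine Finset.sum_congr rfl fun i _ => ?_
    rw [Finset.sum_eq_single (j : ℕ), Finset.sum_eq_single (h : ℕ)]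
    · simp
    · intro h' _ hne; simp [hne]
    · intro hh; exact absurd (Finset.mem_range.2 h.2) hh
    · intro j' _ hne; simp [hne]
    · intro hh; exact absurd (Finset.mem_range.2 j.2) hh

theorem eqs_b (hk : 0 < k) (hl : 0 < l) (Z : ℕ → ℤ) (i : Fin k) (h : Fin m) :
    rval (t + k * l * m) (rowT (tabInput n a b c w) (fun τ => at2 τ.2.2.1 i h)
      (fun p => decide (p / m / l = i) && decide (p % m = h))) Z =
      -(∑ r : Fin t, (b r i h : ℤ) * Z r) + ∑ j : Fin l, Z (t + ((i * l + j) * m + h)) := by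
  have h1 := rval_rowT (tabInput n a b c w) (fun τ => at2 τ.2.2.1 i h)
      (fun p => decide (p / m / l = i) && decide (p % m = h)) Z
  rw [dt_tab, dk_tab, dl_tab hk, dm_tab hk hl] at h1
  rw [h1, sum_box k l m (fun i' _ h' => decide (i' = i) && decide (h' = h)), Finset.sum_range]
  congr 1
  · congr 1
    refine Finset.sum_congr rfl fun r _ => ?_
    rw [getD_types]
    simp only [at2_mat]
  · rw [Finset.sum_eq_single (i : ℕ), Finset.sum_range]
    · refine Finset.sum_congr rfl fun j _ => ?_
      rw [Finset.sum_eq_single (h : ℕ)]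
      · simp
      · intro h' _ hne; simp [hne]
      · intro hh; exact absurd (Finset.mem_range.2 h.2) hh
    · intro i' _ hne; simp [hne]
    · intro hh; exact absurd (Finset.mem_range.2 i.2) hh

theorem eqs_c (hk : 0 < k) (hl : 0 < l) (Z : ℕ → ℤ) (i : Fin k) (j : Fin l) :
    rval (t + k * l * m) (rowT (tabInput n a b c w) (fun τ => at2 τ.2.2.2 i j)
      (fun p => decide (p / m / l = i) && decide (p / m % l = j))) Z =
      -(∑ r : Fin t, (c r i j : ℤ) * Z r) + ∑ h : Fin m, Z (t + ((i * l + j) * m + h)) := by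
  have h1 := rval_rowT (tabInput n a b c w) (fun τ => at2 τ.2.2.2 i j)
      (fun p => decide (p / m / l = i) && decide (p / m % l = j)) Z
  rw [dt_tab, dk_tab, dl_tab hk, dm_tab hk hl] at h1
  rw [h1, sum_box k l m (fun i' j' _ => decide (i' = i) && decide (j' = j)), Finset.sum_range]
  congr 1
  · congr 1
    refine Finset.sum_congr rfl fun r _ => ?_
    rw [getD_types]
    simp only [at2_mat]
  · rw [Finset.sum_eq_single (i : ℕ), Finset.sum_eq_single (j : ℕ), Finset.sum_range]
    · simp
    · intro j' _ hne; simp [hne]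
    · intro hh; exact absurd (Finset.mem_range.2 j.2) hh
    · intro i' _ hne; simp [hne]
    · intro hh; exact absurd (Finset.mem_range.2 i.2) hh

theorem rows_iff (hk : 0 < k) (hl : 0 < l) (Z : ℕ → ℤ) :
    (∀ r ∈ (redT (tabInput n a b c w)).1, rval (t + k * l * m) r.1 Z ≤ r.2) ↔ LSys a b c Z := by
  have ho := rval_onesT (tabInput n a b c w) Z
  rw [dt_tab, dk_tab, dl_tab hk, dm_tab hk hl, Finset.sum_range] at ho
  constructor
  · intro hr
    have hv : ∀ v ∈ eqsT (tabInput n a b c w), rval (t + k * l * m) v Z = 0 := by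
      intro v hv
      have h1 := hr (v, 0) (by
        simp only [redT, List.mem_append, List.mem_flatMap]
        exact Or.inr ⟨v, hv, by simp⟩)
      have h2 := hr (nneg v, 0) (by
        simp only [redT, List.mem_append, List.mem_flatMap]
        exact Or.inr ⟨v, hv, by simp⟩)
      simp only [rval_nneg] at h1 h2
      omega
    refine ⟨?_, ?_, ?_, ?_⟩
    · have h1 := hr (onesT (tabInput n a b c w), 1) (by simp [redT])
      have h2 := hr (nneg (onesT (tabInput n a b c w)), -1) (by simp [redT])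
      simp only [rval_nneg] at h1 h2
      rw [ho] at h1 h2
      omega
    · intro j h
      have h1 := hv _ (by
        unfold eqsT
        rw [dk_tab, dl_tab hk, dm_tab hk hl, List.mem_append, List.mem_append]
        refine Or.inl (Or.inl ?_)
        rw [List.mem_flatMap]
        exact ⟨j, List.mem_range.2 j.2, List.mem_map.2 ⟨h, List.mem_range.2 h.2, rfl⟩⟩)
      rw [eqs_a hk hl] at h1
      omega
    · intro i h
      have h1 := hv _ (by
        unfold eqsT
        rw [dk_tab, dl_tab hk, dm_tab hk hl, List.mem_append, List.mem_append]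
        refine Or.inl (Or.inr ?_)
        rw [List.mem_flatMap]
        exact ⟨i, List.mem_range.2 i.2, List.mem_map.2 ⟨h, List.mem_range.2 h.2, rfl⟩⟩)
      rw [eqs_b hk hl] at h1
      omega
    · intro i j
      have h1 := hv _ (by
        unfold eqsT
        rw [dk_tab, dl_tab hk, dm_tab hk hl, List.mem_append, List.mem_append]
        refine Or.inr ?_
        rw [List.mem_flatMap]
        exact ⟨i, List.mem_range.2 i.2, List.mem_map.2 ⟨j, List.mem_range.2 j.2, rfl⟩⟩)
      rw [eqs_c hk hl] at h1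
      omega
  · intro hs r hr
    have hv : ∀ v ∈ eqsT (tabInput n a b c w), rval (t + k * l * m) v Z = 0 := by
      intro v hv
      unfold eqsT at hv
      rw [dk_tab, dl_tab hk, dm_tab hk hl, List.mem_append, List.mem_append] at hv
      rcases hv with (hv | hv) | hv
      · rw [List.mem_flatMap] at hv
        obtain ⟨j, hj, hv⟩ := hv
        obtain ⟨h, hh, rfl⟩ := List.mem_map.1 hv
        have := eqs_a (n := n) (a := a) (b := b) (c := c) (w := w) hk hl Z
          ⟨j, List.mem_range.1 hj⟩ ⟨h, List.mem_range.1 hh⟩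
        simp only at this
        rw [this]
        have h2 := hs.a ⟨j, List.mem_range.1 hj⟩ ⟨h, List.mem_range.1 hh⟩
        simp only at h2
        omega
      · rw [List.mem_flatMap] at hv
        obtain ⟨j, hj, hv⟩ := hv
        obtain ⟨h, hh, rfl⟩ := List.mem_map.1 hv
        have := eqs_b (n := n) (a := a) (b := b) (c := c) (w := w) hk hl Z
          ⟨j, List.mem_range.1 hj⟩ ⟨h, List.mem_range.1 hh⟩
        simp only at this
        rw [this]
        have h2 := hs.b ⟨j, List.mem_range.1 hj⟩ ⟨h, List.mem_range.1 hh⟩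
        simp only at h2
        omega
      · rw [List.mem_flatMap] at hv
        obtain ⟨j, hj, hv⟩ := hv
        obtain ⟨h, hh, rfl⟩ := List.mem_map.1 hv
        have := eqs_c (n := n) (a := a) (b := b) (c := c) (w := w) hk hl Z
          ⟨j, List.mem_range.1 hj⟩ ⟨h, List.mem_range.1 hh⟩
        simp only at this
        rw [this]
        have h2 := hs.c ⟨j, List.mem_range.1 hj⟩ ⟨h, List.mem_range.1 hh⟩
        simp only at h2
        omega
    simp only [redT, List.mem_append, List.mem_cons, List.not_mem_nil, or_false,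
      List.mem_flatMap] at hr
    rcases hr with (rfl | rfl) | ⟨v, hv', rfl | rfl⟩
    · simp only
      rw [ho, hs.one]
    · simp only
      rw [rval_nneg, ho, hs.one]
    · simp only
      rw [hv v hv']
    · simp only
      rw [rval_nneg, hv v hv', neg_zero]


theorem len_redT (hk : 0 < k) (hl : 0 < l) :
    (redT (tabInput n a b c w)).2.length = t + k * l * m := by
  unfold redT
  simp only [List.length_append, List.length_map, List.length_range]
  rw [dk_tab, dl_tab hk, dm_tab hk hl]
  congr 1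
  simp [tabInput]

theorem avec_left (r : Fin t) : (redT (tabInput n a b c w)).2.getD r 0 = n r := by
  have hr : (r : ℕ) < (tabInput n a b c w).2.1.length := by simp [tabInput]
  unfold redT
  simp only
  rw [List.getD_append _ _ _ _ (by simpa using hr), List.getD_eq_getElem _ _ (by simpa using hr),
    List.getElem_map, ← List.getD_eq_getElem _ (0, [], [], []) hr, getD_types]

theorem avec_right (hk : 0 < k) (hl : 0 < l) (i : Fin k) (j : Fin l) (h : Fin m) :
    (redT (tabInput n a b c w)).2.getD (t + ((i * l + j) * m + h)) 0 = w i j h := by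
  unfold redT
  simp only
  have e : ((tabInput n a b c w).2.1.map fun τ => ((τ.1 : ℕ) : ℤ)).length = t := by simp [tabInput]
  rw [List.getD_append_right _ _ _ _ (by rw [e]; omega), e, Nat.add_sub_cancel_left]
  rw [getD_map_range, dk_tab, dl_tab hk, dm_tab hk hl]
  have h1 : ((i : ℕ) * l + j) * m + h < k * l * m := by
    have h2 : (i : ℕ) * l + j < k * l := by
      have := Nat.mul_le_mul_right l (Nat.succ_le_of_lt i.2)
      have := j.2
      rw [Nat.succ_mul] at *
      omega
    have := Nat.mul_le_mul_right m (Nat.succ_le_of_lt h2)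
    have := h.2
    rw [Nat.succ_mul] at *
    omega
  rw [if_pos h1]
  have e1 : (((i : ℕ) * l + j) * m + h) / m = i * l + j := by
    rw [Nat.mul_comm _ m, Nat.mul_add_div (by omega), Nat.div_eq_of_lt h.2, Nat.add_zero]
  have e2 : (((i : ℕ) * l + j) * m + h) % m = h := by
    rw [Nat.mul_comm _ m, Nat.mul_add_mod, Nat.mod_eq_of_lt h.2]
  have e3 : ((i : ℕ) * l + j) / l = i := by
    rw [Nat.mul_comm _ l, Nat.mul_add_div (by omega), Nat.div_eq_of_lt j.2, Nat.add_zero]
  have e4 : ((i : ℕ) * l + j) % l = j := by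
    rw [Nat.mul_comm _ l, Nat.mul_add_mod, Nat.mod_eq_of_lt j.2]
  rw [e1, e2, e3, e4]
  have e5 : (tabInput n a b c w).2.2.getD i [] = mat (w i) := by
    unfold tabInput
    simp only
    rw [tab_getD_ofFn, dif_pos i.2]
  rw [e5, at2_mat]

theorem idx_lt (i : Fin k) (j : Fin l) (h : Fin m) : ((i : ℕ) * l + j) * m + h < k * l * m := by
  have h2 : (i : ℕ) * l + j < k * l := by
    have := Nat.mul_le_mul_right l (Nat.succ_le_of_lt i.2)
    have := j.2
    rw [Nat.succ_mul] at *
    omega
  have := Nat.mul_le_mul_right m (Nat.succ_le_of_lt h2)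
  have := h.2
  rw [Nat.succ_mul] at *
  omega

/-- the vector of a layer of type `r` -/
def layZ (t l m : ℕ) (r : ℕ) (y : ℕ → ℕ → ℕ → ℕ) (p : ℕ) : ℤ :=
  if p < t then (if p = r then 1 else 0) else (y ((p - t) / m / l) ((p - t) / m % l) ((p - t) % m) : ℤ)

/-- extension of an array by zero -/
def ext3 (y : Fin k → Fin l → Fin m → ℕ) (i j h : ℕ) : ℕ :=
  if H : i < k ∧ j < l ∧ h < m then y ⟨i, H.1⟩ ⟨j, H.2.1⟩ ⟨h, H.2.2⟩ else 0

theorem layZ_idx (r : ℕ) (y : Fin k → Fin l → Fin m → ℕ) (i : Fin k) (j : Fin l) (h : Fin m) :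
    layZ t l m r (ext3 y) (t + ((i * l + j) * m + h)) = y i j h := by
  unfold layZ
  rw [if_neg (by omega), Nat.add_sub_cancel_left]
  have e1 : (((i : ℕ) * l + j) * m + h) / m = i * l + j := by
    rw [Nat.mul_comm _ m, Nat.mul_add_div (by have := h.2; omega), Nat.div_eq_of_lt h.2,
      Nat.add_zero]
  have e2 : (((i : ℕ) * l + j) * m + h) % m = h := by
    rw [Nat.mul_comm _ m, Nat.mul_add_mod, Nat.mod_eq_of_lt h.2]
  have e3 : ((i : ℕ) * l + j) / l = i := by
    rw [Nat.mul_comm _ l, Nat.mul_add_div (by have := j.2; omega), Nat.div_eq_of_lt j.2,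
      Nat.add_zero]
  have e4 : ((i : ℕ) * l + j) % l = j := by
    rw [Nat.mul_comm _ l, Nat.mul_add_mod, Nat.mod_eq_of_lt j.2]
  rw [e1, e2, e3, e4]
  unfold ext3
  rw [dif_pos ⟨i.2, j.2, h.2⟩]

theorem layZ_lt (r : Fin t) (y : ℕ → ℕ → ℕ → ℕ) (p : Fin t) :
    layZ t l m r y p = if p = r then 1 else 0 := by
  unfold layZ
  rw [if_pos p.2]
  simp only [Fin.ext_iff]

theorem layZ_nonneg (r : ℕ) (y : ℕ → ℕ → ℕ → ℕ) (p : ℕ) : 0 ≤ layZ t l m r y p := by
  unfold layZ
  split_ifs <;> positivity

/-- the set `S` of the reduction -/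
def ST (n : Fin t → ℕ) (a : Fin t → Fin l → Fin m → ℕ)
    (b : Fin t → Fin k → Fin m → ℕ) (c : Fin t → Fin k → Fin l → ℕ)
    (w : Fin k → Fin l → Fin m → ℕ) :
    Set (Fin (redT (tabInput n a b c w)).2.length → ℤ) :=
  {z | (∀ i, 0 ≤ z i) ∧ ∀ r ∈ (redT (tabInput n a b c w)).1,
      ∑ i : Fin (redT (tabInput n a b c w)).2.length, r.1.getD i 0 * z i ≤ r.2}

theorem mem_ST (hk : 0 < k) (hl : 0 < l) (Z : ℕ → ℤ) :
    (fun i : Fin (redT (tabInput n a b c w)).2.length => Z i) ∈ ST n a b c w ↔
      (∀ p < t + k * l * m, 0 ≤ Z p) ∧ LSys a b c Z := by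
  rw [← rows_iff (n := n) (w := w) hk hl Z]
  unfold ST
  simp only [Set.mem_setOf_eq]
  refine and_congr ?_ ?_
  · constructor
    · intro h p hp
      exact h ⟨p, by rw [len_redT hk hl]; exact hp⟩
    · intro h i
      exact h i (lt_of_lt_of_eq i.2 (len_redT hk hl))
  · have e : ∀ v : Vec, ∑ i : Fin (redT (tabInput n a b c w)).2.length, v.getD i 0 * Z i =
        rval (t + k * l * m) v Z := by
      intro v
      rw [rval_eq, ← len_redT (n := n) (a := a) (b := b) (c := c) (w := w) hk hl]
      exact (Finset.sum_range (fun p => v.getD p 0 * Z p)).symm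
    simp only [e]

theorem table_of_decomposable (hk : 0 < k) (hl : 0 < l)
    (H : Decomposable (redT (tabInput n a b c w))) : HasTable n a b c w := by
  classical
  obtain ⟨L, hL, hsum⟩ := AddSubmonoid.exists_list_of_mem_closure H
  set N := L.length with hN
  have hlen := len_redT (n := n) (a := a) (b := b) (c := c) (w := w) hk hl
  -- the functions on the naturals
  let Z : Fin N → ℕ → ℤ := fun q p =>
    if h : p < (redT (tabInput n a b c w)).2.length then L[q] ⟨p, h⟩ else 0
  have hZ : ∀ q : Fin N, (fun i : Fin (redT (tabInput n a b c w)).2.length => Z q i) = L[q] := by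
    intro q
    funext i
    simp only [Z, i.2, dif_pos]
  have hS : ∀ q : Fin N, (∀ p < t + k * l * m, 0 ≤ Z q p) ∧ LSys a b c (Z q) := by
    intro q
    rw [← mem_ST (n := n) (w := w) hk hl, hZ]
    exact hL _ (List.getElem_mem _)
  have hs : ∀ p (hp : p < t + k * l * m), ∑ q, Z q p = (redT (tabInput n a b c w)).2.getD p 0 := by
    intro p hp
    have h1 := congrFun hsum ⟨p, by rw [hlen]; exact hp⟩
    simp only at h1
    rw [← h1]
    have h2 : L.sum = ∑ q : Fin N, L[q] := by
      rw [← List.sum_ofFn]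
      congr 1
      exact List.ofFn_getElem.symm
    rw [h2, Finset.sum_apply]
    refine Finset.sum_congr rfl fun q _ => ?_
    have h3 : p < (redT (tabInput n a b c w)).2.length := by rw [hlen]; exact hp
    simp only [Z, h3, dif_pos]
  have hty : ∀ q : Fin N, ∃ r : Fin t, ∀ r' : Fin t, Z q r' = if r' = r then 1 else 0 := by
    intro q
    have h1 := (hS q).2.one
    have h0 : ∀ r : Fin t, 0 ≤ Z q r := fun r => (hS q).1 r (by have := r.2; omega)
    obtain ⟨r, hr⟩ : ∃ r : Fin t, Z q r ≠ 0 := by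
      by_contra hcon
      push Not at hcon
      rw [Finset.sum_eq_zero fun r _ => hcon r] at h1
      exact absurd h1 (by norm_num)
    refine ⟨r, fun r' => ?_⟩
    have h2 := Finset.add_sum_erase Finset.univ (fun r : Fin t => Z q r) (Finset.mem_univ r)
    rw [h1] at h2
    have h3 : 0 ≤ ∑ x ∈ Finset.univ.erase r, Z q (x : Fin t) :=
      Finset.sum_nonneg fun x _ => h0 x
    have h4 : 1 ≤ Z q r := by have := h0 r; omega
    have h5 : Z q r = 1 := by omega
    by_cases h : r' = r
    · rw [if_pos h, h, h5]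
    · rw [if_neg h]
      have h6 : ∑ x ∈ Finset.univ.erase r, Z q (x : Fin t) = 0 := by omega
      exact (Finset.sum_eq_zero_iff_of_nonneg fun x _ => h0 x).1 h6 r'
        (Finset.mem_erase.2 ⟨h, Finset.mem_univ _⟩)
  choose ty hty using hty
  have hcard : ∀ r : Fin t, Fintype.card {q : Fin N // ty q = r} = n r := by
    intro r
    have h1 := hs r (by have := r.2; omega)
    rw [avec_left] at h1
    have h2 : ∑ q, Z q r = ∑ q : Fin N, if ty q = r then (1 : ℤ) else 0 :=
      Finset.sum_congr rfl fun q _ => by rw [hty q r]; simp only [eq_comm]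
    rw [h2, Finset.sum_boole] at h1
    rw [Fintype.card_subtype]
    exact_mod_cast h1
  let E : (Σ r : Fin t, Fin (n r)) ≃ Fin N :=
    (Equiv.sigmaCongrRight fun r => (Fintype.equivFinOfCardEq (hcard r)).symm).trans
      (Equiv.sigmaFiberEquiv ty)
  have hE : ∀ s, ty (E s) = s.1 := fun s =>
    ((Fintype.equivFinOfCardEq (hcard s.1)).symm s.2).2
  have hcast : ∀ (q : Fin N) (i : Fin k) (j : Fin l) (h : Fin m),
      (((Z q (t + ((i * l + j) * m + h))).toNat : ℕ) : ℤ) = Z q (t + ((i * l + j) * m + h)) := by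
    intro q i j h
    exact Int.toNat_of_nonneg ((hS q).1 _ (by have := idx_lt i j h; omega))
  have hone : ∀ (q : Fin N) (f : Fin t → ℕ), ∑ r : Fin t, (f r : ℤ) * Z q r = f (ty q) := by
    intro q f
    rw [Finset.sum_eq_single (ty q)]
    · rw [hty q, if_pos rfl, mul_one]
    · intro r _ hr
      rw [hty q, if_neg hr, mul_zero]
    · intro h; exact absurd (Finset.mem_univ _) h
  refine ⟨fun s i j h => (Z (E s) (t + ((i * l + j) * m + h))).toNat, ?_, ?_⟩
  · intro s
    refine ⟨fun j h => ?_, fun i h => ?_, fun i j => ?_⟩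
    · have h1 := (hS (E s)).2.a j h
      rw [hone (E s) fun r => a r j h, hE] at h1
      have h2 : ((∑ i : Fin k, (Z (E s) (t + ((i * l + j) * m + h))).toNat : ℕ) : ℤ) =
          a s.1 j h := by
        push_cast
        rw [← h1]
        exact Finset.sum_congr rfl fun i _ => hcast _ _ _ _
      exact_mod_cast h2
    · have h1 := (hS (E s)).2.b i h
      rw [hone (E s) fun r => b r i h, hE] at h1
      have h2 : ((∑ j : Fin l, (Z (E s) (t + ((i * l + j) * m + h))).toNat : ℕ) : ℤ) =
          b s.1 i h := by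
        push_cast
        rw [← h1]
        exact Finset.sum_congr rfl fun i _ => hcast _ _ _ _
      exact_mod_cast h2
    · have h1 := (hS (E s)).2.c i j
      rw [hone (E s) fun r => c r i j, hE] at h1
      have h2 : ((∑ h : Fin m, (Z (E s) (t + ((i * l + j) * m + h))).toNat : ℕ) : ℤ) =
          c s.1 i j := by
        push_cast
        rw [← h1]
        exact Finset.sum_congr rfl fun i _ => hcast _ _ _ _
      exact_mod_cast h2
  · intro i j h
    have h1 := hs (t + ((i * l + j) * m + h)) (by have := idx_lt i j h; omega)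
    rw [avec_right hk hl] at h1
    have h2 : ((∑ s, (Z (E s) (t + ((i * l + j) * m + h))).toNat : ℕ) : ℤ) = w i j h := by
      push_cast
      rw [← h1, ← Equiv.sum_comp E]
      exact Finset.sum_congr rfl fun s _ => hcast _ _ _ _
    exact_mod_cast h2

theorem decomposable_of_table (hk : 0 < k) (hl : 0 < l)
    (H : HasTable n a b c w) : Decomposable (redT (tabInput n a b c w)) := by
  obtain ⟨x, hx, hw⟩ := H
  have hmem : ∀ s, (fun p : Fin (redT (tabInput n a b c w)).2.length =>
      layZ t l m s.1 (ext3 (x s)) p) ∈ ST n a b c w := by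
    intro s
    rw [mem_ST hk hl]
    refine ⟨fun p _ => layZ_nonneg _ _ _, ⟨?_, ?_, ?_, ?_⟩⟩
    · rw [Finset.sum_eq_single s.1]
      · rw [layZ_lt, if_pos rfl]
      · intro r _ hr
        rw [layZ_lt, if_neg hr]
      · intro h; exact absurd (Finset.mem_univ _) h
    · intro j h
      rw [Finset.sum_congr rfl fun i _ => layZ_idx _ _ _ _ _, Finset.sum_eq_single s.1]
      · rw [layZ_lt, if_pos rfl, mul_one]
        exact_mod_cast (hx s).1 j h
      · intro r _ hr
        rw [layZ_lt, if_neg hr, mul_zero]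
      · intro h; exact absurd (Finset.mem_univ _) h
    · intro i h
      rw [Finset.sum_congr rfl fun j _ => layZ_idx _ _ _ _ _, Finset.sum_eq_single s.1]
      · rw [layZ_lt, if_pos rfl, mul_one]
        exact_mod_cast (hx s).2.1 i h
      · intro r _ hr
        rw [layZ_lt, if_neg hr, mul_zero]
      · intro h; exact absurd (Finset.mem_univ _) h
    · intro i j
      rw [Finset.sum_congr rfl fun h _ => layZ_idx _ _ _ _ _, Finset.sum_eq_single s.1]
      · rw [layZ_lt, if_pos rfl, mul_one]
        exact_mod_cast (hx s).2.2 i j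
      · intro r _ hr
        rw [layZ_lt, if_neg hr, mul_zero]
      · intro h; exact absurd (Finset.mem_univ _) h
  have hfin := AddSubmonoid.sum_mem (AddSubmonoid.closure (ST n a b c w))
    (t := (Finset.univ : Finset (Σ r : Fin t, Fin (n r)))) (f := fun s =>
      fun p : Fin (redT (tabInput n a b c w)).2.length => layZ t l m s.1 (ext3 (x s)) p)
    fun s _ => AddSubmonoid.subset_closure (hmem s)
  unfold Decomposable
  refine (congrArg (fun v => v ∈ AddSubmonoid.closure (ST n a b c w)) ?_).mp hfin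
  funext p
  rw [Finset.sum_apply]
  have hp : (p : ℕ) < t + k * l * m := lt_of_lt_of_eq p.2 (len_redT hk hl)
  rcases Nat.lt_or_ge p t with h | h
  · have e1 := avec_left (n := n) (a := a) (b := b) (c := c) (w := w) ⟨p, h⟩
    simp only at e1
    rw [e1, Fintype.sum_sigma]
    have e2 : ∀ r : Fin t, ∑ y : Fin (n r), layZ t l m (⟨r, y⟩ : Σ r : Fin t, Fin (n r)).1
        (ext3 (x ⟨r, y⟩)) p = if (⟨p, h⟩ : Fin t) = r then (n r : ℤ) else 0 := by
      intro r
      have e3 : ∀ y : Fin (n r), layZ t l m r (ext3 (x ⟨r, y⟩)) p =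
          if (⟨p, h⟩ : Fin t) = r then 1 else 0 := fun y =>
        layZ_lt r (ext3 (x ⟨r, y⟩)) ⟨p, h⟩
      rw [Finset.sum_congr rfl fun y _ => e3 y]
      simp
    rw [Finset.sum_congr rfl fun r _ => e2 r]
    simp
  · obtain ⟨q, hq⟩ : ∃ q, (p : ℕ) = t + q := ⟨p - t, by omega⟩
    have hq2 : q < k * l * m := by omega
    have hm : 0 < m := by
      rcases Nat.eq_zero_or_pos m with h0 | h0
      · rw [h0] at hq2; simp at hq2
      · exact h0
    have hi : q / m / l < k := by
      rw [Nat.div_lt_iff_lt_mul hl, Nat.div_lt_iff_lt_mul hm]; exact hq2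
    have hj : q / m % l < l := Nat.mod_lt _ hl
    have hh : q % m < m := Nat.mod_lt _ hm
    have e0 : (p : ℕ) = t + (((⟨q / m / l, hi⟩ : Fin k) * l + (⟨q / m % l, hj⟩ : Fin l)) * m +
        (⟨q % m, hh⟩ : Fin m)) := by
      simp only [idx_eq]; exact hq
    rw [e0, avec_right hk hl, ← hw]
    push_cast
    exact Finset.sum_congr rfl fun s _ => layZ_idx s.1 (x s) ⟨q / m / l, hi⟩ ⟨q / m % l, hj⟩
      ⟨q % m, hh⟩

/-- Correctness of the reduction. -/
theorem decomposable_redT (hk : 0 < k) (hl : 0 < l) :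
    Decomposable (redT (tabInput n a b c w)) ↔ HasTable n a b c w :=
  ⟨table_of_decomposable hk hl, decomposable_of_table hk hl⟩

end Sys

end Run7.h960
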