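import Pool.Agent.Run7.h960.TabDefs
import Pool.Agent.Run7.h960.PolyD

set_option autoImplicit false

/-!
# The reduction of huge tables is polynomial time
-/

namespace Pool.Agent.NPC.R960

open Run7.h960

variable {α β : Type} [TEnc α] [TEnc β]

theorem poly_tw {I : α → TInst} (hI : Poly I) : Poly (fun a => (I a).2.2) :=
  Poly.snd (Poly.snd hI)

theorem upoly_dk {I : α → TInst} (hI : Poly I) : UPoly (fun a => dk (I a)) :=
  UPoly.length (poly_tw hI)

theorem upoly_dl {I : α → TInst} (hI : Poly I) : UPoly (fun a => dl (I a)) :=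
  UPoly.length (poly_headD (poly_tw hI) (Poly.const _))

theorem upoly_dm {I : α → TInst} (hI : Poly I) : UPoly (fun a => dm (I a)) :=
  UPoly.length (poly_headD (poly_headD (poly_tw hI) (Poly.const _)) (Poly.const _))

theorem upoly_dt {I : α → TInst} (hI : Poly I) : UPoly (fun a => dt (I a)) :=
  UPoly.length (Poly.fst (Poly.snd hI))

theorem upoly_dN {I : α → TInst} (hI : Poly I) :
    UPoly (fun a => dk (I a) * dl (I a) * dm (I a)) :=
  UPoly.mul (UPoly.mul (upoly_dk hI) (upoly_dl hI)) (upoly_dm hI)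

theorem poly_at2 {A : α → List (List ℕ)} {i j : α → ℕ} (hA : Poly A) (hi : Poly i)
    (hj : Poly j) : Poly (fun a => at2 (A a) (i a) (j a)) :=
  Poly.getD (Poly.getD hA hi (Poly.const _)) hj (Poly.const 0)

theorem poly_rowT {I : α → TInst} {f : α → TTyp → ℕ} {g : α → ℕ → Bool} (hI : Poly I)
    (hf : Poly (fun p : α × TTyp => f p.1 p.2)) (hg : Poly (fun p : α × ℕ => g p.1 p.2)) :
    Poly (fun a => rowT (I a) (f a) (g a)) :=
  Poly.append (Poly.map (F := fun a (τ : TTyp) => -((f a τ : ℕ) : ℤ)) (Poly.fst (Poly.snd hI))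
      (Poly.ineg (Poly.natCast hf)))
    (Poly.map (F := fun a (p : ℕ) => (bif g a p then 1 else 0 : ℤ)) (upoly_dN hI).range
      (Poly.cond hg (Poly.const 1) (Poly.const 0)))

theorem poly_eqsT {I : α → TInst} (hI : Poly I) : Poly (fun a => eqsT (I a)) := by
  have k1 : Poly (fun p : ((α × ℕ) × ℕ) × ℕ => I p.1.1.1) := hI.comp (c1.comp (c1.comp c1))
  have ki : Poly (fun p : ((α × ℕ) × ℕ) × ℕ => p.1.1.2) := Poly.snd (Poly.fst c1)
  have kj : Poly (fun p : ((α × ℕ) × ℕ) × ℕ => p.1.2) := Poly.snd c1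
  have kp : Poly (fun p : ((α × ℕ) × ℕ) × ℕ => p.2) := c2
  have km : Poly (fun p : ((α × ℕ) × ℕ) × ℕ => dm (I p.1.1.1)) := (upoly_dm k1).toPoly
  have kl : Poly (fun p : ((α × ℕ) × ℕ) × ℕ => dl (I p.1.1.1)) := (upoly_dl k1).toPoly
  have q : Poly (fun p : ((α × ℕ) × ℕ) × ℕ => p.2 / dm (I p.1.1.1)) := Poly.div kp km
  have qm : Poly (fun p : ((α × ℕ) × ℕ) × ℕ => p.2 % dm (I p.1.1.1)) := Poly.mod kp km
  have ql : Poly (fun p : ((α × ℕ) × ℕ) × ℕ => p.2 / dm (I p.1.1.1) / dl (I p.1.1.1)) :=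
    Poly.div q kl
  have qr : Poly (fun p : ((α × ℕ) × ℕ) × ℕ => p.2 / dm (I p.1.1.1) % dl (I p.1.1.1)) :=
    Poly.mod q kl
  have t1 : Poly (fun p : ((α × ℕ) × ℕ) × TTyp => p.2) := c2
  have ti : Poly (fun p : ((α × ℕ) × ℕ) × TTyp => p.1.1.2) := Poly.snd (Poly.fst c1)
  have tj : Poly (fun p : ((α × ℕ) × ℕ) × TTyp => p.1.2) := Poly.snd c1
  have hI2 : Poly (fun p : (α × ℕ) × ℕ => I p.1.1) := hI.comp (c1.comp c1)
  have hI1 : Poly (fun p : α × ℕ => I p.1) := hI.comp c1
  have A : Poly (fun p : (α × ℕ) × ℕ => rowT (I p.1.1) (fun τ => at2 τ.2.1 p.1.2 p.2)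
      (fun x => decide (x / dm (I p.1.1) % dl (I p.1.1) = p.1.2) &&
        decide (x % dm (I p.1.1) = p.2))) :=
    poly_rowT (I := fun p : (α × ℕ) × ℕ => I p.1.1)
      (f := fun (p : (α × ℕ) × ℕ) τ => at2 τ.2.1 p.1.2 p.2)
      (g := fun (p : (α × ℕ) × ℕ) x => decide (x / dm (I p.1.1) % dl (I p.1.1) = p.1.2) &&
        decide (x % dm (I p.1.1) = p.2)) hI2
      (poly_at2 (Poly.fst (Poly.snd t1)) ti tj)
      (Poly.and (Poly.decide_eq qr ki) (Poly.decide_eq qm kj))
  have B : Poly (fun p : (α × ℕ) × ℕ => rowT (I p.1.1) (fun τ => at2 τ.2.2.1 p.1.2 p.2)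
      (fun x => decide (x / dm (I p.1.1) / dl (I p.1.1) = p.1.2) &&
        decide (x % dm (I p.1.1) = p.2))) :=
    poly_rowT (I := fun p : (α × ℕ) × ℕ => I p.1.1)
      (f := fun (p : (α × ℕ) × ℕ) τ => at2 τ.2.2.1 p.1.2 p.2)
      (g := fun (p : (α × ℕ) × ℕ) x => decide (x / dm (I p.1.1) / dl (I p.1.1) = p.1.2) &&
        decide (x % dm (I p.1.1) = p.2)) hI2
      (poly_at2 (Poly.fst (Poly.snd (Poly.snd t1))) ti tj)
      (Poly.and (Poly.decide_eq ql ki) (Poly.decide_eq qm kj))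
  have C : Poly (fun p : (α × ℕ) × ℕ => rowT (I p.1.1) (fun τ => at2 τ.2.2.2 p.1.2 p.2)
      (fun x => decide (x / dm (I p.1.1) / dl (I p.1.1) = p.1.2) &&
        decide (x / dm (I p.1.1) % dl (I p.1.1) = p.2))) :=
    poly_rowT (I := fun p : (α × ℕ) × ℕ => I p.1.1)
      (f := fun (p : (α × ℕ) × ℕ) τ => at2 τ.2.2.2 p.1.2 p.2)
      (g := fun (p : (α × ℕ) × ℕ) x => decide (x / dm (I p.1.1) / dl (I p.1.1) = p.1.2) &&
        decide (x / dm (I p.1.1) % dl (I p.1.1) = p.2)) hI2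
      (poly_at2 (Poly.snd (Poly.snd (Poly.snd t1))) ti tj)
      (Poly.and (Poly.decide_eq ql ki) (Poly.decide_eq qr kj))
  have uM : UPoly (fun p : α × ℕ => dm (I p.1)) := upoly_dm hI1
  have uL : UPoly (fun p : α × ℕ => dl (I p.1)) := upoly_dl hI1
  exact Poly.append (Poly.append
    (Poly.flatMap (F := fun a (j : ℕ) => (List.range (dm (I a))).map fun h =>
        rowT (I a) (fun τ => at2 τ.2.1 j h)
          (fun p => decide (p / dm (I a) % dl (I a) = j) && decide (p % dm (I a) = h)))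
      (upoly_dl hI).range
      (Poly.map (F := fun (q : α × ℕ) (h : ℕ) => rowT (I q.1) (fun τ => at2 τ.2.1 q.2 h)
          (fun p => decide (p / dm (I q.1) % dl (I q.1) = q.2) && decide (p % dm (I q.1) = h)))
        uM.range A))
    (Poly.flatMap (F := fun a (i : ℕ) => (List.range (dm (I a))).map fun h =>
        rowT (I a) (fun τ => at2 τ.2.2.1 i h)
          (fun p => decide (p / dm (I a) / dl (I a) = i) && decide (p % dm (I a) = h)))
      (upoly_dk hI).range
      (Poly.map (F := fun (q : α × ℕ) (h : ℕ) => rowT (I q.1) (fun τ => at2 τ.2.2.1 q.2 h)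
          (fun p => decide (p / dm (I q.1) / dl (I q.1) = q.2) && decide (p % dm (I q.1) = h)))
        uM.range B)))
    (Poly.flatMap (F := fun a (i : ℕ) => (List.range (dl (I a))).map fun j =>
        rowT (I a) (fun τ => at2 τ.2.2.2 i j)
          (fun p => decide (p / dm (I a) / dl (I a) = i) && decide (p / dm (I a) % dl (I a) = j)))
      (upoly_dk hI).range
      (Poly.map (F := fun (q : α × ℕ) (j : ℕ) => rowT (I q.1) (fun τ => at2 τ.2.2.2 q.2 j)
          (fun p => decide (p / dm (I q.1) / dl (I q.1) = q.2) &&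
            decide (p / dm (I q.1) % dl (I q.1) = j)))
        uL.range C))

theorem poly_onesT {I : α → TInst} (hI : Poly I) : Poly (fun a => onesT (I a)) :=
  Poly.append (Poly.map (F := fun _ (_ : TTyp) => (1 : ℤ)) (Poly.fst (Poly.snd hI))
      (Poly.const 1)) (poly_replicate (upoly_dN hI) (Poly.const 0))

theorem poly_redT' {I : α → TInst} (hI : Poly I) : Poly (fun a => redT (I a)) := by
  have ho := poly_onesT hI
  have h1 : Poly (fun a => [(onesT (I a), (1 : ℤ)), (nneg (onesT (I a)), (-1 : ℤ))]) :=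
    Poly.cons (Poly.pair ho (Poly.const _)) (Poly.cons (Poly.pair (poly_nneg ho) (Poly.const _))
      (Poly.const _))
  have h2 : Poly (fun a => (eqsT (I a)).flatMap fun v => [(v, (0 : ℤ)), (nneg v, (0 : ℤ))]) :=
    Poly.flatMap (F := fun _ (v : Vec) => [(v, (0 : ℤ)), (nneg v, (0 : ℤ))]) (poly_eqsT hI)
      (Poly.cons (Poly.pair c2 (Poly.const _)) (Poly.cons (Poly.pair (poly_nneg c2) (Poly.const _))
        (Poly.const _)))
  have h3 : Poly (fun a => (I a).2.1.map fun τ => (τ.1 : ℤ)) :=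
    Poly.map (F := fun _ (τ : TTyp) => (τ.1 : ℤ)) (Poly.fst (Poly.snd hI))
      (Poly.natCast (Poly.fst c2))
  have km : Poly (fun p : α × ℕ => dm (I p.1)) := (upoly_dm (hI.comp c1)).toPoly
  have kl : Poly (fun p : α × ℕ => dl (I p.1)) := (upoly_dl (hI.comp c1)).toPoly
  have kp : Poly (fun p : α × ℕ => p.2) := c2
  have h4 : Poly (fun a => (List.range (dk (I a) * dl (I a) * dm (I a))).map fun p : ℕ =>
      ((at2 ((I a).2.2.getD (p / dm (I a) / dl (I a)) []) (p / dm (I a) % dl (I a))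
        (p % dm (I a)) : ℕ) : ℤ)) :=
    Poly.map (F := fun a (p : ℕ) =>
      ((at2 ((I a).2.2.getD (p / dm (I a) / dl (I a)) []) (p / dm (I a) % dl (I a))
        (p % dm (I a)) : ℕ) : ℤ)) (upoly_dN hI).range
      (Poly.natCast (poly_at2 (Poly.getD ((poly_tw hI).comp c1) (Poly.div (Poly.div kp km) kl)
        (Poly.const _)) (Poly.mod (Poly.div kp km) kl) (Poly.mod kp km)))
  exact Poly.pair (Poly.append h1 h2) (Poly.append h3 h4)

theorem poly_redT : Poly redT := poly_redT' (I := fun I => I) Poly.id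

theorem upoly_dimT : UPoly (fun I : TInst => dt I + dk I * dl I * dm I) :=
  UPoly.add (upoly_dt (I := fun I => I) Poly.id) (upoly_dN (I := fun I => I) Poly.id)

end Pool.Agent.NPC.R960

namespace Run7.h960

export Pool.Agent.NPC.R960 (poly_redT upoly_dimT)

end Run7.h960
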