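import Pool.Agent.Run7.h960.Final
import Pool.Agent.Run7.h960.TabPoly
import Pool.Agent.Run7.h960.TabMath

set_option autoImplicit false

/-!
# Huge four-way tables are fixed-parameter tractable
-/

namespace Run7.h960

open Pool.Agent.NPC Turing

theorem tables_fpt :
    ∃ (tm : FinTM2) (e₀ : tm.Γ tm.k₀ ≃ Bool) (e₁ : tm.Γ tm.k₁ ≃ Bool) (f : ℕ → ℕ) (c : ℕ),
      Computable f ∧ ∀ (k l m t : ℕ), 0 < k → 0 < l → 0 < m →
        ∀ (n : Fin t → ℕ) (a : Fin t → Fin l → Fin m → ℕ)
          (b : Fin t → Fin k → Fin m → ℕ) (c' : Fin t → Fin k → Fin l → ℕ)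
          (w : Fin k → Fin l → Fin m → ℕ) (o : Bool), (o = true ↔ HasTable n a b c' w) →
        Nonempty (TM2OutputsInTime tm ((bits (tabInput n a b c' w)).map e₀.invFun)
          (some ((bits o).map e₁.invFun))
          (f (t + k * l * m) * ((bits (tabInput n a b c' w)).length + 1) ^ c)) := by
  classical
  obtain ⟨F, hF, hcor⟩ := algo_correct
  have hp : Poly (fun x : TInst × List Unit => alg (redT x.1, x.2)) :=
    alg_poly.comp (Poly.pair (poly_redT.comp (Poly.fst Poly.id)) (Poly.snd Poly.id))
  obtain ⟨tm, e₀, e₁, f, c, hf, h⟩ := fpt_of_alg (fun x : TInst × List Unit =>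
      alg (redT x.1, x.2)) hp (fun I : TInst => (redT I).2.length)
    (UPoly.length (Poly.snd poly_redT)) F hF (fun I => decide (Decomposable (redT I))) (by
      intro I u hu
      have h1 := hcor (redT I) u.length hu
      have h2 : alg (redT I, u) = algo u.length (sz (redT I)) (redT I) := rfl
      rw [h2]
      by_cases hd : Decomposable (redT I)
      · rw [decide_eq_true hd]; exact h1.2 hd
      · rw [decide_eq_false hd]
        cases hb : algo u.length (sz (redT I)) (redT I)
        · rfl
        · exact absurd (h1.1 hb) hd)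
  refine ⟨tm, e₀, e₁, f, c, hf, fun k l m t hk hl _ n a b c' w o ho => ?_⟩
  have h1 : o = decide (Decomposable (redT (tabInput n a b c' w))) := by
    rw [← decomposable_redT hk hl] at ho
    by_cases hd : Decomposable (redT (tabInput n a b c' w))
    · rw [decide_eq_true hd]; exact ho.2 hd
    · rw [decide_eq_false hd]
      cases o
      · rfl
      · exact absurd (ho.1 rfl) hd
  have h2 := h (tabInput n a b c' w)
  rw [len_redT hk hl] at h2
  rw [h1]
  exact h2

end Run7.h960
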